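import Pool.Agent.QTB.Defs

/-!
# QTB, module RGE4: representations of a biquaternion algebra have dimension at least four (helper21)

Proof. `φ : A → E`, `ρ : BQ → M_m(E)`. The sixteen matrices `ρ(bas i)` are independent over `E`: a relation
`∑ c_i ρ(bas i) = 0` becomes, with `c_i φ(y) = φ(x_i)` (common denominator), `ρ(z) = 0` for `z = ∑ x_i bas_i`. Make `E^m` (`Fin m → E`) a
`BQ`-module through `ρ` (`Matrix.mulVec`, or `Module.compHom` along `Matrix.toLin'`); it is killed by `z`. If some `c_i ≠ 0`, then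
`q ∤ x_i` (`ker φ = (q)`), so `z` is not divisible by `q` and `Sim` gives `s`, `q ∤ s`, killing `E^m`: `φ(s) ≠ 0`, a contradiction with
`m > 0`. So `16 ≤ m²`.
-/

set_option autoImplicit false

namespace Pool.Agent.QTB

open Pool.Agent.QCB

theorem RGE4 {A : Type} [CommRing A] {a b c d : A} (q : A)
    (hsim : Sim A (BQ A a b c d) q) (m : ℕ) (hm : 0 < m) (h : RepAt A (BQ A a b c d) q m) :
    4 ≤ m := by
  classical
  obtain ⟨E, hE, φ, ρ, ⟨hker, hres⟩, hρ⟩ := h
  by_contra hcon
  have hm4 : m < 4 := not_le.1 hcon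
  -- a relation
  have h1 : ¬ LinearIndependent E (fun i : Fin 4 × Fin 4 => ρ (bas a b c d i)) := by
    intro h2
    have h3 := h2.fintype_card_le_finrank
    rw [Module.finrank_matrix, Fintype.card_prod, Fintype.card_fin, Fintype.card_fin,
      Module.finrank_self] at h3
    nlinarith
  obtain ⟨g, hg, i₀, hi₀⟩ := Fintype.not_linearIndependent_iff.1 h1
  choose x y hy hxy using fun i => hres (g i)
  let Y : A := ∏ i, y i
  let x' : Fin 4 × Fin 4 → A := fun i => x i * ∏ j ∈ Finset.univ.erase i, y j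
  have hY : φ Y ≠ 0 := by
    rw [map_prod]
    exact Finset.prod_ne_zero_iff.2 fun i _ => hy i
  have hx' : ∀ i, φ (x' i) = g i * φ Y := by
    intro i
    show φ (x i * ∏ j ∈ Finset.univ.erase i, y j) = g i * φ (∏ i, y i)
    rw [map_mul, ← hxy, ← Finset.mul_prod_erase Finset.univ y (Finset.mem_univ i), map_mul]
    ring
  let z : BQ A a b c d := ∑ i, x' i • bas a b c d i
  have hz : ρ z = 0 := by
    have h2 : ρ z = ∑ i, φ (x' i) • ρ (bas a b c d i) := by
      show ρ (∑ i, x' i • bas a b c d i) = _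
      rw [map_sum]
      refine Finset.sum_congr rfl fun i _ => ?_
      have h4 : x' i • bas a b c d i = algebraMap A (BQ A a b c d) (x' i) * bas a b c d i :=
        Algebra.smul_def (x' i) (bas a b c d i)
      rw [h4, map_mul ρ, hρ, smul_mul_assoc, one_mul]
    have h3 : ∑ i, φ (x' i) • ρ (bas a b c d i) = φ Y • ∑ i, g i • ρ (bas a b c d i) := by
      rw [Finset.smul_sum]
      refine Finset.sum_congr rfl fun i _ => ?_
      rw [hx', smul_smul, mul_comm]
    rw [h2, h3, hg, smul_zero]
  have hdiv : ¬ ∃ w : BQ A a b c d, z = algebraMap A (BQ A a b c d) q * w := by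
    rintro ⟨w, hw⟩
    apply hi₀
    have h2 : (bas a b c d).repr z i₀ = x' i₀ := by
      show (bas a b c d).repr (∑ i, x' i • bas a b c d i) i₀ = _
      rw [Module.Basis.repr_sum_self]
    have h3 : (bas a b c d).repr z i₀ = q * (bas a b c d).repr w i₀ := by
      rw [hw, ← Algebra.smul_def, map_smul]
      rfl
    have h4 : φ q = 0 := by
      have : q ∈ RingHom.ker φ := by
        rw [hker]
        exact Ideal.mem_span_singleton_self q
      exact this
    have h5 : g i₀ * φ Y = 0 := by
      rw [← hx', ← h2, h3, map_mul, h4, zero_mul]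
    exact (mul_eq_zero.1 h5).resolve_right hY
  let f : BQ A a b c d →+* Module.End E (Fin m → E) :=
    ((Matrix.toLinAlgEquiv' : Matrix (Fin m) (Fin m) E ≃ₐ[E] _) :
      Matrix (Fin m) (Fin m) E →+* Module.End E (Fin m → E)).comp ρ
  let : Module (BQ A a b c d) (Fin m → E) := Module.compHom (Fin m → E) f
  have hsm : ∀ (u : BQ A a b c d) (n : Fin m → E), u • n = Matrix.mulVec (ρ u) n := by
    intro u n
    rfl
  obtain ⟨s, hs, hk⟩ := hsim z hdiv (Fin m → E) (fun n => by rw [hsm, hz, Matrix.zero_mulVec])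
  apply hs
  have h6 : φ s = 0 := by
    have h7 : algebraMap A (BQ A a b c d) s • (fun _ => 1 : Fin m → E) = 0 := hk _
    rw [hsm, hρ, Matrix.smul_mulVec, Matrix.one_mulVec] at h7
    have h8 := congrFun h7 ⟨0, hm⟩
    simpa using h8
  have h9 : s ∈ RingHom.ker φ := h6
  rw [hker, Ideal.mem_span_singleton] at h9
  exact h9

end Pool.Agent.QTB
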