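import Pool.Agent.QCB.Defs

/-!
# QTB: biquaternion orders over surfaces over finite fields, definitions

`BQ A a b c d = ℍ[A,a,b] ⊗ ℍ[A,c,d]`. All modules are left modules in `Type`.
-/

set_option autoImplicit false

namespace Pool.Agent.QTB

open Quaternion QuaternionAlgebra TensorProduct Pool.Agent.QCB Matrix

/-! ### biquaternion algebras -/

/-- the biquaternion algebra `(a, b) ⊗ (c, d)` -/
abbrev BQ (A : Type) [CommRing A] (a b c d : A) : Type := ℍ[A,a,b] ⊗[A] ℍ[A,c,d]

section bq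
variable {A : Type} [CommRing A] {a b c d : A}

/-- the basis of the products of basis elements -/
noncomputable def bas (a b c d : A) : Module.Basis (Fin 4 × Fin 4) A (BQ A a b c d) :=
  (basisOneIJK a 0 b).tensorProduct (basisOneIJK c 0 d)

/-- the coefficients of the Albert form -/
def alc (a b c d : A) : Fin 6 → A := ![a, b, -(a * b), -c, -d, c * d]

/-- the diagonal bilinear form `∑ δ_i x_i y_i` -/
def dg {n : ℕ} (δ x y : Fin n → A) : A := ∑ i, δ i * (x i * y i)

/-- the element `x₁ ⊗ 1 - 1 ⊗ x₂` for pure quaternions `x₁ = (x 0, x 1, x 2)`,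
`x₂ = (x 3, x 4, x 5)` -/
noncomputable def vv (a b c d : A) (x : Fin 6 → A) : BQ A a b c d :=
  (⟨0, x 0, x 1, x 2⟩ : ℍ[A,a,b]) ⊗ₜ[A] 1 - 1 ⊗ₜ[A] (⟨0, x 3, x 4, x 5⟩ : ℍ[A,c,d])

/-- the element `x₁ ⊗ 1 + 1 ⊗ x₂` -/
noncomputable def pv (a b c d : A) (x : Fin 6 → A) : BQ A a b c d :=
  (⟨0, x 0, x 1, x 2⟩ : ℍ[A,a,b]) ⊗ₜ[A] 1 + 1 ⊗ₜ[A] (⟨0, x 3, x 4, x 5⟩ : ℍ[A,c,d])

/-- the conjugation of a quaternion algebra as a linear map -/
def starL (a b : A) : ℍ[A,a,b] →ₗ[A] ℍ[A,a,b] where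
  toFun := star
  map_add' x y := star_add x y
  map_smul' r x := by
    ext <;> simp

/-- the product `σ` of the two conjugations, an involution (anti-automorphism) -/
noncomputable def sg (a b c d : A) : BQ A a b c d →ₗ[A] BQ A a b c d :=
  TensorProduct.map (starL a b) (starL c d)

end bq

/-- the determinant of the right multiplication by `z` -/
noncomputable def rn {A Λ : Type} [CommRing A] [Ring Λ] [Algebra A Λ] (z : Λ) : A :=
  LinearMap.det (LinearMap.mulRight A z)

/-- the form `δ ⊥ -f δ` contains three independent isotropic vectors orthogonal to each other -/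
def Iso3 {A : Type} [CommRing A] {n : ℕ} (δ : Fin n → A) (f : A) : Prop :=
  ∃ x y : Fin 3 → Fin n → A, (∀ i j, dg δ (x i) (x j) = f * dg δ (y i) (y j)) ∧
    ∀ r : Fin 3 → A, ∑ i, r i • x i = 0 → ∑ i, r i • y i = 0 → r = 0

/-- the biquaternion algebra over the field `E` acts on `E⁴` -/
def Spl4 {E : Type} [Field E] (a b c d : E) : Prop :=
  ∃ I J K L : Matrix (Fin 4) (Fin 4) E, I * I = a • 1 ∧ J * J = b • 1 ∧ I * J = -(J * I) ∧
    K * K = c • 1 ∧ L * L = d • 1 ∧ K * L = -(L * K) ∧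
    I * K = K * I ∧ I * L = L * I ∧ J * K = K * J ∧ J * L = L * J

/-- `φ : A → E` is the residue field at the prime element `q` -/
def IsRes {A E : Type} [CommRing A] [Field E] (q : A) (φ : A →+* E) : Prop :=
  RingHom.ker φ = Ideal.span {q} ∧ ∀ z : E, ∃ x y : A, φ y ≠ 0 ∧ z * φ y = φ x

/-- the biquaternion algebra is split over the residue field of the prime element `q` -/
def SplAt {A : Type} [CommRing A] (a b c d q : A) : Prop :=
  ∃ (E : Type) (_ : Field E) (φ : A →+* E), IsRes q φ ∧ Spl4 (φ a) (φ b) (φ c) (φ d)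

/-! ### general orders -/

section gen
variable (A Λ : Type) [CommRing A] [Ring Λ] [Algebra A Λ]

/-- an element not divisible by `q` generates a two-sided ideal containing some `s` with `q ∤ s` (up
to its annihilator); `q` is a prime element or zero -/
def Sim (q : A) : Prop :=
  ∀ z : Λ, (¬ ∃ w : Λ, z = algebraMap A Λ q * w) → ∀ (N : Type) [AddCommGroup N] [Module Λ N],
    (∀ n : N, z • n = 0) → ∃ s : A, ¬ q ∣ s ∧ Kil (Λ := Λ) s N

/-- `N` is torsion and supported in codimension at least two -/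
def PNul (N : Type) [AddCommGroup N] [Module Λ N] : Prop :=
  (∃ s : A, s ≠ 0 ∧ Kil (Λ := Λ) s N) ∧
    ∀ q : A, Prime q → ∃ s : A, ¬ q ∣ s ∧ Kil (Λ := Λ) s N

/-- `Λ` acts on an `m`-dimensional space over the residue field of `q` -/
def RepAt (q : A) (m : ℕ) : Prop :=
  ∃ (E : Type) (_ : Field E) (φ : A →+* E) (ρ : Λ →+* Matrix (Fin m) (Fin m) E),
    IsRes q φ ∧ ∀ x : A, ρ (algebraMap A Λ x) = φ x • 1

end gen

/-! ### systems of quadratic forms -/

/-- every system of `r` quadratic forms in more than `2^m r` variables has a nontrivial zero -/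
def QSys (m : ℕ) (F : Type) [Field F] : Prop :=
  ∀ (r n : ℕ) (M : Fin r → Matrix (Fin n) (Fin n) F), 2 ^ m * r < n →
    ∃ x : Fin n → F, x ≠ 0 ∧ ∀ k, x ⬝ᵥ (M k *ᵥ x) = 0

end Pool.Agent.QTB
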