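import Pool.Agent.QTB.PAR
import Pool.Agent.QCB.CLA

/-!
# QTB, module CLA4: parity at the inert points of the discriminant

Proof. As `Pool.Agent.QCB.CLA` (read it first; it uses `Pool.C2M.ClaimA2` for the geometry, with the hypothesis that `a` is a norm modulo `p`;
here `PAR` replaces `ORD`). Let `y` be the kernel of `R[X] → AdjoinRoot Q / 𝔮`, a maximal ideal with finite residue field. If `p ∉ y` take `k = 0`.
`D = R[X]_y / (p)` is a noetherian local domain of dimension one (see the docstring of CLA), its fraction field `E` is the residue field of `p`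
(`IsRes` is unique up to isomorphism, so `SplAt` gives `Spl4` over `E`), `b, c, d` are units of `D` (they are units mod `Q` and `Q ∈ y`), `b` is no
square mod `𝔮`, `a ≠ 0` in `D` (`p ∤ a`). `PAR`: `length(D / a)` is even, and `D / a = R[X]_y / (p, Q)` (`a = Q a'`, `a'` a unit at `y`)
`= (AdjoinRoot Q)_𝔮 / (p)`, of length the multiplicity of `𝔮` in `p mod Q`.
-/

set_option autoImplicit false

namespace Pool.Agent.QTB

open Polynomial Pool.Agent.QCB Module IsLocalRing

private theorem CLA4_local {A : Type} [CommRing A] [IsLocalRing A] [IsNoetherianRing A]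
    {P Q q a1 b c d w t : A} {e : ℕ} (h2 : IsUnit (2 : A)) (hP : Prime P) (hQ : Prime Q)
    (hq : ¬ Q ∣ q) (hm : maximalIdeal A = Ideal.span {Q, q}) (ha1 : IsUnit a1) (hub : IsUnit b)
    (huc : IsUnit c) (hud : IsUnit d) (hb : ∀ r, b - r ^ 2 ∉ maximalIdeal A) (hw : IsUnit w)
    (hPe : P = q ^ e * w + Q * t) (hPQ : ¬ P ∣ Q) (hfin : Finite (A ⧸ maximalIdeal A))
    (E : Type) [Field E] (φ : A →+* E) (hφ : IsRes P φ)
    (hs : Spl4 (φ (Q * a1)) (φ b) (φ c) (φ d)) : Even e := by
  -- the ring `A/Q`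
  have hQp : (Ideal.span {Q}).IsPrime := (Ideal.span_singleton_prime hQ.ne_zero).2 hQ
  have hPp : (Ideal.span {P}).IsPrime := (Ideal.span_singleton_prime hP.ne_zero).2 hP
  have hq0 : Ideal.Quotient.mk (Ideal.span {Q}) q ≠ 0 := by
    rw [Ne, Ideal.Quotient.eq_zero_iff_mem, Ideal.mem_span_singleton]
    exact hq
  have hqm : (Ideal.span {Ideal.Quotient.mk (Ideal.span {Q}) q}).IsMaximal := by
    have h1 : (Ideal.map (Ideal.Quotient.mk (Ideal.span {Q})) (maximalIdeal A)).IsMaximal := by
      refine (Ideal.map_eq_top_or_isMaximal_of_surjective (Ideal.Quotient.mk (Ideal.span {Q}))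
        Ideal.Quotient.mk_surjective (maximalIdeal.isMaximal A)).resolve_left ?_
      intro h2
      rw [Ideal.eq_top_iff_one, ← map_one (Ideal.Quotient.mk (Ideal.span {Q})),
        Ideal.mem_map_iff_of_surjective _ Ideal.Quotient.mk_surjective] at h2
      obtain ⟨x, hx, hx1⟩ := h2
      rw [Ideal.Quotient.eq, Ideal.mem_span_singleton] at hx1
      have h3 : x - 1 ∈ maximalIdeal A := by
        obtain ⟨y, hy⟩ := hx1
        rw [hy, hm]
        exact Ideal.mul_mem_right _ _ (Ideal.subset_span (Set.mem_insert _ _))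
      have h4 : (1 : A) ∈ maximalIdeal A := by
        have e1 : (1 : A) = x - (x - 1) := by ring
        rw [e1]
        exact Ideal.sub_mem _ hx h3
      exact (Ideal.ne_top_iff_one _).1 (maximalIdeal.isMaximal A).ne_top h4
    have h5 : Ideal.map (Ideal.Quotient.mk (Ideal.span {Q})) (maximalIdeal A) =
        Ideal.span {Ideal.Quotient.mk (Ideal.span {Q}) q} := by
      rw [hm, Ideal.map_span, Set.image_pair]
      have h6 : Ideal.Quotient.mk (Ideal.span {Q}) Q = 0 := by
        rw [Ideal.Quotient.eq_zero_iff_mem]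
        exact Ideal.mem_span_singleton_self Q
      rw [h6, Ideal.span_insert_zero]
    rw [h5] at h1
    exact h1
  have hordE : Ring.ord (A ⧸ Ideal.span {Q}) (Ideal.Quotient.mk (Ideal.span {Q}) P) = (e : ℕ) := by
    have h1 : Ideal.Quotient.mk (Ideal.span {Q}) P =
        (Ideal.Quotient.mk (Ideal.span {Q}) q) ^ e * Ideal.Quotient.mk (Ideal.span {Q}) w := by
      have h6 : Ideal.Quotient.mk (Ideal.span {Q}) Q = 0 := by
        rw [Ideal.Quotient.eq_zero_iff_mem]
        exact Ideal.mem_span_singleton_self Q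
      rw [hPe, map_add, map_mul, map_mul, map_pow, h6, zero_mul, add_zero]
    rw [h1, Ring.ord_mul_of_isUnit_right (hw.map _), Ring.ord_pow
      (mem_nonZeroDivisors_of_ne_zero hq0), Pool.C2M.ord_of_span_maximal hqm, nsmul_eq_mul,
      mul_one]
  have hordD : Ring.ord (A ⧸ Ideal.span {P}) (Ideal.Quotient.mk (Ideal.span {P}) (Q * a1)) =
      (e : ℕ) := by
    rw [map_mul, Ring.ord_mul_of_isUnit_right (ha1.map _), Pool.C2M.ord_comm, hordE]
  rcases Nat.eq_zero_or_pos e with he | he
  · rw [he]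
    exact Even.zero
  -- `D = A/P` is local of dimension at most one
  have : Nontrivial (A ⧸ Ideal.span {P}) := Ideal.Quotient.nontrivial_iff.2 hPp.ne_top
  have : IsLocalRing (A ⧸ Ideal.span {P}) :=
    IsLocalRing.of_surjective' (Ideal.Quotient.mk (Ideal.span {P})) Ideal.Quotient.mk_surjective
  have hmk : ∀ x : A, Ideal.Quotient.mk (Ideal.span {P}) x ∈
      maximalIdeal (A ⧸ Ideal.span {P}) → x ∈ maximalIdeal A := by
    intro x hx
    by_contra h
    rw [mem_maximalIdeal, mem_nonunits_iff, not_not] at h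
    rw [mem_maximalIdeal, mem_nonunits_iff] at hx
    exact hx (h.map _)
  have hPm : P ∈ maximalIdeal A := by
    rw [mem_maximalIdeal, mem_nonunits_iff]
    exact hP.not_isUnit
  have hmk' : ∀ x : A, x ∈ maximalIdeal A → Ideal.Quotient.mk (Ideal.span {P}) x ∈
      maximalIdeal (A ⧸ Ideal.span {P}) := by
    intro x hx
    rw [mem_maximalIdeal, mem_nonunits_iff]
    intro h
    obtain ⟨z, hz⟩ := h.exists_right_inv
    obtain ⟨z, rfl⟩ := Ideal.Quotient.mk_surjective z
    rw [← map_mul, ← map_one (Ideal.Quotient.mk (Ideal.span {P})), Ideal.Quotient.eq,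
      Ideal.mem_span_singleton] at hz
    obtain ⟨v, hv⟩ := hz
    have h4 : (1 : A) ∈ maximalIdeal A := by
      have e1 : (1 : A) = x * z - P * v := by linear_combination -hv
      rw [e1]
      exact Ideal.sub_mem _ (Ideal.mul_mem_right _ _ hx) (Ideal.mul_mem_right _ _ hPm)
    exact (Ideal.ne_top_iff_one _).1 (maximalIdeal.isMaximal A).ne_top h4
  have hmin : maximalIdeal (A ⧸ Ideal.span {P}) ∈
      (Ideal.span {Ideal.Quotient.mk (Ideal.span {P}) Q}).minimalPrimes := by
    refine ⟨⟨(maximalIdeal.isMaximal _).isPrime, ?_⟩, ?_⟩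
    · rw [Ideal.span_singleton_le_iff_mem]
      rw [mem_maximalIdeal, mem_nonunits_iff]
      intro h1
      have h2 := Ring.ord_of_isUnit h1
      rw [Pool.C2M.ord_comm, hordE] at h2
      have : e = 0 := by exact_mod_cast h2
      omega
    · rintro p ⟨hp1, hp2⟩ _
      rw [Ideal.span_singleton_le_iff_mem] at hp2
      have := hp1
      have hc : (Ideal.comap (Ideal.Quotient.mk (Ideal.span {P})) p).IsPrime :=
        Ideal.comap_isPrime _ p
      have hQc : Q ∈ Ideal.comap (Ideal.Quotient.mk (Ideal.span {P})) p := hp2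
      have hPc : P ∈ Ideal.comap (Ideal.Quotient.mk (Ideal.span {P})) p := by
        rw [Ideal.mem_comap]
        have h6 : Ideal.Quotient.mk (Ideal.span {P}) P = 0 := by
          rw [Ideal.Quotient.eq_zero_iff_mem]
          exact Ideal.mem_span_singleton_self P
        rw [h6]
        exact Ideal.zero_mem _
      have hqc : q ∈ Ideal.comap (Ideal.Quotient.mk (Ideal.span {P})) p := by
        have h7 : q ^ e * w ∈ Ideal.comap (Ideal.Quotient.mk (Ideal.span {P})) p := by
          have e1 : q ^ e * w = P - Q * t := by rw [hPe]; ring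
          rw [e1]
          exact Ideal.sub_mem _ hPc (Ideal.mul_mem_right _ _ hQc)
        rcases hc.mem_or_mem h7 with h8 | h8
        · exact hc.mem_of_pow_mem e h8
        · exact absurd (Ideal.eq_top_of_isUnit_mem _ h8 hw) hc.ne_top
      have hle : maximalIdeal A ≤ Ideal.comap (Ideal.Quotient.mk (Ideal.span {P})) p := by
        rw [hm, Ideal.span_le]
        intro z hz
        rcases hz with hz | hz
        · rw [hz]
          exact hQc
        · rw [Set.mem_singleton_iff] at hz
          rw [hz]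
          exact hqc
      intro z hz
      obtain ⟨z', rfl⟩ := Ideal.Quotient.mk_surjective z
      exact hle (hmk z' hz)
  have : Ring.KrullDimLE 1 (A ⧸ Ideal.span {P}) := by
    have h1 := Ideal.height_le_one_of_isPrincipal_of_mem_minimalPrimes _ _ hmin
    rw [Ring.KrullDimLE, Order.krullDimLE_iff]
    have h2 : ringKrullDim (A ⧸ Ideal.span {P}) ≤ 1 := by
      rw [← IsLocalRing.maximalIdeal_height_eq_ringKrullDim]
      exact_mod_cast h1
    exact h2
  have : Ring.DimensionLEOne (A ⧸ Ideal.span {P}) := by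
    constructor
    intro I hI hI'
    exact Ring.krullDimLE_one_iff_of_noZeroDivisors.1 inferInstance I hI hI'
  have hb' : ∀ r : A ⧸ Ideal.span {P}, Ideal.Quotient.mk (Ideal.span {P}) b - r ^ 2 ∉
      maximalIdeal (A ⧸ Ideal.span {P}) := by
    intro r hr
    obtain ⟨r', rfl⟩ := Ideal.Quotient.mk_surjective r
    rw [← map_pow, ← map_sub] at hr
    exact hb r' (hmk _ hr)
  have hQ0 : Ideal.Quotient.mk (Ideal.span {P}) (Q * a1) ≠ 0 := by
    rw [Ne, Ideal.Quotient.eq_zero_iff_mem, Ideal.mem_span_singleton]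
    intro h
    rcases hP.dvd_or_dvd h with h | h
    · exact hPQ h
    · exact hP.not_isUnit (isUnit_of_dvd_unit h ha1)
  have hfin' : Finite ((A ⧸ Ideal.span {P}) ⧸ maximalIdeal (A ⧸ Ideal.span {P})) := by
    let g : A ⧸ maximalIdeal A →+* (A ⧸ Ideal.span {P}) ⧸ maximalIdeal (A ⧸ Ideal.span {P}) :=
      Ideal.Quotient.lift (maximalIdeal A)
        ((Ideal.Quotient.mk (maximalIdeal (A ⧸ Ideal.span {P}))).comp
          (Ideal.Quotient.mk (Ideal.span {P}))) (by
            intro x hx
            rw [RingHom.comp_apply, Ideal.Quotient.eq_zero_iff_mem]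
            exact hmk' x hx)
    refine Finite.of_surjective g ?_
    intro z
    obtain ⟨z, rfl⟩ := Ideal.Quotient.mk_surjective z
    obtain ⟨z, rfl⟩ := Ideal.Quotient.mk_surjective z
    exact ⟨Ideal.Quotient.mk _ z, rfl⟩
  -- the fraction field
  obtain ⟨hφ1, hφ2⟩ := hφ
  let ψ : A ⧸ Ideal.span {P} →+* E := Ideal.Quotient.lift (Ideal.span {P}) φ (by
    intro x hx
    rw [← hφ1] at hx
    exact hx)
  have hψ : ∀ x : A, ψ (Ideal.Quotient.mk (Ideal.span {P}) x) = φ x := fun x => rfl
  have hψi : Function.Injective ψ := by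
    rw [injective_iff_map_eq_zero]
    intro x hx
    obtain ⟨x, rfl⟩ := Ideal.Quotient.mk_surjective x
    rw [hψ] at hx
    rw [Ideal.Quotient.eq_zero_iff_mem, ← hφ1]
    exact hx
  let : Algebra (A ⧸ Ideal.span {P}) E := ψ.toAlgebra
  have : FaithfulSMul (A ⧸ Ideal.span {P}) E :=
    (faithfulSMul_iff_algebraMap_injective _ _).2 hψi
  have : IsFractionRing (A ⧸ Ideal.span {P}) E := by
    refine IsFractionRing.of_field _ _ ?_
    intro z
    obtain ⟨x, y, hy, hz⟩ := hφ2 z
    refine ⟨Ideal.Quotient.mk _ x, Ideal.Quotient.mk _ y, ?_⟩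
    change z = φ x / φ y
    rw [eq_div_iff hy]
    exact hz
  have h2' : IsUnit (2 : A ⧸ Ideal.span {P}) := by
    have := h2.map (Ideal.Quotient.mk (Ideal.span {P}))
    rwa [map_ofNat] at this
  obtain ⟨n, hn⟩ := PAR (D := A ⧸ Ideal.span {P}) h2'
    (Ideal.Quotient.mk (Ideal.span {P}) (Q * a1)) (Ideal.Quotient.mk (Ideal.span {P}) b)
    (Ideal.Quotient.mk (Ideal.span {P}) c) (Ideal.Quotient.mk (Ideal.span {P}) d) hQ0
    (hub.map _) (huc.map _) (hud.map _) hb' hfin' E hs
  have hn' : Ring.ord (A ⧸ Ideal.span {P}) (Ideal.Quotient.mk (Ideal.span {P}) (Q * a1)) =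
      ((2 * n : ℕ) : ℕ∞) := hn
  rw [hordD] at hn'
  have : e = 2 * n := by exact_mod_cast hn'
  exact ⟨n, by omega⟩

private theorem CLA4_glob {A : Type} [CommRing A] [IsDomain A] [IsNoetherianRing A]
    {P Q q a1 b c d w t : A} {e : ℕ} (h2 : IsUnit (2 : A)) (hP : Prime P) (hQ : Prime Q)
    (hq : ¬ Q ∣ q) (hy : (Ideal.span {Q, q}).IsMaximal) (ha1 : a1 ∉ Ideal.span {Q, q})
    (hub : b ∉ Ideal.span {Q, q}) (huc : c ∉ Ideal.span {Q, q}) (hud : d ∉ Ideal.span {Q, q})
    (hb : ∀ r : A, b - r ^ 2 ∉ Ideal.span {Q, q}) (hw : w ∉ Ideal.span {Q, q})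
    (hPe : P = q ^ e * w + Q * t) (hPQ : ¬ P ∣ Q) (hfin : Finite (A ⧸ Ideal.span {Q, q}))
    (hs : SplAt (Q * a1) b c d P) : Even e := by
  rcases Nat.eq_zero_or_pos e with he | he
  · rw [he]
    exact Even.zero
  set y : Ideal A := Ideal.span {Q, q} with hydef
  have := hy
  have hyp : y.IsPrime := hy.isPrime
  have hQy : Q ∈ y := Ideal.subset_span (Set.mem_insert _ _)
  have hqy : q ∈ y := Ideal.subset_span (Set.mem_insert_of_mem _ rfl)
  have hPy : P ∈ y := by
    rw [hPe]
    refine Ideal.add_mem _ (Ideal.mul_mem_right _ _ ?_) (Ideal.mul_mem_right _ _ hQy)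
    exact Ideal.pow_mem_of_mem _ hqy _ he
  have hunit : ∀ x : A, x ∉ y → IsUnit (algebraMap A (Localization.AtPrime y) x) := fun x hx =>
    IsLocalization.map_units (M := y.primeCompl) (Localization.AtPrime y) ⟨x, hx⟩
  have hmax : ∀ x : A, algebraMap A (Localization.AtPrime y) x ∈
      maximalIdeal (Localization.AtPrime y) ↔ x ∈ y := fun x =>
    IsLocalization.AtPrime.to_map_mem_maximal_iff (Localization.AtPrime y) y x
  obtain ⟨E, hE, φ, ⟨hφ1, hφ2⟩, h4⟩ := hs
  have hφy : ∀ x : y.primeCompl, IsUnit (φ x) := by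
    intro x
    rw [isUnit_iff_ne_zero]
    intro h
    have h1 : (x : A) ∈ RingHom.ker φ := h
    rw [hφ1] at h1
    exact x.2 ((Ideal.span_singleton_le_iff_mem _).2 hPy h1)
  let Φ : Localization.AtPrime y →+* E := IsLocalization.lift (M := y.primeCompl) hφy
  have hΦ : ∀ x : A, Φ (algebraMap A (Localization.AtPrime y) x) = φ x := fun x =>
    IsLocalization.lift_eq hφy x
  have hRes : IsRes (algebraMap A (Localization.AtPrime y) P) Φ := by
    constructor
    · ext z
      rw [RingHom.mem_ker, Ideal.mem_span_singleton]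
      obtain ⟨x, s, rfl⟩ := IsLocalization.exists_mk'_eq y.primeCompl z
      have h1 := IsLocalization.mk'_spec (Localization.AtPrime y) x s
      have hsu : IsUnit (algebraMap A (Localization.AtPrime y) s) :=
        IsLocalization.map_units (Localization.AtPrime y) s
      constructor
      · intro hz
        have h3 : φ x = 0 := by
          rw [← hΦ, ← h1, map_mul, hz, zero_mul]
        have h5 : x ∈ RingHom.ker φ := h3
        rw [hφ1, Ideal.mem_span_singleton] at h5
        have h6 := map_dvd (algebraMap A (Localization.AtPrime y)) h5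
        rw [← h1] at h6
        exact (hsu.dvd_mul_right).1 h6
      · rintro ⟨v, hv⟩
        have h5 : φ P = 0 := by
          have : P ∈ RingHom.ker φ := by
            rw [hφ1]
            exact Ideal.mem_span_singleton_self P
          exact this
        rw [hv, map_mul, hΦ, h5, zero_mul]
    · intro z
      obtain ⟨x, y, hy, hz⟩ := hφ2 z
      refine ⟨algebraMap A _ x, algebraMap A _ y, ?_, ?_⟩
      · rw [hΦ]
        exact hy
      · rw [hΦ, hΦ]
        exact hz
  have hloc : ∀ r : Localization.AtPrime y, ∃ x : A,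
      r - algebraMap A (Localization.AtPrime y) x ∈ maximalIdeal (Localization.AtPrime y) := by
    intro r
    obtain ⟨x, s, rfl⟩ := IsLocalization.exists_mk'_eq y.primeCompl r
    obtain ⟨s', i, hi, hs'⟩ := hy.exists_inv s.2
    refine ⟨x * s', ?_⟩
    have h1 := IsLocalization.mk'_spec (Localization.AtPrime y) x s
    have h3 := congrArg (algebraMap A (Localization.AtPrime y)) hs'
    rw [map_add, map_mul, map_one] at h3
    have e1 : IsLocalization.mk' (Localization.AtPrime y) x s -
        algebraMap A (Localization.AtPrime y) (x * s') =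
        IsLocalization.mk' (Localization.AtPrime y) x s *
          algebraMap A (Localization.AtPrime y) i := by
      rw [map_mul, ← h1]
      linear_combination -(IsLocalization.mk' (Localization.AtPrime y) x s) * h3
    rw [e1]
    exact Ideal.mul_mem_left _ _ ((hmax i).2 hi)
  refine CLA4_local (A := Localization.AtPrime y)
    (P := algebraMap A (Localization.AtPrime y) P)
    (Q := algebraMap A (Localization.AtPrime y) Q)
    (q := algebraMap A (Localization.AtPrime y) q)
    (a1 := algebraMap A (Localization.AtPrime y) a1)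
    (b := algebraMap A (Localization.AtPrime y) b)
    (c := algebraMap A (Localization.AtPrime y) c)
    (d := algebraMap A (Localization.AtPrime y) d)
    (w := algebraMap A (Localization.AtPrime y) w)
    (t := algebraMap A (Localization.AtPrime y) t) ?_
    (Pool.C2M.prime_loc y hP hPy) (Pool.C2M.prime_loc y hQ hQy)
    (Pool.C2M.not_dvd_loc y hQ hQy hq) ?_ (hunit a1 ha1) (hunit b hub) (hunit c huc)
    (hunit d hud) ?_ (hunit w hw) ?_ (Pool.C2M.not_dvd_loc y hP hPy hPQ) ?_ E Φ hRes ?_
  · have := h2.map (algebraMap A (Localization.AtPrime y))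
    rwa [map_ofNat] at this
  · rw [← IsLocalization.AtPrime.map_eq_maximalIdeal y]
    have h1 := Ideal.map_span (algebraMap A (Localization.AtPrime y)) {Q, q}
    rw [Set.image_pair] at h1
    exact h1
  · intro r hr
    obtain ⟨x, hx⟩ := hloc r
    refine hb x ?_
    rw [← hmax, map_sub, map_pow]
    have e1 : algebraMap A (Localization.AtPrime y) b -
        algebraMap A (Localization.AtPrime y) x ^ 2 =
        (algebraMap A (Localization.AtPrime y) b - r ^ 2) +
          (r + algebraMap A (Localization.AtPrime y) x) *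
            (r - algebraMap A (Localization.AtPrime y) x) := by ring
    rw [e1]
    exact Ideal.add_mem _ hr (Ideal.mul_mem_left _ _ hx)
  · rw [← map_pow, ← map_mul, ← map_mul, ← map_add, ← hPe]
  · let g : A ⧸ y →+* Localization.AtPrime y ⧸ maximalIdeal (Localization.AtPrime y) :=
      Ideal.Quotient.lift y ((Ideal.Quotient.mk (maximalIdeal (Localization.AtPrime y))).comp
          (algebraMap A (Localization.AtPrime y))) (by
            intro x hx
            rw [RingHom.comp_apply, Ideal.Quotient.eq_zero_iff_mem]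
            exact (hmax x).2 hx)
    refine Finite.of_surjective g ?_
    intro z
    obtain ⟨z, rfl⟩ := Ideal.Quotient.mk_surjective z
    obtain ⟨x, hx⟩ := hloc z
    refine ⟨Ideal.Quotient.mk _ x, ?_⟩
    change Ideal.Quotient.mk _ (algebraMap A (Localization.AtPrime y) x) =
      Ideal.Quotient.mk _ z
    exact (Ideal.Quotient.eq.2 hx).symm
  · rw [← map_mul, hΦ, hΦ, hΦ, hΦ]
    exact h4

theorem CLA4 {R : Type} [CommRing R] [IsDomain R] [IsPrincipalIdealRing R] (h2 : IsUnit (2 : R))
    (a b c d Q a' p : R[X]) (hQ : Q.Monic) [IsDomain (AdjoinRoot Q)]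
    [IsPrincipalIdealRing (AdjoinRoot Q)] (haQ : a = Q * a') (ha' : IsUnit (AdjoinRoot.mk Q a'))
    (hb : IsUnit (AdjoinRoot.mk Q b)) (hc : IsUnit (AdjoinRoot.mk Q c))
    (hd : IsUnit (AdjoinRoot.mk Q d)) (hp : Prime p) (hpa : ¬ p ∣ a) (hs : SplAt a b c d p)
    (𝔮 : AdjoinRoot Q) (h𝔮 : Prime 𝔮) (hfin : Finite (AdjoinRoot Q ⧸ Ideal.span {𝔮}))
    (hbn : ∀ β : AdjoinRoot Q, ¬ 𝔮 ∣ AdjoinRoot.mk Q b - β ^ 2) :
    ∃ k : ℕ, 𝔮 ^ (2 * k) ∣ AdjoinRoot.mk Q p ∧ ¬ 𝔮 ^ (2 * k + 1) ∣ AdjoinRoot.mk Q p := by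
  have hQ0 : Q ≠ 0 := hQ.ne_zero
  have hQp : Prime Q := by
    rw [← Ideal.span_singleton_prime hQ0]
    exact (Ideal.Quotient.isDomain_iff_prime (Ideal.span {Q})).1 (inferInstanceAs
      (IsDomain (AdjoinRoot Q)))
  have h2' : IsUnit (2 : R[X]) := by
    have := h2.map (Polynomial.C : R →+* R[X])
    rwa [map_ofNat] at this
  have hpQ : ¬ p ∣ Q := by
    intro h
    exact hpa (by rw [haQ]; exact h.mul_right _)
  have hPQ : ¬ Q ∣ p := by
    intro h
    exact hpQ (hQp.irreducible.dvd_symm hp.irreducible h)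
  have hp0 : AdjoinRoot.mk Q p ≠ 0 := by
    rw [Ne, AdjoinRoot.mk_eq_zero]
    exact hPQ
  have hfm : FiniteMultiplicity 𝔮 (AdjoinRoot.mk Q p) :=
    FiniteMultiplicity.of_not_isUnit h𝔮.not_isUnit hp0
  have hmaxO : (Ideal.span {𝔮}).IsMaximal :=
    PrincipalIdealRing.isMaximal_of_irreducible h𝔮.irreducible
  obtain ⟨q0, rfl⟩ := AdjoinRoot.mk_surjective (g := Q) 𝔮
  have hq0 : ¬ Q ∣ q0 := by
    intro h
    refine h𝔮.ne_zero ?_
    rw [AdjoinRoot.mk_eq_zero]
    exact h
  have hmem : ∀ x : R[X], x ∈ Ideal.span {Q, q0} ↔ AdjoinRoot.mk Q q0 ∣ AdjoinRoot.mk Q x := by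
    intro x
    rw [Ideal.mem_span_pair]
    constructor
    · rintro ⟨a, b, rfl⟩
      refine ⟨AdjoinRoot.mk Q b, ?_⟩
      rw [map_add, map_mul, map_mul, AdjoinRoot.mk_self]
      ring
    · rintro ⟨z, hz⟩
      obtain ⟨z, rfl⟩ := AdjoinRoot.mk_surjective z
      rw [← map_mul, AdjoinRoot.mk_eq_mk] at hz
      obtain ⟨c, hc⟩ := hz
      exact ⟨c, z, by linear_combination -hc⟩
  have hcomap : Ideal.comap (AdjoinRoot.mk Q) (Ideal.span {AdjoinRoot.mk Q q0}) =
      Ideal.span {Q, q0} := by
    ext x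
    rw [Ideal.mem_comap, Ideal.mem_span_singleton, hmem]
  have hy : (Ideal.span {Q, q0}).IsMaximal := by
    have h1 := Ideal.comap_isMaximal_of_surjective (AdjoinRoot.mk Q)
      AdjoinRoot.mk_surjective (K := Ideal.span {AdjoinRoot.mk Q q0})
    rw [hcomap] at h1
    exact h1
  have hfin' : Finite (R[X] ⧸ Ideal.span {Q, q0}) := by
    rw [← hcomap]
    exact Finite.of_injective _ (Ideal.quotientMap_injective
      (I := Ideal.span {AdjoinRoot.mk Q q0}) (f := AdjoinRoot.mk Q))
  have hunit : ∀ x : R[X], IsUnit (AdjoinRoot.mk Q x) → x ∉ Ideal.span {Q, q0} := by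
    intro x hx h
    rw [hmem] at h
    exact h𝔮.not_isUnit (isUnit_of_dvd_unit h hx)
  obtain ⟨w, hw, hw2⟩ := hfm.exists_eq_pow_mul_and_not_dvd
  obtain ⟨w, rfl⟩ := AdjoinRoot.mk_surjective w
  rw [← map_pow, ← map_mul, AdjoinRoot.mk_eq_mk] at hw
  obtain ⟨t, ht⟩ := hw
  have hev : Even (multiplicity (AdjoinRoot.mk Q q0) (AdjoinRoot.mk Q p)) := by
    refine CLA4_glob (A := R[X]) (P := p) (Q := Q) (q := q0) (a1 := a') (b := b) (c := c)
      (d := d) (w := w) (t := t) h2' hp hQp hq0 hy (hunit _ ha') (hunit _ hb) (hunit _ hc)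
      (hunit _ hd) ?_ ?_ ?_ hpQ hfin' ?_
    · intro r
      rw [hmem, map_sub, map_pow]
      exact hbn _
    · rw [hmem]
      exact hw2
    · linear_combination ht
    · rw [← haQ]
      exact hs
  obtain ⟨k, hk⟩ := hev
  refine ⟨k, ?_, ?_⟩
  · rw [show 2 * k = multiplicity (AdjoinRoot.mk Q q0) (AdjoinRoot.mk Q p) by omega]
    exact pow_multiplicity_dvd _ _
  · rw [hfm.pow_dvd_iff_le_multiplicity]
    omega

end Pool.Agent.QTB
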