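import Pool.Agent.QTB.Dat4

/-!
# QTB, module COND: the local conditions of Theorem TL from the types

Proof. Over `L = Frac R` the `G i` are squarefree and pairwise coprime: `Side (G i) (e_i rest_i²)` writes `G i` as a unit times a product of
monic primes `Q` which are units modulo each other, and `rest_i` is a unit modulo each `Q` (compare `TYPE_sqa`, `TYPE_cop` in QCB/TYPE.lean).
So the `δ k` are squarefree. Let `Q ∣ δ k` be irreducible; `Q` divides exactly one `G i`, and `G i` occurs in exactly two `δ`, once in each: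
`0: {0,2}`, `1: {1,2}`, `2: {3,5}`, `3: {4,5}`, `4: {1,4}`, `5: {1,3}`, `6: {0,4}`, `7: {0,3}`. Write `G i = Q g'`, `δ k = Q A`, `δ l = Q B`. Then
`A B = -g'² s` where `s` is: `0: G 6 G 7 G 1`, `1: G 4 G 5 G 0`, `2: G 5 G 7 G 3`, `3: G 4 G 6 G 2`, `4: G 1 G 5 G 3 G 6`, `5: G 1 G 4 G 2 G 7`,
`6: G 0 G 7 G 3 G 4`, `7: G 0 G 6 G 2 G 5`, and `ge G i = s t²` with `t = 1` for `i ≤ 3` and `t = G 7, G 6, G 5, G 4` for `i = 4, 5, 6, 7`. From
`Q ∣ u² - e rest² v'² - f` choose `v` with `g' v = t rest v'` mod `Q` (`g'` is a unit mod `Q`): `A B v² = -e rest² v'²` mod `Q`.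
-/

set_option autoImplicit false

namespace Pool.Agent.QTB

open Polynomial Pool.Agent.QCB

section basic

variable {R : Type} [CommRing R] [IsDomain R]

omit [IsDomain R] in
private theorem COND_inj : Function.Injective (Polynomial.map (algebraMap R (FractionRing R))) :=
  Polynomial.map_injective _ (IsFractionRing.injective R (FractionRing R))

private theorem COND_cu (s : R) (hs : s ≠ 0) :
    IsUnit ((C s : R[X]).map (algebraMap R (FractionRing R))) := by
  rw [Polynomial.map_C]
  refine Polynomial.isUnit_C.2 (IsUnit.mk0 _ ?_)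
  intro h
  exact hs ((IsFractionRing.injective R (FractionRing R)) (by rw [h, map_zero]))

private theorem COND_den (f : (FractionRing R)[X]) :
    ∃ s : R, s ≠ 0 ∧ ∃ g : R[X], g.map (algebraMap R (FractionRing R)) =
      (C s : R[X]).map (algebraMap R (FractionRing R)) * f := by
  obtain ⟨s, hs, h⟩ := IsLocalization.integerNormalization_spec (nonZeroDivisors R) f
  refine ⟨s, nonZeroDivisors.ne_zero hs, IsLocalization.integerNormalization
    (nonZeroDivisors R) f, ?_⟩
  rw [Polynomial.map_C, h]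
  ext i
  rw [Polynomial.coeff_smul, Polynomial.coeff_C_mul, Algebra.smul_def]

private theorem COND_gauss {p : R[X]} (hp : Prime p)
    (hu : ¬ IsUnit (p.map (algebraMap R (FractionRing R)))) (f : R[X])
    (h : p.map (algebraMap R (FractionRing R)) ∣ f.map (algebraMap R (FractionRing R))) :
    p ∣ f := by
  obtain ⟨g, hg⟩ := h
  obtain ⟨s, hs, g', hg'⟩ := COND_den g
  have h1 : C s * f = p * g' := by
    apply COND_inj
    show Polynomial.map _ (C s * f) = Polynomial.map _ (p * g')
    rw [Polynomial.map_mul, Polynomial.map_mul, hg, hg']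
    ring
  rcases hp.dvd_or_dvd (Dvd.intro g' h1.symm) with h2 | h2
  · exfalso
    apply hu
    obtain ⟨k, hk⟩ := h2
    refine isUnit_of_dvd_unit ?_ (COND_cu s hs)
    rw [hk, Polynomial.map_mul]
    exact Dvd.intro _ rfl
  · exact h2

private theorem COND_prime {p : R[X]} (hp : Prime p)
    (hu : ¬ IsUnit (p.map (algebraMap R (FractionRing R)))) :
    Prime (p.map (algebraMap R (FractionRing R))) := by
  refine ⟨?_, hu, ?_⟩
  · intro h
    exact hp.ne_zero (COND_inj (by rw [h, Polynomial.map_zero]))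
  · intro x y hxy
    obtain ⟨s, hs, x', hx'⟩ := COND_den x
    obtain ⟨t, ht, y', hy'⟩ := COND_den y
    have h1 : p ∣ x' * y' := by
      apply COND_gauss hp hu
      rw [Polynomial.map_mul, hx', hy']
      have h2 : Polynomial.map (algebraMap R (FractionRing R)) (C s) * x *
        (Polynomial.map (algebraMap R (FractionRing R)) (C t) * y) =
        x * y * (Polynomial.map (algebraMap R (FractionRing R)) (C s) *
          Polynomial.map (algebraMap R (FractionRing R)) (C t)) := by ring
      rw [h2]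
      exact Dvd.dvd.mul_right hxy _
    rcases hp.dvd_or_dvd h1 with h2 | h2
    · left
      have h3 := Polynomial.map_dvd (algebraMap R (FractionRing R)) h2
      rw [hx'] at h3
      exact (COND_cu s hs).dvd_mul_left.1 h3
    · right
      have h3 := Polynomial.map_dvd (algebraMap R (FractionRing R)) h2
      rw [hy'] at h3
      exact (COND_cu t ht).dvd_mul_left.1 h3

/-- coprimality with a product -/
private theorem COND_cop {p f : R[X]} (hp : Prime p) (hf : ¬ p ∣ f) :
    IsCoprime (p.map (algebraMap R (FractionRing R))) (f.map (algebraMap R (FractionRing R))) := by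
  by_cases hu : IsUnit (p.map (algebraMap R (FractionRing R)))
  · obtain ⟨v, hv⟩ := hu
    exact ⟨((v⁻¹ : ((FractionRing R)[X])ˣ) : (FractionRing R)[X]), 0, by
      rw [← hv, Units.inv_mul, zero_mul, add_zero]⟩
  · exact (COND_prime hp hu).coprime_iff_not_dvd.2 fun h => hf (COND_gauss hp hu f h)

private theorem COND_sqfree {p : R[X]} (hp : Prime p) :
    Squarefree (p.map (algebraMap R (FractionRing R))) := by
  by_cases hu : IsUnit (p.map (algebraMap R (FractionRing R)))
  · exact hu.squarefree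
  · exact (COND_prime hp hu).squarefree

private theorem COND_irr {Q : R[X]} (hQ : Q.Monic) (hdom : IsDomain (AdjoinRoot Q)) :
    Prime Q := by
  have h1 : (Ideal.span {Q}).IsPrime := (Ideal.Quotient.isDomain_iff_prime _).1 hdom
  exact (Ideal.span_singleton_prime hQ.ne_zero).1 h1

/-- `a` over the fraction field is squarefree -/
private theorem COND_sqa {a b : R[X]} (h : Side a b) :
    Squarefree (a.map (algebraMap R (FractionRing R))) := by
  obtain ⟨u, F, ha, hF⟩ := h
  have h1 : Squarefree (∏ Q ∈ F, Q.map (algebraMap R (FractionRing R))) := by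
    refine Finset.squarefree_prod_of_pairwise_isCoprime ?_ ?_
    · intro Q hQ Q' hQ' hne
      obtain ⟨hm, hd, _, _, _, _, hc, _⟩ := hF Q hQ
      have hp := COND_irr hm hd
      have h3 : IsUnit (AdjoinRoot.mk Q Q') := hc Q' hQ' (fun h => hne h.symm)
      have h4 : ¬ Q ∣ Q' := by
        intro h5
        rw [AdjoinRoot.mk_eq_zero.2 h5] at h3
        have := hd
        exact not_isUnit_zero h3
      exact (COND_cop hp h4).isRelPrime
    · intro Q hQ
      obtain ⟨hm, hd, _⟩ := hF Q hQ
      exact COND_sqfree (COND_irr hm hd)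
  have h2 : a.map (algebraMap R (FractionRing R)) = (C (u : R) : R[X]).map
      (algebraMap R (FractionRing R)) * ∏ Q ∈ F, Q.map (algebraMap R (FractionRing R)) := by
    rw [ha, Polynomial.map_mul, Polynomial.map_prod]
  rw [h2]
  obtain ⟨v, hv⟩ := COND_cu (R := R) (u : R) u.ne_zero
  rw [← hv]
  refine h1.squarefree_of_dvd ?_
  exact (Units.mul_left_dvd).2 dvd_rfl

/-- the other polynomial is a unit modulo the prime factors -/
private theorem COND_nd {a b : R[X]} (h : Side a b) (Q : (FractionRing R)[X]) (hQ : Irreducible Q)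
    (hQa : Q ∣ a.map (algebraMap R (FractionRing R))) :
    ¬ Q ∣ b.map (algebraMap R (FractionRing R)) := by
  obtain ⟨w, F, ha, hF⟩ := h
  have h3 : Q ∣ (C (w : R) : R[X]).map (algebraMap R (FractionRing R)) *
      ∏ Q ∈ F, Q.map (algebraMap R (FractionRing R)) := by
    rwa [ha, Polynomial.map_mul, Polynomial.map_prod] at hQa
  rw [(COND_cu (R := R) (w : R) w.ne_zero).dvd_mul_left] at h3
  obtain ⟨Q1, hQ1, h4⟩ := hQ.prime.exists_mem_finset_dvd h3
  obtain ⟨hm, hd, _, _, _, hb, _, _⟩ := hF Q1 hQ1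
  have h5 : ¬ Q1 ∣ b := by
    intro h5
    rw [AdjoinRoot.mk_eq_zero.2 h5] at hb
    have := hd
    exact not_isUnit_zero hb
  have h6 := COND_cop (COND_irr hm hd) h5
  intro h7
  exact hQ.not_isUnit (h6.isUnit_of_dvd' h4 h7)

end basic

section core

variable {P : Type} [CommRing P] [IsDomain P] (g : Fin 8 → P)

omit [IsDomain P] in
private theorem COND_map {P' : Type} [CommRing P'] (φ : P →+* P') (k : Fin 6) :
    φ (gδ g k) = gδ (fun i => φ (g i)) k := by
  fin_cases k <;> simp [gδ]

omit [IsDomain P] in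
private theorem COND_mape {P' : Type} [CommRing P'] (φ : P →+* P') (i : Fin 8) :
    φ (ge g i) = ge (fun i => φ (g i)) i := by
  fin_cases i <;> simp [ge, ga, gb, gc, gd]

omit [IsDomain P] in
/-- the two `δ` which contain `g i` -/
private theorem COND_two (Q : P) (hQ : Prime Q) (i : Fin 8) (hn : ∀ j, j ≠ i → ¬ Q ∣ g j) :
    ∃ (k l : Fin 6) (α β s t : P), k ≠ l ∧ gδ g k = g i * α ∧ gδ g l = g i * β ∧
      α * β = -s ∧ ge g i = s * t ^ 2 ∧ ∀ m, Q ∣ gδ g m → m = k ∨ m = l := by
  have hm : ∀ (k l : Fin 6), (∀ m, m ≠ k → m ≠ l → ¬ Q ∣ gδ g m) →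
      ∀ m, Q ∣ gδ g m → m = k ∨ m = l := by
    intro k l h m hd
    by_contra hne
    rw [not_or] at hne
    exact h m hne.1 hne.2 hd
  fin_cases i
  · have n1 := hn 1 (by decide)
    have n2 := hn 2 (by decide)
    have n3 := hn 3 (by decide)
    have n4 := hn 4 (by decide)
    have n5 := hn 5 (by decide)
    have n6 := hn 6 (by decide)
    have n7 := hn 7 (by decide)
    refine ⟨0, 2, g 6 * g 7, -(g 1), g 6 * g 7 * g 1, 1, by decide, ?_, ?_, ?_, ?_,
      hm _ _ fun m h1 h2 => ?_⟩
    · simp [gδ]; ring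
    · simp [gδ]
    · ring
    · simp [ge, gb]; ring
    · fin_cases m <;> simp [gδ, hQ.dvd_mul, n1, n2, n3, n4, n5, n6, n7] at h1 h2 ⊢
  · have n0 := hn 0 (by decide)
    have n2 := hn 2 (by decide)
    have n3 := hn 3 (by decide)
    have n4 := hn 4 (by decide)
    have n5 := hn 5 (by decide)
    have n6 := hn 6 (by decide)
    have n7 := hn 7 (by decide)
    refine ⟨1, 2, g 4 * g 5, -(g 0), g 4 * g 5 * g 0, 1, by decide, ?_, ?_, ?_, ?_,
      hm _ _ fun m h1 h2 => ?_⟩
    · simp [gδ]; ring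
    · simp [gδ]; ring
    · ring
    · simp [ge, ga]; ring
    · fin_cases m <;> simp [gδ, hQ.dvd_mul, n0, n2, n3, n4, n5, n6, n7] at h1 h2 ⊢
  · have n0 := hn 0 (by decide)
    have n1 := hn 1 (by decide)
    have n3 := hn 3 (by decide)
    have n4 := hn 4 (by decide)
    have n5 := hn 5 (by decide)
    have n6 := hn 6 (by decide)
    have n7 := hn 7 (by decide)
    refine ⟨3, 5, -(g 5 * g 7), g 3, g 5 * g 7 * g 3, 1, by decide, ?_, ?_, ?_, ?_,
      hm _ _ fun m h1 h2 => ?_⟩
    · simp [gδ]; ring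
    · simp [gδ]
    · ring
    · simp [ge, gd]; ring
    · fin_cases m <;> simp [gδ, hQ.dvd_mul, n0, n1, n3, n4, n5, n6, n7] at h1 h2 ⊢
  · have n0 := hn 0 (by decide)
    have n1 := hn 1 (by decide)
    have n2 := hn 2 (by decide)
    have n4 := hn 4 (by decide)
    have n5 := hn 5 (by decide)
    have n6 := hn 6 (by decide)
    have n7 := hn 7 (by decide)
    refine ⟨4, 5, -(g 4 * g 6), g 2, g 4 * g 6 * g 2, 1, by decide, ?_, ?_, ?_, ?_,
      hm _ _ fun m h1 h2 => ?_⟩
    · simp [gδ]; ring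
    · simp [gδ]; ring
    · ring
    · simp [ge, gc]; ring
    · fin_cases m <;> simp [gδ, hQ.dvd_mul, n0, n1, n2, n4, n5, n6, n7] at h1 h2 ⊢
  · have n0 := hn 0 (by decide)
    have n1 := hn 1 (by decide)
    have n2 := hn 2 (by decide)
    have n3 := hn 3 (by decide)
    have n5 := hn 5 (by decide)
    have n6 := hn 6 (by decide)
    have n7 := hn 7 (by decide)
    refine ⟨1, 4, g 1 * g 5, -(g 3 * g 6), g 1 * g 5 * (g 3 * g 6), g 7, by decide, ?_, ?_, ?_, ?_,
      hm _ _ fun m h1 h2 => ?_⟩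
    · simp [gδ]; ring
    · simp [gδ]; ring
    · ring
    · simp [ge, gb, gd]; ring
    · fin_cases m <;> simp [gδ, hQ.dvd_mul, n0, n1, n2, n3, n5, n6, n7] at h1 h2 ⊢
  · have n0 := hn 0 (by decide)
    have n1 := hn 1 (by decide)
    have n2 := hn 2 (by decide)
    have n3 := hn 3 (by decide)
    have n4 := hn 4 (by decide)
    have n6 := hn 6 (by decide)
    have n7 := hn 7 (by decide)
    refine ⟨1, 3, g 1 * g 4, -(g 2 * g 7), g 1 * g 4 * (g 2 * g 7), g 6, by decide, ?_, ?_, ?_, ?_,
      hm _ _ fun m h1 h2 => ?_⟩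
    · simp [gδ]; ring
    · simp [gδ]; ring
    · ring
    · simp [ge, gb, gc]; ring
    · fin_cases m <;> simp [gδ, hQ.dvd_mul, n0, n1, n2, n3, n4, n6, n7] at h1 h2 ⊢
  · have n0 := hn 0 (by decide)
    have n1 := hn 1 (by decide)
    have n2 := hn 2 (by decide)
    have n3 := hn 3 (by decide)
    have n4 := hn 4 (by decide)
    have n5 := hn 5 (by decide)
    have n7 := hn 7 (by decide)
    refine ⟨0, 4, g 0 * g 7, -(g 3 * g 4), g 0 * g 7 * (g 3 * g 4), g 5, by decide, ?_, ?_, ?_, ?_,
      hm _ _ fun m h1 h2 => ?_⟩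
    · simp [gδ]; ring
    · simp [gδ]; ring
    · ring
    · simp [ge, ga, gd]; ring
    · fin_cases m <;> simp [gδ, hQ.dvd_mul, n0, n1, n2, n3, n4, n5, n7] at h1 h2 ⊢
  · have n0 := hn 0 (by decide)
    have n1 := hn 1 (by decide)
    have n2 := hn 2 (by decide)
    have n3 := hn 3 (by decide)
    have n4 := hn 4 (by decide)
    have n5 := hn 5 (by decide)
    have n6 := hn 6 (by decide)
    refine ⟨0, 3, g 0 * g 6, -(g 2 * g 5), g 0 * g 6 * (g 2 * g 5), g 4, by decide, ?_, ?_, ?_, ?_,
      hm _ _ fun m h1 h2 => ?_⟩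
    · simp [gδ]; ring
    · simp [gδ]; ring
    · ring
    · simp [ge, ga, gc]; ring
    · fin_cases m <;> simp [gδ, hQ.dvd_mul, n0, n1, n2, n3, n4, n5, n6] at h1 h2 ⊢

omit [IsDomain P] in
/-- a prime divisor of `δ` divides some `g i` -/
private theorem COND_ex (Q : P) (hQ : Prime Q) (k : Fin 6) (h : Q ∣ gδ g k) : ∃ i, Q ∣ g i := by
  by_contra hne
  rw [not_exists] at hne
  have n0 := hne 0
  have n1 := hne 1
  have n2 := hne 2
  have n3 := hne 3
  have n4 := hne 4
  have n5 := hne 5
  have n6 := hne 6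
  have n7 := hne 7
  revert h
  fin_cases k <;> simp [gδ, hQ.dvd_mul, n0, n1, n2, n3, n4, n5, n6, n7]

omit [IsDomain P] in
/-- solving modulo `Q` -/
private theorem COND_solve (Q g' s t r u v' f α β e : P) (hAB : α * β = -s) (he : e = s * t ^ 2)
    (hcop : IsCoprime Q g') (h : Q ∣ u ^ 2 - e * r ^ 2 * v' ^ 2 - f) :
    ∃ u v : P, Q ∣ u ^ 2 + g' * α * (g' * β) * v ^ 2 - f := by
  obtain ⟨a, b, hab⟩ := hcop
  obtain ⟨c, hc⟩ := h
  refine ⟨u, b * t * r * v', c + e * r ^ 2 * v' ^ 2 * a * (2 - a * Q), ?_⟩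
  have h1 : b * g' = 1 - a * Q := by linear_combination hab
  have h2 : g' * α * (g' * β) * (b * t * r * v') ^ 2 = -(e * r ^ 2 * v' ^ 2 * (1 - a * Q) ^ 2) := by
    rw [he, ← h1]
    linear_combination (g' * b * t * r * v') ^ 2 * hAB
  rw [h2]
  linear_combination hc

/-- squarefreeness of `δ` -/
private theorem COND_sq (hs : ∀ i, Squarefree (g i)) (hc : ∀ i j, i ≠ j → IsRelPrime (g i) (g j))
    (hdec : DecompositionMonoid P) (k : Fin 6) : Squarefree (gδ g k) := by
  have key2 : ∀ i j, i ≠ j → Squarefree (g i * g j) := fun i j hij =>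
    squarefree_mul_iff.2 ⟨hc i j hij, hs i, hs j⟩
  have key3 : ∀ i j l, i ≠ j → i ≠ l → j ≠ l → Squarefree (g i * g j * g l) :=
    fun i j l h1 h2 h3 => squarefree_mul_iff.2
      ⟨IsRelPrime.mul_left (hc i l h2) (hc j l h3), key2 i j h1, hs l⟩
  have hneg : ∀ x : P, Squarefree x → Squarefree (-x) := fun x hx =>
    hx.squarefree_of_dvd ((neg_dvd).2 dvd_rfl)
  fin_cases k
  · exact key3 0 6 7 (by decide) (by decide) (by decide)
  · exact key3 1 4 5 (by decide) (by decide) (by decide)
  · exact hneg _ (key2 0 1 (by decide))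
  · exact hneg _ (key3 2 5 7 (by decide) (by decide) (by decide))
  · exact hneg _ (key3 3 4 6 (by decide) (by decide) (by decide))
  · exact key2 2 3 (by decide)

end core

theorem COND {R : Type} [CommRing R] [IsDomain R] (G : Fin 8 → R[X]) (hD : Dat4 G) :
    (∀ k, Squarefree ((gδ G k).map (algebraMap R (FractionRing R)))) ∧
    ∀ f : R[X], (∀ (i : Fin 8) (Q : (FractionRing R)[X]), Irreducible Q →
      Q ∣ (G i).map (algebraMap R (FractionRing R)) → ∃ u v : (FractionRing R)[X],
        Q ∣ u ^ 2 - (ge G i * grest G i ^ 2).map (algebraMap R (FractionRing R)) * v ^ 2 -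
          f.map (algebraMap R (FractionRing R))) →
      ∀ Q : (FractionRing R)[X], Irreducible Q → ∀ k,
        Q ∣ (gδ G k).map (algebraMap R (FractionRing R)) → ∃ l, l ≠ k ∧
          Q ∣ (gδ G l).map (algebraMap R (FractionRing R)) ∧
          (∀ m, Q ∣ (gδ G m).map (algebraMap R (FractionRing R)) → m = k ∨ m = l) ∧
          ∃ A B u v : (FractionRing R)[X],
            (gδ G k).map (algebraMap R (FractionRing R)) = Q * A ∧
            (gδ G l).map (algebraMap R (FractionRing R)) = Q * B ∧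
            Q ∣ u ^ 2 + A * B * v ^ 2 - f.map (algebraMap R (FractionRing R)) := by
  set φ : R[X] →+* (FractionRing R)[X] := Polynomial.mapRingHom (algebraMap R (FractionRing R))
    with hφ
  have hm : ∀ q : R[X], q.map (algebraMap R (FractionRing R)) = φ q := fun q => rfl
  have hδ : ∀ k, φ (gδ G k) = gδ (fun i => φ (G i)) k := fun k => COND_map G φ k
  have hge : ∀ i, φ (ge G i) = ge (fun i => φ (G i)) i := fun i => COND_mape G φ i
  have hsq : ∀ i, Squarefree (φ (G i)) := fun i => COND_sqa (hD.side i)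
  have hnd : ∀ (i : Fin 8) (Q : (FractionRing R)[X]), Irreducible Q → Q ∣ φ (G i) →
      ∀ j, j ≠ i → ¬ Q ∣ φ (G j) := by
    intro i Q hQ hQi j hj hQj
    refine COND_nd (hD.side i) Q hQ hQi ?_
    have h1 : G j ∣ ge G i * grest G i ^ 2 := by
      refine Dvd.dvd.mul_left (Dvd.dvd.trans ?_ (dvd_pow_self _ two_ne_zero)) _
      exact Finset.dvd_prod_of_mem _ (Finset.mem_erase.2 ⟨hj, Finset.mem_univ j⟩)
    exact hQj.trans (Polynomial.map_dvd _ h1)
  constructor
  · intro k
    rw [hm, hδ]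
    refine COND_sq (fun i => φ (G i)) hsq ?_ inferInstance k
    intro i j hij d hdi hdj
    by_contra hu
    have hd0 : d ≠ 0 := by
      rintro rfl
      exact (hsq i).ne_zero (zero_dvd_iff.1 hdi)
    obtain ⟨Q, hQ, hQd⟩ := WfDvdMonoid.exists_irreducible_factor hu hd0
    exact hnd i Q hQ (hQd.trans hdi) j hij.symm (hQd.trans hdj)
  · intro f hf Q hQ k hk
    rw [hm, hδ] at hk
    obtain ⟨i, hi⟩ := COND_ex _ Q hQ.prime k hk
    have hi' : Q ∣ φ (G i) := hi
    obtain ⟨k0, l0, α, β, s, t, hne, hk0, hl0, hαβ, he, hall⟩ :=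
      COND_two (fun i => φ (G i)) Q hQ.prime i (fun j hj => hnd i Q hQ hi' j hj)
    obtain ⟨u, v', huv⟩ := hf i Q hQ hi'
    obtain ⟨g', hg'⟩ := hi'
    have hcop : IsCoprime Q g' := by
      refine hQ.coprime_iff_not_dvd.2 fun h => ?_
      have h1 : Q * Q ∣ φ (G i) := by
        rw [hg']
        exact mul_dvd_mul_left Q h
      exact hQ.not_isUnit (hsq i Q h1)
    have huv' : Q ∣ u ^ 2 - ge (fun i => φ (G i)) i * φ (grest G i) ^ 2 * v' ^ 2 - φ f := by
      rw [← hge]
      rw [hm, hm, map_mul, map_pow] at huv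
      exact huv
    rcases hall k hk with rfl | rfl
    · obtain ⟨u1, v1, h1⟩ := COND_solve Q g' s t (φ (grest G i)) u v' (φ f) α β _ hαβ he hcop huv'
      refine ⟨l0, hne.symm, ?_, ?_, g' * α, g' * β, u1, v1, ?_, ?_, ?_⟩
      · rw [hm, hδ, hl0]
        exact Dvd.dvd.mul_right hi _
      · intro m hQm
        rw [hm, hδ] at hQm
        exact hall m hQm
      · rw [hm, hδ, hk0]
        show φ (G i) * α = _
        rw [hg', mul_assoc]
      · rw [hm, hδ, hl0]
        show φ (G i) * β = _
        rw [hg', mul_assoc]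
      · exact h1
    · obtain ⟨u1, v1, h1⟩ := COND_solve Q g' s t (φ (grest G i)) u v' (φ f) β α _
        (by rw [mul_comm, hαβ]) he hcop huv'
      refine ⟨k0, hne, ?_, ?_, g' * β, g' * α, u1, v1, ?_, ?_, ?_⟩
      · rw [hm, hδ, hk0]
        exact Dvd.dvd.mul_right hi _
      · intro m hQm
        rw [hm, hδ] at hQm
        exact (hall m hQm).symm
      · rw [hm, hδ, hl0]
        show φ (G i) * β = _
        rw [hg', mul_assoc]
      · rw [hm, hδ, hk0]
        show φ (G i) * α = _
        rw [hg', mul_assoc]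
      · exact h1

end Pool.Agent.QTB
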