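import Pool.Agent.QTB.Dat4
import Pool.Agent.QCB.DX

/-!
# QTB, module DX4: good data exist after shrinking the base curve

Proof. As `Pool.Agent.QCB.DX`: `DXP1` for `O = R`, `DXS` for the eight pairs `G i`, `ge G i * grest G i ^ 2` (coprime over `L`: `ge G i` is a product of some
`G j`, `j ≠ i`), `fin_res`, `2 ∣ r`; choose `r` divisible by everything (`ge`, `grest` commute with `Polynomial.map`).
-/

set_option autoImplicit false

namespace Pool.Agent.QTB

open Polynomial Pool.Agent.QCB Pool.Agent.Helper67.Bass

theorem DX4_ge {R S : Type} [CommRing R] [CommRing S] (f : R →+* S) (G : Fin 8 → R[X])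
    (i : Fin 8) : ge (fun j => (G j).map f) i = (ge G i).map f := by
  fin_cases i <;> simp [ge, ga, gb, gc, gd]

theorem DX4_grest {R S : Type} [CommRing R] [CommRing S] (f : R →+* S) (G : Fin 8 → R[X])
    (i : Fin 8) : grest (fun j => (G j).map f) i = (grest G i).map f := by
  unfold grest
  rw [Polynomial.map_prod]

theorem DX4_co {P : Type} [CommRing P] (G : Fin 8 → P)
    (hco : ∀ i j, i ≠ j → IsCoprime (G i) (G j)) (i : Fin 8) :
    IsCoprime (G i) (ge G i * grest G i ^ 2) := by
  refine IsCoprime.mul_right ?_ (IsCoprime.pow_right ?_)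
  · fin_cases i
    · show IsCoprime (G 0) (G 1 * G 6 * G 7)
      exact ((hco _ _ (by decide)).mul_right (hco _ _ (by decide))).mul_right
        (hco _ _ (by decide))
    · show IsCoprime (G 1) (G 0 * G 4 * G 5)
      exact ((hco _ _ (by decide)).mul_right (hco _ _ (by decide))).mul_right
        (hco _ _ (by decide))
    · show IsCoprime (G 2) (G 3 * G 5 * G 7)
      exact ((hco _ _ (by decide)).mul_right (hco _ _ (by decide))).mul_right
        (hco _ _ (by decide))
    · show IsCoprime (G 3) (G 2 * G 4 * G 6)
      exact ((hco _ _ (by decide)).mul_right (hco _ _ (by decide))).mul_right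
        (hco _ _ (by decide))
    · show IsCoprime (G 4) (G 1 * G 6 * G 7 * (G 3 * G 5 * G 7))
      exact (((hco _ _ (by decide)).mul_right (hco _ _ (by decide))).mul_right
        (hco _ _ (by decide))).mul_right (((hco _ _ (by decide)).mul_right
          (hco _ _ (by decide))).mul_right (hco _ _ (by decide)))
    · show IsCoprime (G 5) (G 1 * G 6 * G 7 * (G 2 * G 4 * G 6))
      exact (((hco _ _ (by decide)).mul_right (hco _ _ (by decide))).mul_right
        (hco _ _ (by decide))).mul_right (((hco _ _ (by decide)).mul_right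
          (hco _ _ (by decide))).mul_right (hco _ _ (by decide)))
    · show IsCoprime (G 6) (G 0 * G 4 * G 5 * (G 3 * G 5 * G 7))
      exact (((hco _ _ (by decide)).mul_right (hco _ _ (by decide))).mul_right
        (hco _ _ (by decide))).mul_right (((hco _ _ (by decide)).mul_right
          (hco _ _ (by decide))).mul_right (hco _ _ (by decide)))
    · show IsCoprime (G 7) (G 0 * G 4 * G 5 * (G 2 * G 4 * G 6))
      exact (((hco _ _ (by decide)).mul_right (hco _ _ (by decide))).mul_right
        (hco _ _ (by decide))).mul_right (((hco _ _ (by decide)).mul_right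
          (hco _ _ (by decide))).mul_right (hco _ _ (by decide)))
  · unfold grest
    exact IsCoprime.prod_right fun j hj => hco i j (Finset.ne_of_mem_erase hj).symm

theorem DX4 {R : Type} [CommRing R] [IsDomain R] [Algebra.FiniteType ℤ R]
    (hK : KroneckerLeOne (FractionRing R)) (h2 : (2 : R) ≠ 0) (G : Fin 8 → R[X])
    (hne : ∀ i, G i ≠ 0) (hsq : ∀ i, Squarefree ((G i).map (algebraMap R (FractionRing R))))
    (hco : ∀ i j, i ≠ j → IsCoprime ((G i).map (algebraMap R (FractionRing R)))
      ((G j).map (algebraMap R (FractionRing R)))) :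
    ∃ r : R, r ≠ 0 ∧ ∃ _ : IsDomain (Localization.Away r),
      Dat4 (fun i => (G i).map (algebraMap R (Localization.Away r))) := by
  obtain ⟨r1, hr1, h1⟩ := DXP1 (R := R) (O := R) hK
  obtain ⟨r2, hr2, h3⟩ := DXS_all (R := R) (Finset.univ : Finset (Fin 8))
    (fun i r' => Side ((G i).map (algebraMap R (Localization.Away r')))
      ((ge G i * grest G i ^ 2).map (algebraMap R (Localization.Away r'))))
    (fun i _ => by
      refine DXS hK h2 (G i) (ge G i * grest G i ^ 2) (hsq i) (hne i) ?_
      have h := DX4_co (fun j => (G j).map (algebraMap R (FractionRing R))) hco i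
      rw [DX4_ge, DX4_grest, ← Polynomial.map_pow, ← Polynomial.map_mul] at h
      exact h)
  obtain ⟨r, hr⟩ : ∃ r, r = 2 * r1 * r2 := ⟨_, rfl⟩
  have hr0 : r ≠ 0 := hr ▸ mul_ne_zero (mul_ne_zero h2 hr1) hr2
  have d2 : r2 ∣ r := hr ▸ Dvd.intro_left _ rfl
  have e1 : 2 * r1 ∣ r := hr ▸ Dvd.intro _ rfl
  have d1 : r1 ∣ r := (Dvd.intro_left _ rfl).trans e1
  have d0 : 2 ∣ r := (Dvd.intro _ rfl).trans e1
  have hdom : IsDomain (Localization.Away r) :=
    IsLocalization.isDomain_localization (powers_le_nonZeroDivisors_of_noZeroDivisors hr0)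
  have hunit : ∀ t : R, t ∣ r → IsUnit (algebraMap R (Localization.Away r) t) := fun t ht =>
    isUnit_of_dvd_unit (map_dvd _ ht) (IsLocalization.Away.algebraMap_isUnit r)
  have hinj : Function.Injective (algebraMap R (Localization.Away r)) :=
    IsLocalization.injective _ (powers_le_nonZeroDivisors_of_noZeroDivisors hr0)
  have f1 : Algebra.FiniteType R (Localization.Away r) := inferInstance
  have f3 : Algebra.FiniteType ℤ (Localization.Away r) := Algebra.FiniteType.trans (S := R)
    inferInstance inferInstance
  have f4 := DXS_int _ f3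
  have hpid : IsPrincipalIdealRing (Localization.Away r) := h1 r hr0 d1
  refine ⟨r, hr0, hdom, ?_⟩
  refine ⟨hpid, ?_, ?_, ?_, ?_⟩
  · have := hunit 2 d0
    rwa [map_ofNat] at this
  · intro π hπ
    exact fin_res _ π hπ
  · intro i h
    exact hne i (Polynomial.map_injective _ hinj (by rw [h, Polynomial.map_zero]))
  · intro i
    have h := h3 r hr0 d2 i (Finset.mem_univ i)
    rw [DX4_ge, DX4_grest, ← Polynomial.map_pow, ← Polynomial.map_mul]
    exact h

end Pool.Agent.QTB
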