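import Pool.Agent.QTB.L0
import Pool.Agent.QCB.Dat

/-!
# QTB: good data for biquaternion algebras on an arithmetic curve

`a = A P₁ P₂`, `b = B P₃ P₄`, `c = C P₁ P₃`, `d = D P₂ P₄` with pairwise coprime squarefree `A = G 0`, `B = G 1`, `C = G 2`, `D = G 3`,
`P₁ = G 4`, `P₂ = G 5`, `P₃ = G 6`, `P₄ = G 7`. Up to squares, `λ alc = δ` for `λ = P₁ P₂ P₃ P₄` and `δ = gδ G`; every prime factor of the
product of the `G i` divides exactly two of the `δ k`; the residue of the algebra at a prime factor `Q` of `G i` is `ge G i`.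
-/

set_option autoImplicit false

namespace Pool.Agent.QTB

open Polynomial Pool.Agent.QCB

section
variable {P : Type} [CommRing P] (G : Fin 8 → P)

/-- `a` -/
def ga : P := G 0 * G 4 * G 5
/-- `b` -/
def gb : P := G 1 * G 6 * G 7
/-- `c` -/
def gc : P := G 2 * G 4 * G 6
/-- `d` -/
def gd : P := G 3 * G 5 * G 7

/-- the residues at the prime factors of `G i` (up to squares) -/
def ge : Fin 8 → P :=
  ![gb G, ga G, gd G, gc G, gb G * gd G, gb G * gc G, ga G * gd G, ga G * gc G]

/-- the product of the other polynomials -/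
def grest (i : Fin 8) : P := ∏ j ∈ Finset.univ.erase i, G j

/-- the normalised form `δ`, similar to the Albert form of `(ga G, gb G) ⊗ (gc G, gd G)` -/
def gδ : Fin 6 → P :=
  ![G 0 * G 6 * G 7, G 1 * G 4 * G 5, -(G 0 * G 1), -(G 2 * G 5 * G 7), -(G 3 * G 4 * G 6),
    G 2 * G 3]

end

/-- good data: `R` is a principal ideal domain (an arithmetic curve, made small) -/
structure Dat4 {R : Type} [CommRing R] [IsDomain R] (G : Fin 8 → R[X]) : Prop where
  pid : IsPrincipalIdealRing R
  two : IsUnit (2 : R)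
  fin : ∀ π : R, Prime π → Finite (R ⧸ Ideal.span {π})
  ne : ∀ i, G i ≠ 0
  side : ∀ i, Side (G i) (ge G i * grest G i ^ 2)

end Pool.Agent.QTB
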