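import Pool.Agent.QTB.REPN

/-!
# QTB, module FORM1: modules killed by a prime element, general orders

Proof (compare QCB/TQ.lean). For `z ∉ qΛ` let `T_z = Λ z / (Λ z ∩ q Λ)` (the submodule of `Λ ⧸ q Λ` generated by `z`). It is
torsion free over `A/(q)` (`Λ ⧸ qΛ` is free over it) and nonzero, so `l(T_z) > 0`. Choose `z` with `l(T_z) = r` least (`z = 1` is
possible: `Λ` is free and nontrivial, so `1 ∉ qΛ`), `t = ψ(T_z)`. `RepAt`: `REPN` for `T_z`; its number is `l(T_z)` by `h4`.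
Claim by induction on `l(N)`: divide by the torsion submodule (all `n` killed by some `s`, `q ∤ s`; killed by one `s`; `h1`,
`hpn`). If `N ≠ 0` is torsion free over `A/(q)` then `z` does not kill `N` (otherwise `Sim` gives `s`), say `z n ≠ 0`;
`T_z → N`, `y z ↦ y z n`, is well defined (`q N = 0`) and injective: if `y z n = 0` with `y z ∉ qΛ`, then `T_{yz} ⊆ T_z` has
the same `l` by minimality, so some `s`, `q ∤ s`, kills `T_z / T_{yz}` (`h3`), so `s z n ∈ Λ y z n = 0`, a contradiction. Now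
`l(N) = r + l(N / T_z)`, `ψ(N) = t + ψ(N / T_z)`.
-/

set_option autoImplicit false

namespace Pool.Agent.QTB

open Pool.Agent.QCB

section form1

variable {A Λ : Type} [CommRing A] [Ring Λ] [Algebra A Λ]

private theorem FORM1_mem (q : A) (x : Λ) :
    x ∈ Ideal.span {algebraMap A Λ q} ↔ ∃ w : Λ, x = algebraMap A Λ q * w := by
  constructor
  · intro h
    obtain ⟨c, hc⟩ := Submodule.mem_span_singleton.1 h
    refine ⟨c, ?_⟩
    rw [← hc, smul_eq_mul, Algebra.commutes]
  · rintro ⟨w, rfl⟩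
    refine Submodule.mem_span_singleton.2 ⟨w, ?_⟩
    rw [smul_eq_mul, Algebra.commutes]

private theorem FORM1_comm (s : A) (y : Λ) {N : Type} [AddCommGroup N] [Module Λ N]
    (x : N) : algebraMap A Λ s • (y • x) = y • (algebraMap A Λ s • x) := by
  rw [← mul_smul, ← mul_smul, Algebra.commutes]

/-- a finitely generated module all of whose elements are torsion is killed by one element -/
private theorem FORM1_kil (q : A) (hq : Prime q) (N : Type) [AddCommGroup N]
    [Module Λ N] [Module.Finite Λ N]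
    (h : ∀ x : N, ∃ s : A, ¬ q ∣ s ∧ algebraMap A Λ s • x = 0) :
    ∃ s : A, ¬ q ∣ s ∧ Kil (Λ := Λ) s N := by
  classical
  obtain ⟨S, hS⟩ := Module.Finite.fg_top (R := Λ) (M := N)
  have h1 : ∀ F : Finset N, ∃ s : A, ¬ q ∣ s ∧ ∀ x ∈ F, algebraMap A Λ s • x = 0 := by
    intro F
    induction F using Finset.induction_on with
    | empty => exact ⟨1, fun h => hq.not_unit (isUnit_of_dvd_one h), by simp⟩
    | insert x F _ ih =>
      obtain ⟨s, hs, hsF⟩ := ih
      obtain ⟨s', hs', hx⟩ := h x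
      refine ⟨s * s', fun h => (hq.dvd_or_dvd h).elim hs hs', ?_⟩
      intro y hy
      rw [map_mul, mul_smul]
      rcases Finset.mem_insert.1 hy with rfl | hy
      · rw [hx, smul_zero]
      · rw [FORM1_comm, hsF y hy, smul_zero]
  obtain ⟨s, hs, hsF⟩ := h1 S
  refine ⟨s, hs, fun x => ?_⟩
  have hx : x ∈ Submodule.span Λ (S : Set N) := by rw [hS]; trivial
  induction hx using Submodule.span_induction with
  | mem x hx => exact hsF x hx
  | zero => exact smul_zero _
  | add x y _ _ h1 h2 => rw [smul_add, h1, h2, add_zero]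
  | smul c x _ h1 => rw [FORM1_comm, h1, smul_zero]

/-- the torsion submodule -/
private def FORM1_tors (q : A) (hq : Prime q) (N : Type) [AddCommGroup N] [Module Λ N] :
    Submodule Λ N where
  carrier := {x | ∃ s : A, ¬ q ∣ s ∧ algebraMap A Λ s • x = 0}
  add_mem' := by
    rintro x y ⟨s, hs, hx⟩ ⟨s', hs', hy⟩
    refine ⟨s * s', fun h => (hq.dvd_or_dvd h).elim hs hs', ?_⟩
    rw [map_mul, smul_add, mul_smul, mul_smul, hy, smul_zero, add_zero, FORM1_comm, hx, smul_zero]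
  zero_mem' := ⟨1, fun h => hq.not_unit (isUnit_of_dvd_one h), smul_zero _⟩
  smul_mem' := by
    rintro c x ⟨s, hs, hx⟩
    exact ⟨s, hs, by rw [FORM1_comm, hx, smul_zero]⟩

private theorem FORM1_quot (q : A) (hq : Prime q) (N : Type) [AddCommGroup N]
    [Module Λ N] (s : A) (n : N ⧸ FORM1_tors (A := A) (Λ := Λ) q hq N) (hs : ¬ q ∣ s)
    (h : algebraMap A Λ s • n = 0) : n = 0 := by
  obtain ⟨x, rfl⟩ := Submodule.Quotient.mk_surjective _ n
  rw [← Submodule.Quotient.mk_smul, Submodule.Quotient.mk_eq_zero] at h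
  rw [Submodule.Quotient.mk_eq_zero]
  obtain ⟨s', hs', h'⟩ := h
  refine ⟨s' * s, fun h => (hq.dvd_or_dvd h).elim hs' hs, ?_⟩
  rw [map_mul, mul_smul]
  exact h'

private theorem FORM1_noeth [IsNoetherianRing A] [Module.Finite A Λ] : IsNoetherianRing Λ := by
  haveI : IsNoetherian A Λ := isNoetherian_of_isNoetherianRing_of_finite A Λ
  exact isNoetherian_of_tower A this

/-- the induction -/
private theorem FORM1_ind {Γ : Type 1} [AddCommGroup Γ] [IsDomain A] [IsNoetherianRing A]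
    [Module.Finite A Λ] (ψ : NAdd Λ Γ) (q : A) (hq : Prime q) (l : TAdd A Λ ℤ)
    (h0 : ∀ (N : Type) [AddCommGroup N] [Module Λ N], 0 ≤ l.val N)
    (h1 : ∀ (N : Type) [AddCommGroup N] [Module Λ N] [Module.Finite Λ N] (s : A),
      ¬ q ∣ s → Kil (Λ := Λ) s N → l.val N = 0)
    (hpn : ∀ (N : Type) [AddCommGroup N] [Module Λ N] [Module.Finite Λ N],
      Kil (Λ := Λ) q N → (∃ s : A, ¬ q ∣ s ∧ Kil (Λ := Λ) s N) → ψ.val N = 0)
    (S : Type) [AddCommGroup S] [Module Λ S] [Module.Finite Λ S] (m : ℕ)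
    (hm : 0 < m) (t : Γ) (hlS : l.val S = m) (hψS : ψ.val S = t)
    (hS : ∀ (N : Type) [AddCommGroup N] [Module Λ N] [Module.Finite Λ N],
      Kil (Λ := Λ) q N →
      (∀ (s : A) (n : N), ¬ q ∣ s → algebraMap A Λ s • n = 0 → n = 0) →
      Nontrivial N → ∃ f : S →ₗ[Λ] N, Function.Injective f) :
    ∀ (k : ℕ) (N : Type) [AddCommGroup N] [Module Λ N] [Module.Finite Λ N],
      Kil (Λ := Λ) q N → (l.val N).toNat ≤ k →
        ∃ r : ℕ, l.val N = m * r ∧ ψ.val N = r • t := by
  haveI : IsNoetherianRing Λ := FORM1_noeth (A := A)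
  have hq0 : q ≠ 0 := hq.ne_zero
  intro k
  induction k with
  | zero => ?_
  | succ k ih => ?_
  all_goals
    intro N _ _ _ hN hk
    haveI : Module.Finite Λ (FORM1_tors (A := A) (Λ := Λ) q hq N) := inferInstance
    have hkT : Kil (Λ := Λ) q (FORM1_tors (A := A) (Λ := Λ) q hq N) := by
      intro x
      ext
      exact hN _
    have hkQ : Kil (Λ := Λ) q (N ⧸ FORM1_tors (A := A) (Λ := Λ) q hq N) := by
      intro x
      obtain ⟨x, rfl⟩ := Submodule.Quotient.mk_surjective _ x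
      rw [← Submodule.Quotient.mk_smul, hN x, Submodule.Quotient.mk_zero]
    have hsT : ∃ s : A, ¬ q ∣ s ∧ Kil (Λ := Λ) s (FORM1_tors (A := A) (Λ := Λ) q hq N) := by
      refine FORM1_kil q hq _ ?_
      rintro ⟨x, s, hs, hx⟩
      exact ⟨s, hs, Subtype.ext hx⟩
    have e1 := ψ.add (FORM1_tors (A := A) (Λ := Λ) q hq N) N
      (N ⧸ FORM1_tors (A := A) (Λ := Λ) q hq N)
      (Submodule.subtype _) (Submodule.mkQ _) (Submodule.subtype_injective _)
      (Submodule.mkQ_surjective _) (LinearMap.exact_subtype_mkQ _)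
    have e2 := l.add (FORM1_tors (A := A) (Λ := Λ) q hq N) N
      (N ⧸ FORM1_tors (A := A) (Λ := Λ) q hq N)
      (Submodule.subtype _) (Submodule.mkQ _) (Submodule.subtype_injective _)
      (Submodule.mkQ_surjective _) (LinearMap.exact_subtype_mkQ _) ⟨q, hq0, hN⟩
    rw [hpn _ hkT hsT, zero_add] at e1
    obtain ⟨s, hs, hsK⟩ := hsT
    rw [h1 _ s hs hsK, zero_add] at e2
    rw [e1, e2]
    rcases subsingleton_or_nontrivial (N ⧸ FORM1_tors (A := A) (Λ := Λ) q hq N) with hsub | hnon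
    · have hs1 : ¬ q ∣ (1 : A) := fun h => hq.not_unit (isUnit_of_dvd_one h)
      have hk1 : Kil (Λ := Λ) (1 : A) (N ⧸ FORM1_tors (A := A) (Λ := Λ) q hq N) :=
        fun x => Subsingleton.elim _ _
      exact ⟨0, by rw [h1 _ 1 hs1 hk1]; simp, by rw [hpn _ hkQ ⟨1, hs1, hk1⟩, zero_smul]⟩
    obtain ⟨f, hf⟩ := hS _ hkQ (fun s n hs h => FORM1_quot q hq N s n hs h) hnon
    have hex : Function.Exact f (Submodule.mkQ (LinearMap.range f)) :=
      LinearMap.exact_map_mkQ_range f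
    have e3 := ψ.add S _ _ f (Submodule.mkQ (LinearMap.range f)) hf
      (Submodule.mkQ_surjective _) hex
    have e4 := l.add S _ _ f (Submodule.mkQ (LinearMap.range f)) hf
      (Submodule.mkQ_surjective _) hex ⟨q, hq0, hkQ⟩
    have h0C := h0 ((N ⧸ FORM1_tors (A := A) (Λ := Λ) q hq N) ⧸ LinearMap.range f)
    have hlN := e2
    rw [e4, hlS] at hlN
  · exfalso
    omega
  · have hkC : Kil (Λ := Λ) q
        ((N ⧸ FORM1_tors (A := A) (Λ := Λ) q hq N) ⧸ LinearMap.range f) := by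
      intro x
      obtain ⟨x, rfl⟩ := Submodule.Quotient.mk_surjective _ x
      rw [← Submodule.Quotient.mk_smul, hkQ x, Submodule.Quotient.mk_zero]
    obtain ⟨r, hr1, hr2⟩ := ih _ hkC (by omega)
    refine ⟨1 + r, ?_, ?_⟩
    · rw [e4, hlS, hr1]
      push_cast
      ring
    · rw [e3, hψS, hr2, add_smul, one_smul]

/-- `Λ / q Λ` -/
private abbrev FORM1_M (Λ : Type) [Ring Λ] [Algebra A Λ] (q : A) : Type :=
  Λ ⧸ Ideal.span {algebraMap A Λ q}

private theorem FORM1_mk0 (q : A) (x : Λ) :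
    (Submodule.Quotient.mk x : FORM1_M Λ q) = 0 ↔ ∃ w : Λ, x = algebraMap A Λ q * w := by
  rw [Submodule.Quotient.mk_eq_zero, FORM1_mem]

private theorem FORM1_killM (q : A) : Kil (Λ := Λ) q (FORM1_M Λ q) := by
  intro x
  obtain ⟨x, rfl⟩ := Submodule.Quotient.mk_surjective _ x
  rw [← Submodule.Quotient.mk_smul, FORM1_mk0]
  exact ⟨x, rfl⟩

/-- the map `Λ / q Λ → N`, `y ↦ y n` -/
private def FORM1_map (q : A) {N : Type} [AddCommGroup N] [Module Λ N]
    (hN : Kil (Λ := Λ) q N) (n : N) : FORM1_M Λ q →ₗ[Λ] N :=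
  Submodule.liftQ (Ideal.span {algebraMap A Λ q})
    (LinearMap.toSpanSingleton Λ N n) (by
      rw [Ideal.span, Submodule.span_le]
      rintro x hx
      rw [Set.mem_singleton_iff] at hx
      rw [hx, SetLike.mem_coe, LinearMap.mem_ker, LinearMap.toSpanSingleton_apply]
      exact hN n)

private theorem FORM1_map_mk (q : A) {N : Type} [AddCommGroup N] [Module Λ N]
    (hN : Kil (Λ := Λ) q N) (n : N) (y : Λ) :
    FORM1_map q hN n (Submodule.Quotient.mk y) = y • n := rfl

private theorem FORM1_dvd [Module.Free A Λ] (q : A) (x : Λ) :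
    (∃ w : Λ, x = algebraMap A Λ q * w) ↔
      ∀ i, q ∣ (Module.Free.chooseBasis A Λ).repr x i := by
  constructor
  · rintro ⟨w, rfl⟩ i
    rw [← Algebra.smul_def, map_smul, Finsupp.smul_apply, smul_eq_mul]
    exact dvd_mul_right _ _
  · intro h
    choose c hc using h
    have hcs : (Function.support c) ⊆ Function.support c := subset_rfl
    by_cases hq0 : q = 0
    · refine ⟨0, ?_⟩
      have hz : (Module.Free.chooseBasis A Λ).repr x = 0 := by
        ext i
        rw [hc i, hq0, zero_mul]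
        rfl
      rw [mul_zero]
      exact (LinearEquiv.map_eq_zero_iff _).1 hz
    · refine ⟨∑ i ∈ ((Module.Free.chooseBasis A Λ).repr x).support,
        c i • (Module.Free.chooseBasis A Λ) i, ?_⟩
      rw [← Algebra.smul_def, Finset.smul_sum]
      conv_lhs => rw [← (Module.Free.chooseBasis A Λ).linearCombination_repr x]
      rw [Finsupp.linearCombination_apply, Finsupp.sum]
      refine Finset.sum_congr rfl fun i _ => ?_
      rw [smul_smul, ← hc i]

private theorem FORM1_tfM [Module.Free A Λ] (q : A) (hq : Prime q) (s : A) (n : FORM1_M Λ q)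
    (hs : ¬ q ∣ s) (h : algebraMap A Λ s • n = 0) : n = 0 := by
  obtain ⟨x, rfl⟩ := Submodule.Quotient.mk_surjective _ n
  rw [← Submodule.Quotient.mk_smul, FORM1_mk0, FORM1_dvd] at h
  rw [FORM1_mk0, FORM1_dvd]
  intro i
  have hi := h i
  rw [smul_eq_mul, ← Algebra.smul_def, map_smul, Finsupp.smul_apply, smul_eq_mul] at hi
  exact (hq.dvd_or_dvd hi).resolve_left hs

private theorem FORM1_one [Module.Free A Λ] [Nontrivial Λ] (q : A) (hq : Prime q) :
    ¬ ∃ w : Λ, (1 : Λ) = algebraMap A Λ q * w := by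
  rintro ⟨w, hw⟩
  have hall : ∀ x : Λ, ∃ v : Λ, x = algebraMap A Λ q * v := fun x =>
    ⟨w * x, by rw [← mul_assoc, ← hw, one_mul]⟩
  haveI : Nontrivial A := by
    by_contra hA
    rw [not_nontrivial_iff_subsingleton] at hA
    exact hq.ne_zero (Subsingleton.elim _ _)
  have hne : Nonempty (Module.Free.ChooseBasisIndex A Λ) :=
    (Module.Free.chooseBasis A Λ).index_nonempty
  obtain ⟨i⟩ := hne
  have := (FORM1_dvd q ((Module.Free.chooseBasis A Λ) i)).1 (hall _) i
  rw [Module.Basis.repr_self, Finsupp.single_eq_same] at this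
  exact hq.not_unit (isUnit_of_dvd_one this)

end form1

theorem FORM1 {A Λ : Type} [CommRing A] [IsDomain A] [IsNoetherianRing A] [Ring Λ] [Algebra A Λ]
    [Module.Finite A Λ] [Module.Free A Λ] [Nontrivial Λ] (q : A) (hq : Prime q)
    (hsim : Sim A Λ q) (l : TAdd A Λ ℤ)
    (h0 : ∀ (N : Type) [AddCommGroup N] [Module Λ N], 0 ≤ l.val N)
    (h1 : ∀ (N : Type) [AddCommGroup N] [Module Λ N] [Module.Finite Λ N] (s : A), ¬ q ∣ s →
      Kil s N (Λ := Λ) → l.val N = 0)
    (h3 : ∀ (N : Type) [AddCommGroup N] [Module Λ N] [Module.Finite Λ N], Kil q N (Λ := Λ) →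
      l.val N = 0 → ∃ s : A, ¬ q ∣ s ∧ Kil s N (Λ := Λ))
    (h4 : ∀ (N : Type) [AddCommGroup N] [Module Λ N] [Module.Finite Λ N], Kil q N (Λ := Λ) →
      ∀ (r : ℕ) (e : Fin r → N),
        (∀ c : Fin r → A, ∑ i, algebraMap A Λ (c i) • e i = 0 → ∀ i, q ∣ c i) →
        (∃ s : A, ¬ q ∣ s ∧ ∀ x : N, ∃ c : Fin r → A,
          algebraMap A Λ s • x = ∑ i, algebraMap A Λ (c i) • e i) →
        l.val N = r)
    {Γ : Type 1} [AddCommGroup Γ] (ψ : NAdd Λ Γ)
    (hpn : ∀ (N : Type) [AddCommGroup N] [Module Λ N] [Module.Finite Λ N], Kil q N (Λ := Λ) →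
      (∃ s : A, ¬ q ∣ s ∧ Kil s N (Λ := Λ)) → ψ.val N = 0) :
    ∃ (r : ℕ) (t : Γ), 0 < r ∧ RepAt A Λ q r ∧
      ∀ (N : Type) [AddCommGroup N] [Module Λ N] [Module.Finite Λ N], Kil q N (Λ := Λ) →
        ∃ k : ℕ, l.val N = r * k ∧ ψ.val N = k • t := by
  classical
  haveI : IsNoetherianRing Λ := FORM1_noeth (A := A)
  have hq0 : q ≠ 0 := hq.ne_zero
  have hM := FORM1_killM (Λ := Λ) q
  let T : Λ → Submodule Λ (FORM1_M Λ q) := fun z =>
    Submodule.span Λ {(Submodule.Quotient.mk z : FORM1_M Λ q)}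
  have hkT : ∀ z, Kil (Λ := Λ) q (T z) := fun z x => Subtype.ext (hM x.1)
  have hmem : ∀ z y : Λ, (Submodule.Quotient.mk (y * z) : FORM1_M Λ q) ∈ T z := fun z y =>
    Submodule.mem_span_singleton.2 ⟨y, rfl⟩
  -- the least value
  have hex : ∃ k : ℕ, ∃ z : Λ, (¬ ∃ w : Λ, z = algebraMap A Λ q * w) ∧ (l.val (T z)).toNat = k :=
    ⟨_, 1, FORM1_one q hq, rfl⟩
  obtain ⟨z, hz, hzk⟩ := Nat.find_spec hex
  have hmin : ∀ z' : Λ, (¬ ∃ w : Λ, z' = algebraMap A Λ q * w) →
      (l.val (T z)).toNat ≤ (l.val (T z')).toNat := by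
    intro z' hz'
    rw [hzk]
    exact Nat.find_min' hex ⟨z', hz', rfl⟩
  -- positivity
  have hpos : l.val (T z) ≠ 0 := by
    intro h
    obtain ⟨s, hs, hk⟩ := h3 (T z) (hkT z) h
    refine hz ?_
    rw [← FORM1_mk0]
    refine FORM1_tfM q hq s _ hs ?_
    have := hk ⟨Submodule.Quotient.mk (1 * z), hmem z 1⟩
    have h' : (Submodule.Quotient.mk (algebraMap A Λ s * (1 * z)) : FORM1_M Λ q) = 0 :=
      congrArg Subtype.val this
    rw [one_mul] at h'
    exact h'
  obtain ⟨r, e, hrep, he1, he2⟩ := REPN q hq (T z) (hkT z)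
  have hlT : l.val (T z) = r := h4 (T z) (hkT z) r e he1 he2
  have hr : 0 < r := by
    rcases Nat.eq_zero_or_pos r with h | h
    · exact absurd (by rw [hlT, h]; rfl) hpos
    · exact h
  refine ⟨r, ψ.val (T z), hr, hrep, ?_⟩
  intro N _ _ _ hN
  refine FORM1_ind ψ q hq l h0 h1 hpn (T z) r hr (ψ.val (T z)) hlT rfl ?_ _ N hN le_rfl
  intro N _ _ _ hN ht hnon
  have hex : ∃ x : N, z • x ≠ 0 := by
    by_contra hno
    simp only [not_exists, not_not] at hno
    obtain ⟨s, hs, hks⟩ := hsim z hz N hno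
    obtain ⟨x, hx⟩ := exists_ne (0 : N)
    exact hx (ht s x hs (hks x))
  obtain ⟨x, hx⟩ := hex
  refine ⟨(FORM1_map q hN x).comp (T z).subtype, ?_⟩
  rw [injective_iff_map_eq_zero]
  rintro ⟨m, hm⟩ h
  obtain ⟨y, rfl⟩ := Submodule.mem_span_singleton.1 hm
  refine Subtype.ext ?_
  have hy : (y * z) • x = 0 := h
  change (Submodule.Quotient.mk (y * z) : FORM1_M Λ q) = 0
  by_contra hne
  have hyz : ¬ ∃ w : Λ, y * z = algebraMap A Λ q * w := fun h => hne ((FORM1_mk0 q _).2 h)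
  have hle : T (y * z) ≤ T z := by
    rw [Submodule.span_singleton_le_iff_mem]
    exact hmem z y
  have e4 := l.add (T (y * z)) (T z) (T z ⧸ LinearMap.range (Submodule.inclusion hle))
    (Submodule.inclusion hle) (Submodule.mkQ _) (Submodule.inclusion_injective hle)
    (Submodule.mkQ_surjective _) (LinearMap.exact_map_mkQ_range _) ⟨q, hq0, hkT z⟩
  have h5 := hmin (y * z) hyz
  have h6 := h0 (T (y * z))
  have h7 := h0 (T z ⧸ LinearMap.range (Submodule.inclusion hle))
  have h8 : l.val (T z ⧸ LinearMap.range (Submodule.inclusion hle)) = 0 := by omega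
  have hkC : Kil (Λ := Λ) q (T z ⧸ LinearMap.range (Submodule.inclusion hle)) := by
    intro x
    obtain ⟨x, rfl⟩ := Submodule.Quotient.mk_surjective _ x
    rw [← Submodule.Quotient.mk_smul, hkT z x, Submodule.Quotient.mk_zero]
  obtain ⟨s, hs, hk⟩ := h3 _ hkC h8
  have h9 := hk (Submodule.Quotient.mk ⟨Submodule.Quotient.mk (1 * z), hmem z 1⟩)
  rw [← Submodule.Quotient.mk_smul, Submodule.Quotient.mk_eq_zero, LinearMap.mem_range] at h9
  obtain ⟨⟨m', hm'⟩, h10⟩ := h9
  obtain ⟨y', rfl⟩ := Submodule.mem_span_singleton.1 hm'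
  have h11 := congrArg Subtype.val h10
  have h12 : (Submodule.Quotient.mk (y' * (y * z)) : FORM1_M Λ q) =
      Submodule.Quotient.mk (algebraMap A Λ s * (1 * z)) := h11
  have h13 := congrArg (FORM1_map q hN x) h12
  rw [FORM1_map_mk, FORM1_map_mk, mul_smul, hy, smul_zero, one_mul, mul_smul] at h13
  exact hx (ht s _ hs h13.symm)

end Pool.Agent.QTB
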