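import Pool.Agent.QTB.LENd
import Pool.Agent.QTB.FORM1

/-!
# QTB, module FORMg: torsion modules over general orders over a unique factorization domain

Proof (compare QCB/FORM.lean). For every prime `q` choose `l_q` (`LENd`) and `r_q`, `t_q` (`FORM1`), first for representatives of the
associate classes, so that `t`, `r` respect `Associated` (`RepAt A Λ q` depends only on `(q)`); `hpn` of `FORM1`: if `q`
and some `s` with `q ∤ s` kill `N`, then `PNul` (for a prime `q'` not associated to `q` take `q`). If a product `m` of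
primes kills `N` then `ψ(N) = ∑ k_q • t q` and `l_q(N) = r_q k_q` over the representatives of the prime factors: induction on `m` with
`0 → q N → N → N / q N → 0` and `l_{q'}(N / q N) = 0` for `q'` not associated to `q`. For `z` with `rn z ≠ 0`: `N = Λ ⧸ Λ z` is killed by `rn z`
(Cayley-Hamilton / adjugate), `ψ(N) = 0` (`ψ(Λ) = ψ(Λ z) + ψ(N)`, `Λ z ≅ Λ`), `l_q(N) = v_q(rn z)` by `LENd`.
-/

set_option autoImplicit false

namespace Pool.Agent.QTB

open Pool.Agent.QCB

/-! ### representatives of the associate classes -/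

/-- a representative of the associate class -/
private noncomputable def FORMg_rep {A : Type} [CommRing A] (q : A) : A :=
  Quot.out (Associates.mk q)

private theorem FORMg_rep_assoc {A : Type} [CommRing A] (q : A) : Associated (FORMg_rep q) q := by
  unfold FORMg_rep
  rw [← Associates.mk_eq_mk_iff_associated]
  exact Associates.quot_out _

private theorem FORMg_rep_eq {A : Type} [CommRing A] {q q' : A} (h : Associated q q') :
    FORMg_rep q = FORMg_rep q' := by
  unfold FORMg_rep
  rw [Associates.mk_eq_mk_iff_associated.2 h]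

private theorem FORMg_rep_prime {A : Type} [CommRing A] {q : A} (h : Prime q) :
    Prime (FORMg_rep q) := (FORMg_rep_assoc q).symm.prime h

private theorem FORMg_RepAt {A Λ : Type} [CommRing A] [IsDomain A] [Ring Λ] [Algebra A Λ] {q q' : A}
    (h : Associated q q') {m : ℕ} (h1 : RepAt A Λ q m) : RepAt A Λ q' m := by
  obtain ⟨E, hE, φ, ρ, ⟨h2, h3⟩, h4⟩ := h1
  exact ⟨E, hE, φ, ρ, ⟨by rw [h2]; exact Ideal.span_singleton_eq_span_singleton.2 h, h3⟩, h4⟩

/-! ### modules -/

/-- multiplication by an element of the center -/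
private def FORMg_mul {A Λ : Type} [CommRing A] [Ring Λ] [Algebra A Λ] (p : A) (N : Type)
    [AddCommGroup N] [Module Λ N] : N →ₗ[Λ] N where
  toFun x := algebraMap A Λ p • x
  map_add' x y := smul_add _ x y
  map_smul' c x := by
    rw [smul_smul, RingHom.id_apply, smul_smul, Algebra.commutes]

private theorem FORMg_kil {A Λ : Type} [CommRing A] [Ring Λ] [Algebra A Λ] (c : A) (d : Λ)
    (h : ∃ y : Λ, y * d = algebraMap A Λ c) : Kil (Λ := Λ) c (Λ ⧸ Ideal.span {d}) := by
  intro x
  obtain ⟨x, rfl⟩ := Submodule.Quotient.mk_surjective _ x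
  obtain ⟨y, hy⟩ := h
  rw [← Submodule.Quotient.mk_smul, Submodule.Quotient.mk_eq_zero, smul_eq_mul,
    Algebra.commutes, ← hy, ← mul_assoc]
  exact Ideal.mem_span_singleton'.2 ⟨x * y, rfl⟩

/-- the trivial additive function -/
private def FORMg_triv (A Λ : Type) [CommRing A] [Ring Λ] [Algebra A Λ] : TAdd A Λ ℤ where
  val := fun _ _ _ => 0
  add := fun _ _ _ _ _ _ _ _ _ _ _ _ _ _ _ _ _ _ => (add_zero 0).symm

private theorem FORMg_adj {A Λ : Type} [CommRing A] [Ring Λ] [Algebra A Λ] [Module.Finite A Λ]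
    [Module.Free A Λ] (z : Λ) : ∃ y : Λ, y * z = algebraMap A Λ (rn (A := A) z) := by
  classical
  let b := Module.Free.chooseBasis A Λ
  let M := LinearMap.toMatrix b b (LinearMap.mulRight A z)
  refine ⟨Matrix.toLin b b M.adjugate 1, ?_⟩
  have h1 : Matrix.toLin b b M (Matrix.toLin b b M.adjugate 1) = M.det • (1 : Λ) := by
    have h2 : Matrix.toLin b b (M * M.adjugate) 1 =
        Matrix.toLin b b M (Matrix.toLin b b M.adjugate 1) := by
      rw [Matrix.toLin_mul b b b]
      rfl
    rw [← h2, Matrix.mul_adjugate, map_smul, Matrix.toLin_one, LinearMap.smul_apply]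
    rfl
  have h3 : Matrix.toLin b b M = LinearMap.mulRight A z := Matrix.toLin_toMatrix b b _
  rw [h3] at h1
  have h4 : M.det = rn (A := A) z := LinearMap.det_toMatrix b _
  rw [h4, ← Algebra.algebraMap_eq_smul_one] at h1
  exact h1

private theorem FORMg_inj {A Λ : Type} [CommRing A] [IsDomain A] [Ring Λ] [Algebra A Λ]
    [Module.Finite A Λ] [Module.Free A Λ] (z : Λ) (hz : rn (A := A) z ≠ 0) (x : Λ)
    (hx : x * z = 0) : x = 0 := by
  by_contra h
  refine hz ?_
  unfold rn
  refine LinearMap.det_eq_zero_iff_ker_ne_bot.2 fun h1 => h ?_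
  have h2 : x ∈ LinearMap.ker (LinearMap.mulRight A z) := hx
  rw [h1] at h2
  exact (Submodule.mem_bot A).1 h2

private theorem FORMg_psi {A Λ : Type} [CommRing A] [IsDomain A] [Ring Λ] [Algebra A Λ]
    [Module.Finite A Λ] [Module.Free A Λ] {Γ : Type 1} [AddCommGroup Γ] (ψ : NAdd Λ Γ) (z : Λ)
    (hz : rn (A := A) z ≠ 0) : ψ.val (Λ ⧸ Ideal.span {z}) = 0 := by
  have h := ψ.add Λ Λ (Λ ⧸ Ideal.span {z}) (LinearMap.toSpanSingleton Λ Λ z)
    (Submodule.mkQ (Ideal.span {z}))
    (by
      rw [injective_iff_map_eq_zero]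
      intro x hx
      exact FORMg_inj (A := A) z hz x hx)
    (Submodule.mkQ_surjective _)
    (by
      rw [LinearMap.exact_iff, Submodule.ker_mkQ, LinearMap.range_toSpanSingleton])
  exact left_eq_add.1 h

private theorem FORMg_count {A : Type} [CommRing A] [IsDomain A] [DecidableEq A] (q : A)
    (hq : Prime q) (hqr : FORMg_rep q = q) (M : Multiset A)
    (hM : ∀ p ∈ M, Prime p ∧ FORMg_rep p = p) (c : A) (hc : Associated c M.prod) :
    q ^ M.count q ∣ c ∧ ¬ q ^ (M.count q + 1) ∣ c := by
  have h1 : M.prod = q ^ M.count q * (M.filter (fun x => ¬ q = x)).prod := by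
    conv_lhs => rw [← Multiset.filter_add_not (fun x => q = x) M]
    rw [Multiset.prod_add, Multiset.filter_eq, Multiset.prod_replicate]
  have h2 : ¬ q ∣ (M.filter (fun x => ¬ q = x)).prod := by
    intro h
    obtain ⟨p, hp, hqp⟩ := hq.exists_mem_multiset_dvd h
    rw [Multiset.mem_filter] at hp
    obtain ⟨h3, h4⟩ := hM p hp.1
    refine hp.2 ?_
    rw [← hqr, ← h4]
    exact FORMg_rep_eq (hq.associated_of_dvd h3 hqp)
  rw [h1] at hc
  constructor
  · exact (Dvd.intro _ rfl).trans hc.symm.dvd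
  · intro h
    have h3 := h.trans hc.dvd
    rw [pow_succ] at h3
    exact h2 ((mul_dvd_mul_iff_left (pow_ne_zero _ hq.ne_zero)).1 h3)

theorem FORMg {A Λ : Type} [CommRing A] [IsDomain A] [IsNoetherianRing A]
    [UniqueFactorizationMonoid A] [Ring Λ] [Algebra A Λ] [Module.Finite A Λ] [Module.Free A Λ]
    [Nontrivial Λ] (hsim : ∀ q : A, Prime q → Sim A Λ q) {Γ : Type 1} [AddCommGroup Γ]
    (ψ : NAdd Λ Γ)
    (hpn : ∀ (N : Type) [AddCommGroup N] [Module Λ N] [Module.Finite Λ N], PNul A Λ N →
      ψ.val N = 0) :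
    ∃ (t : A → Γ) (r : A → ℕ), (∀ q q' : A, Associated q q' → t q = t q' ∧ r q = r q') ∧
      (∀ q : A, Prime q → 0 < r q ∧ RepAt A Λ q (r q)) ∧
      (∀ z : Λ, rn (A := A) z ≠ 0 → ∃ m : Multiset A, (∀ q ∈ m, Prime q) ∧
        Associated (rn (A := A) z) (m.map fun q => q ^ r q).prod ∧ (m.map t).sum = 0) ∧
      ∀ (N : Type) [AddCommGroup N] [Module Λ N] [Module.Finite Λ N],
        (∃ s : A, s ≠ 0 ∧ Kil s N (Λ := Λ)) → ψ.val N ∈ AddSubgroup.closure (t '' {q | Prime q}) := by
  classical
  -- the data at a prime element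
  have hdat : ∀ q : A, ∃ (l : TAdd A Λ ℤ) (T : Γ) (R : ℕ), Prime q →
      (∀ (N : Type) [AddCommGroup N] [Module Λ N] [Module.Finite Λ N] (s : A),
        ¬ q ∣ s → Kil (Λ := Λ) s N → l.val N = 0) ∧
      (∀ (z : Λ) (k : ℕ), rn (A := A) z ≠ 0 → q ^ k ∣ rn (A := A) z →
        ¬ q ^ (k + 1) ∣ rn (A := A) z → l.val (Λ ⧸ Ideal.span {z}) = k) ∧
      (0 < R ∧ RepAt A Λ q R) ∧
      (∀ (N : Type) [AddCommGroup N] [Module Λ N] [Module.Finite Λ N],
        Kil (Λ := Λ) q N → ∃ k : ℕ, l.val N = R * k ∧ ψ.val N = k • T) := by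
    intro q
    by_cases hq : Prime q
    · obtain ⟨l, l0, l1, l2, l3, l4⟩ := LENd (Λ := Λ) q hq
      obtain ⟨R, T, hR, hR1, hT⟩ := FORM1 q hq (hsim q hq) l l0 l1 l2 l3 ψ (by
        intro N _ _ _ hkq hks
        obtain ⟨s, hs, hks⟩ := hks
        refine hpn N ⟨⟨q, hq.ne_zero, hkq⟩, fun q' hq' => ?_⟩
        by_cases h : q' ∣ q
        · have h1 : Associated q' q := hq'.associated_of_dvd hq h
          exact ⟨s, fun h2 => hs (h1.symm.dvd.trans h2), hks⟩
        · exact ⟨q, h, hkq⟩)
      exact ⟨l, T, R, fun _ => ⟨l1, l4, ⟨hR, hR1⟩, hT⟩⟩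
    · exact ⟨FORMg_triv A Λ, 0, 0, fun h => absurd h hq⟩
  choose l T R hdat' using hdat
  -- the main claim
  have hG : ∀ s : A, s ≠ 0 → ∀ (N : Type) [AddCommGroup N] [Module Λ N]
      [Module.Finite Λ N], Kil (Λ := Λ) s N → ∃ r : A →₀ ℕ,
      (∀ q, r q ≠ 0 → Prime q ∧ FORMg_rep q = q) ∧
      (∀ q, Prime q → FORMg_rep q = q → (l q).val N = (R q : ℤ) * (r q : ℤ)) ∧
      ψ.val N = r.sum fun q n => n • T q := by
    intro s
    refine UniqueFactorizationMonoid.induction_on_prime s (fun h => absurd rfl h) ?_ ?_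
    · intro u hu hu0 N _ _ _ hk
      have hnd : ∀ q, Prime q → ¬ q ∣ u := fun q hq h => hq.not_isUnit (isUnit_of_dvd_unit h hu)
      refine ⟨0, fun q h => absurd rfl h, fun q hq _ => ?_, ?_⟩
      · rw [(hdat' q hq).1 N u (hnd q hq) hk]
        simp
      · rw [hpn N ⟨⟨u, hu0, hk⟩, fun q hq => ⟨u, hnd q hq, hk⟩⟩, Finsupp.sum_zero_index]
    · intro s' p hs' hp ih hps N _ _ _ hk
      have hp' := FORMg_rep_prime hp
      obtain ⟨r', h1, h2, h3⟩ := ih hs' (LinearMap.range (FORMg_mul (Λ := Λ) p N)) (by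
        rintro ⟨x, y, rfl⟩
        refine Subtype.ext ?_
        show algebraMap A Λ s' • (algebraMap A Λ p • y) = 0
        rw [smul_smul, ← map_mul, mul_comm]
        exact hk y)
      have hkil : Kil (Λ := Λ) (FORMg_rep p)
          (N ⧸ LinearMap.range (FORMg_mul (Λ := Λ) p N)) := by
        intro x
        obtain ⟨x, rfl⟩ := Submodule.Quotient.mk_surjective _ x
        rw [← Submodule.Quotient.mk_smul, Submodule.Quotient.mk_eq_zero]
        obtain ⟨u, hu⟩ := (FORMg_rep_assoc p).symm.dvd
        refine ⟨algebraMap A Λ u • x, ?_⟩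
        show algebraMap A Λ p • (algebraMap A Λ u • x) = _
        rw [smul_smul, ← map_mul, ← hu]
      obtain ⟨r0, h4, h5⟩ := (hdat' _ hp').2.2.2 _ hkil
      have hex := LinearMap.exact_subtype_mkQ (LinearMap.range (FORMg_mul (Λ := Λ) p N))
      have hi : Function.Injective (LinearMap.range (FORMg_mul (Λ := Λ) p N)).subtype :=
        Submodule.injective_subtype _
      have hsu : Function.Surjective (LinearMap.range (FORMg_mul (Λ := Λ) p N)).mkQ :=
        Submodule.mkQ_surjective _
      refine ⟨r' + Finsupp.single (FORMg_rep p) r0, ?_, ?_, ?_⟩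
      · intro q hq
        by_cases hqp : q = FORMg_rep p
        · rw [hqp]
          exact ⟨hp', FORMg_rep_eq (FORMg_rep_assoc p)⟩
        · refine h1 q fun h => hq ?_
          rw [Finsupp.add_apply, h, Finsupp.single_eq_of_ne hqp, add_zero]
      · intro q hq hqr
        rw [(l q).add _ _ _ _ _ hi hsu hex ⟨p * s', hps, hk⟩, h2 q hq hqr, Finsupp.add_apply]
        by_cases hqp : q = FORMg_rep p
        · rw [hqp, h4, Finsupp.single_eq_same]
          push_cast
          ring
        · rw [Finsupp.single_eq_of_ne hqp, (hdat' q hq).1 _ (FORMg_rep p) (fun h => hqp ?_) hkil]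
          · push_cast
            ring
          · have h6 : Associated q (FORMg_rep p) := hq.associated_of_dvd hp' h
            rw [← hqr, FORMg_rep_eq h6]
            exact FORMg_rep_eq (FORMg_rep_assoc p)
      · rw [ψ.add _ _ _ _ _ hi hsu hex, h3, h5,
          Finsupp.sum_add_index' (h := fun q n => n • T q) (fun q => zero_smul ℕ _)
            (fun q m n => add_smul m n _),
          Finsupp.sum_single_index (h := fun q n => n • T q) (zero_smul ℕ _)]
  refine ⟨fun q => T (FORMg_rep q), fun q => R (FORMg_rep q), ?_, ?_, ?_, ?_⟩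
  · intro q q' h
    show T (FORMg_rep q) = T (FORMg_rep q') ∧ R (FORMg_rep q) = R (FORMg_rep q')
    rw [FORMg_rep_eq h]
    exact ⟨rfl, rfl⟩
  · intro q hq
    obtain ⟨h1, h2⟩ := (hdat' _ (FORMg_rep_prime hq)).2.2.1
    exact ⟨h1, FORMg_RepAt (FORMg_rep_assoc q) h2⟩
  · intro z hz
    obtain ⟨r, h1, h2, h3⟩ := hG (rn (A := A) z) hz (Λ ⧸ Ideal.span {z})
      (FORMg_kil _ _ (FORMg_adj z))
    rw [FORMg_psi (A := A) ψ z hz] at h3
    obtain ⟨M0, hM0, hM0'⟩ := UniqueFactorizationMonoid.exists_prime_factors (rn (A := A) z) hz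
    set M := M0.map FORMg_rep with hMdef
    have hM : ∀ p ∈ M, Prime p ∧ FORMg_rep p = p := by
      intro q hq
      obtain ⟨p, hp, rfl⟩ := Multiset.mem_map.1 hq
      exact ⟨FORMg_rep_prime (hM0 p hp), FORMg_rep_eq (FORMg_rep_assoc p)⟩
    have hMM : Associated M.prod M0.prod := by
      rw [hMdef]
      have : ∀ X : Multiset A, Associated (X.map FORMg_rep).prod X.prod := by
        intro X
        induction X using Multiset.induction_on with
        | empty => exact Associated.refl _
        | cons a X ih =>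
          rw [Multiset.map_cons, Multiset.prod_cons, Multiset.prod_cons]
          exact (FORMg_rep_assoc a).mul_mul ih
      exact this M0
    have hcM : Associated (rn (A := A) z) M.prod := (hMM.trans hM0').symm
    have hcount : ∀ q, Prime q → FORMg_rep q = q → R q * r q = M.count q := by
      intro q hq hqr
      obtain ⟨e1, e2⟩ := FORMg_count q hq hqr M hM _ hcM
      have e3 := (hdat' q hq).2.1 z _ hz e1 e2
      rw [h2 q hq hqr] at e3
      exact_mod_cast e3
    have hrep : ∀ q ∈ r.support, Prime q ∧ FORMg_rep q = q := fun q hq =>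
      h1 q (Finsupp.mem_support_iff.1 hq)
    refine ⟨Finsupp.toMultiset r, ?_, ?_, ?_⟩
    · intro q hq
      rw [Finsupp.mem_toMultiset] at hq
      exact (hrep q hq).1
    · have e1 : ((Finsupp.toMultiset r).map fun q => q ^ R (FORMg_rep q)).prod =
          ∏ q ∈ r.support, q ^ M.count q := by
        rw [Finset.prod_multiset_map_count]
        have e2 : (Finsupp.toMultiset r).toFinset = r.support := Finsupp.toFinset_toMultiset r
        rw [e2]
        refine Finset.prod_congr rfl fun q hq => ?_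
        obtain ⟨h4, h5⟩ := hrep q hq
        rw [Finsupp.count_toMultiset, h5, ← pow_mul, hcount q h4 h5]
      have e3 : M.prod = ∏ q ∈ r.support, q ^ M.count q := by
        rw [Finset.prod_multiset_count]
        refine Finset.prod_subset ?_ ?_
        · intro q hq
          rw [Multiset.mem_toFinset] at hq
          obtain ⟨h4, h5⟩ := hM q hq
          rw [Finsupp.mem_support_iff]
          intro h6
          have h7 := hcount q h4 h5
          rw [h6, mul_zero] at h7
          exact (Multiset.count_pos.2 hq).ne h7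
        · intro q _ hq
          rw [Multiset.mem_toFinset] at hq
          rw [Multiset.count_eq_zero_of_notMem hq, pow_zero]
      rw [e1, ← e3]
      exact hcM
    · rw [Finset.sum_multiset_map_count]
      have e2 : (Finsupp.toMultiset r).toFinset = r.support := Finsupp.toFinset_toMultiset r
      rw [e2, h3]
      unfold Finsupp.sum
      refine Finset.sum_congr rfl fun q hq => ?_
      obtain ⟨h4, h5⟩ := hrep q hq
      rw [Finsupp.count_toMultiset, h5]
  · rintro N _ _ _ ⟨s, hs, hk⟩
    obtain ⟨r, h1, -, h3⟩ := hG s hs N hk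
    rw [h3]
    unfold Finsupp.sum
    refine AddSubgroup.sum_mem _ fun q hq => ?_
    obtain ⟨h4, h5⟩ := h1 q (Finsupp.mem_support_iff.1 hq)
    have h6 : T q ∈ (fun q => T (FORMg_rep q)) '' {q | Prime q} := by
      refine ⟨q, h4, ?_⟩
      show T (FORMg_rep q) = T q
      rw [h5]
    exact AddSubgroup.nsmul_mem _ (AddSubgroup.subset_closure h6) _

end Pool.Agent.QTB
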