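import Pool.Agent.QTB.Defs
import Pool.Agent.QCB.QI
import Pool.Agent.QCB.GLOC

/-!
# QTB, module GLOCg: `GFG` and localization, general orders

Proof (compare QCB/GLOC.lean). `Λ' ≅ B ⊗[A] Λ` (the map `c ⊗ x ↦ c f(x)` is bijective by `hsurj` and `hinj`), and
`GFG` is invariant under isomorphisms of rings. For a `Λ`-module `N` the scalar extension `B ⊗[A] N` is a
`B ⊗[A] Λ`-module. It is exact in `N`, so `N ↦ ψ(B ⊗ N)` is additive on finitely generated `Λ`-modules. Every finitely
generated `B ⊗[A] Λ`-module `M` is `B ⊗ N` for `N` = the `Λ`-span of a finite set of generators.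
-/

set_option autoImplicit false

namespace Pool.Agent.QTB

open Pool.Agent.QCB TensorProduct

section defs

variable {A : Type} [CommRing A] (B : Type) [CommRing B] [Algebra A B]
  (Λ : Type) [Ring Λ] [Algebra A Λ]

section mods
variable (N : Type) [AddCommGroup N] [Module A N] [Module Λ N] [IsScalarTower A Λ N]

/-- the operators on the scalar extension -/
private noncomputable def GLOCgop : Λ →ₐ[A] Module.End B (B ⊗[A] N) :=
  (Module.End.baseChangeHom A B N).comp (Algebra.lsmul A A N)

private theorem GLOCgop_tmul (x : Λ) (c : B) (n : N) :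
    GLOCgop B Λ N x (c ⊗ₜ[A] n) = c ⊗ₜ[A] (x • n) := rfl

private theorem GLOCgcomm (c : B) (x : Λ) :
    Commute (Algebra.ofId B (Module.End B (B ⊗[A] N)) c) (GLOCgop B Λ N x) := by
  rw [Algebra.ofId_apply]
  exact Algebra.commute_algebraMap_left _ _

/-- the action of the scalar extension of the order -/
private noncomputable def GLOCgact : (B ⊗[A] Λ) →ₐ[B] Module.End B (B ⊗[A] N) :=
  Algebra.TensorProduct.lift (Algebra.ofId B _) (GLOCgop B Λ N) (GLOCgcomm B Λ N)

private theorem GLOCgact_tmul (d : B) (x : Λ) (c : B) (n : N) :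
    GLOCgact B Λ N (d ⊗ₜ[A] x) (c ⊗ₜ[A] n) = (d * c) ⊗ₜ[A] (x • n) := by
  have h := Algebra.TensorProduct.lift_tmul (Algebra.ofId B (Module.End B (B ⊗[A] N)))
    (GLOCgop B Λ N) (GLOCgcomm B Λ N) d x
  exact (LinearMap.congr_fun h (c ⊗ₜ[A] n)).trans rfl

/-- the module structure on the scalar extension -/
@[reducible] private noncomputable def GLOCgmod : Module (B ⊗[A] Λ) (B ⊗[A] N) :=
  Module.compHom _ (GLOCgact B Λ N).toRingHom

end mods

attribute [local instance] GLOCgmod

section mods2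
variable {Λ}
variable {N : Type} [AddCommGroup N] [Module A N] [Module Λ N] [IsScalarTower A Λ N]

private theorem GLOCgsmul (d : B) (x : Λ) (c : B) (n : N) :
    (d ⊗ₜ[A] x) • (c ⊗ₜ[A] n) = (d * c) ⊗ₜ[A] (x • n) := GLOCgact_tmul B Λ N d x c n

/-- scalars of `B` -/
private theorem GLOCgB_smul (c : B) (m : B ⊗[A] N) :
    (algebraMap B (B ⊗[A] Λ) c) • m = c • m := by
  induction m using TensorProduct.induction_on with
  | zero => rw [smul_zero, smul_zero]
  | add u v hu hv => rw [smul_add, smul_add, hu, hv]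
  | tmul d n =>
    rw [Algebra.TensorProduct.algebraMap_apply]
    change (c ⊗ₜ[A] (1 : Λ)) • (d ⊗ₜ[A] n) = _
    rw [GLOCgsmul, one_smul, TensorProduct.smul_tmul', smul_eq_mul]

variable {N' : Type} [AddCommGroup N'] [Module A N'] [Module Λ N'] [IsScalarTower A Λ N']

/-- functoriality -/
private noncomputable def GLOCgmap (f : N →ₗ[Λ] N') : (B ⊗[A] N) →ₗ[B ⊗[A] Λ] (B ⊗[A] N') :=
  { (f.restrictScalars A).lTensor B with
    map_smul' := fun x m => by
      change (f.restrictScalars A).lTensor B (x • m) = x • (f.restrictScalars A).lTensor B m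
      induction m using TensorProduct.induction_on with
      | zero => simp
      | add u v hu hv => rw [smul_add, map_add, hu, hv, map_add, smul_add]
      | tmul d n =>
        induction x using TensorProduct.induction_on with
        | zero => rw [zero_smul, zero_smul, map_zero]
        | add u v hu hv => rw [add_smul, map_add, hu, hv, add_smul]
        | tmul c y =>
          rw [GLOCgsmul, LinearMap.lTensor_tmul, LinearMap.lTensor_tmul, GLOCgsmul]
          simp }

private theorem GLOCgmap_coe (f : N →ₗ[Λ] N') :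
    ⇑(GLOCgmap (A := A) B f) = (f.restrictScalars A).lTensor B := rfl

private theorem GLOCgfin [Module.Finite Λ N] : Module.Finite (B ⊗[A] Λ) (B ⊗[A] N) := by
  classical
  obtain ⟨S, hS⟩ := Module.Finite.fg_top (R := Λ) (M := N)
  refine ⟨⟨S.image (fun n => (1 : B) ⊗ₜ[A] n), ?_⟩⟩
  rw [eq_top_iff]
  rintro m -
  set P := Submodule.span (B ⊗[A] Λ)
    (S.image (fun n => (1 : B) ⊗ₜ[A] n) : Set (B ⊗[A] N)) with hP
  have h1 : ∀ n : N, (1 : B) ⊗ₜ[A] n ∈ P := by
    intro n
    have hn : n ∈ Submodule.span Λ (S : Set N) := hS ▸ Submodule.mem_top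
    induction hn using Submodule.span_induction with
    | mem x hx =>
      refine Submodule.subset_span ?_
      simp only [Finset.coe_image]
      exact ⟨x, hx, rfl⟩
    | zero => rw [TensorProduct.tmul_zero]; exact zero_mem _
    | add x y _ _ hx hy => rw [TensorProduct.tmul_add]; exact add_mem hx hy
    | smul r x _ hx =>
      have h2 : (1 : B) ⊗ₜ[A] (r • x) = ((1 : B) ⊗ₜ[A] r) • ((1 : B) ⊗ₜ[A] x) := by
        rw [GLOCgsmul, one_mul]
      rw [h2]
      exact P.smul_mem _ hx
  induction m using TensorProduct.induction_on with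
  | zero => exact zero_mem _
  | add u v hu hv => exact add_mem hu hv
  | tmul c n =>
    have : c ⊗ₜ[A] n = (c ⊗ₜ[A] (1 : Λ)) • ((1 : B) ⊗ₜ[A] n) := by
      rw [GLOCgsmul, one_smul, mul_one]
    rw [this]
    exact P.smul_mem _ (h1 n)

/-- the comparison map for a submodule of a module over the scalar extension -/
private theorem GLOCgcmp (s : A) [IsLocalization.Away s B] (M : Type) [AddCommGroup M] [Module B M]
    [Module (B ⊗[A] Λ) M] [IsScalarTower B (B ⊗[A] Λ) M]
    (i : N →+ M) (hi : Function.Injective i)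
    (hl : ∀ (x : Λ) (n : N), i (x • n) = ((1 : B) ⊗ₜ[A] x) • i n)
    (hs : Submodule.span (B ⊗[A] Λ) (Set.range i) = ⊤) :
    ∃ e : (B ⊗[A] N) →ₗ[B ⊗[A] Λ] M, Function.Bijective e := by
  let _ : Module A M := Module.compHom M (algebraMap A B)
  have _ : IsScalarTower A B M := ⟨fun r x m => by
    rw [Algebra.smul_def, mul_smul]; rfl⟩
  have hBm : ∀ (c : B) (m : M), (c ⊗ₜ[A] (1 : Λ)) • m = c • m := by
    intro c m
    rw [← algebraMap_smul (B ⊗[A] Λ) c m]
    rfl
  have hA : ∀ (r : A) (n : N), i (r • n) = r • i n := by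
    intro r n
    have h1 : (1 : B) ⊗ₜ[A] (algebraMap A Λ r) = (algebraMap A B r) ⊗ₜ[A] (1 : Λ) := by
      rw [Algebra.algebraMap_eq_smul_one, Algebra.algebraMap_eq_smul_one, TensorProduct.tmul_smul,
        TensorProduct.smul_tmul']
    rw [← algebraMap_smul Λ r n, hl, h1, hBm, algebraMap_smul]
  let iA : N →ₗ[A] M := { i with map_smul' := hA }
  let g : (B ⊗[A] N) →ₗ[B] M := iA.liftBaseChange B
  have hg : ∀ (c : B) (n : N), g (c ⊗ₜ[A] n) = c • i n := fun c n => rfl
  have hgl : ∀ (x : B ⊗[A] Λ) (m : B ⊗[A] N), g (x • m) = x • g m := by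
    intro x m
    induction m using TensorProduct.induction_on with
    | zero => rw [smul_zero, map_zero, smul_zero]
    | add u v hu hv => rw [smul_add, map_add, hu, hv, map_add, smul_add]
    | tmul c n =>
      induction x using TensorProduct.induction_on with
      | zero => rw [zero_smul, zero_smul, map_zero]
      | add u v hu hv => rw [add_smul, map_add, hu, hv, add_smul]
      | tmul d y =>
        rw [GLOCgsmul, hg, hg, hl, ← hBm, ← hBm, ← mul_smul, ← mul_smul,
          Algebra.TensorProduct.tmul_mul_tmul, Algebra.TensorProduct.tmul_mul_tmul, mul_one,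
          one_mul, mul_one]
  refine ⟨{ g with map_smul' := hgl }, ?_, ?_⟩
  · rw [injective_iff_map_eq_zero]
    intro m hm
    have hm' : g m = 0 := hm
    have hloc : IsLocalizedModule (Submonoid.powers s) (TensorProduct.mk A B N 1) :=
      (isLocalizedModule_iff_isBaseChange (Submonoid.powers s) B _).2
        (TensorProduct.isBaseChange A N B)
    obtain ⟨⟨n, t⟩, hn⟩ := hloc.surj m
    have hn' : t.1 • m = (1 : B) ⊗ₜ[A] n := hn
    have h1 : i n = 0 := by
      rw [← one_smul B (i n), ← hg, ← hn', ← algebraMap_smul B t.1 m, map_smul, hm', smul_zero]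
    have h2 : n = 0 := hi (by rw [h1, map_zero])
    rw [h2, TensorProduct.tmul_zero] at hn'
    have h3 : IsUnit (algebraMap A B t.1) := IsLocalization.map_units B t
    rw [← algebraMap_smul B t.1 m] at hn'
    exact (h3.smul_eq_zero).1 hn'
  · intro y
    have hy : y ∈ Submodule.span (B ⊗[A] Λ) (Set.range i) := hs ▸ Submodule.mem_top
    induction hy using Submodule.span_induction with
    | mem x hx =>
      obtain ⟨n, rfl⟩ := hx
      exact ⟨(1 : B) ⊗ₜ[A] n, by change g _ = _; rw [hg, one_smul]⟩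
    | zero => exact ⟨0, map_zero _⟩
    | add x y _ _ hx hy =>
      obtain ⟨u, rfl⟩ := hx
      obtain ⟨v, rfl⟩ := hy
      exact ⟨u + v, map_add _ _ _⟩
    | smul r x _ hx =>
      obtain ⟨u, rfl⟩ := hx
      exact ⟨r • u, hgl r u⟩

end mods2

end defs

section main

variable {A B : Type} [CommRing A] [CommRing B] [Algebra A B] {Λ : Type} [Ring Λ] [Algebra A Λ]
  {Γ : Type 1} [AddCommGroup Γ]

/-- the `A`-module underlying a `Λ`-module -/
@[reducible] private def GLOCgmA (A Λ : Type) [CommRing A] [Ring Λ] [Algebra A Λ] (N : Type)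
    [AddCommGroup N] [Module Λ N] : Module A N :=
  Module.compHom N (algebraMap A Λ)

private theorem GLOCgtower (A Λ : Type) [CommRing A] [Ring Λ] [Algebra A Λ] (N : Type)
    [AddCommGroup N] [Module Λ N] :
    letI := GLOCgmA A Λ N
    IsScalarTower A Λ N := by
  letI := GLOCgmA A Λ N
  exact ⟨fun r x n => by rw [Algebra.smul_def, mul_smul]; rfl⟩

/-- the induced additive function -/
private noncomputable def GLOCgind (s : A) [IsLocalization.Away s B]
    (ψ : NAdd (B ⊗[A] Λ) Γ) : NAdd Λ Γ where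
  val := fun N i1 i2 =>
    @NAdd.val (B ⊗[A] Λ) _ Γ _ ψ
      (@TensorProduct A _ B N _ _ _ (@GLOCgmA A Λ _ _ _ N i1 i2))
      (@TensorProduct.addCommGroup A _ B N _ _ _ (@GLOCgmA A Λ _ _ _ N i1 i2))
      (@GLOCgmod A _ B _ _ Λ _ _ N i1 (@GLOCgmA A Λ _ _ _ N i1 i2) i2
        (@GLOCgtower A Λ _ _ _ N i1 i2))
  add := by
    intro N' N N'' _ _ _ _ _ _ _ _ _ f g hf hg hfg
    let _ : Module A N' := GLOCgmA A Λ N'
    let _ : Module A N := GLOCgmA A Λ N
    let _ : Module A N'' := GLOCgmA A Λ N''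
    have _ : IsScalarTower A Λ N' := GLOCgtower A Λ N'
    have _ : IsScalarTower A Λ N := GLOCgtower A Λ N
    have _ : IsScalarTower A Λ N'' := GLOCgtower A Λ N''
    let _ := GLOCgmod (A := A) B Λ N'
    let _ := GLOCgmod (A := A) B Λ N
    let _ := GLOCgmod (A := A) B Λ N''
    have _ : Module.Finite (B ⊗[A] Λ) (B ⊗[A] N') := GLOCgfin (A := A) B
    have _ : Module.Finite (B ⊗[A] Λ) (B ⊗[A] N) := GLOCgfin (A := A) B
    have _ : Module.Finite (B ⊗[A] Λ) (B ⊗[A] N'') := GLOCgfin (A := A) B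
    have _ : Module.Flat A B := IsLocalization.flat B (Submonoid.powers s)
    refine ψ.add (B ⊗[A] N') (B ⊗[A] N) (B ⊗[A] N'') (GLOCgmap B f) (GLOCgmap B g) ?_ ?_ ?_
    · rw [GLOCgmap_coe]
      exact Module.Flat.lTensor_preserves_injective_linearMap _ hf
    · rw [GLOCgmap_coe]
      exact LinearMap.lTensor_surjective _ hg
    · rw [GLOCgmap_coe, GLOCgmap_coe]
      exact lTensor_exact B (f := f.restrictScalars A) (g := g.restrictScalars A) hfg hg

private theorem GLOCg_ext (s : A) [IsLocalization.Away s B] (h : GFG Λ) : GFG (B ⊗[A] Λ) := by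
  intro Γ _ ψ
  obtain ⟨H, hH, hval⟩ := h Γ (GLOCgind s ψ)
  refine ⟨H, hH, ?_⟩
  intro M _ _ _
  let _ : Module B M := Module.compHom M (algebraMap B (B ⊗[A] Λ))
  have _ : IsScalarTower B (B ⊗[A] Λ) M :=
    ⟨fun r x n => by rw [Algebra.smul_def, mul_smul]; rfl⟩
  let _ : Module Λ M := Module.compHom M
    (Algebra.TensorProduct.includeRight : Λ →ₐ[A] B ⊗[A] Λ).toRingHom
  obtain ⟨S, hS⟩ := Module.Finite.fg_top (R := B ⊗[A] Λ) (M := M)
  let N : Submodule Λ M := Submodule.span Λ (S : Set M)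
  have _ : Module.Finite Λ N := Module.Finite.span_finset _ S
  let _ : Module A N := GLOCgmA A Λ N
  have _ : IsScalarTower A Λ N := GLOCgtower A Λ N
  let _ := GLOCgmod (A := A) B Λ N
  have _ : Module.Finite (B ⊗[A] Λ) (B ⊗[A] N) := GLOCgfin (A := A) B
  obtain ⟨e, he⟩ := GLOCgcmp B (Λ := Λ) (N := N) s M N.subtype.toAddMonoidHom
    N.injective_subtype (fun x n => rfl) (by
      rw [eq_top_iff, ← hS]
      refine Submodule.span_mono ?_
      intro y hy
      exact ⟨⟨y, Submodule.subset_span hy⟩, rfl⟩)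
  rw [← GLOC_equiv ψ _ M e he]
  exact hval N

end main

theorem GLOCg {A B Λ Λ' : Type} [CommRing A] [CommRing B] [Algebra A B] [IsNoetherianRing A] (s : A)
    [IsLocalization.Away s B] [Ring Λ] [Algebra A Λ] [Module.Finite A Λ] [Ring Λ'] [Algebra B Λ']
    (f : Λ →+* Λ') (hf : ∀ x : A, f (algebraMap A Λ x) = algebraMap B Λ' (algebraMap A B x))
    (hsurj : ∀ y : Λ', ∃ (n : ℕ) (x : Λ), algebraMap B Λ' (algebraMap A B s) ^ n * y = f x)
    (hinj : ∀ x : Λ, f x = 0 → ∃ n : ℕ, algebraMap A Λ s ^ n * x = 0) (h : GFG Λ) : GFG Λ' := by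
  let _ : Algebra A Λ' := ((algebraMap B Λ').comp (algebraMap A B)).toAlgebra'
    (fun c x => Algebra.commutes (algebraMap A B c) x)
  have _ : IsScalarTower A B Λ' := IsScalarTower.of_algebraMap_eq (fun _ => rfl)
  let fA : Λ →ₐ[A] Λ' := { f with commutes' := hf }
  let θ : (B ⊗[A] Λ) →ₐ[B] Λ' := Algebra.TensorProduct.lift (Algebra.ofId B Λ') fA
    (fun c x => Algebra.commute_algebraMap_left c _)
  have hθ : ∀ (c : B) (x : Λ), θ (c ⊗ₜ[A] x) = algebraMap B Λ' c * f x := fun c x =>
    Algebra.TensorProduct.lift_tmul _ _ _ _ _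
  have hsu : IsUnit (algebraMap A B s) := IsLocalization.Away.algebraMap_isUnit s
  have hbij : Function.Bijective θ := by
    constructor
    · rw [injective_iff_map_eq_zero]
      intro m hm
      have hloc : IsLocalizedModule (Submonoid.powers s) (TensorProduct.mk A B Λ 1) :=
        (isLocalizedModule_iff_isBaseChange (Submonoid.powers s) B _).2
          (TensorProduct.isBaseChange A Λ B)
      obtain ⟨⟨x, t⟩, hx⟩ := hloc.surj m
      have hx' : t.1 • m = (1 : B) ⊗ₜ[A] x := hx
      have h1 : f x = 0 := by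
        have h2 : θ ((1 : B) ⊗ₜ[A] x) = f x := by rw [hθ, map_one, one_mul]
        rw [← h2, ← hx', ← algebraMap_smul B t.1 m, map_smul, hm, smul_zero]
      obtain ⟨n, hn⟩ := hinj x h1
      have h3 : s ^ n • ((1 : B) ⊗ₜ[A] x) = 0 := by
        rw [← TensorProduct.tmul_smul, Algebra.smul_def, map_pow, hn, TensorProduct.tmul_zero]
      have h4 : (1 : B) ⊗ₜ[A] x = 0 := by
        rw [← algebraMap_smul B (s ^ n), map_pow] at h3
        exact ((hsu.pow n).smul_eq_zero).1 h3
      rw [h4] at hx'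
      have h5 : IsUnit (algebraMap A B t.1) := IsLocalization.map_units B t
      rw [← algebraMap_smul B t.1 m] at hx'
      exact (h5.smul_eq_zero).1 hx'
    · intro y
      obtain ⟨n, x, hx⟩ := hsurj y
      obtain ⟨u, hu⟩ := hsu.pow n
      refine ⟨((u⁻¹ : Bˣ) : B) ⊗ₜ[A] x, ?_⟩
      rw [hθ, ← hx, ← map_pow, ← hu, ← mul_assoc, ← map_mul, Units.inv_mul, map_one, one_mul]
  exact GFG.of_equiv (AlgEquiv.ofBijective θ hbij).toRingEquiv (GLOCg_ext s h)

end Pool.Agent.QTB
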