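import Pool.Agent.QCB.NRM

/-!
# QTB, module TYPQ: types along one side

Proof. This is `TYPE_side` of `Pool/Agent/QCB/TYPE.lean` (private; copy it together with `TYPE_fin`, `TYPE_cls`, `TYPE_Q`, `TYPE_L`, …), where
the call of `CLA` in `TYPE_Q` is replaced by the hypothesis `hpar`, and `Spl a b p` is not used. (`Side a b` contains the finiteness of the
residue fields of `AdjoinRoot Q`.)
-/

set_option autoImplicit false

namespace Pool.Agent.QTB

open Polynomial Pool.Agent.QCB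

section fin

/-- an equivalence implied by finitely many types -/
def TYPQ_fin {P : Type} (V : P → Prop) (E : P → P → Prop) : Prop :=
  ∃ (n : ℕ) (τ : P → Fin n), ∀ p p', V p → V p' → τ p = τ p' → E p p'

theorem TYPQ_and {P : Type} {V : P → Prop} {E1 E2 : P → P → Prop}
    (h1 : TYPQ_fin V E1) (h2 : TYPQ_fin V E2) :
    TYPQ_fin V (fun p p' => E1 p p' ∧ E2 p p') := by
  obtain ⟨n1, t1, h1⟩ := h1
  obtain ⟨n2, t2, h2⟩ := h2
  refine ⟨n1 * n2, fun p => finProdFinEquiv (t1 p, t2 p), ?_⟩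
  intro p p' hp hp' h
  have h3 := finProdFinEquiv.injective h
  exact ⟨h1 p p' hp hp' (congrArg Prod.fst h3), h2 p p' hp hp' (congrArg Prod.snd h3)⟩

theorem TYPQ_true {P : Type} {V : P → Prop} {E : P → P → Prop}
    (h : ∀ p p', V p → V p' → E p p') : TYPQ_fin V E :=
  ⟨1, fun _ => 0, fun p p' hp hp' _ => h p p' hp hp'⟩

theorem TYPQ_all {P α : Type} {V : P → Prop} {E : α → P → P → Prop} (F : Finset α)
    (h : ∀ Q ∈ F, TYPQ_fin V (E Q)) : TYPQ_fin V (fun p p' => ∀ Q ∈ F, E Q p p') := by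
  classical
  induction F using Finset.induction_on with
  | empty => exact TYPQ_true fun p p' _ _ Q hQ => absurd hQ (Finset.notMem_empty Q)
  | insert Q F hQ ih =>
    have h1 := TYPQ_and (h Q (Finset.mem_insert_self Q F))
      (ih fun Q' hQ' => h Q' (Finset.mem_insert_of_mem hQ'))
    obtain ⟨n, t, ht⟩ := h1
    refine ⟨n, t, fun p p' hp hp' he Q' hQ' => ?_⟩
    rcases Finset.mem_insert.1 hQ' with h2 | h2
    · rw [h2]
      exact (ht p p' hp hp' he).1
    · exact (ht p p' hp hp' he).2 Q' h2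

theorem TYPQ_cls {P α : Type} {V : P → Prop} (S : Finset α) (G : P → α → Prop)
    (h : ∀ p, V p → ∃ w ∈ S, G p w) : TYPQ_fin V (fun p p' => ∃ w, G p w ∧ G p' w) := by
  classical
  by_cases hne : ∃ p, V p
  · obtain ⟨p0, hp0⟩ := hne
    obtain ⟨w0, hw0, _⟩ := h p0 hp0
    have hf : ∀ p, ∃ w : S, V p → G p w := by
      intro p
      by_cases hp : V p
      · obtain ⟨w, hw, hG⟩ := h p hp
        exact ⟨⟨w, hw⟩, fun _ => hG⟩
      · exact ⟨⟨w0, hw0⟩, fun h' => absurd h' hp⟩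
    choose f hf using hf
    refine ⟨S.card, fun p => S.equivFin (f p), fun p p' hp hp' he => ?_⟩
    have h1 : f p = f p' := S.equivFin.injective he
    refine ⟨f p, hf p hp, ?_⟩
    rw [h1]
    exact hf p' hp'
  · exact TYPQ_true fun p _ hp _ => absurd ⟨p, hp⟩ hne

theorem TYPQ_mono {P : Type} {V : P → Prop} {E E' : P → P → Prop}
    (h : TYPQ_fin V E) (hE : ∀ p p', V p → V p' → E p p' → E' p p') : TYPQ_fin V E' := by
  obtain ⟨n, t, ht⟩ := h
  exact ⟨n, t, fun p p' hp hp' he => hE p p' hp hp' (ht p p' hp hp' he)⟩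

end fin

section one

variable {R : Type} [CommRing R] [IsDomain R]

theorem TYPQ_irr {Q : R[X]} (hQ : Q.Monic) (hdom : IsDomain (AdjoinRoot Q)) :
    Prime Q := by
  have h1 : (Ideal.span {Q}).IsPrime := (Ideal.Quotient.isDomain_iff_prime _).1 hdom
  exact (Ideal.span_singleton_prime hQ.ne_zero).1 h1

theorem TYPQ_Q [IsPrincipalIdealRing R] (h2 : IsUnit (2 : R)) (a b Q a' : R[X])
    (hQ : Q.Monic) (hdom : IsDomain (AdjoinRoot Q)) (hpid : IsPrincipalIdealRing (AdjoinRoot Q))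
    (hsq : SqFin (AdjoinRoot Q)) (hb : IsUnit (AdjoinRoot.mk Q b)) (haQ : a = Q * a')
    (ha' : IsUnit (AdjoinRoot.mk Q a'))
    (hO : IsSquare (AdjoinRoot.mk Q b) ∨
      (IsDomain (AdjoinRoot (X ^ 2 - C (AdjoinRoot.mk Q b))) ∧
        IsPrincipalIdealRing (AdjoinRoot (X ^ 2 - C (AdjoinRoot.mk Q b)))))
    (hfin : ∀ q : AdjoinRoot Q, Prime q → Finite (AdjoinRoot Q ⧸ Ideal.span {q}))
    (V : R[X] → Prop) (hV : ∀ p, V p → Prime p ∧ ¬ p ∣ a)
    (hpar : ∀ p, V p → ∀ (Q a' : R[X]) (𝔮 : AdjoinRoot Q), Q.Monic → IsDomain (AdjoinRoot Q) →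
      IsPrincipalIdealRing (AdjoinRoot Q) → a = Q * a' → IsUnit (AdjoinRoot.mk Q a') →
      IsUnit (AdjoinRoot.mk Q b) → Prime 𝔮 → Finite (AdjoinRoot Q ⧸ Ideal.span {𝔮}) →
      (∀ β : AdjoinRoot Q, ¬ 𝔮 ∣ AdjoinRoot.mk Q b - β ^ 2) →
      ∃ k : ℕ, 𝔮 ^ (2 * k) ∣ AdjoinRoot.mk Q p ∧ ¬ 𝔮 ^ (2 * k + 1) ∣ AdjoinRoot.mk Q p) :
    TYPQ_fin V (fun p p' => ∃ m x y : AdjoinRoot Q, m ≠ 0 ∧
      AdjoinRoot.mk Q (p * p') * m ^ 2 = x ^ 2 - AdjoinRoot.mk Q b * y ^ 2) := by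
  obtain ⟨F, hF⟩ := hsq
  have h2' : IsUnit (2 : AdjoinRoot Q) := by
    have h3 := h2.map (algebraMap R (AdjoinRoot Q))
    rwa [map_ofNat] at h3
  have h1 := TYPQ_cls (V := V) F (fun p w => ∃ m x y : AdjoinRoot Q, m ≠ 0 ∧
    AdjoinRoot.mk Q p * m ^ 2 = (w : AdjoinRoot Q) * (x ^ 2 - AdjoinRoot.mk Q b * y ^ 2)) (by
      intro p hp
      obtain ⟨hpp, hpa⟩ := hV p hp
      have h0 : AdjoinRoot.mk Q p ≠ 0 := by
        intro h0
        have h3 : Q ∣ p := AdjoinRoot.mk_eq_zero.1 h0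
        have h4 : p ∣ Q :=
          ((TYPQ_irr hQ hdom).irreducible.associated_of_dvd hpp.irreducible h3).symm.dvd
        exact hpa (by rw [haQ]; exact Dvd.dvd.mul_right h4 _)
      obtain ⟨u, x, y, m, hm, he⟩ := NRM2 h2' (AdjoinRoot.mk Q b) hb hO (AdjoinRoot.mk Q p) h0
        (fun 𝔮 h𝔮 hβ => hpar p hp Q a' 𝔮 hQ hdom hpid haQ ha' hb h𝔮 (hfin 𝔮 h𝔮) hβ)
      obtain ⟨w, hw, v, hv⟩ := hF u
      refine ⟨w, hw, m, v * x, v * y, hm, ?_⟩
      rw [he, hv]
      push_cast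
      ring)
  refine TYPQ_mono h1 ?_
  rintro p p' _ _ ⟨w, ⟨m, x, y, hm, he⟩, ⟨m', x', y', hm', he'⟩⟩
  refine ⟨m * m', w * (x * x' + AdjoinRoot.mk Q b * y * y'), w * (x * y' + y * x'),
    mul_ne_zero hm hm', ?_⟩
  rw [map_mul]
  have e1 : AdjoinRoot.mk Q p * AdjoinRoot.mk Q p' * (m * m') ^ 2 =
      (AdjoinRoot.mk Q p * m ^ 2) * (AdjoinRoot.mk Q p' * m' ^ 2) := by ring
  rw [e1, he, he']
  ring

end one

section loc

variable {R : Type} [CommRing R] [IsDomain R]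

omit [IsDomain R] in
theorem TYPQ_inj : Function.Injective (Polynomial.map (algebraMap R (FractionRing R))) :=
  Polynomial.map_injective _ (IsFractionRing.injective R (FractionRing R))

theorem TYPQ_cu (s : R) (hs : s ≠ 0) :
    IsUnit ((C s : R[X]).map (algebraMap R (FractionRing R))) := by
  rw [Polynomial.map_C]
  refine Polynomial.isUnit_C.2 (IsUnit.mk0 _ ?_)
  intro h
  exact hs ((IsFractionRing.injective R (FractionRing R)) (by rw [h, map_zero]))

theorem TYPQ_den (f : (FractionRing R)[X]) :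
    ∃ s : R, s ≠ 0 ∧ ∃ g : R[X], g.map (algebraMap R (FractionRing R)) =
      (C s : R[X]).map (algebraMap R (FractionRing R)) * f := by
  obtain ⟨s, hs, h⟩ := IsLocalization.integerNormalization_spec (nonZeroDivisors R) f
  refine ⟨s, nonZeroDivisors.ne_zero hs, IsLocalization.integerNormalization
    (nonZeroDivisors R) f, ?_⟩
  rw [Polynomial.map_C, h]
  ext i
  rw [Polynomial.coeff_smul, Polynomial.coeff_C_mul, Algebra.smul_def]

theorem TYPQ_dens (F : Finset (FractionRing R)[X]) :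
    ∃ s : R, s ≠ 0 ∧ ∀ f ∈ F, ∃ g : R[X], g.map (algebraMap R (FractionRing R)) =
      (C s : R[X]).map (algebraMap R (FractionRing R)) * f := by
  classical
  induction F using Finset.induction_on with
  | empty => exact ⟨1, one_ne_zero, fun f hf => absurd hf (Finset.notMem_empty f)⟩
  | insert f F hf ih =>
    obtain ⟨s, hs, h⟩ := ih
    obtain ⟨t, ht, g, hg⟩ := TYPQ_den f
    refine ⟨s * t, mul_ne_zero hs ht, fun f' hf' => ?_⟩
    rcases Finset.mem_insert.1 hf' with h2 | h2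
    · refine ⟨C s * g, ?_⟩
      rw [h2, Polynomial.map_mul, hg, C_mul, Polynomial.map_mul, mul_assoc]
    · obtain ⟨g', hg'⟩ := h f' h2
      refine ⟨C t * g', ?_⟩
      rw [Polynomial.map_mul, hg', C_mul, Polynomial.map_mul, ← mul_assoc,
        mul_comm (Polynomial.map _ (C t))]

theorem TYPQ_gauss {p : R[X]} (hp : Prime p)
    (hu : ¬ IsUnit (p.map (algebraMap R (FractionRing R)))) (f : R[X])
    (h : p.map (algebraMap R (FractionRing R)) ∣ f.map (algebraMap R (FractionRing R))) :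
    p ∣ f := by
  obtain ⟨g, hg⟩ := h
  obtain ⟨s, hs, g', hg'⟩ := TYPQ_den g
  have h1 : C s * f = p * g' := by
    apply TYPQ_inj
    show Polynomial.map _ (C s * f) = Polynomial.map _ (p * g')
    rw [Polynomial.map_mul, Polynomial.map_mul, hg, hg']
    ring
  rcases hp.dvd_or_dvd (Dvd.intro g' h1.symm) with h2 | h2
  · exfalso
    apply hu
    obtain ⟨k, hk⟩ := h2
    refine isUnit_of_dvd_unit ?_ (TYPQ_cu s hs)
    rw [hk, Polynomial.map_mul]
    exact Dvd.intro _ rfl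
  · exact h2

theorem TYPQ_prime {p : R[X]} (hp : Prime p)
    (hu : ¬ IsUnit (p.map (algebraMap R (FractionRing R)))) :
    Prime (p.map (algebraMap R (FractionRing R))) := by
  refine ⟨?_, hu, ?_⟩
  · intro h
    exact hp.ne_zero (TYPQ_inj (by rw [h, Polynomial.map_zero]))
  · intro x y hxy
    obtain ⟨s, hs, x', hx'⟩ := TYPQ_den x
    obtain ⟨t, ht, y', hy'⟩ := TYPQ_den y
    have h1 : p ∣ x' * y' := by
      apply TYPQ_gauss hp hu
      rw [Polynomial.map_mul, hx', hy']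
      have h2 : Polynomial.map (algebraMap R (FractionRing R)) (C s) * x *
        (Polynomial.map (algebraMap R (FractionRing R)) (C t) * y) =
        x * y * (Polynomial.map (algebraMap R (FractionRing R)) (C s) *
          Polynomial.map (algebraMap R (FractionRing R)) (C t)) := by ring
      rw [h2]
      exact Dvd.dvd.mul_right hxy _
    rcases hp.dvd_or_dvd h1 with h2 | h2
    · left
      have h3 := Polynomial.map_dvd (algebraMap R (FractionRing R)) h2
      rw [hx'] at h3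
      exact (TYPQ_cu s hs).dvd_mul_left.1 h3
    · right
      have h3 := Polynomial.map_dvd (algebraMap R (FractionRing R)) h2
      rw [hy'] at h3
      exact (TYPQ_cu t ht).dvd_mul_left.1 h3

omit [IsDomain R] in
theorem TYPQ_monic {Q : R[X]} (hQ : Q.Monic) (hp : Prime Q) :
    ¬ IsUnit (Q.map (algebraMap R (FractionRing R))) := by
  intro h
  have h1 := (hQ.map (algebraMap R (FractionRing R))).eq_one_of_isUnit h
  have h2 : Q = 1 := TYPQ_inj (by rw [h1, Polynomial.map_one])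
  exact hp.not_isUnit (by rw [h2]; exact isUnit_one)

/-- coprimality with a product -/
theorem TYPQ_cop {p f : R[X]} (hp : Prime p) (hf : ¬ p ∣ f) :
    IsCoprime (p.map (algebraMap R (FractionRing R))) (f.map (algebraMap R (FractionRing R))) := by
  by_cases hu : IsUnit (p.map (algebraMap R (FractionRing R)))
  · obtain ⟨v, hv⟩ := hu
    exact ⟨((v⁻¹ : ((FractionRing R)[X])ˣ) : (FractionRing R)[X]), 0, by
      rw [← hv, Units.inv_mul, zero_mul, add_zero]⟩
  · exact (TYPQ_prime hp hu).coprime_iff_not_dvd.2 fun h => hf (TYPQ_gauss hp hu f h)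

theorem TYPQ_sqfree {p : R[X]} (hp : Prime p) :
    Squarefree (p.map (algebraMap R (FractionRing R))) := by
  by_cases hu : IsUnit (p.map (algebraMap R (FractionRing R)))
  · exact hu.squarefree
  · exact (TYPQ_prime hp hu).squarefree

/-- the square root of the norm modulo `Q` over the fraction field -/
theorem TYPQ_L (b Q h : R[X]) (hQ : Q.Monic) (hdom : IsDomain (AdjoinRoot Q))
    (hh : ∃ m x y : AdjoinRoot Q, m ≠ 0 ∧
      AdjoinRoot.mk Q h * m ^ 2 = x ^ 2 - AdjoinRoot.mk Q b * y ^ 2) :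
    ∃ u v : (FractionRing R)[X], Q.map (algebraMap R (FractionRing R)) ∣
      u ^ 2 - b.map (algebraMap R (FractionRing R)) * v ^ 2 -
        h.map (algebraMap R (FractionRing R)) := by
  obtain ⟨m, x, y, hm, he⟩ := hh
  obtain ⟨m, rfl⟩ := AdjoinRoot.mk_surjective m
  obtain ⟨x, rfl⟩ := AdjoinRoot.mk_surjective x
  obtain ⟨y, rfl⟩ := AdjoinRoot.mk_surjective y
  have hQp := TYPQ_irr hQ hdom
  have hu := TYPQ_monic hQ hQp
  have h1 : ¬ Q ∣ m := fun h => hm (AdjoinRoot.mk_eq_zero.2 h)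
  have h2 : Q ∣ h * m ^ 2 - (x ^ 2 - b * y ^ 2) := by
    rw [← AdjoinRoot.mk_eq_zero, map_sub, map_sub, map_mul, map_mul, map_pow, map_pow, map_pow,
      he, sub_self]
  have h3 := TYPQ_cop hQp h1
  obtain ⟨t, s, hts⟩ := h3
  obtain ⟨k, hk⟩ := Polynomial.map_dvd (algebraMap R (FractionRing R)) h2
  simp only [Polynomial.map_sub, Polynomial.map_mul, Polynomial.map_pow] at hk
  refine ⟨s * x.map (algebraMap R (FractionRing R)), s * y.map (algebraMap R (FractionRing R)), ?_⟩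
  refine ⟨-(s ^ 2 * k) - h.map (algebraMap R (FractionRing R)) * t *
    (s * m.map (algebraMap R (FractionRing R)) + 1), ?_⟩
  linear_combination (-s ^ 2) * hk + (h.map (algebraMap R (FractionRing R)) *
    (s * m.map (algebraMap R (FractionRing R)) + 1)) * hts

/-- types along one side -/
theorem TYPQ_side [IsPrincipalIdealRing R] (h2 : IsUnit (2 : R))
    (a b : R[X]) (hS : Side a b) (V : R[X] → Prop) (hV : ∀ p, V p → Prime p ∧ ¬ p ∣ a)
    (hpar : ∀ p, V p → ∀ (Q a' : R[X]) (𝔮 : AdjoinRoot Q), Q.Monic → IsDomain (AdjoinRoot Q) →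
      IsPrincipalIdealRing (AdjoinRoot Q) → a = Q * a' → IsUnit (AdjoinRoot.mk Q a') →
      IsUnit (AdjoinRoot.mk Q b) → Prime 𝔮 → Finite (AdjoinRoot Q ⧸ Ideal.span {𝔮}) →
      (∀ β : AdjoinRoot Q, ¬ 𝔮 ∣ AdjoinRoot.mk Q b - β ^ 2) →
      ∃ k : ℕ, 𝔮 ^ (2 * k) ∣ AdjoinRoot.mk Q p ∧ ¬ 𝔮 ^ (2 * k + 1) ∣ AdjoinRoot.mk Q p) :
    TYPQ_fin V (fun p p' => ∀ Q : (FractionRing R)[X], Irreducible Q →
      Q ∣ a.map (algebraMap R (FractionRing R)) → ∃ u v : (FractionRing R)[X],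
        Q ∣ u ^ 2 - b.map (algebraMap R (FractionRing R)) * v ^ 2 -
          (p * p').map (algebraMap R (FractionRing R))) := by
  classical
  obtain ⟨w, F, ha, hF⟩ := hS
  have h1 : TYPQ_fin V (fun p p' => ∀ Q ∈ F, ∃ m x y : AdjoinRoot Q, m ≠ 0 ∧
      AdjoinRoot.mk Q (p * p') * m ^ 2 = x ^ 2 - AdjoinRoot.mk Q b * y ^ 2) := by
    refine TYPQ_all F fun Q hQ => ?_
    obtain ⟨hm, hd, hpid, hsq, hfin, hb, hc, hO⟩ := hF Q hQ
    have := hd
    refine TYPQ_Q h2 a b Q (C (w : R) * ∏ Q' ∈ F.erase Q, Q') hm hd hpid hsq hb ?_ ?_ hO hfin V hV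
      hpar
    · rw [ha, ← Finset.mul_prod_erase F _ hQ]
      ring
    · rw [map_mul, map_prod]
      refine IsUnit.mul ?_ ?_
      · exact ((w.isUnit.map (C : R →+* R[X])).map (AdjoinRoot.mk Q))
      · refine (IsUnit.prod_iff).2 ?_
        intro Q' hQ'
        exact hc Q' (Finset.mem_of_mem_erase hQ') (Finset.ne_of_mem_erase hQ')
  refine TYPQ_mono h1 fun p p' hp hp' hE Q hQi hQa => ?_
  have h3 : Q ∣ (C (w : R) : R[X]).map (algebraMap R (FractionRing R)) *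
      ∏ Q ∈ F, Q.map (algebraMap R (FractionRing R)) := by
    rwa [ha, Polynomial.map_mul, Polynomial.map_prod] at hQa
  rw [(TYPQ_cu (R := R) (w : R) w.ne_zero).dvd_mul_left] at h3
  obtain ⟨Q1, hQ1, h4⟩ := hQi.prime.exists_mem_finset_dvd h3
  obtain ⟨hm, hd, _⟩ := hF Q1 hQ1
  obtain ⟨u, v, huv⟩ := TYPQ_L b Q1 (p * p') hm hd (hE Q1 hQ1)
  exact ⟨u, v, h4.trans huv⟩

end loc

theorem TYPQ {R : Type} [CommRing R] [IsDomain R] [IsPrincipalIdealRing R] (h2 : IsUnit (2 : R))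
    (a b : R[X]) (hS : Side a b) (V : R[X] → Prop) (hV : ∀ p, V p → Prime p ∧ ¬ p ∣ a)
    (hpar : ∀ p, V p → ∀ (Q a' : R[X]) (𝔮 : AdjoinRoot Q), Q.Monic → IsDomain (AdjoinRoot Q) →
      IsPrincipalIdealRing (AdjoinRoot Q) → a = Q * a' → IsUnit (AdjoinRoot.mk Q a') →
      IsUnit (AdjoinRoot.mk Q b) → Prime 𝔮 → Finite (AdjoinRoot Q ⧸ Ideal.span {𝔮}) →
      (∀ β : AdjoinRoot Q, ¬ 𝔮 ∣ AdjoinRoot.mk Q b - β ^ 2) →
      ∃ k : ℕ, 𝔮 ^ (2 * k) ∣ AdjoinRoot.mk Q p ∧ ¬ 𝔮 ^ (2 * k + 1) ∣ AdjoinRoot.mk Q p) :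
    ∃ (n : ℕ) (τ : R[X] → Fin n), ∀ p p', V p → V p' → τ p = τ p' →
      ∀ Q : (FractionRing R)[X], Irreducible Q → Q ∣ a.map (algebraMap R (FractionRing R)) →
        ∃ u v : (FractionRing R)[X],
          Q ∣ u ^ 2 - b.map (algebraMap R (FractionRing R)) * v ^ 2 -
            (p * p').map (algebraMap R (FractionRing R)) :=
  TYPQ_side h2 a b hS V hV hpar

end Pool.Agent.QTB
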