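import Pool.Agent.QTB.Dat4
import Pool.Agent.QTB.TYPQ

/-!
# QTB, module ISOD: from the normalised form to the Albert form

Proof. Multiply the vectors by a common constant of `R` (denominators of coefficients): they come from `x_i, y_i ∈ R[X]^6` with
`dg δ x_i x_j = f dg δ y_i y_j`, `δ = gδ G`. With `λ = G 4 G 5 G 6 G 7`, `s = (G 4 G 5, G 6 G 7, λ, G 4 G 6, G 5 G 7, λ)`, `λ alc_k = δ_k s_k²`, put
`x'_ik = (λ / s_k) x_ik` (`λ / s = (G 6 G 7, G 4 G 5, 1, G 5 G 7, G 4 G 6, 1)`): `alc_k x'_ik x'_jk = λ δ_k x_ik x_jk`. Independence is kept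
(multiplication of the coordinates by nonzero factors; a relation over `R[X]` is a relation over `L[X]`).
-/

set_option autoImplicit false

namespace Pool.Agent.QTB

open Polynomial Pool.Agent.QCB

/-- the factors of the coordinates -/
def ISOD_t {P : Type} [CommRing P] (G : Fin 8 → P) : Fin 6 → P :=
  ![G 6 * G 7, G 4 * G 5, 1, G 5 * G 7, G 4 * G 6, 1]

theorem ISOD_alc {P : Type} [CommRing P] (G : Fin 8 → P) (k : Fin 6) :
    alc (ga G) (gb G) (gc G) (gd G) k * ISOD_t G k ^ 2 = G 4 * G 5 * G 6 * G 7 * gδ G k := by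
  fin_cases k
  · show ga G * (G 6 * G 7) ^ 2 = G 4 * G 5 * G 6 * G 7 * (G 0 * G 6 * G 7)
    unfold ga
    ring
  · show gb G * (G 4 * G 5) ^ 2 = G 4 * G 5 * G 6 * G 7 * (G 1 * G 4 * G 5)
    unfold gb
    ring
  · show -(ga G * gb G) * 1 ^ 2 = G 4 * G 5 * G 6 * G 7 * -(G 0 * G 1)
    unfold ga gb
    ring
  · show -gc G * (G 5 * G 7) ^ 2 = G 4 * G 5 * G 6 * G 7 * -(G 2 * G 5 * G 7)
    unfold gc
    ring
  · show -gd G * (G 4 * G 6) ^ 2 = G 4 * G 5 * G 6 * G 7 * -(G 3 * G 4 * G 6)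
    unfold gd
    ring
  · show gc G * gd G * 1 ^ 2 = G 4 * G 5 * G 6 * G 7 * (G 2 * G 3)
    unfold gc gd
    ring

theorem ISOD_t_ne {P : Type} [CommRing P] [IsDomain P] (G : Fin 8 → P) (hG : ∀ i, G i ≠ 0)
    (k : Fin 6) : ISOD_t G k ≠ 0 := by
  fin_cases k
  · exact mul_ne_zero (hG 6) (hG 7)
  · exact mul_ne_zero (hG 4) (hG 5)
  · exact one_ne_zero
  · exact mul_ne_zero (hG 5) (hG 7)
  · exact mul_ne_zero (hG 4) (hG 6)
  · exact one_ne_zero

theorem ISOD_dg {P : Type} [CommRing P] (G : Fin 8 → P) (x y : Fin 6 → P) :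
    dg (alc (ga G) (gb G) (gc G) (gd G)) (fun k => ISOD_t G k * x k) (fun k => ISOD_t G k * y k) =
      G 4 * G 5 * G 6 * G 7 * dg (gδ G) x y := by
  unfold dg
  rw [Finset.mul_sum]
  refine Finset.sum_congr rfl fun k _ => ?_
  have h := ISOD_alc G k
  linear_combination (x k * y k) * h

theorem ISOD {R : Type} [CommRing R] [IsDomain R] (G : Fin 8 → R[X]) (hG : ∀ i, G i ≠ 0)
    (f : R[X]) (h : Iso3 (fun k => (gδ G k).map (algebraMap R (FractionRing R)))
      (f.map (algebraMap R (FractionRing R)))) :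
    Iso3 (alc (ga G) (gb G) (gc G) (gd G)) f := by
  classical
  obtain ⟨x, y, hxy, hr⟩ := h
  obtain ⟨s, hs, hd⟩ := TYPQ_dens
    ((Finset.univ.image fun p : Fin 3 × Fin 6 => x p.1 p.2) ∪
      (Finset.univ.image fun p : Fin 3 × Fin 6 => y p.1 p.2) : Finset (FractionRing R)[X])
  have hX : ∀ i k, ∃ g : R[X], g.map (algebraMap R (FractionRing R)) =
      (C s : R[X]).map (algebraMap R (FractionRing R)) * x i k := fun i k =>
    hd _ (Finset.mem_union_left _ (Finset.mem_image.2 ⟨(i, k), Finset.mem_univ _, rfl⟩))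
  have hY : ∀ i k, ∃ g : R[X], g.map (algebraMap R (FractionRing R)) =
      (C s : R[X]).map (algebraMap R (FractionRing R)) * y i k := fun i k =>
    hd _ (Finset.mem_union_right _ (Finset.mem_image.2 ⟨(i, k), Finset.mem_univ _, rfl⟩))
  choose X' hX' using hX
  choose Y' hY' using hY
  have hu := TYPQ_cu s hs
  set c : (FractionRing R)[X] := (C s : R[X]).map (algebraMap R (FractionRing R)) with hc
  have hdg : ∀ (Z : Fin 3 → Fin 6 → R[X]) (z : Fin 3 → Fin 6 → (FractionRing R)[X]),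
      (∀ i k, (Z i k).map (algebraMap R (FractionRing R)) = c * z i k) → ∀ i j,
      (dg (gδ G) (Z i) (Z j)).map (algebraMap R (FractionRing R)) =
        c ^ 2 * dg (fun k => (gδ G k).map (algebraMap R (FractionRing R))) (z i) (z j) := by
    intro Z z hZ i j
    unfold dg
    rw [Polynomial.map_sum, Finset.mul_sum]
    refine Finset.sum_congr rfl fun k _ => ?_
    rw [Polynomial.map_mul, Polynomial.map_mul, hZ, hZ]
    ring
  have hmain : ∀ i j, dg (gδ G) (X' i) (X' j) = f * dg (gδ G) (Y' i) (Y' j) := by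
    intro i j
    apply TYPQ_inj
    show Polynomial.map _ _ = Polynomial.map _ _
    rw [Polynomial.map_mul, hdg X' x hX', hdg Y' y hY', hxy]
    ring
  have hind : ∀ (Z : Fin 3 → Fin 6 → R[X]) (z : Fin 3 → Fin 6 → (FractionRing R)[X]),
      (∀ i k, (Z i k).map (algebraMap R (FractionRing R)) = c * z i k) → ∀ r : Fin 3 → R[X],
      ∑ i, r i • (fun k => ISOD_t G k * Z i k) = 0 →
        ∑ i, (r i).map (algebraMap R (FractionRing R)) • z i = 0 := by
    intro Z z hZ r h0
    funext k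
    have h1 := congrFun h0 k
    rw [Finset.sum_apply] at h1
    simp only [Pi.smul_apply, smul_eq_mul, Pi.zero_apply] at h1
    have h2 : ISOD_t G k * ∑ i, r i * Z i k = 0 := by
      rw [← h1, Finset.mul_sum]
      refine Finset.sum_congr rfl fun i _ => ?_
      ring
    have h3 := (mul_eq_zero.1 h2).resolve_left (ISOD_t_ne G hG k)
    have h4 := congrArg (Polynomial.map (algebraMap R (FractionRing R))) h3
    rw [Polynomial.map_sum, Polynomial.map_zero] at h4
    have h5 : c * ∑ i, (r i).map (algebraMap R (FractionRing R)) * z i k = 0 := by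
      rw [← h4, Finset.mul_sum]
      refine Finset.sum_congr rfl fun i _ => ?_
      rw [Polynomial.map_mul, hZ]
      ring
    have h6 := (mul_eq_zero.1 h5).resolve_left hu.ne_zero
    rw [Finset.sum_apply]
    simp only [Pi.smul_apply, smul_eq_mul, Pi.zero_apply]
    exact h6
  refine ⟨fun i k => ISOD_t G k * X' i k, fun i k => ISOD_t G k * Y' i k, fun i j => ?_,
    fun r h1 h2 => ?_⟩
  · rw [ISOD_dg, ISOD_dg, hmain]
    ring
  · have h3 := hr (fun i => (r i).map (algebraMap R (FractionRing R))) (hind X' x hX' r h1)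
      (hind Y' y hY' r h2)
    funext i
    apply TYPQ_inj
    show Polynomial.map _ _ = Polynomial.map _ _
    rw [Pi.zero_apply, Polynomial.map_zero]
    exact congrFun h3 i

end Pool.Agent.QTB
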