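import Pool.Agent.QTB.Defs

/-!
# QTB, module L0: definitions for the lattice part
-/

set_option autoImplicit false

namespace Pool.Agent.QTB

open Matrix Polynomial

/-- all quadratic forms in five variables over `F` are isotropic -/
def U5 (F : Type) [Field F] : Prop :=
  ∀ M : Matrix (Fin 5) (Fin 5) F, ∃ x : Fin 5 → F, x ≠ 0 ∧ x ⬝ᵥ (M *ᵥ x) = 0

theorem U5.of_sys {F : Type} [Field F] (h : QSys 2 F) : U5 F := by
  intro M
  obtain ⟨x, hx, h1⟩ := h 1 5 (fun _ => M) (by norm_num)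
  exact ⟨x, hx, h1 0⟩

open Classical in
/-- the submodule `Λ` defines a selfdual lattice at the prime `Q` for the diagonal form `η`: it is its own
orthogonal module for the coordinates `k` with `Q ∣ η k` -/
def LocLag {F : Type} [Field F] {n : ℕ} (η : Fin n → F[X]) (Q : F[X])
    (Λ : Submodule F[X] (Fin n → F[X])) : Prop :=
  ∀ x, x ∈ Λ ↔ ∀ y ∈ Λ, Q ^ 2 ∣ ∑ k, if Q ∣ η k then η k * (x k * y k) else 0

/-- the form `δ` modulo `P` contains a three-dimensional totally isotropic subspace -/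
def Lag3 {F : Type} [Field F] {n : ℕ} (δ : Fin n → F[X]) (P : F[X]) : Prop :=
  ∃ z : Fin 3 → Fin n → F[X], (∀ i j, P ∣ dg δ (z i) (z j)) ∧
    ∀ r : Fin 3 → F[X], (∀ k, P ∣ ∑ i, r i * z i k) → ∀ i, P ∣ r i

end Pool.Agent.QTB
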