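import Pool.Agent.QTB.L0

/-!
# QTB, module L1: Riemann-Roch inequality for matrices over `F[X]`

Proof. `F[X]^n / B F[X]^n` has dimension `deg det B` over `F` (Smith normal form: `Submodule.smithNormalForm`,
`Polynomial` quotients; only `≤` is needed), the box `{y : deg y_i ≤ c_i}` has dimension `∑ (c_i + 1)`, so its
intersection with the image of `B` has dimension at least `∑ (c_i + 1) - deg det B`, and `B` is injective.
-/

set_option autoImplicit false

namespace Pool.Agent.QTB

open Matrix Polynomial

theorem L1_ker {F V W : Type} [Field F] [AddCommGroup V] [Module F V] [AddCommGroup W]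
    [Module F W] [FiniteDimensional F V] [FiniteDimensional F W] (g : V →ₗ[F] W) (N : ℕ)
    (h : N + Module.finrank F W ≤ Module.finrank F V) :
    ∃ y : Fin N → V, LinearIndependent F y ∧ ∀ j, g (y j) = 0 := by
  have hd3 := LinearMap.finrank_range_add_finrank_ker g
  have hd4 : Module.finrank F (LinearMap.range g) ≤ Module.finrank F W :=
    Submodule.finrank_le _
  have hd5 : N ≤ Module.finrank F (LinearMap.ker g) := by omega
  have bK := Module.finBasis F (LinearMap.ker g)
  refine ⟨fun j => ((bK (Fin.castLE hd5 j) : LinearMap.ker g) : V), ?_, fun j =>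
    (bK (Fin.castLE hd5 j)).2⟩
  have h1 : LinearIndependent F (fun j => bK (Fin.castLE hd5 j)) :=
    bK.linearIndependent.comp _ (Fin.castLE_injective hd5)
  exact h1.map' (LinearMap.ker g).subtype (Submodule.ker_subtype _)

theorem L1 {F : Type} [Field F] {n : ℕ} (B : Matrix (Fin n) (Fin n) F[X]) (hB : B.det ≠ 0)
    (c : Fin n → ℕ) (N : ℕ) (hN : N + B.det.natDegree ≤ ∑ i, (c i + 1)) :
    ∃ w : Fin N → Fin n → F[X], LinearIndependent F w ∧
      ∀ j i, ((B *ᵥ w j) i).natDegree ≤ c i := by
  classical
  have hinj : Function.Injective B.mulVecLin :=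
    Matrix.mulVec_injective_of_det_mem_nonZeroDivisors (mem_nonZeroDivisors_of_ne_zero hB)
  have hr : Module.finrank F[X] (LinearMap.range B.mulVecLin) =
      Module.finrank F[X] (Fin n → F[X]) := LinearMap.finrank_range_of_inj hinj
  obtain ⟨b', a, ab', hab⟩ :=
    Submodule.exists_smith_normal_form_of_rank_eq (Pi.basisFun F[X] (Fin n)) hr
  have ha0 : ∀ i, a i ≠ 0 := by
    intro i hi
    apply ab'.ne_zero i
    refine Subtype.coe_injective ?_
    show ((ab' i : LinearMap.range B.mulVecLin) : Fin n → F[X]) = 0
    rw [hab i, hi, zero_smul]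
  -- the determinant
  have hdet : B.det.natDegree = ∑ i, (a i).natDegree := by
    have h1 : Associated (LinearMap.det B.mulVecLin)
        (LinearMap.det (Matrix.toLin b' b' (Matrix.diagonal a))) := by
      refine LinearMap.associated_det_of_eq_comp
        ((LinearEquiv.ofInjective B.mulVecLin hinj).trans (ab'.equiv b' (Equiv.refl _))) _ _ ?_
      intro x
      have h2 : (Matrix.toLin b' b' (Matrix.diagonal a)) ∘ₗ
          (ab'.equiv b' (Equiv.refl _)).toLinearMap =
          (LinearMap.range B.mulVecLin).subtype := by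
        refine ab'.ext fun i => ?_
        rw [LinearMap.comp_apply, LinearEquiv.coe_toLinearMap, Module.Basis.equiv_apply,
          Equiv.refl_apply, Matrix.toLin_self, Submodule.subtype_apply, hab i,
          Finset.sum_eq_single i]
        · rw [Matrix.diagonal_apply_eq]
        · intro j _ hj
          rw [Matrix.diagonal_apply_ne _ hj, zero_smul]
        · intro h
          exact absurd (Finset.mem_univ i) h
      have h3 := LinearMap.congr_fun h2 (LinearEquiv.ofInjective B.mulVecLin hinj x)
      exact h3.symm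
    rw [LinearMap.det_toLin, Matrix.det_diagonal] at h1
    have h4 : LinearMap.det B.mulVecLin = B.det := LinearMap.det_toLin' B
    rw [h4] at h1
    rw [← Polynomial.natDegree_prod _ _ fun i _ => ha0 i]
    exact natDegree_eq_of_degree_eq (degree_eq_degree_of_associated h1)
  -- the box
  let ι : (∀ i : Fin n, degreeLT F (c i + 1)) →ₗ[F] (Fin n → F[X]) :=
    LinearMap.pi fun i => (degreeLT F (c i + 1)).subtype ∘ₗ LinearMap.proj i
  have hι : Function.Injective ι := by
    intro x y h
    funext i
    exact Subtype.ext (congrFun h i)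
  let g : (∀ i : Fin n, degreeLT F (c i + 1)) →ₗ[F] (∀ i, F[X] ⧸ Ideal.span {a i}) :=
    LinearMap.pi fun i => (Ideal.Quotient.mkₐ F (Ideal.span {a i})).toLinearMap ∘ₗ
      ((b'.coord i).restrictScalars F ∘ₗ ι)
  have hker : ∀ y, g y = 0 → ∃ w, B.mulVecLin w = ι y := by
    intro y hy
    have h1 : ∀ i, ∃ q, b'.coord i (ι y) = a i * q := by
      intro i
      have h2 : (Ideal.Quotient.mk (Ideal.span {a i})) (b'.coord i (ι y)) = 0 := congrFun hy i
      exact Ideal.mem_span_singleton.1 (Ideal.Quotient.eq_zero_iff_mem.1 h2)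
    choose q hq using h1
    have h3 : ι y = ((∑ i, q i • ab' i : LinearMap.range B.mulVecLin) : Fin n → F[X]) := by
      rw [AddSubmonoidClass.coe_finsetSum]
      have h4 := b'.sum_repr (ι y)
      rw [← h4]
      refine Finset.sum_congr rfl fun i _ => ?_
      rw [Submodule.coe_smul, hab i, smul_smul]
      have h5 : b'.repr (ι y) i = a i * q i := hq i
      rw [h5, mul_comm]
    rw [h3]
    exact (∑ i, q i • ab' i : LinearMap.range B.mulVecLin).2
  -- dimensions
  have hfd : ∀ i, FiniteDimensional F (F[X] ⧸ Ideal.span {a i}) := fun i =>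
    PowerBasis.finite (AdjoinRoot.powerBasis (ha0 i))
  have hdl : ∀ m : ℕ, Module.finrank F (degreeLT F m) = m := by
    intro m
    rw [(degreeLTEquiv F m).finrank_eq, Module.finrank_fin_fun]
  have hfd' : ∀ m : ℕ, FiniteDimensional F (degreeLT F m) := fun m =>
    LinearEquiv.finiteDimensional (degreeLTEquiv F m).symm
  have hd1 : Module.finrank F (∀ i : Fin n, degreeLT F (c i + 1)) = ∑ i, (c i + 1) := by
    rw [Module.finrank_pi_fintype]
    exact Finset.sum_congr rfl fun i _ => hdl _
  have hd2 : Module.finrank F (∀ i, F[X] ⧸ Ideal.span {a i}) = ∑ i, (a i).natDegree := by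
    rw [Module.finrank_pi_fintype]
    exact Finset.sum_congr rfl fun i _ => finrank_quotient_span_eq_natDegree
  obtain ⟨y, hyi, hyk⟩ := L1_ker g N (by rw [hd1, hd2, ← hdet]; exact hN)
  choose w hw using fun j => hker (y j) (hyk j)
  refine ⟨w, ?_, ?_⟩
  · have h1 : LinearIndependent F ((B.mulVecLin.restrictScalars F) ∘ w) := by
      have e : (B.mulVecLin.restrictScalars F) ∘ w = ι ∘ y := funext fun j => hw j
      rw [e]
      exact hyi.map' ι (LinearMap.ker_eq_bot.2 hι)
    exact LinearIndependent.of_comp _ h1
  · intro j i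
    have h1 : (B *ᵥ w j) i = (y j i : F[X]) := congrFun (hw j) i
    rw [h1]
    have h2 := mem_degreeLT.1 (y j i).2
    by_cases h3 : (y j i : F[X]) = 0
    · rw [h3, natDegree_zero]
      exact Nat.zero_le _
    · have h4 := (natDegree_lt_iff_degree_lt h3).2 h2
      omega

end Pool.Agent.QTB
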