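import Pool.Agent.QTB.L0

/-!
# QTB, module L2: orthogonal families with an even degree

Proof. (1) Over the fraction field every anisotropic (so nondegenerate) symmetric bilinear form has an orthogonal
basis, and one may prescribe a nonzero first vector; clear denominators. [Or directly over `F[X]`: induct on the
rank with the submodule orthogonal to `v`, which has rank one less.]
(2) If all `deg b(v_i,v_i)` are odd: put `d_i = b(v_i,v_i)`, `D = max_{i<5} deg d_i`. By `U5` (diagonal matrix of leading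
coefficients of `d_0, …, d_4`) there is `x ∈ F^5`, `x ≠ 0`, with `∑ lc(d_i) x_i² = 0`. Let
`e = ∑_{i<5} x_i X^((D - deg d_i)/2) v_i`, `v' = X^((D - deg d_j)/2) v_j` with `x_j ≠ 0`. Then `deg b(e,e) < D`,
`deg b(v',v') = D`, `b(e,v') = x_j X^(D - deg d_j) d_j` has degree `D`. `b(e,e) ≠ 0` (anisotropy, `e ≠ 0`). If
`deg b(e,e)` is even take `e`. Otherwise `deg b(e,e) ≤ D - 2`, and `u = X e + v'` has
`b(u,u) = X² b(e,e) + 2 X b(e,v') + b(v',v')` of degree `D + 1`, even. Now start an orthogonal family with that vector.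
-/

set_option autoImplicit false

namespace Pool.Agent.QTB

open Matrix Polynomial

private theorem L2_ortho {R M : Type} [CommRing R] [IsDomain R] [AddCommGroup M] [Module R M]
    [Module.Finite R M] [Module.Free R M] (b : M →ₗ[R] M →ₗ[R] R)
    (hs : ∀ x y, b x y = b y x) (han : ∀ x, b x x = 0 → x = 0) (v0 : M) (h0 : v0 ≠ 0) :
    ∀ k : ℕ, k + 1 ≤ Module.finrank R M →
      ∃ v : Fin (k + 1) → M, (∀ i, v i ≠ 0) ∧ (∀ i j, i ≠ j → b (v i) (v j) = 0) ∧ v 0 = v0 := by
  intro k
  induction k with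
  | zero =>
    intro _
    refine ⟨fun _ => v0, fun _ => h0, fun i j hij => ?_, rfl⟩
    exact absurd (Fin.ext (by omega)) hij
  | succ k ih =>
    intro hk
    obtain ⟨v, hv1, hv2, hv3⟩ := ih (by omega)
    obtain ⟨d, hd⟩ : ∃ d : Fin (k + 1) → R, ∀ i, d i = b (v i) (v i) := ⟨_, fun _ => rfl⟩
    have hd0 : ∀ i, d i ≠ 0 := fun i h => hv1 i (han _ ((hd i).symm.trans h))
    obtain ⟨P, hP⟩ : ∃ P : R, P = ∏ i, d i := ⟨_, rfl⟩
    have hP0 : P ≠ 0 := by
      rw [hP]
      exact Finset.prod_ne_zero_iff.2 fun i _ => hd0 i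
    have hPi : ∀ i, (∏ j ∈ Finset.univ.erase i, d j) * d i = P := by
      intro i
      rw [hP]
      exact Finset.prod_erase_mul _ _ (Finset.mem_univ i)
    obtain ⟨x, hx⟩ : ∃ x : M, P • x -
        ∑ i, ((∏ j ∈ Finset.univ.erase i, d j) * b x (v i)) • v i ≠ 0 := by
      by_contra hcon
      push Not at hcon
      have hmem : ∀ x : M, P • x ∈ Submodule.span R (Set.range v) := by
        intro x
        rw [sub_eq_zero.1 (hcon x)]
        refine Submodule.sum_mem _ fun i _ => ?_
        exact Submodule.smul_mem _ _ (Submodule.subset_span (Set.mem_range_self i))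
      have hfin : Module.Finite R (Submodule.span R (Set.range v)) :=
        Module.Finite.span_of_finite R (Set.finite_range v)
      obtain ⟨f, hf⟩ : ∃ f : M →ₗ[R] Submodule.span R (Set.range v),
          ∀ x, (f x : M) = P • x :=
        ⟨(LinearMap.lsmul R M P).codRestrict _ hmem, fun x => rfl⟩
      have hinj : Function.Injective f := by
        intro x y hxy
        have h1 : P • x = P • y := by rw [← hf, ← hf, hxy]
        exact smul_right_injective M hP0 h1
      have h1 := LinearMap.finrank_le_finrank_of_injective hinj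
      have h2 : Module.finrank R (Submodule.span R (Set.range v)) ≤ k + 1 := by
        have := finrank_range_le_card (R := R) v
        rwa [Fintype.card_fin] at this
      omega
    obtain ⟨x', hx'⟩ : ∃ x' : M, x' = P • x -
        ∑ i, ((∏ j ∈ Finset.univ.erase i, d j) * b x (v i)) • v i := ⟨_, rfl⟩
    rw [← hx'] at hx
    have horth : ∀ i, b (v i) x' = 0 := by
      intro i
      rw [hx', map_sub, map_smul, map_sum, Finset.sum_eq_single i]
      · rw [map_smul, smul_eq_mul, smul_eq_mul, ← hd i, hs x (v i), ← hPi i]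
        ring
      · intro j _ hji
        rw [map_smul, hv2 i j (Ne.symm hji), smul_zero]
      · intro h
        exact absurd (Finset.mem_univ i) h
    refine ⟨Fin.snoc v x', ?_, ?_, ?_⟩
    · intro i
      refine Fin.lastCases ?_ (fun i => ?_) i
      · rw [Fin.snoc_last]
        exact hx
      · rw [Fin.snoc_castSucc]
        exact hv1 i
    · intro i j
      refine Fin.lastCases ?_ (fun i => ?_) i
      · refine Fin.lastCases ?_ (fun j => ?_) j
        · intro h
          exact absurd rfl h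
        · intro _
          rw [Fin.snoc_last, Fin.snoc_castSucc, hs]
          exact horth j
      · refine Fin.lastCases ?_ (fun j => ?_) j
        · intro _
          rw [Fin.snoc_last, Fin.snoc_castSucc]
          exact horth i
        · intro h
          rw [Fin.snoc_castSucc, Fin.snoc_castSucc]
          exact hv2 i j (fun e => h (by rw [e]))
    · have e : (0 : Fin (k + 1 + 1)) = Fin.castSucc 0 := rfl
      rw [e, Fin.snoc_castSucc]
      exact hv3

theorem L2 {F : Type} [Field F] (h2 : (2 : F) ≠ 0) (hU : U5 F) {M : Type} [AddCommGroup M]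
    [Module F[X] M] [Module.Finite F[X] M] [Module.Free F[X] M] (b : M →ₗ[F[X]] M →ₗ[F[X]] F[X])
    (hs : ∀ x y, b x y = b y x) (han : ∀ x, b x x = 0 → x = 0)
    (hn : 5 ≤ Module.finrank F[X] M) :
    ∃ v : Fin (Module.finrank F[X] M) → M, (∀ i, v i ≠ 0) ∧ (∀ i j, i ≠ j → b (v i) (v j) = 0) ∧
      ∃ i, Even (b (v i) (v i)).natDegree := by
  obtain ⟨n, hn'⟩ : ∃ n, Module.finrank F[X] M = n + 1 := ⟨Module.finrank F[X] M - 1, by omega⟩
  have fam : ∀ v0 : M, v0 ≠ 0 → ∃ v : Fin (n + 1) → M, (∀ i, v i ≠ 0) ∧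
      (∀ i j, i ≠ j → b (v i) (v j) = 0) ∧ v 0 = v0 :=
    fun v0 h0 => L2_ortho b hs han v0 h0 n (by omega)
  rw [hn'] at hn ⊢
  have evn : ∀ v0 : M, v0 ≠ 0 → Even (b v0 v0).natDegree →
      ∃ v : Fin (n + 1) → M, (∀ i, v i ≠ 0) ∧ (∀ i j, i ≠ j → b (v i) (v j) = 0) ∧
      ∃ i, Even (b (v i) (v i)).natDegree := by
    intro v0 h0 he
    obtain ⟨v, hv1, hv2, hv3⟩ := fam v0 h0
    exact ⟨v, hv1, hv2, 0, by rw [hv3]; exact he⟩
  obtain ⟨v0, hv0⟩ : ∃ v0 : M, v0 ≠ 0 := by
    have h3 : 0 < Module.finrank F[X] M := by omega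
    have : Nontrivial M := Module.nontrivial_of_finrank_pos h3
    exact exists_ne 0
  obtain ⟨v, hv1, hv2, -⟩ := fam v0 hv0
  by_cases hev : ∃ i, Even (b (v i) (v i)).natDegree
  · exact ⟨v, hv1, hv2, hev⟩
  push Not at hev
  obtain ⟨w, hw⟩ : ∃ w : Fin 5 → M, ∀ i, w i = v (Fin.castLE hn i) := ⟨_, fun _ => rfl⟩
  have hw2 : ∀ i j, i ≠ j → b (w i) (w j) = 0 := by
    intro i j hij
    rw [hw, hw]
    apply hv2
    intro h
    exact hij (Fin.castLE_injective hn h)
  obtain ⟨d, hd⟩ : ∃ d : Fin 5 → F[X], ∀ i, d i = b (w i) (w i) := ⟨_, fun _ => rfl⟩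
  have hd0 : ∀ i, d i ≠ 0 := by
    intro i h
    rw [hd, hw] at h
    exact hv1 _ (han _ h)
  have hodd : ∀ i, Odd (d i).natDegree := by
    intro i
    rw [hd, hw]
    exact Nat.not_even_iff_odd.1 (hev _)
  obtain ⟨i0, hi0⟩ := Finite.exists_max (fun i : Fin 5 => (d i).natDegree)
  obtain ⟨D, hD⟩ : ∃ D : ℕ, D = (d i0).natDegree := ⟨_, rfl⟩
  have hDodd : Odd D := hD ▸ hodd i0
  have hle : ∀ i, (d i).natDegree ≤ D := fun i => hD ▸ hi0 i
  obtain ⟨m, hm⟩ : ∃ m : Fin 5 → ℕ, ∀ i, 2 * m i + (d i).natDegree = D := by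
    have : ∀ i, ∃ k, 2 * k + (d i).natDegree = D := by
      intro i
      obtain ⟨a, ha⟩ := hodd i
      obtain ⟨c, hc⟩ := hDodd
      have := hle i
      exact ⟨c - a, by omega⟩
    choose m hm using this
    exact ⟨m, hm⟩
  obtain ⟨x, hx0, hx⟩ := hU (diagonal fun i => (d i).leadingCoeff)
  rw [dotProduct] at hx
  simp only [mulVec_diagonal] at hx
  obtain ⟨y, hy⟩ : ∃ y : Fin 5 → M, ∀ i, y i = (X ^ m i : F[X]) • w i := ⟨_, fun _ => rfl⟩
  obtain ⟨c, hc⟩ : ∃ c : Fin 5 → F[X], ∀ i, c i = X ^ (2 * m i) * d i := ⟨_, fun _ => rfl⟩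
  have hyy : ∀ i, b (y i) (y i) = c i := by
    intro i
    rw [hy, hc, map_smul, map_smul, LinearMap.smul_apply, ← hd, smul_eq_mul, smul_eq_mul]
    ring
  have hyy0 : ∀ i j, i ≠ j → b (y i) (y j) = 0 := by
    intro i j hij
    rw [hy, hy, map_smul, map_smul, LinearMap.smul_apply, hw2 i j hij, smul_zero, smul_zero]
  have hcdeg : ∀ i, (c i).natDegree = D := by
    intro i
    rw [hc, mul_comm, natDegree_mul_X_pow _ (hd0 i)]
    have := hm i
    omega
  have hc0 : ∀ i, c i ≠ 0 := by
    intro i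
    rw [hc]
    exact mul_ne_zero (pow_ne_zero _ X_ne_zero) (hd0 i)
  have hclc : ∀ i, (c i).coeff D = (d i).leadingCoeff := by
    intro i
    have h3 : D = (d i).natDegree + 2 * m i := by
      have := hm i
      omega
    rw [hc, mul_comm, h3, coeff_mul_X_pow]
    rfl
  obtain ⟨e, he⟩ : ∃ e : M, e = ∑ i, (C (x i) : F[X]) • y i := ⟨_, rfl⟩
  have hey : ∀ j, b e (y j) = C (x j) * c j := by
    intro j
    rw [he, map_sum, LinearMap.sum_apply, Finset.sum_eq_single j]
    · rw [map_smul, LinearMap.smul_apply, hyy, smul_eq_mul]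
    · intro i _ hij
      rw [map_smul, LinearMap.smul_apply, hyy0 i j hij, smul_zero]
    · intro h
      exact absurd (Finset.mem_univ j) h
  have hee : b e e = ∑ i, C (x i * x i) * c i := by
    have h3 : b e e = b e (∑ i, (C (x i) : F[X]) • y i) := by rw [← he]
    rw [h3, map_sum]
    refine Finset.sum_congr rfl fun i _ => ?_
    rw [map_smul, hey, smul_eq_mul, C_mul]
    ring
  obtain ⟨j, hj⟩ : ∃ j, x j ≠ 0 := by
    by_contra hcon
    push Not at hcon
    exact hx0 (funext hcon)
  have he0 : e ≠ 0 := by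
    intro h
    have h3 := hey j
    rw [h, map_zero, LinearMap.zero_apply] at h3
    exact mul_ne_zero (C_ne_zero.2 hj) (hc0 j) h3.symm
  have hee0 : b e e ≠ 0 := fun h => he0 (han e h)
  have heele : (b e e).natDegree ≤ D := by
    rw [hee]
    refine natDegree_sum_le_of_forall_le _ _ fun i _ => ?_
    refine (natDegree_C_mul_le _ _).trans ?_
    rw [hcdeg]
  have heeco : (b e e).coeff D = 0 := by
    rw [hee, finsetSum_coeff, ← hx]
    refine Finset.sum_congr rfl fun i _ => ?_
    rw [coeff_C_mul, hclc]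
    ring
  have heelt : (b e e).natDegree < D := by
    refine lt_of_le_of_ne heele fun h => ?_
    rw [← h] at heeco
    exact hee0 (leadingCoeff_eq_zero.1 heeco)
  by_cases hev2 : Even (b e e).natDegree
  · exact evn e he0 hev2
  have hee2 : (b e e).natDegree + 2 ≤ D := by
    obtain ⟨a1, ha1⟩ := Nat.not_even_iff_odd.1 hev2
    obtain ⟨a2, ha2⟩ := hDodd
    omega
  obtain ⟨u, hu⟩ : ∃ u : M, u = (X : F[X]) • e + y j := ⟨_, rfl⟩
  have huu : b u u = X ^ 2 * b e e + C (2 * x j) * c j * X + c j := by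
    rw [hu, map_add, map_add, map_smul, map_smul, LinearMap.add_apply, LinearMap.add_apply,
      LinearMap.smul_apply, LinearMap.smul_apply, hs (y j) e, hey, hyy, smul_eq_mul, smul_eq_mul,
      smul_eq_mul, C_mul, map_ofNat]
    ring
  have hudeg : (b u u).natDegree = D + 1 := by
    apply natDegree_eq_of_le_of_coeff_ne_zero
    · rw [huu]
      refine natDegree_add_le_of_degree_le (natDegree_add_le_of_degree_le ?_ ?_) ?_
      · refine (natDegree_mul_le).trans ?_
        rw [natDegree_X_pow]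
        omega
      · refine (natDegree_mul_le).trans ?_
        rw [natDegree_X]
        have := (natDegree_C_mul_le (2 * x j) (c j)).trans (le_of_eq (hcdeg j))
        omega
      · rw [hcdeg]
        omega
    · have h3 : (X ^ 2 * b e e).coeff (D + 1) = 0 := by
        apply coeff_eq_zero_of_natDegree_lt
        refine lt_of_le_of_lt natDegree_mul_le ?_
        rw [natDegree_X_pow]
        omega
      have h4 : (c j).coeff (D + 1) = 0 := by
        apply coeff_eq_zero_of_natDegree_lt
        rw [hcdeg]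
        omega
      rw [huu, coeff_add, coeff_add, h3, h4, coeff_mul_X, coeff_C_mul, hclc, zero_add, add_zero]
      exact mul_ne_zero (mul_ne_zero h2 hj) (leadingCoeff_ne_zero.2 (hd0 j))
  have hu0 : u ≠ 0 := by
    intro h
    rw [h, map_zero, natDegree_zero] at hudeg
    omega
  refine evn u hu0 ?_
  rw [hudeg]
  exact hDodd.add_one

end Pool.Agent.QTB
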