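import Pool.Agent.QTB.L1
import Pool.Agent.QTB.L2

/-!
# QTB, module L3: isotropic vectors of unimodular lattices over `F[X]` (helper21)

Proof. Suppose `b` is anisotropic. Take `v`, `d_i = b(v_i,v_i) ≠ 0` from `L2`, `n` the rank, `e_j` a basis of `M`,
`B = (b(v_i, e_j))`. With `P` = coordinates of the `v_i` and `G` = Gram matrix of the `e_j` (`det G` is a unit since `b` is
perfect) `B = P G` (up to transposition), `P G Pᵀ = diag(d)`, so `∏ d_i = det(P)² · unit`: the sum of the degrees of
the `d_i` is `2 deg det B`, in particular the number `s` of odd `deg d_i` is even; one of them is even and `n` is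
even, so `s ≤ n - 2`. `L1` with `c_i = deg d_i / 2` (floor): `∑ (c_i + 1) - deg det B = n - s / 2 ≥ n / 2 + 1 ≥ 5`, so
there are five `m_j ∈ M`, independent over `F`, with `deg b(v_i, m) ≤ deg d_i / 2` for all `F`-combinations `m`.
`b(m,m) = ∑ b(v_i,m)² / d_i` (both sides times `∏ d_i`; the `v_i` are an orthogonal basis over the fraction field) is
a polynomial of degree `≤ 0`. So `b(m_i,m_j) ∈ F` (polarise) and `U5` gives an isotropic vector, a contradiction.
-/

set_option autoImplicit false

namespace Pool.Agent.QTB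

open Matrix Polynomial

section L3

variable {F : Type} [Field F] {M : Type} [AddCommGroup M] [Module F[X] M]

private theorem L3_left {n : ℕ} (e : Module.Basis (Fin n) F[X] M)
    (b : M →ₗ[F[X]] M →ₗ[F[X]] F[X]) (x y : M) : b x y = ∑ k, e.repr x k * b (e k) y := by
  have h1 : b x = b (∑ k, e.repr x k • e k) := by rw [e.sum_repr x]
  have h2 : b (∑ k, e.repr x k • e k) = ∑ k, e.repr x k • b (e k) := by
    rw [map_sum]
    exact Finset.sum_congr rfl fun k _ => map_smul b _ _
  rw [h1, h2, LinearMap.sum_apply]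
  exact Finset.sum_congr rfl fun k _ => by rw [LinearMap.smul_apply, smul_eq_mul]

private theorem L3_right {n : ℕ} (e : Module.Basis (Fin n) F[X] M)
    (b : M →ₗ[F[X]] M →ₗ[F[X]] F[X]) (x y : M) : b x y = ∑ k, b x (e k) * e.repr y k := by
  have h1 : b x y = b x (∑ k, e.repr y k • e k) := by rw [e.sum_repr y]
  rw [h1, map_sum]
  exact Finset.sum_congr rfl fun k _ => by rw [map_smul, smul_eq_mul, mul_comm]

/-- the determinant of the Gram matrix is a unit -/
private theorem L3_unit {n : ℕ} (e : Module.Basis (Fin n) F[X] M)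
    (b : M →ₗ[F[X]] M →ₗ[F[X]] F[X]) (hb : Function.Bijective b) :
    IsUnit (Matrix.of fun i j => b (e i) (e j)).det := by
  have h1 := LinearEquiv.isUnit_det (LinearEquiv.ofBijective b hb) e e.dualBasis
  have h2 : LinearMap.toMatrix e e.dualBasis (LinearEquiv.ofBijective b hb : M →ₗ[F[X]] _) =
      (Matrix.of fun i j => b (e i) (e j))ᵀ := by
    ext i j
    rw [LinearMap.toMatrix_apply, Module.Basis.dualBasis_repr]
    rfl
  rw [h2, Matrix.det_transpose] at h1
  exact h1

/-- the determinants -/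
private theorem L3_det {n : ℕ} (e : Module.Basis (Fin n) F[X] M)
    (b : M →ₗ[F[X]] M →ₗ[F[X]] F[X]) (v : Fin n → M)
    (ho : ∀ i j, i ≠ j → b (v i) (v j) = 0) :
    (Matrix.of fun i j => b (v i) (e j)).det ^ 2 =
      (∏ i, b (v i) (v i)) * (Matrix.of fun i j => b (e i) (e j)).det := by
  set G : Matrix (Fin n) (Fin n) F[X] := Matrix.of fun i j => b (e i) (e j) with hG
  set P : Matrix (Fin n) (Fin n) F[X] := Matrix.of fun i j => e.repr (v i) j with hP
  have h1 : (Matrix.of fun i j => b (v i) (e j)) = P * G := by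
    ext i j
    rw [Matrix.mul_apply, Matrix.of_apply, L3_left e b]
    rfl
  have h3 : Matrix.diagonal (fun i => b (v i) (v i)) = P * G * Pᵀ := by
    rw [← h1]
    ext i j
    rw [Matrix.mul_apply]
    have h5 : (∑ k, (Matrix.of fun i j => b (v i) (e j)) i k * Pᵀ k j) = b (v i) (v j) := by
      rw [L3_right e b (v i) (v j)]
      rfl
    rw [h5]
    by_cases hij : i = j
    · subst hij
      rw [Matrix.diagonal_apply_eq]
    · rw [Matrix.diagonal_apply_ne _ hij, ho i j hij]
  have h6 := congrArg Matrix.det h3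
  rw [Matrix.det_diagonal, Matrix.det_mul, Matrix.det_mul, Matrix.det_transpose] at h6
  rw [h1, Matrix.det_mul, h6]
  ring

/-- the expansion with respect to the orthogonal family -/
private theorem L3_exp {n : ℕ} (e : Module.Basis (Fin n) F[X] M)
    (b : M →ₗ[F[X]] M →ₗ[F[X]] F[X]) (v : Fin n → M)
    (ho : ∀ i j, i ≠ j → b (v i) (v j) = 0)
    (hB : (Matrix.of fun i j => b (v i) (e j)).det ≠ 0) (m m' : M) :
    (∏ i, b (v i) (v i)) * b m m' =
      ∑ i, b (v i) m' * (∏ k ∈ Finset.univ.erase i, b (v k) (v k)) * b m (v i) := by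
  classical
  set x : M := (∏ i, b (v i) (v i)) • m' -
    ∑ i, (b (v i) m' * (∏ k ∈ Finset.univ.erase i, b (v k) (v k))) • v i with hx
  have h1 : ∀ j, b (v j) x = 0 := by
    intro j
    rw [hx, map_sub, map_smul, map_sum, Finset.sum_eq_single j, map_smul, smul_eq_mul, smul_eq_mul,
      ← Finset.mul_prod_erase Finset.univ (fun i => b (v i) (v i)) (Finset.mem_univ j)]
    · ring
    · intro i _ hij
      rw [map_smul, ho j i (Ne.symm hij), smul_zero]
    · intro h
      exact absurd (Finset.mem_univ j) h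
  have h2 : x = 0 := by
    have h3 : (Matrix.of fun i j => b (v i) (e j)) *ᵥ (fun k => e.repr x k) = 0 := by
      funext i
      have h5 := L3_right e b (v i) x
      rw [h1] at h5
      exact h5.symm
    have h6 := Matrix.eq_zero_of_mulVec_eq_zero hB h3
    rw [← e.sum_repr x]
    exact Finset.sum_eq_zero fun k _ => by
      have h7 : e.repr x k = 0 := congrFun h6 k
      rw [h7, zero_smul]
  have h3 : b m x = 0 := by rw [h2, map_zero]
  rw [hx, map_sub, map_smul, map_sum, sub_eq_zero, smul_eq_mul] at h3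
  rw [h3]
  exact Finset.sum_congr rfl fun i _ => by rw [map_smul, smul_eq_mul]

/-- the degree -/
private theorem L3_deg {n : ℕ} (e : Module.Basis (Fin n) F[X] M)
    (b : M →ₗ[F[X]] M →ₗ[F[X]] F[X]) (hs : ∀ x y, b x y = b y x) (v : Fin n → M)
    (ho : ∀ i j, i ≠ j → b (v i) (v j) = 0) (hd : ∀ i, b (v i) (v i) ≠ 0)
    (hB : (Matrix.of fun i j => b (v i) (e j)).det ≠ 0) (m m' : M)
    (h1 : ∀ i, (b (v i) m).natDegree ≤ (b (v i) (v i)).natDegree / 2)
    (h2 : ∀ i, (b (v i) m').natDegree ≤ (b (v i) (v i)).natDegree / 2) :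
    b m m' = C ((b m m').coeff 0) := by
  classical
  rcases eq_or_ne (b m m') 0 with h0 | h0
  · rw [h0, Polynomial.coeff_zero, map_zero]
  apply Polynomial.eq_C_of_natDegree_eq_zero
  have hP : (∏ i, b (v i) (v i)) ≠ 0 := Finset.prod_ne_zero_iff.2 fun i _ => hd i
  have h3 := congrArg Polynomial.natDegree (L3_exp e b v ho hB m m')
  rw [Polynomial.natDegree_mul hP h0] at h3
  have h4 : (∑ i, b (v i) m' * (∏ k ∈ Finset.univ.erase i, b (v k) (v k)) *
      b m (v i)).natDegree ≤ (∏ i, b (v i) (v i)).natDegree := by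
    refine Polynomial.natDegree_sum_le_of_forall_le _ _ fun i _ => ?_
    have h5 : (∏ i, b (v i) (v i)).natDegree = (b (v i) (v i)).natDegree +
        (∏ k ∈ Finset.univ.erase i, b (v k) (v k)).natDegree := by
      rw [← Finset.mul_prod_erase Finset.univ (fun i => b (v i) (v i)) (Finset.mem_univ i),
        Polynomial.natDegree_mul (hd i) (Finset.prod_ne_zero_iff.2 fun i _ => hd i)]
    have h6 := Polynomial.natDegree_mul_le
      (p := b (v i) m' * (∏ k ∈ Finset.univ.erase i, b (v k) (v k))) (q := b m (v i))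
    have h7 := Polynomial.natDegree_mul_le
      (p := b (v i) m') (q := ∏ k ∈ Finset.univ.erase i, b (v k) (v k))
    have h8 := h1 i
    have h9 := h2 i
    rw [hs m (v i)] at h6 ⊢
    omega
  omega

private theorem L3_core (hU : U5 F) (b : M →ₗ[F[X]] M →ₗ[F[X]] F[X])
    (hs : ∀ x y, b x y = b y x) (hb : Function.Bijective b) {n : ℕ} (hn : 8 ≤ n) (he : Even n)
    (e : Module.Basis (Fin n) F[X] M) (han : ∀ x, b x x = 0 → x = 0) (v : Fin n → M)
    (hv : ∀ i, v i ≠ 0) (ho : ∀ i j, i ≠ j → b (v i) (v j) = 0) (i₀ : Fin n)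
    (hi₀ : Even (b (v i₀) (v i₀)).natDegree) : False := by
  classical
  have hd : ∀ i, b (v i) (v i) ≠ 0 := fun i h => hv i (han _ h)
  have hG := L3_unit e b hb
  have hdet := L3_det e b v ho
  have hP : (∏ i, b (v i) (v i)) ≠ 0 := Finset.prod_ne_zero_iff.2 fun i _ => hd i
  have hB : (Matrix.of fun i j => b (v i) (e j)).det ≠ 0 := by
    intro h
    rw [h, zero_pow two_ne_zero] at hdet
    exact mul_ne_zero hP hG.ne_zero hdet.symm
  have hdeg : 2 * (Matrix.of fun i j => b (v i) (e j)).det.natDegree =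
      ∑ i, (b (v i) (v i)).natDegree := by
    have h3 := congrArg Polynomial.natDegree hdet
    rw [Polynomial.natDegree_pow, Polynomial.natDegree_mul hP hG.ne_zero,
      Polynomial.natDegree_prod _ _ (fun i _ => hd i),
      Polynomial.natDegree_eq_zero_of_isUnit hG, add_zero] at h3
    exact h3
  -- the count
  have hcount : 5 + (Matrix.of fun i j => b (v i) (e j)).det.natDegree ≤
      ∑ i, ((b (v i) (v i)).natDegree / 2 + 1) := by
    have h3 : ∑ i, (b (v i) (v i)).natDegree =
        2 * ∑ i, (b (v i) (v i)).natDegree / 2 + ∑ i, (b (v i) (v i)).natDegree % 2 := by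
      rw [Finset.mul_sum, ← Finset.sum_add_distrib]
      exact Finset.sum_congr rfl fun i _ => (Nat.div_add_mod _ 2).symm
    have h4 : ∑ i, (b (v i) (v i)).natDegree % 2 + 1 ≤ n := by
      have h5 : ∑ i, (b (v i) (v i)).natDegree % 2 =
          (b (v i₀) (v i₀)).natDegree % 2 +
            ∑ i ∈ Finset.univ.erase i₀, (b (v i) (v i)).natDegree % 2 :=
        (Finset.add_sum_erase _ _ (Finset.mem_univ i₀)).symm
      have h6 : ∑ i ∈ Finset.univ.erase i₀, (b (v i) (v i)).natDegree % 2 ≤
          (Finset.univ.erase i₀).card * 1 := by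
        rw [← smul_eq_mul]
        exact Finset.sum_le_card_nsmul _ _ _ fun i _ => by omega
      rw [Finset.card_erase_of_mem (Finset.mem_univ i₀), Finset.card_univ, Fintype.card_fin] at h6
      have h7 : (b (v i₀) (v i₀)).natDegree % 2 = 0 := Nat.even_iff.1 hi₀
      omega
    have h8 : ∑ i, ((b (v i) (v i)).natDegree / 2 + 1) =
        ∑ i, (b (v i) (v i)).natDegree / 2 + n := by
      rw [Finset.sum_add_distrib, Finset.sum_const, Finset.card_univ, Fintype.card_fin,
        smul_eq_mul, mul_one]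
    obtain ⟨t, ht⟩ := he
    omega
  obtain ⟨w, hw, hwd⟩ := L1 _ hB (fun i => (b (v i) (v i)).natDegree / 2) 5 hcount
  let m : Fin 5 → M := fun j => ∑ k, w j k • e k
  have hm : ∀ i j, b (v i) (m j) = ((Matrix.of fun i j => b (v i) (e j)) *ᵥ w j) i := by
    intro i j
    show b (v i) (∑ k, w j k • e k) = ∑ k, b (v i) (e k) * w j k
    rw [map_sum]
    refine Finset.sum_congr rfl fun k _ => ?_
    rw [map_smul, smul_eq_mul, mul_comm]
  have hmd : ∀ j i, (b (v i) (m j)).natDegree ≤ (b (v i) (v i)).natDegree / 2 := by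
    intro j i
    rw [hm]
    exact hwd j i
  have hC : ∀ j j', b (m j) (m j') = C ((b (m j) (m j')).coeff 0) := fun j j' =>
    L3_deg e b hs v ho hd hB (m j) (m j') (hmd j) (hmd j')
  obtain ⟨x, hx0, hx⟩ := hU (Matrix.of fun j j' => (b (m j) (m j')).coeff 0)
  apply hx0
  have h3 : b (∑ j, C (x j) • m j) (∑ j, C (x j) • m j) = 0 := by
    have h4 : b (∑ j, C (x j) • m j) (∑ j, C (x j) • m j) =
        C (x ⬝ᵥ ((Matrix.of fun j j' => (b (m j) (m j')).coeff 0) *ᵥ x)) := by
      have h5 : b (∑ j, C (x j) • m j) = ∑ j, C (x j) • b (m j) := by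
        rw [map_sum]
        exact Finset.sum_congr rfl fun k _ => map_smul b _ _
      have h6 : x ⬝ᵥ ((Matrix.of fun j j' => (b (m j) (m j')).coeff 0) *ᵥ x) =
          ∑ j, x j * ∑ j', (b (m j) (m j')).coeff 0 * x j' := rfl
      rw [h5, LinearMap.sum_apply, h6, map_sum C]
      refine Finset.sum_congr rfl fun j _ => ?_
      rw [LinearMap.smul_apply, map_sum (b (m j)), smul_eq_mul, map_mul C, map_sum C]
      congr 1
      refine Finset.sum_congr rfl fun j' _ => ?_
      rw [map_smul, smul_eq_mul, map_mul C, ← hC j j', mul_comm]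
    rw [h4, hx, map_zero]
  have h4 := han _ h3
  have h5 : ∀ k, ∑ j, C (x j) * w j k = 0 := by
    intro k
    have h6 : ∑ j, C (x j) • m j = ∑ k, (∑ j, C (x j) * w j k) • e k := by
      simp only [m, Finset.smul_sum, smul_smul, Finset.sum_smul]
      rw [Finset.sum_comm]
    rw [h6] at h4
    have h7 := congrArg (fun z => e.repr z k) h4
    simpa [Finsupp.single_apply, map_sum] using h7
  have h6 : ∑ j, x j • w j = 0 := by
    funext k
    rw [Finset.sum_apply, Pi.zero_apply, ← h5 k]
    refine Finset.sum_congr rfl fun j _ => ?_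
    rw [Pi.smul_apply, Polynomial.smul_eq_C_mul]
  funext j
  exact Fintype.linearIndependent_iff.1 hw x h6 j

end L3

theorem L3 {F : Type} [Field F] (h2 : (2 : F) ≠ 0) (hU : U5 F) {M : Type} [AddCommGroup M]
    [Module F[X] M] [Module.Finite F[X] M] [Module.Free F[X] M] (b : M →ₗ[F[X]] M →ₗ[F[X]] F[X])
    (hs : ∀ x y, b x y = b y x) (hb : Function.Bijective b)
    (hn : 8 ≤ Module.finrank F[X] M) (he : Even (Module.finrank F[X] M)) :
    ∃ x : M, x ≠ 0 ∧ b x x = 0 := by
  classical
  by_contra hcon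
  have han : ∀ x, b x x = 0 → x = 0 := by
    intro x hx
    by_contra h0
    exact hcon ⟨x, h0, hx⟩
  obtain ⟨v, hv, ho, i₀, hi₀⟩ := L2 h2 hU b hs han (by omega)
  exact L3_core hU b hs hb hn he (Module.finBasis F[X] M) han v hv ho i₀ hi₀

end Pool.Agent.QTB
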