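import Pool.Agent.QTB.L3

/-!
# QTB, module L4: totally isotropic submodules

Proof. Induction on `k`. `L3` gives an isotropic `x ≠ 0`; divide by its content so that `x` is primitive (part of a
basis, or: some linear form `M → F[X]` takes the value `1` at `x`); `b` is bijective, so there is `y` with
`b x y = 1`. `M'' = {z : b x z = 0 ∧ b y z = 0}`; `M = F[X] x ⊕ F[X] y ⊕ M''` (`z - b(y',z) x - …`: replace `y` by
`y - (b(y,y) / 2) x` so that `b y y = 0`; then `z - b(z,y) x - b(z,x) y ∈ M''`), so `M''` has rank two less and the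
restriction of `b` is bijective. For `k = 0` take `x`; otherwise `x` together with the family of `M''`.
-/

set_option autoImplicit false

namespace Pool.Agent.QTB

open Matrix Polynomial

/-- a primitive isotropic vector -/
private theorem L4_prim {R M : Type} [CommRing R] [IsDomain R] [IsPrincipalIdealRing R]
    [AddCommGroup M] [Module R M] (b : M →ₗ[R] M →ₗ[R] R) (hb : Function.Bijective b)
    (x0 : M) (h0 : x0 ≠ 0) (hx0 : b x0 x0 = 0) :
    ∃ x y : M, b x x = 0 ∧ b x y = 1 := by
  obtain ⟨c, hc⟩ := (IsPrincipalIdealRing.principal (LinearMap.range (b x0) : Ideal R)).principal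
  have hc0 : c ≠ 0 := by
    rintro rfl
    apply h0
    apply hb.1
    rw [map_zero]
    ext m
    have h1 : b x0 m ∈ LinearMap.range (b x0) := ⟨m, rfl⟩
    rw [hc, Submodule.span_zero_singleton, Submodule.mem_bot] at h1
    rw [h1, LinearMap.zero_apply]
  have h2 : ∀ m, ∃ r, b x0 m = c * r := by
    intro m
    have h1 : b x0 m ∈ LinearMap.range (b x0) := ⟨m, rfl⟩
    rw [hc, Submodule.mem_span_singleton] at h1
    obtain ⟨r, hr⟩ := h1
    exact ⟨r, by rw [← hr, smul_eq_mul, mul_comm]⟩
  choose φ0 hφ0 using h2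
  let φ : M →ₗ[R] R :=
    { toFun := φ0
      map_add' := fun m m' => by
        apply mul_left_cancel₀ hc0
        rw [mul_add, ← hφ0, ← hφ0, ← hφ0, map_add]
      map_smul' := fun r m => by
        apply mul_left_cancel₀ hc0
        rw [← hφ0, map_smul, hφ0, RingHom.id_apply, smul_eq_mul, smul_eq_mul]
        ring }
  have hφ : ∀ m, b x0 m = c * φ m := hφ0
  obtain ⟨x, hx⟩ := hb.2 φ
  have hcx : c • x = x0 := by
    apply hb.1
    rw [map_smul, hx]
    ext m
    rw [LinearMap.smul_apply, smul_eq_mul, hφ]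
  have hy : c ∈ LinearMap.range (b x0) := by
    rw [hc]
    exact Submodule.mem_span_singleton_self c
  obtain ⟨y, hy⟩ := hy
  refine ⟨x, y, ?_, ?_⟩
  · have h3 : b x0 x0 = c * (c * b x x) := by
      conv_lhs => rw [← hcx]
      rw [map_smul, map_smul, LinearMap.smul_apply, smul_eq_mul, smul_eq_mul]
    rw [hx0] at h3
    exact (mul_eq_zero.1 ((mul_eq_zero.1 h3.symm).resolve_left hc0)).resolve_left hc0
  · rw [hx]
    apply mul_left_cancel₀ hc0
    rw [← hφ, hy, mul_one]

/-- a hyperbolic pair -/
private theorem L4_hyp {R M : Type} [CommRing R] [IsDomain R] [IsPrincipalIdealRing R]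
    [AddCommGroup M] [Module R M] (b : M →ₗ[R] M →ₗ[R] R) (hs : ∀ x y, b x y = b y x)
    (hb : Function.Bijective b) (u : R) (hu : u * 2 = 1)
    (x0 : M) (h0 : x0 ≠ 0) (hx0 : b x0 x0 = 0) :
    ∃ x y : M, b x x = 0 ∧ b x y = 1 ∧ b y y = 0 := by
  obtain ⟨x, y, h1, h2⟩ := L4_prim b hb x0 h0 hx0
  refine ⟨x, y - (u * b y y) • x, h1, ?_, ?_⟩
  · rw [map_sub, map_smul, h1, smul_zero, sub_zero, h2]
  · have h3 : b y x = 1 := by rw [hs, h2]
    simp only [map_sub, map_smul, LinearMap.sub_apply, LinearMap.smul_apply, h1, h2, h3,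
      smul_eq_mul]
    linear_combination (-b y y) * hu

/-- the orthogonal complement of a hyperbolic pair -/
private def L4_W {R M : Type} [CommRing R] [AddCommGroup M] [Module R M]
    (b : M →ₗ[R] M →ₗ[R] R) (x y : M) : Submodule R M :=
  LinearMap.ker ((b x).prod (b y))

private theorem L4_mem {R M : Type} [CommRing R] [AddCommGroup M] [Module R M]
    (b : M →ₗ[R] M →ₗ[R] R) (x y z : M) : z ∈ L4_W b x y ↔ b x z = 0 ∧ b y z = 0 := by
  rw [L4_W, LinearMap.mem_ker]
  exact Prod.mk_eq_zero

/-- the projection to the complement -/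
private theorem L4_pr {R M : Type} [CommRing R] [AddCommGroup M] [Module R M]
    (b : M →ₗ[R] M →ₗ[R] R) (hs : ∀ x y, b x y = b y x) (x y : M) (hxx : b x x = 0)
    (hxy : b x y = 1) (hyy : b y y = 0) (z : M) :
    z - b y z • x - b x z • y ∈ L4_W b x y := by
  have hyx : b y x = 1 := by rw [hs, hxy]
  rw [L4_mem]
  simp only [map_sub, map_smul, hxx, hxy, hyy, hyx, smul_eq_mul]
  constructor <;> ring

private theorem L4_bij {R M : Type} [CommRing R] [AddCommGroup M] [Module R M]
    (b : M →ₗ[R] M →ₗ[R] R) (hs : ∀ x y, b x y = b y x) (hb : Function.Bijective b)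
    (x y : M) (hxx : b x x = 0) (hxy : b x y = 1) (hyy : b y y = 0) :
    Function.Bijective (b.domRestrict₁₂ (L4_W b x y) (L4_W b x y)) := by
  have hyx : b y x = 1 := by rw [hs, hxy]
  constructor
  · rw [injective_iff_map_eq_zero]
    intro w hw
    have h1 : b (w : M) = 0 := by
      ext z
      have h2 := (L4_mem b x y _).1 w.2
      have h3 := congrArg (fun f => f ⟨_, L4_pr b hs x y hxx hxy hyy z⟩) hw
      have h4 : b (w : M) (z - b y z • x - b x z • y) = 0 := h3
      rw [map_sub, map_sub, map_smul, map_smul, hs w x, hs w y, h2.1, h2.2, smul_zero, smul_zero,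
        sub_zero, sub_zero] at h4
      rw [h4, LinearMap.zero_apply]
    apply Subtype.ext
    apply hb.1
    rw [h1]
    exact (map_zero b).symm
  · intro φ
    let pr : M →ₗ[R] L4_W b x y :=
      { toFun := fun z => ⟨_, L4_pr b hs x y hxx hxy hyy z⟩
        map_add' := fun z z' => by
          apply Subtype.ext
          show z + z' - b y (z + z') • x - b x (z + z') • y =
            z - b y z • x - b x z • y + (z' - b y z' • x - b x z' • y)
          rw [map_add, map_add, add_smul, add_smul]
          abel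
        map_smul' := fun r z => by
          apply Subtype.ext
          show r • z - b y (r • z) • x - b x (r • z) • y = r • (z - b y z • x - b x z • y)
          rw [map_smul, map_smul, smul_sub, smul_sub, smul_smul, smul_smul, smul_eq_mul,
            smul_eq_mul] }
    have hpr : ∀ z, (pr z : M) = z - b y z • x - b x z • y := fun z => rfl
    obtain ⟨z0, hz0⟩ := hb.2 (φ.comp pr)
    have hval : ∀ z, b z0 z = φ (pr z) := fun z => by rw [hz0]; rfl
    have hprx : pr x = 0 := by
      apply Subtype.ext
      rw [hpr, hyx, hxx, one_smul, zero_smul, sub_self, sub_zero]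
      rfl
    have hpry : pr y = 0 := by
      apply Subtype.ext
      rw [hpr, hyy, hxy, one_smul, zero_smul, sub_zero, sub_self]
      rfl
    have hz0W : z0 ∈ L4_W b x y := by
      rw [L4_mem, hs x, hs y, hval, hval, hprx, hpry, map_zero]
      exact ⟨rfl, rfl⟩
    refine ⟨⟨z0, hz0W⟩, ?_⟩
    ext w
    show b z0 (w : M) = φ w
    have h2 := (L4_mem b x y _).1 w.2
    rw [hval]
    congr 1
    apply Subtype.ext
    rw [hpr, h2.1, h2.2, zero_smul, zero_smul, sub_zero, sub_zero]

private theorem L4_rank {R M : Type} [CommRing R] [IsDomain R] [AddCommGroup M] [Module R M]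
    [Module.Finite R M] (b : M →ₗ[R] M →ₗ[R] R) (hs : ∀ x y, b x y = b y x)
    (x y : M) (hxx : b x x = 0) (hxy : b x y = 1) (hyy : b y y = 0) :
    Module.finrank R M = 2 + Module.finrank R (L4_W b x y) := by
  have hyx : b y x = 1 := by rw [hs, hxy]
  have h1 := Submodule.finrank_quotient_add_finrank (L4_W b x y)
  have hsurj : Function.Surjective ((b x).prod (b y)) := by
    rintro ⟨r, s⟩
    refine ⟨s • x + r • y, ?_⟩
    show (b x (s • x + r • y), b y (s • x + r • y)) = (r, s)
    simp only [map_add, map_smul, hxx, hxy, hyy, hyx, smul_eq_mul, mul_zero, mul_one, zero_add,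
      add_zero]
  have h2 := (LinearMap.quotKerEquivOfSurjective _ hsurj).finrank_eq
  have h3 : Module.finrank R (M ⧸ L4_W b x y) = 2 := by
    rw [show Module.finrank R (M ⧸ L4_W b x y) = Module.finrank R (R × R) from h2,
      Module.finrank_prod, Module.finrank_self]
  rw [← h1, h3]

theorem L4 {F : Type} [Field F] (h2 : (2 : F) ≠ 0) (hU : U5 F) (k : ℕ) {M : Type} [AddCommGroup M]
    [Module F[X] M] [Module.Finite F[X] M] [Module.Free F[X] M] (b : M →ₗ[F[X]] M →ₗ[F[X]] F[X])
    (hs : ∀ x y, b x y = b y x) (hb : Function.Bijective b)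
    (hn : Module.finrank F[X] M = 8 + 2 * k) :
    ∃ x : Fin (k + 1) → M, LinearIndependent F[X] x ∧ ∀ i j, b (x i) (x j) = 0 := by
  induction k generalizing M with
  | zero =>
    obtain ⟨x0, h0, hx0⟩ := L3 h2 hU b hs hb (by omega) (by rw [hn]; exact ⟨4, rfl⟩)
    obtain ⟨x, y, hxx, hxy⟩ := L4_prim b hb x0 h0 hx0
    refine ⟨Fin.cons x Fin.elim0, ?_, ?_⟩
    · refine LinearIndependent.finCons' x _ (linearIndependent_empty_type) ?_
      intro c z h3 hc
      have hz : z = 0 := by
        rw [Set.range_eq_empty, Submodule.span_empty] at h3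
        exact (Submodule.mem_bot _).1 h3
      rw [hz, add_zero] at hc
      have h4 := congrArg (fun m => b m y) hc
      simp only [map_smul, LinearMap.smul_apply, hxy, smul_eq_mul, mul_one, map_zero,
        LinearMap.zero_apply] at h4
      exact h4
    · intro i j
      have hi : i = 0 := Fin.fin_one_eq_zero i
      have hj : j = 0 := Fin.fin_one_eq_zero j
      rw [hi, hj]
      exact hxx
  | succ k ih =>
    obtain ⟨x0, h0, hx0⟩ := L3 h2 hU b hs hb (by omega)
      (by rw [hn]; exact ⟨4 + (k + 1), by ring⟩)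
    have hu : (C (2 : F)⁻¹ : F[X]) * 2 = 1 := by
      rw [show (2 : F[X]) = C 2 from (map_ofNat C 2).symm, ← C_mul, inv_mul_cancel₀ h2, C_1]
    obtain ⟨x, y, hxx, hxy, hyy⟩ := L4_hyp b hs hb _ hu x0 h0 hx0
    have hr := L4_rank b hs x y hxx hxy hyy
    obtain ⟨v, hv, hvv⟩ := ih (M := L4_W b x y) (b.domRestrict₁₂ (L4_W b x y) (L4_W b x y))
      (fun z w => hs z w) (L4_bij b hs hb x y hxx hxy hyy) (by omega)
    refine ⟨Fin.cons x fun i => (v i : M), ?_, ?_⟩
    · refine LinearIndependent.finCons' x _
        (hv.map' (L4_W b x y).subtype (Submodule.ker_subtype _)) ?_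
      intro c z h3 hc
      have hz : z ∈ L4_W b x y := by
        have h4 : Submodule.span F[X] (Set.range fun i => (v i : M)) ≤ L4_W b x y := by
          rw [Submodule.span_le]
          rintro _ ⟨i, rfl⟩
          exact (v i).2
        exact h4 h3
      have h4 := congrArg (fun m => b y m) hc
      have h5 := ((L4_mem b x y _).1 hz).2
      simp only [map_smul, map_add, hs y x, hxy, smul_eq_mul, mul_one, map_zero, h5,
        add_zero] at h4
      exact h4
    · intro i j
      refine Fin.cases ?_ (fun i => ?_) i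
      · refine Fin.cases ?_ (fun j => ?_) j
        · exact hxx
        · exact ((L4_mem b x y _).1 (v j).2).1
      · refine Fin.cases ?_ (fun j => ?_) j
        · rw [hs]
          exact ((L4_mem b x y _).1 (v i).2).1
        · exact hvv i j

end Pool.Agent.QTB
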