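import Pool.Agent.QTB.L0

/-!
# QTB, module L5: the selfdual lattice defined by local data

Proof. `P` = product of the distinct irreducible factors of `∏ η_k` (squarefree; `η_k ∣ P` since `η_k` is
squarefree). `M = {u : ∀ k, P ∣ η_k u_k, ∀ Q ∣ P irreducible, u ∈ Λ_Q}`. `P² ∣ dg η u v` for `u, v ∈ M`: for `Q ∣ P` the terms
with `Q ∤ η_k` are divisible by `Q²` (then `Q ∣ u_k, v_k`), the others by `LocLag`; `P` is squarefree. So `b` is defined.
`LocLag` implies: `Λ_Q` contains `Q F[X]^n` and membership depends only on the coordinates `k` with `Q ∣ η_k`. So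
`P e_k ∈ M`; `b` is injective. Surjective: for `φ : M → F[X]` put `w_k = φ(P e_k) (P / η_k)`; then
`P² φ(v) = dg η w v` for `v ∈ M` (`P φ(v) = ∑ v_k φ(P e_k)`). `w ∈ M`: `P ∣ η_k w_k` clear; for `Q ∣ P` and `v ∈ Λ_Q` let
`v'_k = (P / Q) v_k` for `Q ∣ η_k` and `0` otherwise: `v' ∈ M`, so `P² ∣ (P/Q) ∑_{Q ∣ η_k} η_k w_k v_k`, hence `Q²` divides the sum.
-/

set_option autoImplicit false

namespace Pool.Agent.QTB

open Matrix Polynomial UniqueFactorizationMonoid

private theorem L5_monic {F : Type} [Field F] [DecidableEq F] {a q : F[X]} (h : q ∈ primeFactors a) :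
    Irreducible q ∧ q.Monic := by
  rw [mem_primeFactors] at h
  have h1 := irreducible_of_normalized_factor q h
  have h2 := normalize_normalized_factor q h
  refine ⟨h1, ?_⟩
  rw [← h2]
  exact Polynomial.monic_normalize h1.ne_zero

private theorem L5_sq {F : Type} [Field F] [DecidableEq F] (a N : F[X])
    (h : ∀ Q : F[X], Irreducible Q → Q.Monic → Q ∣ radical a → Q ^ 2 ∣ N) :
    radical a ^ 2 ∣ N := by
  have e : radical a ^ 2 = ∏ q ∈ primeFactors a, q ^ 2 := by
    rw [Finset.prod_pow]
    rfl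
  rw [e]
  apply Finset.prod_dvd_of_coprime
  · intro p hp q hq hpq
    have h1 := L5_monic (Finset.mem_coe.1 hp)
    have h2 := L5_monic (Finset.mem_coe.1 hq)
    apply IsCoprime.pow
    apply (h1.1.coprime_iff_not_dvd).2
    intro h3
    exact hpq (Polynomial.eq_of_monic_of_associated h1.2 h2.2 (h1.1.associated_of_dvd h2.1 h3))
  · intro q hq
    have h1 := L5_monic hq
    apply h q h1.1 h1.2
    exact Finset.dvd_prod_of_mem id hq

section
variable {F : Type} [Field F] {n : ℕ}

private theorem L5_mem (η : Fin n → F[X]) (Q : F[X]) (Λ : Submodule F[X] (Fin n → F[X]))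
    (h : LocLag η Q Λ) (x : Fin n → F[X]) (hx : ∀ k, Q ∣ η k → Q ∣ x k) : x ∈ Λ := by
  rw [h]
  intro y _
  apply Finset.dvd_sum
  intro k _
  split_ifs with hk
  · obtain ⟨c, hc⟩ := hk
    obtain ⟨d, hd⟩ := hx k ⟨c, hc⟩
    exact ⟨c * d * y k, by rw [hd, hc]; ring⟩
  · exact dvd_zero _

end

private theorem L5_core {F : Type} [Field F] {n : ℕ} (η : Fin n → F[X]) (hη0 : ∀ k, η k ≠ 0)
    (P : F[X]) (hP0 : P ≠ 0) (hdvd : ∀ k, η k ∣ P)
    (hsq : ∀ N : F[X], (∀ Q : F[X], Irreducible Q → Q.Monic → Q ∣ P → Q ^ 2 ∣ N) → P ^ 2 ∣ N)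
    (Λ : ∀ Q : F[X], Irreducible Q → Submodule F[X] (Fin n → F[X]))
    (hΛ : ∀ (Q : F[X]) (hQ : Irreducible Q), LocLag η Q (Λ Q hQ)) :
    ∃ (M : Submodule F[X] (Fin n → F[X])) (b : M →ₗ[F[X]] M →ₗ[F[X]] F[X]),
      (∀ x : Fin n → F[X], P • x ∈ M) ∧
      (∀ u v : M, P ^ 2 * b u v = dg η (u : Fin n → F[X]) v) ∧ Function.Bijective b := by
  classical
  choose c hc using hdvd
  -- the lattice
  let M : Submodule F[X] (Fin n → F[X]) :=
    { carrier := {u | (∀ k, P ∣ η k * u k) ∧
        ∀ (Q : F[X]) (hQ : Irreducible Q), Q.Monic → Q ∣ P → u ∈ Λ Q hQ}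
      add_mem' := by
        rintro u v ⟨hu1, hu2⟩ ⟨hv1, hv2⟩
        refine ⟨fun k => ?_, fun Q hQ h1 h2 => (Λ Q hQ).add_mem (hu2 Q hQ h1 h2) (hv2 Q hQ h1 h2)⟩
        rw [Pi.add_apply, mul_add]
        exact dvd_add (hu1 k) (hv1 k)
      zero_mem' := ⟨fun k => by simp, fun Q hQ _ _ => (Λ Q hQ).zero_mem⟩
      smul_mem' := by
        rintro r u ⟨hu1, hu2⟩
        refine ⟨fun k => ?_, fun Q hQ h1 h2 => (Λ Q hQ).smul_mem r (hu2 Q hQ h1 h2)⟩
        rw [Pi.smul_apply, smul_eq_mul, mul_left_comm]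
        exact dvd_mul_of_dvd_right (hu1 k) r }
  have hM : ∀ u, u ∈ M ↔ (∀ k, P ∣ η k * u k) ∧
      ∀ (Q : F[X]) (hQ : Irreducible Q), Q.Monic → Q ∣ P → u ∈ Λ Q hQ := fun u => Iff.rfl
  have hPx : ∀ x : Fin n → F[X], P • x ∈ M := by
    intro x
    refine (hM _).2 ⟨fun k => ?_, fun Q hQ h1 h2 => ?_⟩
    · rw [Pi.smul_apply, smul_eq_mul]
      exact ⟨η k * x k, by ring⟩
    · apply L5_mem η Q _ (hΛ Q hQ)
      intro k _
      rw [Pi.smul_apply, smul_eq_mul]
      exact dvd_mul_of_dvd_left h2 _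
  have hdg : ∀ u ∈ M, ∀ v ∈ M, P ^ 2 ∣ dg η u v := by
    intro u hu v hv
    apply hsq
    intro Q hQ hm hd
    have h1 : dg η u v = (∑ k, if Q ∣ η k then η k * (u k * v k) else 0) +
        ∑ k, if Q ∣ η k then 0 else η k * (u k * v k) := by
      rw [dg, ← Finset.sum_add_distrib]
      apply Finset.sum_congr rfl
      intro k _
      split_ifs <;> simp
    rw [h1]
    apply dvd_add
    · exact ((hΛ Q hQ) u).1 (hu.2 Q hQ hm hd) v (hv.2 Q hQ hm hd)
    · apply Finset.dvd_sum
      intro k _
      split_ifs with hk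
      · exact dvd_zero _
      · have h2 := (hQ.prime.dvd_or_dvd (dvd_trans hd (hu.1 k))).resolve_left hk
        have h3 := (hQ.prime.dvd_or_dvd (dvd_trans hd (hv.1 k))).resolve_left hk
        obtain ⟨y, hy⟩ := h2
        obtain ⟨z, hz⟩ := h3
        exact ⟨η k * (y * z), by rw [hy, hz]; ring⟩
  have hex : ∀ u v : M, ∃ t : F[X], P ^ 2 * t = dg η (u : Fin n → F[X]) v := by
    intro u v
    obtain ⟨t, ht⟩ := hdg u u.2 v v.2
    exact ⟨t, ht.symm⟩
  choose B hB using hex
  have hP2 : P ^ 2 ≠ 0 := pow_ne_zero 2 hP0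
  have dadd : ∀ x y z : Fin n → F[X], dg η (x + y) z = dg η x z + dg η y z := by
    intro x y z
    simp only [dg, ← Finset.sum_add_distrib]
    apply Finset.sum_congr rfl
    intro k _
    rw [Pi.add_apply]
    ring
  have dsmul : ∀ (r : F[X]) (y z : Fin n → F[X]), dg η (r • y) z = r * dg η y z := by
    intro r y z
    simp only [dg, Finset.mul_sum]
    apply Finset.sum_congr rfl
    intro k _
    rw [Pi.smul_apply, smul_eq_mul]
    ring
  have dcomm : ∀ (y z : Fin n → F[X]), dg η y z = dg η z y := by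
    intro y z
    simp only [dg]
    apply Finset.sum_congr rfl
    intro k _
    ring
  let b : M →ₗ[F[X]] M →ₗ[F[X]] F[X] := LinearMap.mk₂ F[X] B
    (by
      intro x y z
      apply mul_left_cancel₀ hP2
      rw [mul_add, hB, hB, hB, Submodule.coe_add, dadd])
    (by
      intro r y z
      apply mul_left_cancel₀ hP2
      rw [smul_eq_mul, mul_left_comm, hB, hB, Submodule.coe_smul, dsmul])
    (by
      intro x y z
      apply mul_left_cancel₀ hP2
      rw [mul_add, hB, hB, hB, Submodule.coe_add, dcomm, dadd, dcomm _ (x : Fin n → F[X]),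
        dcomm _ (x : Fin n → F[X])])
    (by
      intro r y z
      apply mul_left_cancel₀ hP2
      rw [smul_eq_mul, mul_left_comm, hB, hB, Submodule.coe_smul, dcomm, dsmul, dcomm])
  have hb : ∀ u v : M, P ^ 2 * b u v = dg η (u : Fin n → F[X]) v := hB
  have dsingle : ∀ (u : Fin n → F[X]) (k : Fin n),
      dg η u (P • (Pi.single k (1 : F[X]) : Fin n → F[X])) = P * (η k * u k) := by
    intro u k
    rw [dg, Finset.sum_eq_single k]
    · rw [Pi.smul_apply, Pi.single_eq_same, smul_eq_mul]
      ring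
    · intro j _ hj
      rw [Pi.smul_apply, Pi.single_eq_of_ne hj]
      simp
    · intro h
      exact absurd (Finset.mem_univ k) h
  refine ⟨M, b, hPx, hb, ?_, ?_⟩
  · -- injective
    rw [← LinearMap.ker_eq_bot, LinearMap.ker_eq_bot']
    intro u hu
    apply Subtype.ext
    funext k
    have h1 := hb u ⟨_, hPx (Pi.single k (1 : F[X]))⟩
    rw [hu] at h1
    rw [dsingle] at h1
    simp only [LinearMap.zero_apply, mul_zero] at h1
    have h2 := (mul_eq_zero.1 h1.symm).resolve_left hP0
    have h3 := (mul_eq_zero.1 h2).resolve_left (hη0 k)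
    rw [h3]
    rfl
  · -- surjective
    intro φ
    let E : Fin n → M := fun k => ⟨_, hPx (Pi.single k (1 : F[X]))⟩
    let w : Fin n → F[X] := fun k => φ (E k) * c k
    have hw : ∀ k, η k * w k = P * φ (E k) := by
      intro k
      change η k * (φ (E k) * c k) = _
      rw [hc k]
      ring
    have hφ : ∀ v : M, P * φ v = ∑ k, (v : Fin n → F[X]) k * φ (E k) := by
      intro v
      have h1 : P • v = ∑ k, (v : Fin n → F[X]) k • E k := by
        apply Subtype.ext
        rw [Submodule.coe_smul, Submodule.coe_sum]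
        funext j
        rw [Finset.sum_apply, Finset.sum_eq_single j]
        · rw [Submodule.coe_smul, Pi.smul_apply, Pi.smul_apply]
          change P * _ = _ * (P • (Pi.single j (1 : F[X]) : Fin n → F[X])) j
          rw [Pi.smul_apply, Pi.single_eq_same, smul_eq_mul]
          ring
        · intro i _ hi
          rw [Submodule.coe_smul, Pi.smul_apply]
          change _ * (P • (Pi.single i (1 : F[X]) : Fin n → F[X])) j = 0
          rw [Pi.smul_apply, Pi.single_eq_of_ne (Ne.symm hi)]
          simp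
        · intro h
          exact absurd (Finset.mem_univ j) h
      rw [← smul_eq_mul, ← map_smul, h1, map_sum]
      apply Finset.sum_congr rfl
      intro k _
      rw [map_smul, smul_eq_mul]
    have hdw : ∀ v : M, dg η w (v : Fin n → F[X]) = P ^ 2 * φ v := by
      intro v
      have h1 : dg η w (v : Fin n → F[X]) = P * ∑ k, (v : Fin n → F[X]) k * φ (E k) := by
        rw [dg, Finset.mul_sum]
        apply Finset.sum_congr rfl
        intro k _
        rw [← mul_assoc, hw k]
        ring
      rw [h1, ← hφ]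
      ring
    have hwM : w ∈ M := by
      refine (hM w).2 ⟨fun k => ⟨_, hw k⟩, fun Q hQ hm hd => ?_⟩
      rw [(hΛ Q hQ) w]
      intro v hv
      obtain ⟨R, hR⟩ := hd
      have hR0 : R ≠ 0 := by
        intro h
        apply hP0
        rw [hR, h, mul_zero]
      let v' : Fin n → F[X] := fun k => if Q ∣ η k then R * v k else 0
      have hv' : v' ∈ M := by
        refine (hM v').2 ⟨fun k => ?_, fun Q' hQ' hm' hd' => ?_⟩
        · change P ∣ η k * (if Q ∣ η k then R * v k else 0)
          split_ifs with hk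
          · obtain ⟨y, hy⟩ := hk
            exact ⟨y * v k, by rw [hR, hy]; ring⟩
          · simp
        · by_cases hQQ : Q' = Q
          · subst hQQ
            rw [(hΛ Q' hQ') v']
            intro y hy
            have h1 : (∑ k, if Q' ∣ η k then η k * (v' k * y k) else 0) =
                R * ∑ k, if Q' ∣ η k then η k * (v k * y k) else 0 := by
              rw [Finset.mul_sum]
              apply Finset.sum_congr rfl
              intro k _
              change (if Q' ∣ η k then η k * ((if Q' ∣ η k then R * v k else 0) * y k) else 0) = _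
              split_ifs
              · ring
              · ring
            rw [h1]
            exact dvd_mul_of_dvd_right (((hΛ Q' hQ') v).1 hv y hy) R
          · apply L5_mem η Q' _ (hΛ Q' hQ')
            intro k _
            have h1 : ¬ Q' ∣ Q := fun h => hQQ (Polynomial.eq_of_monic_of_associated hm' hm
              (hQ'.associated_of_dvd hQ h))
            rw [hR] at hd'
            have h2 := (hQ'.prime.dvd_or_dvd hd').resolve_left h1
            change Q' ∣ (if Q ∣ η k then R * v k else 0)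
            split_ifs
            · exact dvd_mul_of_dvd_left h2 _
            · exact dvd_zero _
      have h3 := hdw ⟨v', hv'⟩
      have h4 : dg η w v' = R * ∑ k, if Q ∣ η k then η k * (w k * v k) else 0 := by
        rw [dg, Finset.mul_sum]
        apply Finset.sum_congr rfl
        intro k _
        change η k * (w k * (if Q ∣ η k then R * v k else 0)) = _
        split_ifs
        · ring
        · ring
      have h5 : dg η w v' = P ^ 2 * φ ⟨v', hv'⟩ := h3
      rw [h4, hR] at h5
      refine ⟨R * φ ⟨v', hv'⟩, ?_⟩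
      apply mul_left_cancel₀ hR0
      rw [h5]
      ring
    refine ⟨⟨w, hwM⟩, ?_⟩
    apply LinearMap.ext
    intro v
    apply mul_left_cancel₀ hP2
    rw [hb, ← hdw v]

theorem L5 {F : Type} [Field F] {n : ℕ} (η : Fin n → F[X]) (h0 : ∀ k, Squarefree (η k))
    (hL : ∀ Q : F[X], Irreducible Q → ∃ Λ : Submodule F[X] (Fin n → F[X]), LocLag η Q Λ) :
    ∃ (P : F[X]) (M : Submodule F[X] (Fin n → F[X])) (b : M →ₗ[F[X]] M →ₗ[F[X]] F[X]),
      P ≠ 0 ∧ (∀ x : Fin n → F[X], P • x ∈ M) ∧
      (∀ u v : M, P ^ 2 * b u v = dg η (u : Fin n → F[X]) v) ∧ Function.Bijective b := by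
  classical
  choose Λ hΛ using hL
  have hη0 : ∀ k, η k ≠ 0 := fun k => (h0 k).ne_zero
  have ha0 : (∏ k, η k) ≠ 0 := Finset.prod_ne_zero_iff.2 fun k _ => hη0 k
  obtain ⟨M, b, h1, h2, h3⟩ := L5_core η hη0 (radical (∏ k, η k)) radical_ne_zero
    (fun k => by
      rw [dvd_radical_iff (h0 k).isRadical ha0]
      exact Finset.dvd_prod_of_mem η (Finset.mem_univ k))
    (fun N hN => L5_sq _ N hN) Λ hΛ
  exact ⟨_, M, b, radical_ne_zero, h1, h2, h3⟩

end Pool.Agent.QTB
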