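import Pool.Agent.QTB.L4
import Pool.Agent.QTB.L5

/-!
# QTB, module L6: Theorem TL

Proof. `η = Fin.append δ (-f δ) : Fin (6 + 6) → F[X]`, squarefree. `LocLag` at `Q`:
* `Q ∣ δ k`, `Q ∣ δ l`, `k ≠ l` (then `Q ∤ f`): `Λ = {(x, y) : Q ∣ x_k - (u y_k - B v y_l), Q ∣ x_l - (A v y_k + u y_l)}`;
  `A x_k² + B x_l² = (u² + A B v²)(A y_k² + B y_l²)`, `u² + A B v² = f` is a unit mod `Q`.
* `Q ∣ f` (then `Q ∤ δ k`): `Λ = {(x, y) : y mod Q ∈ span (z 0, z 1, z 2)}`, where `Lag3`; the form `δ` mod `Q` is nondegenerate of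
  dimension six, so the three-dimensional span is its own orthogonal space.
* otherwise `Λ = ⊤`.
`L5` gives `M`, `b`; `M` contains `P F[X]^12`, so it has rank `12 = 8 + 2 * 2`, is finite and free; `L4` with `k = 2` gives three
independent elements `(x_i, y_i)` of `F[X]^12` with `dg η = 0`, i.e. `dg δ x_i x_j = f dg δ y_i y_j`.
-/

set_option autoImplicit false

namespace Pool.Agent.QTB

open Matrix Polynomial

section aux

variable {F : Type} [Field F]

/-- the form `δ ⊥ -f δ` -/
private noncomputable def L6eta (δ : Fin 6 → F[X]) (f : F[X]) : Fin (6 + 6) → F[X] :=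
  Fin.append δ (fun k => -(f * δ k))

private theorem L6_eta_left (δ : Fin 6 → F[X]) (f : F[X]) (k : Fin 6) :
    L6eta δ f (Fin.castAdd 6 k) = δ k := by
  unfold L6eta
  rw [Fin.append_left]

private theorem L6_eta_right (δ : Fin 6 → F[X]) (f : F[X]) (k : Fin 6) :
    L6eta δ f (Fin.natAdd 6 k) = -(f * δ k) := by
  unfold L6eta
  rw [Fin.append_right]

private theorem L6_dg (δ : Fin 6 → F[X]) (f : F[X]) (x y : Fin (6 + 6) → F[X]) :
    dg (L6eta δ f) x y = dg δ (fun k => x (Fin.castAdd 6 k)) (fun k => y (Fin.castAdd 6 k)) -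
      f * dg δ (fun k => x (Fin.natAdd 6 k)) (fun k => y (Fin.natAdd 6 k)) := by
  unfold dg
  rw [Fin.sum_univ_add]
  simp only [L6_eta_left, L6_eta_right]
  rw [Finset.mul_sum, sub_eq_add_neg, ← Finset.sum_neg_distrib]
  congr 1
  refine Finset.sum_congr rfl fun k _ => ?_
  ring

open Classical in
private theorem L6_caseA (δ : Fin 6 → F[X]) (f : F[X]) (hδ : ∀ k, Squarefree (δ k))
    (Q : F[X]) (hQ : Irreducible Q) (hQf : ¬ Q ∣ f) (k l : Fin 6) (hkl : l ≠ k)
    (hm : ∀ m, Q ∣ δ m → m = k ∨ m = l) (A B u v : F[X]) (hA : δ k = Q * A) (hB : δ l = Q * B)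
    (huv : Q ∣ u ^ 2 + A * B * v ^ 2 - f) :
    ∃ Λ : Submodule F[X] (Fin (6 + 6) → F[X]), LocLag (L6eta δ f) Q Λ := by
  have hQp : Prime Q := hQ.prime
  have hQA : ¬ Q ∣ A := by
    intro h
    have h1 : Q * Q ∣ δ k := by
      rw [hA]
      exact mul_dvd_mul_left Q h
    exact hQ.not_isUnit (hδ k Q h1)
  have hQB : ¬ Q ∣ B := by
    intro h
    have h1 : Q * Q ∣ δ l := by
      rw [hB]
      exact mul_dvd_mul_left Q h
    exact hQ.not_isUnit (hδ l Q h1)
  have hdk : Q ∣ δ k := ⟨A, hA⟩
  have hdl : Q ∣ δ l := ⟨B, hB⟩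
  have hdiv : ∀ m, Q ∣ -(f * δ m) ↔ Q ∣ δ m := by
    intro m
    rw [dvd_neg]
    constructor
    · intro h
      rcases hQp.dvd_or_dvd h with h | h
      · exact absurd h hQf
      · exact h
    · intro h
      exact Dvd.dvd.mul_left h f
  have hsum : ∀ x y : Fin (6 + 6) → F[X],
      (∑ m, if Q ∣ L6eta δ f m then L6eta δ f m * (x m * y m) else 0) =
      Q * (A * (x (Fin.castAdd 6 k) * y (Fin.castAdd 6 k)) +
        B * (x (Fin.castAdd 6 l) * y (Fin.castAdd 6 l)) -
        f * A * (x (Fin.natAdd 6 k) * y (Fin.natAdd 6 k)) -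
        f * B * (x (Fin.natAdd 6 l) * y (Fin.natAdd 6 l))) := by
    intro x y
    rw [Fin.sum_univ_add]
    simp only [L6_eta_left, L6_eta_right, hdiv]
    rw [Fintype.sum_eq_add k l (Ne.symm hkl), Fintype.sum_eq_add k l (Ne.symm hkl)]
    · rw [if_pos hdk, if_pos hdl, if_pos hdk, if_pos hdl, hA, hB]
      ring
    · rintro m ⟨h1, h2⟩
      rw [if_neg]
      intro h
      rcases hm m h with h | h
      · exact h1 h
      · exact h2 h
    · rintro m ⟨h1, h2⟩
      rw [if_neg]
      intro h
      rcases hm m h with h | h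
      · exact h1 h
      · exact h2 h
  have hsq : ∀ S : F[X], Q ^ 2 ∣ Q * S ↔ Q ∣ S := by
    intro S
    rw [pow_two, mul_dvd_mul_iff_left hQ.ne_zero]
  let Λ : Submodule F[X] (Fin (6 + 6) → F[X]) :=
    { carrier := {w | Q ∣ w (Fin.castAdd 6 k) -
          (u * w (Fin.natAdd 6 k) - B * v * w (Fin.natAdd 6 l)) ∧
        Q ∣ w (Fin.castAdd 6 l) - (A * v * w (Fin.natAdd 6 k) + u * w (Fin.natAdd 6 l))}
      zero_mem' := by
        constructor <;> simp
      add_mem' := by
        rintro a b ⟨h1, h2⟩ ⟨h3, h4⟩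
        constructor
        · have h5 := dvd_add h1 h3
          have h6 : (a + b) (Fin.castAdd 6 k) -
              (u * (a + b) (Fin.natAdd 6 k) - B * v * (a + b) (Fin.natAdd 6 l)) =
              a (Fin.castAdd 6 k) - (u * a (Fin.natAdd 6 k) - B * v * a (Fin.natAdd 6 l)) +
              (b (Fin.castAdd 6 k) - (u * b (Fin.natAdd 6 k) - B * v * b (Fin.natAdd 6 l))) := by
            simp only [Pi.add_apply]
            ring
          rw [h6]
          exact h5
        · have h5 := dvd_add h2 h4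
          have h6 : (a + b) (Fin.castAdd 6 l) -
              (A * v * (a + b) (Fin.natAdd 6 k) + u * (a + b) (Fin.natAdd 6 l)) =
              a (Fin.castAdd 6 l) - (A * v * a (Fin.natAdd 6 k) + u * a (Fin.natAdd 6 l)) +
              (b (Fin.castAdd 6 l) -
                (A * v * b (Fin.natAdd 6 k) + u * b (Fin.natAdd 6 l))) := by
            simp only [Pi.add_apply]
            ring
          rw [h6]
          exact h5
      smul_mem' := by
        rintro r a ⟨h1, h2⟩
        constructor
        · have h5 := Dvd.dvd.mul_left h1 r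
          have h6 : (r • a) (Fin.castAdd 6 k) -
              (u * (r • a) (Fin.natAdd 6 k) - B * v * (r • a) (Fin.natAdd 6 l)) =
              r * (a (Fin.castAdd 6 k) -
                (u * a (Fin.natAdd 6 k) - B * v * a (Fin.natAdd 6 l))) := by
            simp only [Pi.smul_apply, smul_eq_mul]
            ring
          rw [h6]
          exact h5
        · have h5 := Dvd.dvd.mul_left h2 r
          have h6 : (r • a) (Fin.castAdd 6 l) -
              (A * v * (r • a) (Fin.natAdd 6 k) + u * (r • a) (Fin.natAdd 6 l)) =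
              r * (a (Fin.castAdd 6 l) -
                (A * v * a (Fin.natAdd 6 k) + u * a (Fin.natAdd 6 l))) := by
            simp only [Pi.smul_apply, smul_eq_mul]
            ring
          rw [h6]
          exact h5 }
  have hΛ : ∀ w, w ∈ Λ ↔ (Q ∣ w (Fin.castAdd 6 k) -
          (u * w (Fin.natAdd 6 k) - B * v * w (Fin.natAdd 6 l)) ∧
        Q ∣ w (Fin.castAdd 6 l) - (A * v * w (Fin.natAdd 6 k) + u * w (Fin.natAdd 6 l))) :=
    fun w => Iff.rfl
  refine ⟨Λ, fun x => ?_⟩
  constructor
  · rintro ⟨⟨a1, h1⟩, ⟨a2, h2⟩⟩ y ⟨⟨b1, h3⟩, ⟨b2, h4⟩⟩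
    have hh : Q ^ 2 ∣ (∑ m, if Q ∣ L6eta δ f m then L6eta δ f m * (x m * y m) else 0) := by
      rw [hsum, hsq]
      obtain ⟨e, he⟩ := huv
      have hx1 : x (Fin.castAdd 6 k) =
          (u * x (Fin.natAdd 6 k) - B * v * x (Fin.natAdd 6 l)) + Q * a1 := by
        rw [← h1]; ring
      have hx2 : x (Fin.castAdd 6 l) =
          (A * v * x (Fin.natAdd 6 k) + u * x (Fin.natAdd 6 l)) + Q * a2 := by
        rw [← h2]; ring
      have hy1 : y (Fin.castAdd 6 k) =
          (u * y (Fin.natAdd 6 k) - B * v * y (Fin.natAdd 6 l)) + Q * b1 := by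
        rw [← h3]; ring
      have hy2 : y (Fin.castAdd 6 l) =
          (A * v * y (Fin.natAdd 6 k) + u * y (Fin.natAdd 6 l)) + Q * b2 := by
        rw [← h4]; ring
      have hf : f = u ^ 2 + A * B * v ^ 2 - Q * e := by
        rw [← he]; ring
      rw [hx1, hx2, hy1, hy2, hf]
      generalize x (Fin.natAdd 6 k) = xk
      generalize x (Fin.natAdd 6 l) = xl
      generalize y (Fin.natAdd 6 k) = yk
      generalize y (Fin.natAdd 6 l) = yl
      refine ⟨A * (a1 * (u * yk - B * v * yl) + b1 * (u * xk - B * v * xl) + Q * a1 * b1) +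
        B * (a2 * (A * v * yk + u * yl) + b2 * (A * v * xk + u * xl) + Q * a2 * b2) +
        e * A * (xk * yk) + e * B * (xl * yl), ?_⟩
      ring
    exact hh
  · intro hx
    have key : ∀ p q : F[X], Q ∣ A * (x (Fin.castAdd 6 k) * (u * p - B * v * q)) +
        B * (x (Fin.castAdd 6 l) * (A * v * p + u * q)) -
        f * A * (x (Fin.natAdd 6 k) * p) - f * B * (x (Fin.natAdd 6 l) * q) := by
      intro p q
      let y : Fin (6 + 6) → F[X] := Fin.append
        (fun m => if m = k then u * p - B * v * q else if m = l then A * v * p + u * q else 0)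
        (fun m => if m = k then p else if m = l then q else 0)
      have e1 : y (Fin.castAdd 6 k) = u * p - B * v * q := by
        show Fin.append _ _ (Fin.castAdd 6 k) = _
        rw [Fin.append_left, if_pos rfl]
      have e2 : y (Fin.castAdd 6 l) = A * v * p + u * q := by
        show Fin.append _ _ (Fin.castAdd 6 l) = _
        rw [Fin.append_left, if_neg hkl, if_pos rfl]
      have e3 : y (Fin.natAdd 6 k) = p := by
        show Fin.append _ _ (Fin.natAdd 6 k) = _
        rw [Fin.append_right, if_pos rfl]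
      have e4 : y (Fin.natAdd 6 l) = q := by
        show Fin.append _ _ (Fin.natAdd 6 l) = _
        rw [Fin.append_right, if_neg hkl, if_pos rfl]
      have hy : y ∈ Λ := by
        rw [hΛ, e1, e2, e3, e4, sub_self, sub_self]
        exact ⟨dvd_zero _, dvd_zero _⟩
      have h1 := hx y hy
      rw [hsum, hsq, e1, e2, e3, e4] at h1
      exact h1
    have h1 := key 1 0
    have h2 := key 0 1
    have h3 : Q ∣ u * x (Fin.castAdd 6 k) + B * v * x (Fin.castAdd 6 l) -
        f * x (Fin.natAdd 6 k) := by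
      have h4 : Q ∣ A * (u * x (Fin.castAdd 6 k) + B * v * x (Fin.castAdd 6 l) -
          f * x (Fin.natAdd 6 k)) := by
        refine Eq.mp ?_ h1
        congr 1
        ring
      rcases hQp.dvd_or_dvd h4 with h | h
      · exact absurd h hQA
      · exact h
    have h5 : Q ∣ u * x (Fin.castAdd 6 l) - A * v * x (Fin.castAdd 6 k) -
        f * x (Fin.natAdd 6 l) := by
      have h4 : Q ∣ B * (u * x (Fin.castAdd 6 l) - A * v * x (Fin.castAdd 6 k) -
          f * x (Fin.natAdd 6 l)) := by
        refine Eq.mp ?_ h2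
        congr 1
        ring
      rcases hQp.dvd_or_dvd h4 with h | h
      · exact absurd h hQB
      · exact h
    rw [hΛ]
    obtain ⟨e, he⟩ := huv
    obtain ⟨a1, ha1⟩ := h3
    obtain ⟨a2, ha2⟩ := h5
    have hf : f = u ^ 2 + A * B * v ^ 2 - Q * e := by
      rw [← he]; ring
    have hfy1 : f * x (Fin.natAdd 6 k) = u * x (Fin.castAdd 6 k) + B * v * x (Fin.castAdd 6 l) -
        Q * a1 := by
      rw [← ha1]; ring
    have hfy2 : f * x (Fin.natAdd 6 l) = u * x (Fin.castAdd 6 l) - A * v * x (Fin.castAdd 6 k) -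
        Q * a2 := by
      rw [← ha2]; ring
    constructor
    · have h6 : Q ∣ f * (x (Fin.castAdd 6 k) -
          (u * x (Fin.natAdd 6 k) - B * v * x (Fin.natAdd 6 l))) := by
        refine ⟨-(e * x (Fin.castAdd 6 k)) + u * a1 - B * v * a2, ?_⟩
        have h7 : f * (x (Fin.castAdd 6 k) -
          (u * x (Fin.natAdd 6 k) - B * v * x (Fin.natAdd 6 l))) =
          f * x (Fin.castAdd 6 k) - u * (f * x (Fin.natAdd 6 k)) +
            B * v * (f * x (Fin.natAdd 6 l)) := by ring
        rw [h7, hfy1, hfy2]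
        have h8 : f * x (Fin.castAdd 6 k) =
            (u ^ 2 + A * B * v ^ 2 - Q * e) * x (Fin.castAdd 6 k) := by rw [← hf]
        rw [h8]
        ring
      rcases hQp.dvd_or_dvd h6 with h | h
      · exact absurd h hQf
      · exact h
    · have h6 : Q ∣ f * (x (Fin.castAdd 6 l) -
          (A * v * x (Fin.natAdd 6 k) + u * x (Fin.natAdd 6 l))) := by
        refine ⟨-(e * x (Fin.castAdd 6 l)) + A * v * a1 + u * a2, ?_⟩
        have h7 : f * (x (Fin.castAdd 6 l) -
          (A * v * x (Fin.natAdd 6 k) + u * x (Fin.natAdd 6 l))) =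
          f * x (Fin.castAdd 6 l) - A * v * (f * x (Fin.natAdd 6 k)) -
            u * (f * x (Fin.natAdd 6 l)) := by ring
        rw [h7, hfy1, hfy2]
        have h8 : f * x (Fin.castAdd 6 l) =
            (u ^ 2 + A * B * v ^ 2 - Q * e) * x (Fin.castAdd 6 l) := by rw [← hf]
        rw [h8]
        ring
      rcases hQp.dvd_or_dvd h6 with h | h
      · exact absurd h hQf
      · exact h

/-- self-orthogonality of a three-dimensional totally isotropic subspace in dimension six -/
private theorem L6_perp {K : Type} [Field K] (d : Fin 6 → K) (hd : ∀ k, d k ≠ 0)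
    (z : Fin 3 → Fin 6 → K) (hz : LinearIndependent K z)
    (h0 : ∀ i j, ∑ k, d k * (z i k * z j k) = 0) (y : Fin 6 → K)
    (hy : ∀ i, ∑ k, d k * (z i k * y k) = 0) : ∃ c : Fin 3 → K, y = ∑ i, c i • z i := by
  classical
  let B : LinearMap.BilinForm K (Fin 6 → K) := Matrix.toBilin' (Matrix.diagonal d)
  have hB : ∀ a b : Fin 6 → K, B a b = ∑ k, d k * (a k * b k) := by
    intro a b
    show Matrix.toBilin' (Matrix.diagonal d) a b = _
    rw [Matrix.toBilin'_apply']
    unfold dotProduct
    refine Finset.sum_congr rfl fun k _ => ?_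
    rw [Matrix.mulVec_diagonal]
    ring
  have hnd : B.Nondegenerate := by
    apply LinearMap.BilinForm.nondegenerate_toBilin'_of_det_ne_zero'
    rw [Matrix.det_diagonal]
    exact Finset.prod_ne_zero_iff.mpr fun k _ => hd k
  have hrefl : B.IsRefl := by
    intro a b hab
    rw [hB] at hab ⊢
    rw [← hab]
    refine Finset.sum_congr rfl fun k _ => ?_
    ring
  let W : Submodule K (Fin 6 → K) := Submodule.span K (Set.range z)
  have hW : Module.finrank K W = 3 := by
    show Module.finrank K (Submodule.span K (Set.range z)) = 3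
    rw [finrank_span_eq_card hz, Fintype.card_fin]
  have h1 := LinearMap.BilinForm.finrank_orthogonal hnd W
  rw [hW, Module.finrank_fin_fun] at h1
  have hWle : W ≤ B.orthogonal W := by
    intro a ha
    rw [LinearMap.BilinForm.mem_orthogonal_iff]
    intro b hb
    obtain ⟨ca, rfl⟩ := (Submodule.mem_span_range_iff_exists_fun K).1 ha
    obtain ⟨cb, rfl⟩ := (Submodule.mem_span_range_iff_exists_fun K).1 hb
    show B (∑ i, cb i • z i) (∑ i, ca i • z i) = 0
    rw [map_sum B, LinearMap.sum_apply]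
    refine Finset.sum_eq_zero fun i _ => ?_
    rw [map_sum]
    refine Finset.sum_eq_zero fun j _ => ?_
    rw [map_smul, map_smul, LinearMap.smul_apply, hB, h0, smul_zero, smul_zero]
  have hWeq : W = B.orthogonal W := by
    apply Submodule.eq_of_le_of_finrank_eq hWle
    rw [hW, h1]
  have hyW : y ∈ W := by
    rw [hWeq, LinearMap.BilinForm.mem_orthogonal_iff]
    intro b hb
    obtain ⟨cb, rfl⟩ := (Submodule.mem_span_range_iff_exists_fun K).1 hb
    show B (∑ i, cb i • z i) y = 0
    rw [map_sum B, LinearMap.sum_apply]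
    refine Finset.sum_eq_zero fun i _ => ?_
    rw [map_smul, LinearMap.smul_apply, hB, hy, smul_zero]
  obtain ⟨c, hc⟩ := (Submodule.mem_span_range_iff_exists_fun K).1 hyW
  exact ⟨c, hc.symm⟩

/-- the same modulo an irreducible polynomial -/
private theorem L6_perpQ (δ : Fin 6 → F[X]) (Q : F[X]) (hQ : Irreducible Q)
    (hd : ∀ k, ¬ Q ∣ δ k) (z : Fin 3 → Fin 6 → F[X]) (h0 : ∀ i j, Q ∣ dg δ (z i) (z j))
    (hind : ∀ r : Fin 3 → F[X], (∀ k, Q ∣ ∑ i, r i * z i k) → ∀ i, Q ∣ r i)
    (y : Fin 6 → F[X]) (hy : ∀ i, Q ∣ dg δ (z i) y) :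
    ∃ r : Fin 3 → F[X], ∀ k, Q ∣ y k - ∑ i, r i * z i k := by
  have hfact : Fact (Irreducible Q) := ⟨hQ⟩
  let π : F[X] →+* AdjoinRoot Q := AdjoinRoot.mk Q
  have hπ : ∀ g : F[X], π g = 0 ↔ Q ∣ g := fun g => AdjoinRoot.mk_eq_zero
  have hsurj : Function.Surjective π := AdjoinRoot.mk_surjective
  have hdg : ∀ a b : Fin 6 → F[X], π (dg δ a b) = ∑ k, π (δ k) * (π (a k) * π (b k)) := by
    intro a b
    unfold dg
    rw [map_sum]
    refine Finset.sum_congr rfl fun k _ => ?_
    rw [map_mul, map_mul]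
  have hz : LinearIndependent (AdjoinRoot Q) (fun i k => π (z i k)) := by
    rw [Fintype.linearIndependent_iff]
    intro g hg
    choose r hr using fun i => hsurj (g i)
    have h1 : ∀ k, Q ∣ ∑ i, r i * z i k := by
      intro k
      rw [← hπ, map_sum]
      have h2 := congrFun hg k
      rw [Finset.sum_apply] at h2
      rw [Pi.zero_apply] at h2
      rw [← h2]
      refine Finset.sum_congr rfl fun i _ => ?_
      rw [map_mul, hr, Pi.smul_apply, smul_eq_mul]
    intro i
    rw [← hr i, hπ]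
    exact hind r h1 i
  obtain ⟨c, hc⟩ := L6_perp (fun k => π (δ k)) (fun k h => hd k ((hπ _).1 h))
    (fun i k => π (z i k)) hz
    (fun i j => by rw [← hdg]; exact (hπ _).2 (h0 i j)) (fun k => π (y k))
    (fun i => by rw [← hdg]; exact (hπ _).2 (hy i))
  choose r hr using fun i => hsurj (c i)
  refine ⟨r, fun k => ?_⟩
  rw [← hπ, map_sub, map_sum, sub_eq_zero]
  have h2 := congrFun hc k
  rw [Finset.sum_apply] at h2
  rw [h2]
  refine Finset.sum_congr rfl fun i _ => ?_
  rw [map_mul, hr, Pi.smul_apply, smul_eq_mul]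

open Classical in
private theorem L6_caseB (δ : Fin 6 → F[X]) (f : F[X]) (hf : Squarefree f)
    (Q : F[X]) (hQ : Irreducible Q) (hQf : Q ∣ f) (hd : ∀ k, ¬ Q ∣ δ k) (h3 : Lag3 δ Q) :
    ∃ Λ : Submodule F[X] (Fin (6 + 6) → F[X]), LocLag (L6eta δ f) Q Λ := by
  obtain ⟨z, hz0, hzind⟩ := h3
  obtain ⟨g, hg⟩ := hQf
  have hQp : Prime Q := hQ.prime
  have hQg : ¬ Q ∣ g := by
    intro h
    have h1 : Q * Q ∣ f := by
      rw [hg]
      exact mul_dvd_mul_left Q h
    exact hQ.not_isUnit (hf Q h1)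
  have hsum : ∀ x y : Fin (6 + 6) → F[X],
      (∑ m, if Q ∣ L6eta δ f m then L6eta δ f m * (x m * y m) else 0) =
      Q * (-(g * dg δ (fun k => x (Fin.natAdd 6 k)) (fun k => y (Fin.natAdd 6 k)))) := by
    intro x y
    rw [Fin.sum_univ_add]
    have h1 : (∑ m : Fin 6, if Q ∣ L6eta δ f (Fin.castAdd 6 m) then
        L6eta δ f (Fin.castAdd 6 m) * (x (Fin.castAdd 6 m) * y (Fin.castAdd 6 m)) else 0) = 0 := by
      refine Finset.sum_eq_zero fun m _ => ?_
      rw [if_neg]
      rw [L6_eta_left]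
      exact hd m
    rw [h1, zero_add]
    unfold dg
    rw [Finset.mul_sum, ← Finset.sum_neg_distrib, Finset.mul_sum]
    refine Finset.sum_congr rfl fun m _ => ?_
    rw [L6_eta_right, if_pos]
    · rw [hg]
      ring
    · rw [hg]
      exact ⟨-(g * δ m), by ring⟩
  have hsq : ∀ S : F[X], Q ^ 2 ∣ Q * (-(g * S)) ↔ Q ∣ S := by
    intro S
    rw [pow_two, mul_dvd_mul_iff_left hQ.ne_zero, dvd_neg]
    constructor
    · intro h
      rcases hQp.dvd_or_dvd h with h | h
      · exact absurd h hQg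
      · exact h
    · intro h
      exact Dvd.dvd.mul_left h g
  let Λ : Submodule F[X] (Fin (6 + 6) → F[X]) :=
    { carrier := {w | ∃ r : Fin 3 → F[X], ∀ k, Q ∣ w (Fin.natAdd 6 k) - ∑ i, r i * z i k}
      zero_mem' := ⟨0, fun k => by simp⟩
      add_mem' := by
        rintro a b ⟨r, hr⟩ ⟨s, hs⟩
        refine ⟨r + s, fun k => ?_⟩
        have h6 : (a + b) (Fin.natAdd 6 k) - ∑ i, (r + s) i * z i k =
            (a (Fin.natAdd 6 k) - ∑ i, r i * z i k) + (b (Fin.natAdd 6 k) - ∑ i, s i * z i k) := by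
          simp only [Pi.add_apply, add_mul, Finset.sum_add_distrib]
          ring
        rw [h6]
        exact dvd_add (hr k) (hs k)
      smul_mem' := by
        rintro c a ⟨r, hr⟩
        refine ⟨c • r, fun k => ?_⟩
        have h6 : (c • a) (Fin.natAdd 6 k) - ∑ i, (c • r) i * z i k =
            c * (a (Fin.natAdd 6 k) - ∑ i, r i * z i k) := by
          simp only [Pi.smul_apply, smul_eq_mul, mul_sub, Finset.mul_sum, mul_assoc]
        rw [h6]
        exact Dvd.dvd.mul_left (hr k) c }
  have hΛ : ∀ w, w ∈ Λ ↔ ∃ r : Fin 3 → F[X],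
      ∀ k, Q ∣ w (Fin.natAdd 6 k) - ∑ i, r i * z i k := fun w => Iff.rfl
  refine ⟨Λ, fun x => ?_⟩
  constructor
  · rintro ⟨r, hr⟩ y ⟨s, hs⟩
    have hh : Q ^ 2 ∣ (∑ m, if Q ∣ L6eta δ f m then L6eta δ f m * (x m * y m) else 0) := by
      rw [hsum, hsq]
      choose a ha using hr
      choose b hb using hs
      have hx : ∀ k, x (Fin.natAdd 6 k) = ∑ i, r i * z i k + Q * a k := by
        intro k
        rw [← ha k]
        ring
      have hy : ∀ k, y (Fin.natAdd 6 k) = ∑ i, s i * z i k + Q * b k := by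
        intro k
        rw [← hb k]
        ring
      have h1 : dg δ (fun k => x (Fin.natAdd 6 k)) (fun k => y (Fin.natAdd 6 k)) =
          ∑ i, ∑ j, r i * s j * dg δ (z i) (z j) +
          Q * ∑ k, δ k * (a k * ∑ j, s j * z j k + b k * ∑ i, r i * z i k + Q * a k * b k) := by
        have h2 : ∑ i, ∑ j, r i * s j * dg δ (z i) (z j) =
            ∑ k, δ k * ((∑ i, r i * z i k) * (∑ j, s j * z j k)) := by
          unfold dg
          simp_rw [Finset.sum_mul_sum, Finset.mul_sum]
          rw [Finset.sum_comm]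
          have h3 : ∀ j : Fin 3, ∑ i : Fin 3, ∑ k : Fin 6, r i * s j * (δ k * (z i k * z j k)) =
              ∑ k : Fin 6, ∑ i : Fin 3, r i * s j * (δ k * (z i k * z j k)) := fun j =>
            Finset.sum_comm
          simp_rw [h3]
          rw [Finset.sum_comm]
          refine Finset.sum_congr rfl fun k _ => ?_
          rw [Finset.sum_comm]
          refine Finset.sum_congr rfl fun i _ => ?_
          refine Finset.sum_congr rfl fun j _ => ?_
          ring
        rw [h2, Finset.mul_sum, ← Finset.sum_add_distrib]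
        unfold dg
        refine Finset.sum_congr rfl fun k _ => ?_
        show δ k * (x (Fin.natAdd 6 k) * y (Fin.natAdd 6 k)) = _
        rw [hx k, hy k]
        ring
      rw [h1]
      refine dvd_add ?_ (Dvd.intro _ rfl)
      refine Finset.dvd_sum fun i _ => Finset.dvd_sum fun j _ => ?_
      exact Dvd.dvd.mul_left (hz0 i j) _
    exact hh
  · intro hx
    rw [hΛ]
    refine L6_perpQ δ Q hQ hd z hz0 hzind (fun k => x (Fin.natAdd 6 k)) fun i => ?_
    let y : Fin (6 + 6) → F[X] := Fin.append 0 (z i)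
    have ey : ∀ k, y (Fin.natAdd 6 k) = z i k := by
      intro k
      show Fin.append 0 (z i) (Fin.natAdd 6 k) = _
      rw [Fin.append_right]
    have hy : y ∈ Λ := by
      rw [hΛ]
      refine ⟨fun j => if j = i then 1 else 0, fun k => ?_⟩
      have h5 : ∑ j, (if j = i then (1 : F[X]) else 0) * z j k = z i k := by
        simp
      rw [h5, ey, sub_self]
      exact dvd_zero _
    have h1 := hx y hy
    rw [hsum, hsq] at h1
    have h2 : dg δ (fun k => x (Fin.natAdd 6 k)) (fun k => y (Fin.natAdd 6 k)) =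
        dg δ (z i) (fun k => x (Fin.natAdd 6 k)) := by
      unfold dg
      refine Finset.sum_congr rfl fun k _ => ?_
      show δ k * (x (Fin.natAdd 6 k) * y (Fin.natAdd 6 k)) = _
      rw [ey k]
      ring
    rw [h2] at h1
    exact h1

end aux

theorem L6 {F : Type} [Field F] (h2 : (2 : F) ≠ 0) (hU : U5 F) (δ : Fin 6 → F[X]) (f : F[X])
    (hδ : ∀ k, Squarefree (δ k)) (hf : Squarefree f) (hco : ∀ k, IsCoprime f (δ k))
    (h1 : ∀ Q : F[X], Irreducible Q → ∀ k, Q ∣ δ k → ∃ l, l ≠ k ∧ Q ∣ δ l ∧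
      (∀ m, Q ∣ δ m → m = k ∨ m = l) ∧
      ∃ A B u v : F[X], δ k = Q * A ∧ δ l = Q * B ∧ Q ∣ u ^ 2 + A * B * v ^ 2 - f)
    (h3 : ∀ P : F[X], Irreducible P → P ∣ f → Lag3 δ P) : Iso3 δ f := by
  have hsqf : ∀ m : Fin (6 + 6), Squarefree (L6eta δ f m) := by
    intro m
    refine Fin.addCases (fun k => ?_) (fun k => ?_) m
    · rw [L6_eta_left]
      exact hδ k
    · rw [L6_eta_right]
      have h4 : Squarefree (f * δ k) :=
        (squarefree_mul_iff).2 ⟨(hco k).isRelPrime, hf, hδ k⟩
      intro x hx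
      exact h4 x ((dvd_neg).1 hx)
  have hL : ∀ Q : F[X], Irreducible Q →
      ∃ Λ : Submodule F[X] (Fin (6 + 6) → F[X]), LocLag (L6eta δ f) Q Λ := by
    intro Q hQ
    by_cases hQd : ∃ k, Q ∣ δ k
    · obtain ⟨k, hk⟩ := hQd
      have hQf : ¬ Q ∣ f := by
        intro h
        exact hQ.not_isUnit ((hco k).isUnit_of_dvd' h hk)
      obtain ⟨l, hl1, hl2, hl3, A, B, u, v, hA, hB, huv⟩ := h1 Q hQ k hk
      exact L6_caseA δ f hδ Q hQ hQf k l hl1 hl3 A B u v hA hB huv
    · have hQd' : ∀ k, ¬ Q ∣ δ k := fun k hk => hQd ⟨k, hk⟩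
      by_cases hQf : Q ∣ f
      · exact L6_caseB δ f hf Q hQ hQf hQd' (h3 Q hQ hQf)
      · refine ⟨⊤, fun x => ⟨fun _ y _ => ?_, fun _ => Submodule.mem_top⟩⟩
        rw [Finset.sum_eq_zero]
        · exact dvd_zero _
        · intro m _
          rw [if_neg]
          refine Fin.addCases (fun k => ?_) (fun k => ?_) m
          · rw [L6_eta_left]
            exact hQd' k
          · rw [L6_eta_right, dvd_neg]
            intro h
            rcases hQ.prime.dvd_or_dvd h with h | h
            · exact hQf h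
            · exact hQd' k h
  obtain ⟨P, M, b, hP, hPM, hb, hbij⟩ := L5 (L6eta δ f) hsqf hL
  have hdgs : ∀ x y : Fin (6 + 6) → F[X], dg (L6eta δ f) x y = dg (L6eta δ f) y x := by
    intro x y
    unfold dg
    refine Finset.sum_congr rfl fun k _ => ?_
    ring
  have hs : ∀ x y : M, b x y = b y x := by
    intro x y
    have h4 : P ^ 2 * b x y = P ^ 2 * b y x := by
      rw [hb, hb, hdgs]
    exact mul_left_cancel₀ (pow_ne_zero 2 hP) h4
  have hrank : Module.finrank F[X] M = 8 + 2 * 2 := by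
    apply le_antisymm
    · have h4 := Submodule.finrank_le M
      rw [Module.finrank_fin_fun] at h4
      exact h4
    · let T : (Fin (6 + 6) → F[X]) →ₗ[F[X]] M :=
        { toFun := fun x => ⟨P • x, hPM x⟩
          map_add' := by
            intro x y
            apply Subtype.ext
            exact smul_add P x y
          map_smul' := by
            intro r x
            apply Subtype.ext
            exact smul_comm P r x }
      have hT : Function.Injective T := by
        intro x y hxy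
        have h5 : P • x = P • y := congrArg Subtype.val hxy
        funext k
        have h6 := congrFun h5 k
        rw [Pi.smul_apply, Pi.smul_apply, smul_eq_mul, smul_eq_mul] at h6
        exact mul_left_cancel₀ hP h6
      have h5 := LinearMap.finrank_le_finrank_of_injective hT
      rw [Module.finrank_fin_fun] at h5
      exact h5
  obtain ⟨x, hx1, hx2⟩ := L4 h2 hU 2 b hs hbij hrank
  refine ⟨fun i k => (x i : Fin (6 + 6) → F[X]) (Fin.castAdd 6 k),
    fun i k => (x i : Fin (6 + 6) → F[X]) (Fin.natAdd 6 k), ?_, ?_⟩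
  · intro i j
    have h4 := hb (x i) (x j)
    rw [hx2 i j, mul_zero, L6_dg] at h4
    exact (sub_eq_zero.1 h4.symm)
  · intro r hr1 hr2
    rw [Fintype.linearIndependent_iff] at hx1
    funext i
    refine hx1 r ?_ i
    apply Subtype.ext
    rw [Submodule.coe_sum, Submodule.coe_zero]
    funext m
    rw [Finset.sum_apply, Pi.zero_apply]
    refine Fin.addCases (fun k => ?_) (fun k => ?_) m
    · have h4 := congrFun hr1 k
      rw [Finset.sum_apply, Pi.zero_apply] at h4
      exact h4
    · have h4 := congrFun hr2 k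
      rw [Finset.sum_apply, Pi.zero_apply] at h4
      exact h4

end Pool.Agent.QTB
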