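import Pool.Agent.QTB.Defs

/-!
# QTB, module LAG: split biquaternion algebras have hyperbolic Albert forms

Proof. For `v ∈ E^6` let `V(v) = v_0 I + v_1 J + v_2 I J - (v_3 K + v_4 L + v_5 K L)` and `V'(v)` the same with the sign `+`, in `M_4(E)`.
Then `V'(v) V(v) = α(v) = dg (alc a b c d) v v`. By averaging over the monomials in `I`, `J`, `K`, `L` there is a symmetric
matrix `B ≠ 0` with `Gᵀ B = -B G` for `G = I, J, K, L` (the averaging operator on symmetric matrices has trace
`16 ≠ 0`). So `B V(v)` is skew-symmetric. Let `B e ≠ 0`. The map `v ↦ V(v) e` has its image in the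
hyperplane orthogonal to `B e`, so its kernel has dimension at least `3`, and `α` vanishes on it.
-/

set_option autoImplicit false

namespace Pool.Agent.QTB

open Matrix

section

variable {E : Type} [Field E]

private theorem LAG_tr (h2 : (2 : E) ≠ 0) (G Z : Matrix (Fin 4) (Fin 4) E) (q : E) (hq : q ≠ 0)
    (hG : G * G = q • 1) (h : G * Z = -(Z * G)) : trace Z = 0 := by
  have h1 : trace (G * Z * G) = q * trace Z := by
    rw [trace_mul_cycle, hG, smul_mul_assoc, one_mul, trace_smul, smul_eq_mul]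
  have h3 : trace (G * Z * G) = -(q * trace Z) := by
    rw [h, neg_mul, mul_assoc, hG, mul_smul_comm, mul_one, trace_neg, trace_smul, smul_eq_mul]
  have h4 : 2 * (q * trace Z) = 0 := by
    rw [two_mul]
    nth_rewrite 1 [← h1]
    rw [h3, neg_add_cancel]
  rcases mul_eq_zero.1 h4 with h5 | h5
  · exact absurd h5 h2
  · exact (mul_eq_zero.1 h5).resolve_left hq

/-- averaging over one quaternion algebra -/
private def LAG_av (a b : E) (I J M : Matrix (Fin 4) (Fin 4) E) : Matrix (Fin 4) (Fin 4) E :=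
  M - a⁻¹ • (Iᵀ * M * I) - b⁻¹ • (Jᵀ * M * J) + (a * b)⁻¹ • ((I * J)ᵀ * M * (I * J))

private theorem LAG_av_I {a b : E} (ha : a ≠ 0) (hb : b ≠ 0) {I J : Matrix (Fin 4) (Fin 4) E}
    (hI : I * I = a • 1) (hIJ : I * J = -(J * I))
    (M : Matrix (Fin 4) (Fin 4) E) : Iᵀ * LAG_av a b I J M = -(LAG_av a b I J M * I) := by
  have hI' : Iᵀ * Iᵀ = a • 1 := by rw [← transpose_mul, hI, transpose_smul, transpose_one]
  have hIJ' : Iᵀ * Jᵀ = -(Jᵀ * Iᵀ) := by
    rw [← transpose_mul, ← transpose_mul, ← transpose_neg, hIJ, neg_neg]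
  have r1 : ∀ X, Iᵀ * (Iᵀ * X) = a • X := fun X => by
    rw [← mul_assoc, hI', smul_mul_assoc, one_mul]
  have r2 : ∀ X, Iᵀ * (Jᵀ * X) = -(Jᵀ * (Iᵀ * X)) := fun X => by
    rw [← mul_assoc, hIJ', neg_mul, mul_assoc]
  unfold LAG_av
  rw [transpose_mul]
  simp only [mul_add, add_mul, mul_sub, sub_mul, mul_smul_comm, smul_mul_assoc, mul_assoc, r1, r2,
    hI, hIJ, mul_neg, neg_mul, smul_neg, neg_neg, mul_one, smul_smul, mul_inv,
    inv_mul_cancel₀ ha, one_smul, neg_add_rev, neg_sub]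
  have e1 : a⁻¹ * (b⁻¹ * a) = b⁻¹ := by field_simp
  simp only [e1]
  module

private theorem LAG_av_swap {a b : E} {I J : Matrix (Fin 4) (Fin 4) E} (hIJ : I * J = -(J * I))
    (M : Matrix (Fin 4) (Fin 4) E) : LAG_av a b I J M = LAG_av b a J I M := by
  unfold LAG_av
  rw [hIJ, transpose_neg, neg_mul, neg_mul, mul_neg, neg_neg, mul_comm b a]
  abel

private theorem LAG_av_J {a b : E} (ha : a ≠ 0) (hb : b ≠ 0) {I J : Matrix (Fin 4) (Fin 4) E}
    (hJ : J * J = b • 1) (hIJ : I * J = -(J * I))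
    (M : Matrix (Fin 4) (Fin 4) E) : Jᵀ * LAG_av a b I J M = -(LAG_av a b I J M * J) := by
  rw [LAG_av_swap hIJ]
  exact LAG_av_I hb ha hJ (by rw [hIJ, neg_neg]) M

private theorem LAG_av_K {a b : E} {I J K : Matrix (Fin 4) (Fin 4) E}
    (hIK : I * K = K * I) (hJK : J * K = K * J) {M : Matrix (Fin 4) (Fin 4) E}
    (hM : Kᵀ * M = -(M * K)) : Kᵀ * LAG_av a b I J M = -(LAG_av a b I J M * K) := by
  have key : ∀ X : Matrix (Fin 4) (Fin 4) E, X * K = K * X →
      Kᵀ * (Xᵀ * M * X) = -(Xᵀ * M * X * K) := by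
    intro X hX
    have h1 : Kᵀ * Xᵀ = Xᵀ * Kᵀ := by rw [← transpose_mul, ← transpose_mul, hX]
    calc Kᵀ * (Xᵀ * M * X) = Kᵀ * Xᵀ * M * X := by simp only [mul_assoc]
      _ = Xᵀ * (Kᵀ * M) * X := by rw [h1]; simp only [mul_assoc]
      _ = -(Xᵀ * M * (K * X)) := by rw [hM]; simp only [mul_assoc, mul_neg, neg_mul]
      _ = -(Xᵀ * M * X * K) := by rw [← hX]; simp only [mul_assoc]
  unfold LAG_av
  rw [mul_add, mul_sub, mul_sub, mul_smul_comm, mul_smul_comm, mul_smul_comm, key I hIK,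
    key J hJK, key (I * J) (by rw [mul_assoc, hJK, ← mul_assoc, hIK, mul_assoc]), hM, add_mul,
    sub_mul, sub_mul, smul_mul_assoc, smul_mul_assoc, smul_mul_assoc]
  module

private theorem LAG_av_symm {a b : E} {I J M : Matrix (Fin 4) (Fin 4) E} (hM : Mᵀ = M) :
    (LAG_av a b I J M)ᵀ = LAG_av a b I J M := by
  have key : ∀ X : Matrix (Fin 4) (Fin 4) E, (Xᵀ * M * X)ᵀ = Xᵀ * M * X := by
    intro X
    rw [transpose_mul, transpose_mul, hM, transpose_transpose, mul_assoc]
  unfold LAG_av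
  rw [transpose_add, transpose_sub, transpose_sub, transpose_smul, transpose_smul, transpose_smul,
    key, key, key, hM]

/-- the trace on symmetric matrices (up to the factor two) -/
private def LAG_ph (F : Matrix (Fin 4) (Fin 4) E → Matrix (Fin 4) (Fin 4) E) : E :=
  ∑ i, ∑ j, F (single i j 1 + single j i 1) i j

private theorem LAG_ph_conj (X : Matrix (Fin 4) (Fin 4) E) :
    LAG_ph (fun M => Xᵀ * M * X) = trace X ^ 2 + trace (X * X) := by
  have h0 : ∀ k l i j, (Xᵀ * (single k l 1 : Matrix (Fin 4) (Fin 4) E) * X) i j =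
      X k i * X l j := by
    intro k l i j
    rw [Matrix.mul_apply, Finset.sum_eq_single l]
    · rw [mul_single_apply_same]
      simp
    · intro b _ hb
      rw [mul_single_apply_of_ne _ _ _ _ _ hb, zero_mul]
    · simp
  have h1 : ∀ i j, (Xᵀ * (single i j 1 + single j i 1 : Matrix (Fin 4) (Fin 4) E) * X) i j =
      X i i * X j j + X j i * X i j := by
    intro i j
    rw [mul_add, add_mul, Matrix.add_apply, h0, h0]
  unfold LAG_ph
  simp only [h1, Finset.sum_add_distrib]
  congr 1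
  · rw [sq, trace, Finset.sum_mul_sum]
    rfl
  · rw [trace]
    simp only [diag_apply, mul_apply]
    rw [Finset.sum_comm]

private theorem LAG_ph_av (a b : E) (I J : Matrix (Fin 4) (Fin 4) E)
    (F : Matrix (Fin 4) (Fin 4) E → Matrix (Fin 4) (Fin 4) E) :
    LAG_ph (fun M => LAG_av a b I J (F M)) = LAG_ph F - a⁻¹ * LAG_ph (fun M => Iᵀ * F M * I) -
      b⁻¹ * LAG_ph (fun M => Jᵀ * F M * J) +
      (a * b)⁻¹ * LAG_ph (fun M => (I * J)ᵀ * F M * (I * J)) := by
  unfold LAG_ph LAG_av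
  simp only [Finset.mul_sum, Matrix.add_apply, Matrix.sub_apply, Matrix.smul_apply, smul_eq_mul,
    Finset.sum_add_distrib, Finset.sum_sub_distrib]

private theorem LAG_ph_two (h2 : (2 : E) ≠ 0) {c d : E} (hc : c ≠ 0) (hd : d ≠ 0)
    {K L : Matrix (Fin 4) (Fin 4) E} (hK : K * K = c • 1) (hL : L * L = d • 1)
    (hKL : K * L = -(L * K)) (X : Matrix (Fin 4) (Fin 4) E) (q : E) (hX : X * X = q • 1)
    (hXK : X * K = K * X) (hXL : X * L = L * X) :
    LAG_ph (fun M => Xᵀ * LAG_av c d K L M * X) = trace X ^ 2 - 8 * q := by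
  have h1 : (fun M => Xᵀ * LAG_av c d K L M * X) =
      fun M => LAG_av c d K L (Xᵀ * M * X) := by
    funext M
    have key : ∀ Y : Matrix (Fin 4) (Fin 4) E, X * Y = Y * X →
        Xᵀ * (Yᵀ * M * Y) * X = Yᵀ * (Xᵀ * M * X) * Y := by
      intro Y hY
      have h3 : Xᵀ * Yᵀ = Yᵀ * Xᵀ := by rw [← transpose_mul, ← transpose_mul, hY]
      calc Xᵀ * (Yᵀ * M * Y) * X = Xᵀ * Yᵀ * M * (Y * X) := by simp only [mul_assoc]
        _ = Yᵀ * (Xᵀ * M * X) * Y := by rw [h3, ← hY]; simp only [mul_assoc]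
    unfold LAG_av
    rw [mul_add, mul_sub, mul_sub, mul_smul_comm, mul_smul_comm, mul_smul_comm, add_mul,
      sub_mul, sub_mul, smul_mul_assoc, smul_mul_assoc, smul_mul_assoc, key K hXK, key L hXL,
      key (K * L) (by rw [← mul_assoc, hXK, mul_assoc, hXL, mul_assoc])]
  have h4 : ∀ Y : Matrix (Fin 4) (Fin 4) E,
      (fun M => Yᵀ * (Xᵀ * M * X) * Y) = fun M => (X * Y)ᵀ * M * (X * Y) := by
    intro Y
    funext M
    rw [transpose_mul]
    simp only [mul_assoc]
  rw [h1, LAG_ph_av, h4, h4, h4, LAG_ph_conj, LAG_ph_conj, LAG_ph_conj, LAG_ph_conj]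
  -- the traces
  have hLK : L * K = -(K * L) := by rw [hKL, neg_neg]
  have t1 : trace (X * K) = 0 := by
    refine LAG_tr h2 L _ d hd hL ?_
    rw [← mul_assoc, ← hXL, mul_assoc, hLK, mul_neg, mul_assoc]
  have t2 : trace (X * L) = 0 := by
    refine LAG_tr h2 K _ c hc hK ?_
    rw [← mul_assoc, ← hXK, mul_assoc, hKL, mul_neg, mul_assoc]
  have t3 : trace (X * (K * L)) = 0 := by
    refine LAG_tr h2 K _ c hc hK ?_
    rw [← mul_assoc, ← hXK, mul_assoc, mul_assoc X (K * L) K, mul_assoc K L K, hLK, mul_neg,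
      mul_neg, neg_neg]
  have s1 : X * K * (X * K) = (q * c) • 1 := by
    calc X * K * (X * K) = X * (K * X) * K := by simp only [mul_assoc]
      _ = X * X * (K * K) := by rw [← hXK]; simp only [mul_assoc]
      _ = (q * c) • 1 := by rw [hX, hK, smul_mul_smul_comm, one_mul]
  have s2 : X * L * (X * L) = (q * d) • 1 := by
    calc X * L * (X * L) = X * (L * X) * L := by simp only [mul_assoc]
      _ = X * X * (L * L) := by rw [← hXL]; simp only [mul_assoc]
      _ = (q * d) • 1 := by rw [hX, hL, smul_mul_smul_comm, one_mul]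
  have s3 : X * (K * L) * (X * (K * L)) = (-(q * (c * d))) • 1 := by
    have h5 : X * (K * L) = K * L * X := by rw [← mul_assoc, hXK, mul_assoc, hXL, mul_assoc]
    have h6 : K * L * (K * L) = (-(c * d)) • 1 := by
      calc K * L * (K * L) = K * (L * K) * L := by simp only [mul_assoc]
        _ = -(K * K * (L * L)) := by rw [hLK]; simp only [mul_assoc, mul_neg, neg_mul]
        _ = (-(c * d)) • 1 := by rw [hK, hL, smul_mul_smul_comm, one_mul, neg_smul]
    calc X * (K * L) * (X * (K * L)) = X * (K * L * X) * (K * L) := by simp only [mul_assoc]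
      _ = X * X * (K * L * (K * L)) := by rw [← h5]; simp only [mul_assoc]
      _ = (-(q * (c * d))) • 1 := by
        rw [hX, h6, smul_mul_smul_comm, one_mul, mul_neg]
  rw [t1, t2, t3, s1, s2, s3, hX]
  simp only [trace_smul, trace_one, Fintype.card_fin, smul_eq_mul]
  field_simp
  push_cast
  ring

private theorem LAG_form (h2 : (2 : E) ≠ 0) {a b c d : E} (ha : a ≠ 0) (hb : b ≠ 0) (hc : c ≠ 0)
    (hd : d ≠ 0) {I J K L : Matrix (Fin 4) (Fin 4) E} (hI : I * I = a • 1) (hJ : J * J = b • 1)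
    (hIJ : I * J = -(J * I)) (hK : K * K = c • 1) (hL : L * L = d • 1) (hKL : K * L = -(L * K))
    (hIK : I * K = K * I) (hIL : I * L = L * I) (hJK : J * K = K * J) (hJL : J * L = L * J) :
    ∃ B : Matrix (Fin 4) (Fin 4) E, B ≠ 0 ∧ Bᵀ = B ∧ Iᵀ * B = -(B * I) ∧ Jᵀ * B = -(B * J) ∧
      Kᵀ * B = -(B * K) ∧ Lᵀ * B = -(B * L) := by
  by_contra hcon
  have hz : ∀ M : Matrix (Fin 4) (Fin 4) E, Mᵀ = M → LAG_av a b I J (LAG_av c d K L M) = 0 := by
    intro M hM
    by_contra hne
    refine hcon ⟨_, hne, LAG_av_symm (LAG_av_symm hM), LAG_av_I ha hb hI hIJ _,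
      LAG_av_J ha hb hJ hIJ _, LAG_av_K hIK hJK (LAG_av_I hc hd hK hKL _),
      LAG_av_K hIL hJL (LAG_av_J hc hd hL hKL _)⟩
  have h1 : LAG_ph (fun M => LAG_av a b I J (LAG_av c d K L M)) = 0 := by
    unfold LAG_ph
    refine Finset.sum_eq_zero fun i _ => Finset.sum_eq_zero fun j _ => ?_
    have h9 := hz (single i j 1 + single j i 1) (by
      rw [transpose_add, transpose_single, transpose_single, add_comm])
    show LAG_av a b I J (LAG_av c d K L (single i j 1 + single j i 1)) i j = 0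
    rw [h9]
    rfl
  have hJI : J * I = -(I * J) := by rw [hIJ, neg_neg]
  have k0 := LAG_ph_two h2 hc hd hK hL hKL 1 1 (by rw [one_mul, one_smul]) (by rw [one_mul, mul_one])
    (by rw [one_mul, mul_one])
  have k1 := LAG_ph_two h2 hc hd hK hL hKL I a hI hIK hIL
  have k2 := LAG_ph_two h2 hc hd hK hL hKL J b hJ hJK hJL
  have k3 := LAG_ph_two h2 hc hd hK hL hKL (I * J) (-(a * b)) (by
      calc I * J * (I * J) = I * (J * I) * J := by simp only [mul_assoc]
        _ = -(I * I * (J * J)) := by rw [hJI]; simp only [mul_assoc, mul_neg, neg_mul]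
        _ = (-(a * b)) • 1 := by rw [hI, hJ, smul_mul_smul_comm, one_mul, neg_smul])
    (by rw [mul_assoc, hJK, ← mul_assoc, hIK, mul_assoc])
    (by rw [mul_assoc, hJL, ← mul_assoc, hIL, mul_assoc])
  have t1 : trace I = 0 := LAG_tr h2 J _ b hb hJ hJI
  have t2 : trace J = 0 := LAG_tr h2 I _ a ha hI hIJ
  have t3 : trace (I * J) = 0 := by
    refine LAG_tr h2 I _ a ha hI ?_
    rw [mul_assoc I J I, hJI, mul_neg, neg_neg]
  rw [t1] at k1
  rw [t2] at k2
  rw [t3] at k3
  simp only [transpose_one, one_mul, mul_one] at k0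
  rw [LAG_ph_av, k0, k1, k2, k3] at h1
  have h3 : (2 : E) ^ 5 = 0 := by
    rw [← h1]
    simp only [trace_one, Fintype.card_fin]
    field_simp
    push_cast
    ring
  exact h2 (pow_eq_zero_iff (by norm_num) |>.1 h3)

private theorem LAG_sq {a b : E} {I J : Matrix (Fin 4) (Fin 4) E} (hI : I * I = a • 1)
    (hJ : J * J = b • 1) (hIJ : I * J = -(J * I)) (r s t : E) :
    (r • I + s • J + t • (I * J)) * (r • I + s • J + t • (I * J)) =
      (a * r ^ 2 + b * s ^ 2 - a * b * t ^ 2) • 1 := by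
  have r1 : ∀ X, I * (I * X) = a • X := fun X => by
    rw [← mul_assoc, hI, smul_mul_assoc, one_mul]
  have hJI : J * I = -(I * J) := by rw [hIJ, neg_neg]
  have r3 : ∀ X, J * (I * X) = -(I * (J * X)) := fun X => by
    rw [← mul_assoc, hJI, neg_mul, mul_assoc]
  simp only [mul_add, add_mul, mul_smul_comm, smul_mul_assoc, mul_assoc, r1, r3, hI, hJ, hJI,
    mul_neg, smul_neg, mul_one, smul_smul]
  module

private theorem LAG_dot (h2 : (2 : E) ≠ 0) {S : Matrix (Fin 4) (Fin 4) E} (hS : Sᵀ = -S)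
    (e : Fin 4 → E) : e ⬝ᵥ (S *ᵥ e) = 0 := by
  have h1 : e ⬝ᵥ (S *ᵥ e) = -(e ⬝ᵥ (S *ᵥ e)) := by
    nth_rewrite 1 [dotProduct_mulVec]
    rw [← mulVec_transpose, hS, dotProduct_comm, neg_mulVec, dotProduct_neg]
  have h3 : 2 * (e ⬝ᵥ (S *ᵥ e)) = 0 := by
    rw [two_mul]
    nth_rewrite 1 [h1]
    rw [neg_add_cancel]
  exact (mul_eq_zero.1 h3).resolve_left h2

end

theorem LAG {E : Type} [Field E] (h2 : (2 : E) ≠ 0) (a b c d : E) (ha : a ≠ 0) (hb : b ≠ 0)
    (hc : c ≠ 0) (hd : d ≠ 0) (h : Spl4 a b c d) :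
    ∃ z : Fin 3 → Fin 6 → E, LinearIndependent E z ∧ ∀ i j, dg (alc a b c d) (z i) (z j) = 0 := by
  obtain ⟨I, J, K, L, hI, hJ, hIJ, hK, hL, hKL, hIK, hIL, hJK, hJL⟩ := h
  obtain ⟨B, hB0, hBs, bI, bJ, bK, bL⟩ :=
    LAG_form h2 ha hb hc hd hI hJ hIJ hK hL hKL hIK hIL hJK hJL
  obtain ⟨e, he⟩ : ∃ e : Fin 4 → E, B *ᵥ e ≠ 0 := by
    by_contra hcon
    push Not at hcon
    apply hB0
    ext i j
    have h1 := congrFun (hcon (Pi.single j 1)) i
    rw [mulVec_single_one] at h1
    exact h1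
  have he0 : e ≠ 0 := by
    rintro rfl
    exact he (mulVec_zero _)
  set w := B *ᵥ e with hw
  let Vl : (Fin 6 → E) →ₗ[E] Matrix (Fin 4) (Fin 4) E :=
    { toFun := fun v => v 0 • I + v 1 • J + v 2 • (I * J) - (v 3 • K + v 4 • L + v 5 • (K * L))
      map_add' := fun v v' => by
        simp only [Pi.add_apply]
        module
      map_smul' := fun r v => by
        simp only [Pi.smul_apply, smul_eq_mul, RingHom.id_apply]
        module }
  have hVl : ∀ v, Vl v = v 0 • I + v 1 • J + v 2 • (I * J) -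
    (v 3 • K + v 4 • L + v 5 • (K * L)) := fun _ => rfl
  have bIJ : (I * J)ᵀ * B = -(B * (I * J)) := by
    rw [transpose_mul, mul_assoc, bI, mul_neg, ← mul_assoc, bJ, neg_mul, neg_neg, mul_assoc]
    rw [show J * I = -(I * J) by rw [hIJ, neg_neg], mul_neg]
  have bKL : (K * L)ᵀ * B = -(B * (K * L)) := by
    rw [transpose_mul, mul_assoc, bK, mul_neg, ← mul_assoc, bL, neg_mul, neg_neg, mul_assoc]
    rw [show L * K = -(K * L) by rw [hKL, neg_neg], mul_neg]
  have hsk : ∀ v, (Vl v)ᵀ * B = -(B * Vl v) := by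
    intro v
    rw [hVl]
    simp only [transpose_add, transpose_sub, transpose_smul, sub_mul, add_mul, smul_mul_assoc, bI,
      bJ, bK, bL, bIJ, bKL, mul_sub, mul_add, mul_smul_comm]
    module
  have hdot : ∀ v, w ⬝ᵥ (Vl v *ᵥ e) = 0 := by
    intro v
    have h1 : w ⬝ᵥ (Vl v *ᵥ e) = e ⬝ᵥ ((B * Vl v) *ᵥ e) := by
      rw [← mulVec_mulVec, dotProduct_mulVec e B, ← mulVec_transpose, hBs]
    rw [h1]
    refine LAG_dot h2 ?_ e
    rw [transpose_mul, hBs, hsk]
  let T : (Fin 6 → E) →ₗ[E] (Fin 4 → E) :=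
    { toFun := fun v => Vl v *ᵥ e
      map_add' := fun v v' => by rw [map_add, add_mulVec]
      map_smul' := fun r v => by rw [map_smul, smul_mulVec]; rfl }
  let f : (Fin 4 → E) →ₗ[E] E :=
    { toFun := fun x => w ⬝ᵥ x
      map_add' := fun x y => dotProduct_add _ _ _
      map_smul' := fun r x => dotProduct_smul _ _ _ }
  have hle : LinearMap.range T ≤ LinearMap.ker f := by
    rintro _ ⟨v, rfl⟩
    exact hdot v
  have hf : Function.Surjective f := by
    obtain ⟨i, hi⟩ := Function.ne_iff.1 he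
    intro x
    refine ⟨Pi.single i ((w i)⁻¹ * x), ?_⟩
    show w ⬝ᵥ Pi.single i ((w i)⁻¹ * x) = x
    rw [dotProduct_single, ← mul_assoc, mul_inv_cancel₀ hi, one_mul]
  have e1 := LinearMap.finrank_range_add_finrank_ker f
  have e2 := LinearMap.finrank_range_add_finrank_ker T
  have e3 := Submodule.finrank_mono hle
  rw [LinearMap.range_eq_top.2 hf, finrank_top, Module.finrank_self, Module.finrank_fin_fun] at e1
  rw [Module.finrank_fin_fun] at e2
  have e4 : 3 ≤ Module.finrank E (LinearMap.ker T) := by omega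
  obtain ⟨z, hz⟩ := exists_linearIndependent_of_le_finrank e4
  -- the quadratic form vanishes on the kernel
  have hq : ∀ v, Vl v *ᵥ e = 0 → dg (alc a b c d) v v = 0 := by
    intro v hv
    have hcm : ∀ r s t r' s' t' : E, (r • I + s • J + t • (I * J)) *
        (r' • K + s' • L + t' • (K * L)) = (r' • K + s' • L + t' • (K * L)) *
          (r • I + s • J + t • (I * J)) := by
      intro r s t r' s' t'
      have c1 : Commute I K := hIK
      have c2 : Commute I L := hIL
      have c3 : Commute J K := hJK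
      have c4 : Commute J L := hJL
      have d1 : Commute I (r' • K + s' • L + t' • (K * L)) :=
        ((c1.smul_right _).add_right (c2.smul_right _)).add_right ((c1.mul_right c2).smul_right _)
      have d2 : Commute J (r' • K + s' • L + t' • (K * L)) :=
        ((c3.smul_right _).add_right (c4.smul_right _)).add_right ((c3.mul_right c4).smul_right _)
      exact ((d1.smul_left _).add_left (d2.smul_left _)).add_left ((d1.mul_left d2).smul_left _)
    set x := v 0 • I + v 1 • J + v 2 • (I * J) with hx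
    set y := v 3 • K + v 4 • L + v 5 • (K * L) with hy
    have h3 : (x + y) * Vl v = dg (alc a b c d) v v • (1 : Matrix (Fin 4) (Fin 4) E) := by
      rw [hVl, ← hx, ← hy]
      have h4 : (x + y) * (x - y) = x * x - y * y := by
        have h5 : x * y = y * x := hcm _ _ _ _ _ _
        rw [add_mul, mul_sub, mul_sub, h5]
        abel
      rw [h4, LAG_sq hI hJ hIJ, LAG_sq hK hL hKL, ← sub_smul]
      congr 1
      simp only [dg, alc, Fin.sum_univ_six, cons_val]
      ring
    have h6 : dg (alc a b c d) v v • e = 0 := by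
      have h7 : ((x + y) * Vl v) *ᵥ e = 0 := by rw [← mulVec_mulVec, hv, mulVec_zero]
      rwa [h3, smul_mulVec, one_mulVec] at h7
    exact (smul_eq_zero.1 h6).resolve_right he0
  have hadd : ∀ x y : Fin 6 → E, dg (alc a b c d) (x + y) (x + y) =
      dg (alc a b c d) x x + 2 * dg (alc a b c d) x y + dg (alc a b c d) y y := by
    intro x y
    simp only [dg, Finset.mul_sum, ← Finset.sum_add_distrib, Pi.add_apply]
    refine Finset.sum_congr rfl fun i _ => ?_
    ring
  refine ⟨fun i => (z i : Fin 6 → E), ?_, fun i j => ?_⟩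
  · exact hz.map' (Submodule.subtype _) (Submodule.ker_subtype _)
  · have hi : Vl (z i : Fin 6 → E) *ᵥ e = 0 := (z i).2
    have hj : Vl (z j : Fin 6 → E) *ᵥ e = 0 := (z j).2
    have hij : Vl ((z i : Fin 6 → E) + z j) *ᵥ e = 0 := by
      rw [map_add, add_mulVec, hi, hj, add_zero]
    have h8 := hadd (z i) (z j)
    rw [hq _ hi, hq _ hj, hq _ hij, zero_add, add_zero] at h8
    exact (mul_eq_zero.1 h8.symm).resolve_left h2

end Pool.Agent.QTB
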