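import Pool.Agent.QTB.Dat4
import Pool.Agent.QTB.LAG

/-!
# QTB, module LAGP: Lagrangian subspaces at split primes

Proof. `φ : R[X] → E` the residue field of `p` with `Spl4 (φ a) …`, all `φ (G i) ≠ 0`. `LAG` gives three independent vectors of `E^6`, isotropic and
orthogonal for `alc (φ a) …`. With `λ = G 4 G 5 G 6 G 7` and `s = (G 4 G 5, G 6 G 7, λ, G 4 G 6, G 5 G 7, λ)`: `λ alc_k = δ_k s_k²` (`δ = gδ G`), so the
vectors `(φ(s_k) z_k)_k` are isotropic and orthogonal for `φ ∘ δ`. Multiply by a common denominator: they are images of `z_i ∈ R[X]^6`,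
`p ∣ dg δ z_i z_j`. Take the images in `L[X]^6`. `P` is associated to the image of `p` and for `f ∈ R[X]`: `P ∣ f.map` iff `p ∣ f` (Gauss; see
`TYPE_gauss`, `TYPE_prime` in QCB/TYPE.lean). Independence: given `r ∈ L[X]^3`, multiply by a constant of `R` to have `r ∈ R[X]^3`; then
`φ(r_i)` is a relation of the vectors over `E`.
-/

set_option autoImplicit false

namespace Pool.Agent.QTB

open Polynomial Pool.Agent.QCB

section

variable {R : Type} [CommRing R] [IsDomain R]

omit [IsDomain R] in
private theorem LAGP_inj : Function.Injective (Polynomial.map (algebraMap R (FractionRing R))) :=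
  Polynomial.map_injective _ (IsFractionRing.injective R (FractionRing R))

private theorem LAGP_cu (s : R) (hs : s ≠ 0) :
    IsUnit ((C s : R[X]).map (algebraMap R (FractionRing R))) := by
  rw [Polynomial.map_C]
  refine Polynomial.isUnit_C.2 (IsUnit.mk0 _ ?_)
  intro h
  exact hs ((IsFractionRing.injective R (FractionRing R)) (by rw [h, map_zero]))

private theorem LAGP_den (f : (FractionRing R)[X]) :
    ∃ s : R, s ≠ 0 ∧ ∃ g : R[X], g.map (algebraMap R (FractionRing R)) =
      (C s : R[X]).map (algebraMap R (FractionRing R)) * f := by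
  obtain ⟨s, hs, h⟩ := IsLocalization.integerNormalization_spec (nonZeroDivisors R) f
  refine ⟨s, nonZeroDivisors.ne_zero hs, IsLocalization.integerNormalization
    (nonZeroDivisors R) f, ?_⟩
  rw [Polynomial.map_C, h]
  ext i
  rw [Polynomial.coeff_smul, Polynomial.coeff_C_mul, Algebra.smul_def]

private theorem LAGP_gauss {p : R[X]} (hp : Prime p)
    (hu : ¬ IsUnit (p.map (algebraMap R (FractionRing R)))) (f : R[X])
    (h : p.map (algebraMap R (FractionRing R)) ∣ f.map (algebraMap R (FractionRing R))) :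
    p ∣ f := by
  obtain ⟨g, hg⟩ := h
  obtain ⟨s, hs, g', hg'⟩ := LAGP_den g
  have h1 : C s * f = p * g' := by
    apply LAGP_inj
    show Polynomial.map _ (C s * f) = Polynomial.map _ (p * g')
    rw [Polynomial.map_mul, Polynomial.map_mul, hg, hg']
    ring
  rcases hp.dvd_or_dvd (Dvd.intro g' h1.symm) with h2 | h2
  · exfalso
    apply hu
    obtain ⟨k, hk⟩ := h2
    refine isUnit_of_dvd_unit ?_ (LAGP_cu s hs)
    rw [hk, Polynomial.map_mul]
    exact Dvd.intro _ rfl
  · exact h2

private theorem LAGP_prime {p : R[X]} (hp : Prime p)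
    (hu : ¬ IsUnit (p.map (algebraMap R (FractionRing R)))) :
    Prime (p.map (algebraMap R (FractionRing R))) := by
  refine ⟨?_, hu, ?_⟩
  · intro h
    exact hp.ne_zero (LAGP_inj (by rw [h, Polynomial.map_zero]))
  · intro x y hxy
    obtain ⟨s, hs, x', hx'⟩ := LAGP_den x
    obtain ⟨t, ht, y', hy'⟩ := LAGP_den y
    have h1 : p ∣ x' * y' := by
      apply LAGP_gauss hp hu
      rw [Polynomial.map_mul, hx', hy']
      have h2 : Polynomial.map (algebraMap R (FractionRing R)) (C s) * x *
        (Polynomial.map (algebraMap R (FractionRing R)) (C t) * y) =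
          x * y * (Polynomial.map (algebraMap R (FractionRing R)) (C s) *
            Polynomial.map (algebraMap R (FractionRing R)) (C t)) := by ring
      rw [h2]
      exact Dvd.dvd.mul_right hxy _
    rcases hp.dvd_or_dvd h1 with h2 | h2
    · left
      have h3 := Polynomial.map_dvd (algebraMap R (FractionRing R)) h2
      rw [hx'] at h3
      exact (LAGP_cu s hs).dvd_mul_left.1 h3
    · right
      have h3 := Polynomial.map_dvd (algebraMap R (FractionRing R)) h2
      rw [hy'] at h3
      exact (LAGP_cu t ht).dvd_mul_left.1 h3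

end

/-- the scaling vector -/
private def LAGP_s {A : Type} [CommRing A] (G : Fin 8 → A) : Fin 6 → A :=
  ![G 4 * G 5, G 6 * G 7, G 4 * G 5 * G 6 * G 7, G 4 * G 6, G 5 * G 7, G 4 * G 5 * G 6 * G 7]

private theorem LAGP_id {A : Type} [CommRing A] (G : Fin 8 → A) (k : Fin 6) :
    G 4 * G 5 * G 6 * G 7 * alc (ga G) (gb G) (gc G) (gd G) k = gδ G k * LAGP_s G k ^ 2 := by
  fin_cases k <;> simp [alc, ga, gb, gc, gd, gδ, LAGP_s] <;> ring

private theorem LAGP_map {A B : Type} [CommRing A] [CommRing B] (φ : A →+* B) (a b c d : A)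
    (k : Fin 6) : φ (alc a b c d k) = alc (φ a) (φ b) (φ c) (φ d) k := by
  fin_cases k <;> simp [alc]

theorem LAGP {R : Type} [CommRing R] [IsDomain R] (h2 : IsUnit (2 : R)) (G : Fin 8 → R[X])
    (p : R[X]) (hp : Prime p) (hs : SplAt (ga G) (gb G) (gc G) (gd G) p) (hpG : ∀ i, ¬ p ∣ G i)
    (P : (FractionRing R)[X]) (hP : Irreducible P)
    (hPp : P ∣ p.map (algebraMap R (FractionRing R))) :
    Lag3 (fun k => (gδ G k).map (algebraMap R (FractionRing R))) P := by
  obtain ⟨E, _, φ, ⟨hker, hfrac⟩, hspl⟩ := hs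
  have hφ : ∀ f, φ f = 0 ↔ p ∣ f := by
    intro f
    rw [← RingHom.mem_ker, hker, Ideal.mem_span_singleton]
  have hE2 : (2 : E) ≠ 0 := by
    have e1 : IsUnit (φ (C (2 : R))) := (h2.map C).map φ
    have e2 : φ (C (2 : R)) = 2 := by
      rw [map_ofNat, map_ofNat]
    rw [e2] at e1
    exact e1.ne_zero
  have hG : ∀ i, φ (G i) ≠ 0 := fun i h => hpG i ((hφ _).1 h)
  have ha : φ (ga G) ≠ 0 := by
    unfold ga
    rw [map_mul, map_mul]
    exact mul_ne_zero (mul_ne_zero (hG _) (hG _)) (hG _)
  have hb : φ (gb G) ≠ 0 := by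
    unfold gb
    rw [map_mul, map_mul]
    exact mul_ne_zero (mul_ne_zero (hG _) (hG _)) (hG _)
  have hc : φ (gc G) ≠ 0 := by
    unfold gc
    rw [map_mul, map_mul]
    exact mul_ne_zero (mul_ne_zero (hG _) (hG _)) (hG _)
  have hd : φ (gd G) ≠ 0 := by
    unfold gd
    rw [map_mul, map_mul]
    exact mul_ne_zero (mul_ne_zero (hG _) (hG _)) (hG _)
  have hsk : ∀ k, φ (LAGP_s G k) ≠ 0 := by
    intro k
    fin_cases k <;> simp [LAGP_s, hG]
  obtain ⟨z, hz, hzz⟩ := LAG hE2 _ _ _ _ ha hb hc hd hspl
  -- numerators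
  have hnum : ∃ (D : R[X]) (w : Fin 3 → Fin 6 → R[X]), φ D ≠ 0 ∧
      ∀ i k, φ (w i k) = φ D * (φ (LAGP_s G k) * z i k) := by
    choose x y hy hxy using hfrac
    refine ⟨∏ t : Fin 3 × Fin 6, y (φ (LAGP_s G t.2) * z t.1 t.2), fun i k =>
      (∏ t ∈ Finset.univ.erase (i, k), y (φ (LAGP_s G t.2) * z t.1 t.2)) *
        x (φ (LAGP_s G k) * z i k), ?_, ?_⟩
    · rw [map_prod]
      exact Finset.prod_ne_zero_iff.2 fun t _ => hy _
    · intro i k
      have e1 := Finset.prod_erase_mul Finset.univ
        (fun t : Fin 3 × Fin 6 => y (φ (LAGP_s G t.2) * z t.1 t.2)) (Finset.mem_univ (i, k))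
      rw [← e1, map_mul, map_mul, ← hxy]
      ring
  obtain ⟨D, w, hD, hw⟩ := hnum
  have hu : ¬ IsUnit (p.map (algebraMap R (FractionRing R))) :=
    fun h => hP.not_isUnit (isUnit_of_dvd_unit hPp h)
  have has : Associated P (p.map (algebraMap R (FractionRing R))) :=
    hP.associated_of_dvd (LAGP_prime hp hu).irreducible hPp
  have key : ∀ f : R[X], P ∣ f.map (algebraMap R (FractionRing R)) → p ∣ f :=
    fun f hf => LAGP_gauss hp hu f (has.symm.dvd.trans hf)
  refine ⟨fun i k => (w i k).map (algebraMap R (FractionRing R)), ?_, ?_⟩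
  · intro i j
    have e1 : p ∣ dg (gδ G) (w i) (w j) := by
      rw [← hφ]
      unfold dg
      rw [map_sum]
      have e2 : ∀ k, φ (gδ G k * (w i k * w j k)) = φ D ^ 2 * φ (G 4 * G 5 * G 6 * G 7) *
          (alc (φ (ga G)) (φ (gb G)) (φ (gc G)) (φ (gd G)) k * (z i k * z j k)) := by
        intro k
        have e3 := congrArg φ (LAGP_id G k)
        rw [map_mul φ (G 4 * G 5 * G 6 * G 7), map_mul φ (gδ G k), LAGP_map, map_pow] at e3
        rw [map_mul, map_mul, hw, hw]
        calc φ (gδ G k) * (φ D * (φ (LAGP_s G k) * z i k) * (φ D * (φ (LAGP_s G k) * z j k)))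
            = φ D ^ 2 * (φ (gδ G k) * φ (LAGP_s G k) ^ 2) * (z i k * z j k) := by ring
          _ = _ := by
            rw [← e3]
            ring
      rw [Finset.sum_congr rfl fun k _ => e2 k, ← Finset.mul_sum]
      have e4 := hzz i j
      unfold dg at e4
      rw [e4, mul_zero]
    refine hPp.trans ?_
    have e5 := Polynomial.map_dvd (algebraMap R (FractionRing R)) e1
    unfold dg at e5 ⊢
    rw [Polynomial.map_sum] at e5
    simp only [Polynomial.map_mul] at e5
    exact e5
  · intro r hr
    -- a common denominator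
    choose t ht r' hr' using fun i => LAGP_den (r i)
    obtain ⟨s, hs0, r'', hr''⟩ : ∃ s : R, s ≠ 0 ∧ ∃ r'' : Fin 3 → R[X], ∀ i,
        (r'' i).map (algebraMap R (FractionRing R)) =
          (C s : R[X]).map (algebraMap R (FractionRing R)) * r i := by
      refine ⟨∏ i, t i, Finset.prod_ne_zero_iff.2 fun i _ => ht i,
        fun i => C (∏ j ∈ Finset.univ.erase i, t j) * r' i, fun i => ?_⟩
      have e1 := Finset.prod_erase_mul Finset.univ t (Finset.mem_univ i)
      rw [← e1, C_mul, Polynomial.map_mul, Polynomial.map_mul, hr']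
      ring
    have hrel : ∀ k, ∑ i, φ (r'' i) * z i k = 0 := by
      intro k
      have e1 : p ∣ ∑ i, r'' i * w i k := by
        apply key
        rw [Polynomial.map_sum]
        have e2 : ∀ i, (r'' i * w i k).map (algebraMap R (FractionRing R)) =
            (C s : R[X]).map (algebraMap R (FractionRing R)) *
              (r i * (w i k).map (algebraMap R (FractionRing R))) := by
          intro i
          rw [Polynomial.map_mul, hr'']
          ring
        rw [Finset.sum_congr rfl fun i _ => e2 i, ← Finset.mul_sum]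
        exact Dvd.dvd.mul_left (hr k) _
      rw [← hφ, map_sum] at e1
      have e3 : ∀ i, φ (r'' i * w i k) = φ D * φ (LAGP_s G k) * (φ (r'' i) * z i k) := by
        intro i
        rw [map_mul, hw]
        ring
      rw [Finset.sum_congr rfl fun i _ => e3 i, ← Finset.mul_sum] at e1
      exact (mul_eq_zero.1 e1).resolve_left (mul_ne_zero hD (hsk k))
    rw [Fintype.linearIndependent_iff] at hz
    have h0 := hz (fun i => φ (r'' i)) (by
      funext k
      rw [Finset.sum_apply]
      exact hrel k)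
    intro i
    have e1 : p ∣ r'' i := (hφ _).1 (h0 i)
    have e2 := hPp.trans (Polynomial.map_dvd (algebraMap R (FractionRing R)) e1)
    rw [hr''] at e2
    exact (LAGP_cu s hs0).dvd_mul_left.1 e2

end Pool.Agent.QTB
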