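import Pool.Agent.QTB.Defs

/-!
# QTB, module LENd: the length at a prime element, with determinants

Proof. As `Pool.Agent.QCB.LEN` (copy the file; its auxiliary lemmas are private): `l(N) = Module.length` of the localization of
`N` at the prime ideal `(q)`. New is the last property: `Λ` is free of finite rank over `A`, right multiplication by `z`
is an endomorphism of the free `A`-module `Λ` with image `Λ z` and determinant `rn z ≠ 0`; over the discrete
valuation ring `A_(q)` (Smith normal form: `Submodule.smithNormalForm`, the determinant is the product of the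
elementary divisors up to a unit) its cokernel has length `v_q(rn z)`.
-/

set_option autoImplicit false

namespace Pool.Agent.QTB

open Pool.Agent.QCB

section LENdloc

variable {A : Type} [CommRing A]

/-- the length of the localization -/
private noncomputable def LENd_len (P : Ideal A) [P.IsPrime] (N : Type) [AddCommGroup N] [Module A N] :
    ℕ∞ :=
  Module.length (Localization.AtPrime P) (LocalizedModule P.primeCompl N)

private theorem LENd_max (P : Ideal A) [P.IsPrime] {q : A} (hP : P = Ideal.span {q}) :
    IsLocalRing.maximalIdeal (Localization.AtPrime P) =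
      Ideal.span {algebraMap A (Localization.AtPrime P) q} := by
  rw [← Localization.AtPrime.map_eq_maximalIdeal, ← Set.image_singleton, ← Ideal.map_span]
  congr 1

private theorem LENd_pid [IsDomain A] [IsNoetherianRing A] (P : Ideal A) [P.IsPrime] {q : A}
    (hP : P = Ideal.span {q}) : IsDomain (Localization.AtPrime P) ∧
      IsPrincipalIdealRing (Localization.AtPrime P) := by
  have h1 : IsDomain (Localization.AtPrime P) :=
    IsLocalization.isDomain_localization (Ideal.primeCompl_le_nonZeroDivisors P)
  have h2 : IsNoetherianRing (Localization.AtPrime P) :=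
    IsLocalization.isNoetherianRing P.primeCompl _ inferInstance
  refine ⟨h1, ?_⟩
  refine (tfae_of_isNoetherianRing_of_isLocalRing_of_isDomain (Localization.AtPrime P)).out 4 0
    |>.1 ?_
  rw [LENd_max P hP]
  exact ⟨⟨_, rfl⟩⟩

private theorem LENd_fin [IsDomain A] [IsNoetherianRing A] (P : Ideal A) [P.IsPrime] {q : A}
    (hP : P = Ideal.span {q}) (N : Type) [AddCommGroup N] [Module A N] [Module.Finite A N]
    (s : A) (hs : s ≠ 0) (hk : ∀ x : N, s • x = 0) : LENd_len P N ≠ ⊤ := by
  obtain ⟨h1, h2⟩ := LENd_pid P hP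
  set R := Localization.AtPrime P with hR
  set M := LocalizedModule P.primeCompl N with hM
  have h3 : Module.Finite R M :=
    Module.Finite.of_isLocalizedModule P.primeCompl (LocalizedModule.mkLinearMap P.primeCompl N)
  set x : R := algebraMap A R s with hx
  have hx0 : x ≠ 0 := by
    intro h
    exact hs ((IsLocalization.injective R (Ideal.primeCompl_le_nonZeroDivisors P)) (by
      rw [map_zero]
      exact h))
  have hxM : ∀ y : M, x • y = 0 := by
    intro y
    induction y using LocalizedModule.induction_on with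
    | h m t =>
      rw [hx, algebraMap_smul, LocalizedModule.smul'_mk, hk, LocalizedModule.zero_mk]
  have hart : IsArtinianRing (R ⧸ Ideal.span {x}) := by
    have h4 := isFiniteLength_quotient_span_singleton R (mem_nonZeroDivisors_of_ne_zero hx0)
    rw [isFiniteLength_iff_isNoetherian_isArtinian] at h4
    have := h4.2
    exact isArtinian_of_tower R this
  have htor : Module.IsTorsionBySet R M (Ideal.span {x} : Ideal R) := by
    intro y a
    obtain ⟨b, hb⟩ := Ideal.mem_span_singleton'.1 a.2
    change (a : R) • y = 0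
    rw [← hb, mul_smul, hxM, smul_zero]
  let _ : Module (R ⧸ Ideal.span {x}) M := htor.module
  have _ : IsScalarTower R (R ⧸ Ideal.span {x}) M := htor.isScalarTower
  have _ : Module.Finite (R ⧸ Ideal.span {x}) M := Module.Finite.of_restrictScalars_finite R _ M
  have h5 : Module.length (R ⧸ Ideal.span {x}) M ≠ ⊤ := Module.length_ne_top
  have h6 := Module.length_eq_of_surjective (R := R ⧸ Ideal.span {x}) (M := M) (S := R)
    (Ideal.Quotient.mk_surjective (I := Ideal.span {x}))
  rw [LENd_len, h6]
  exact h5

private theorem LENd_add (P : Ideal A) [P.IsPrime] (N' N N'' : Type) [AddCommGroup N'] [Module A N']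
    [AddCommGroup N] [Module A N] [AddCommGroup N''] [Module A N''] (f : N' →ₗ[A] N)
    (g : N →ₗ[A] N'') (hf : Function.Injective f) (hg : Function.Surjective g)
    (hfg : Function.Exact f g) : LENd_len P N = LENd_len P N' + LENd_len P N'' := by
  refine Module.length_eq_add_of_exact (LocalizedModule.map P.primeCompl f)
    (LocalizedModule.map P.primeCompl g) (LocalizedModule.map_injective _ f hf)
    (LocalizedModule.map_surjective _ g hg) ?_
  exact LocalizedModule.map_exact P.primeCompl f g hfg

private theorem LENd_sub (P : Ideal A) [P.IsPrime] (N : Type) [AddCommGroup N] [Module A N] :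
    LENd_len P N = 0 ↔ ∀ x : N, ∃ s : A, s ∉ P ∧ s • x = 0 := by
  rw [LENd_len, Module.length_eq_zero_iff, LocalizedModule.subsingleton_iff]
  rfl

private theorem LENd_ex (P : Ideal A) [P.IsPrime] (N : Type) [AddCommGroup N] [Module A N]
    [Module.Finite A N] (h : ∀ x : N, ∃ s : A, s ∉ P ∧ s • x = 0) :
    ∃ s : A, s ∉ P ∧ ∀ x : N, s • x = 0 := by
  classical
  obtain ⟨S, hS⟩ := Module.Finite.fg_top (R := A) (M := N)
  choose f hf using h
  refine ⟨∏ x ∈ S, f x, ?_, fun x => ?_⟩
  · have h2 : ∏ x ∈ S, f x ∈ P.primeCompl := Submonoid.prod_mem _ fun x _ => (hf x).1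
    exact h2
  · have h1 : x ∈ Submodule.span A (S : Set N) := by
      rw [hS]
      trivial
    induction h1 using Submodule.span_induction with
    | mem y hy =>
      rw [← Finset.mul_prod_erase S f hy, mul_comm, mul_smul, (hf y).2, smul_zero]
    | zero => rw [smul_zero]
    | add y z _ _ h1 h2 => rw [smul_add, h1, h2, add_zero]
    | smul a y _ h1 => rw [smul_comm, h1, smul_zero]

private theorem LENd_bas [IsDomain A] (P : Ideal A) [P.IsPrime] {q : A} (hP : P = Ideal.span {q})
    (N : Type) [AddCommGroup N] [Module A N] (hk : ∀ x : N, q • x = 0) (r : ℕ) (e : Fin r → N)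
    (hi : ∀ c : Fin r → A, ∑ i, c i • e i = 0 → ∀ i, q ∣ c i)
    (hs : ∃ s : A, s ∉ P ∧ ∀ x : N, ∃ c : Fin r → A, s • x = ∑ i, c i • e i) :
    LENd_len P N = r := by
  classical
  have hdP : ∀ s : A, q ∣ s → s ∈ P := by
    intro s hs
    rw [hP]
    exact Ideal.mem_span_singleton.2 hs
  set R := Localization.AtPrime P with hR
  set M := LocalizedModule P.primeCompl N with hM
  set m := IsLocalRing.maximalIdeal R with hm
  have hqm : m = Ideal.span {algebraMap A R q} := LENd_max P hP
  have hkM : ∀ x ∈ m, ∀ y : M, x • y = 0 := by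
    intro x hx y
    rw [hqm, Ideal.mem_span_singleton'] at hx
    obtain ⟨a, rfl⟩ := hx
    induction y using LocalizedModule.induction_on with
    | h n t =>
      rw [mul_smul, algebraMap_smul, LocalizedModule.smul'_mk, hk, LocalizedModule.zero_mk,
        smul_zero]
  let v : Fin r → M := fun i => LocalizedModule.mk (e i) 1
  let Φ : (Fin r → R) →ₗ[R] M := Fintype.linearCombination R v
  let Ψ : (Fin r → R) →ₗ[R] (Fin r → R ⧸ m) := LinearMap.pi fun i => m.mkQ.comp (LinearMap.proj i)
  have hΨ : Function.Surjective Ψ := by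
    intro c
    choose d hd using fun i => Submodule.mkQ_surjective m (c i)
    exact ⟨d, funext hd⟩
  have hΨk : ∀ c, Ψ c = 0 ↔ ∀ i, c i ∈ m := by
    intro c
    rw [funext_iff]
    refine forall_congr' fun i => ?_
    change m.mkQ (c i) = 0 ↔ _
    rw [Submodule.mkQ_apply, Submodule.Quotient.mk_eq_zero]
  have hsm : ∀ (c : Fin r → A), Φ (fun i => algebraMap A R (c i)) =
      LocalizedModule.mk (∑ i, c i • e i) 1 := by
    intro c
    have h1 : ∀ n : N, LocalizedModule.mk n (1 : P.primeCompl) =
        LocalizedModule.mkLinearMap P.primeCompl N n := fun n => rfl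
    rw [h1, map_sum, Fintype.linearCombination_apply]
    refine Finset.sum_congr rfl fun i _ => ?_
    rw [map_smul, algebraMap_smul]
    rfl
  have hΦ : Function.Surjective Φ := by
    intro y
    induction y using LocalizedModule.induction_on with
    | h n t =>
      obtain ⟨s, hsP, hs⟩ := hs
      obtain ⟨c, hc⟩ := hs n
      have hu : IsUnit (algebraMap A R (s * t)) :=
        IsLocalization.map_units R (⟨s * t, P.primeCompl.mul_mem hsP t.2⟩ : P.primeCompl)
      obtain ⟨u, hu⟩ := hu
      refine ⟨(u⁻¹ : Rˣ).val • fun i => algebraMap A R (c i), ?_⟩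
      rw [map_smul, hsm, ← hc]
      have h2 : (LocalizedModule.mk (s • n) (1 : P.primeCompl) : M) =
          (u : R) • LocalizedModule.mk n t := by
        rw [hu, algebraMap_smul, LocalizedModule.smul'_mk, LocalizedModule.mk_eq]
        refine ⟨1, ?_⟩
        simp only [one_smul, Submonoid.smul_def, smul_smul]
        rw [mul_comm]
      rw [h2, smul_smul, Units.inv_mul, one_smul]
  have hΦk : ∀ c, Φ c = 0 ↔ ∀ i, c i ∈ m := by
    intro c
    constructor
    · intro h i
      obtain ⟨b, hb⟩ := IsLocalization.exist_integer_multiples_of_finite P.primeCompl c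
      choose a ha using hb
      have h1 : Φ (fun i => algebraMap A R (a i)) = 0 := by
        have h2 : (fun i => algebraMap A R (a i)) = (algebraMap A R b) • c := by
          funext i
          rw [ha i, Pi.smul_apply, smul_eq_mul, Algebra.smul_def]
        rw [h2, map_smul, h, smul_zero]
      rw [hsm] at h1
      rw [← LocalizedModule.zero_mk (1 : P.primeCompl), LocalizedModule.mk_eq] at h1
      obtain ⟨t, ht⟩ := h1
      simp only [one_smul, smul_zero, Submonoid.smul_def, Finset.smul_sum, smul_smul] at ht
      have h3 := hi (fun i => (t : A) * a i) ht i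
      have h4 : (t : A) * a i ∈ P := hdP _ h3
      have h5 : a i ∈ P := (Ideal.IsPrime.mem_or_mem inferInstance h4).resolve_left t.2
      have h6 : algebraMap A R (a i) ∈ m := (IsLocalization.AtPrime.to_map_mem_maximal_iff R P _).2 h5
      rw [ha i, Algebra.smul_def] at h6
      refine (Ideal.IsPrime.mem_or_mem (IsLocalRing.maximalIdeal.isMaximal R).isPrime h6).resolve_left ?_
      intro h7
      rw [IsLocalization.AtPrime.to_map_mem_maximal_iff R P] at h7
      exact b.2 h7
    · intro h
      rw [Fintype.linearCombination_apply]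
      exact Finset.sum_eq_zero fun i _ => hkM _ (h i) _
  have hker : LinearMap.ker Φ = LinearMap.ker Ψ := by
    ext c
    rw [LinearMap.mem_ker, LinearMap.mem_ker, hΦk, hΨk]
  have e1 := LinearMap.quotKerEquivOfSurjective Φ hΦ
  have e2 := LinearMap.quotKerEquivOfSurjective Ψ hΨ
  have e3 := Submodule.quotEquivOfEq _ _ hker
  have hsimple : IsSimpleModule R (R ⧸ m) :=
    isSimpleModule_iff_isCoatom.2 (Ideal.isMaximal_def.1 (IsLocalRing.maximalIdeal.isMaximal R))
  rw [LENd_len, (e1.symm.trans (e3.trans e2)).length_eq, Module.length_pi_of_fintype]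
  simp [Module.length_eq_one]

end LENdloc

section LENddet

open TensorProduct

/-- the length of the cokernel of an endomorphism of a free module over a principal ideal domain -/
private theorem LENd_ord {R M : Type} [CommRing R] [IsDomain R] [IsPrincipalIdealRing R]
    [AddCommGroup M] [Module R M] [Module.Free R M] [Module.Finite R M] (φ : M →ₗ[R] M)
    (h0 : LinearMap.det φ ≠ 0) :
    Module.length R (M ⧸ LinearMap.range φ) = Ring.ord R (LinearMap.det φ) := by
  classical
  have hinj : Function.Injective φ := by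
    rw [← LinearMap.ker_eq_bot]
    by_contra h
    exact h0 (LinearMap.det_eq_zero_iff_ker_ne_bot.2 h)
  let b := Module.Free.chooseBasis R M
  set N := LinearMap.range φ with hN
  have hr : Module.finrank R N = Module.finrank R M := LinearMap.finrank_range_of_inj hinj
  let a := Submodule.smithNormalFormCoeffs b hr
  let bM := Submodule.smithNormalFormTopBasis b hr
  let bN := Submodule.smithNormalFormBotBasis b hr
  have hab : ∀ i, ((bN i : N) : M) = a i • bM i := Submodule.smithNormalFormBotBasis_def b hr
  have ha0 : ∀ i, a i ≠ 0 := Submodule.smithNormalFormCoeffs_ne_zero b hr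
  rw [(Submodule.quotientEquivPiSpan N b hr).length_eq, Module.length_pi_of_fintype]
  have h1 : Associated (∏ i, a i) (LinearMap.det φ) := by
    rw [← Matrix.det_diagonal, ← LinearMap.det_toLin bM]
    let e : M ≃ₗ[R] M := (bM.equiv bN (Equiv.refl _)).trans (LinearEquiv.ofInjective φ hinj).symm
    refine LinearMap.associated_det_of_eq_comp e _ _ ?_
    have h2 : Matrix.toLin bM bM (Matrix.diagonal a) = φ ∘ₗ (e : M →ₗ[R] M) := by
      refine bM.ext fun i => ?_
      have h3 : φ (e (bM i)) = a i • bM i := by
        rw [← hab i]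
        change φ ((LinearEquiv.ofInjective φ hinj).symm (bM.equiv bN (Equiv.refl _) (bM i))) = _
        rw [Module.Basis.equiv_apply]
        have h4 := (LinearEquiv.ofInjective φ hinj).apply_symm_apply (bN (Equiv.refl _ i))
        exact congrArg Subtype.val h4
      rw [LinearMap.comp_apply, LinearEquiv.coe_coe, h3, Matrix.toLin_self]
      rw [Finset.sum_eq_single i]
      · rw [Matrix.diagonal_apply_eq]
      · intro j _ hj
        rw [Matrix.diagonal_apply_ne _ hj, zero_smul]
      · intro h
        exact absurd (Finset.mem_univ i) h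
    intro x
    rw [h2]
    rfl
  rw [← Ring.ord_eq_of_associated h1]
  have h5 : ∀ s : Finset _, Ring.ord R (∏ i ∈ s, a i) = ∑ i ∈ s, Ring.ord R (a i) := by
    intro s
    induction s using Finset.induction_on with
    | empty => rw [Finset.prod_empty, Finset.sum_empty, Ring.ord_one]
    | insert i s hi ih =>
      rw [Finset.prod_insert hi, Finset.sum_insert hi, Ring.ord_mul' R
        (mem_nonZeroDivisors_of_ne_zero (ha0 i)), ih]
  rw [h5]
  rfl

/-- the localised length of the cokernel of an endomorphism -/
private theorem LENd_det {A : Type} [CommRing A] [IsDomain A] [IsNoetherianRing A] (P : Ideal A)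
    [P.IsPrime] {q : A} (hP : P = Ideal.span {q}) (hq : Prime q) (M N : Type) [AddCommGroup M]
    [Module A M] [Module.Free A M] [Module.Finite A M] [AddCommGroup N] [Module A N]
    (φ : M →ₗ[A] M) (g : M →ₗ[A] N) (hg : Function.Surjective g) (hφg : Function.Exact φ g) (k : ℕ)
    (h1 : q ^ k ∣ LinearMap.det φ) (h2 : ¬ q ^ (k + 1) ∣ LinearMap.det φ) :
    LENd_len P N = k := by
  obtain ⟨i1, i2⟩ := LENd_pid P hP
  set R := Localization.AtPrime P with hR
  have hinj : Function.Injective (algebraMap A R) :=
    IsLocalization.injective R (Ideal.primeCompl_le_nonZeroDivisors P)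
  obtain ⟨w, hw⟩ := h1
  have hqw : ¬ q ∣ w := by
    rintro ⟨c, hc⟩
    apply h2
    rw [hw, hc, pow_succ]
    exact ⟨c, by ring⟩
  have hw0 : w ≠ 0 := fun h => hqw (h ▸ dvd_zero q)
  have hd0 : LinearMap.det φ ≠ 0 := by
    rw [hw]
    exact mul_ne_zero (pow_ne_zero _ hq.ne_zero) hw0
  have hq0 : algebraMap A R q ≠ 0 := by
    intro h
    exact hq.ne_zero (hinj (by rw [h, map_zero]))
  -- the base change
  have hd1 : LinearMap.det (φ.baseChange R) = algebraMap A R (LinearMap.det φ) :=
    LinearMap.det_baseChange φ
  have hd2 : LinearMap.det (φ.baseChange R) ≠ 0 := by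
    rw [hd1]
    intro h
    exact hd0 (hinj (by rw [h, map_zero]))
  have h3 := LENd_ord (φ.baseChange R) hd2
  have h4 : Ring.ord R (LinearMap.det (φ.baseChange R)) = k := by
    rw [hd1, hw, map_mul, map_pow]
    have hu : IsUnit (algebraMap A R w) := by
      refine IsLocalization.map_units R (⟨w, ?_⟩ : P.primeCompl)
      change w ∉ P
      rw [hP, Ideal.mem_span_singleton]
      exact hqw
    have hirr : Irreducible (algebraMap A R q) := by
      have h5 : (Ideal.span {algebraMap A R q}).IsPrime := by
        rw [← LENd_max P hP]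
        exact (IsLocalRing.maximalIdeal.isMaximal R).isPrime
      exact ((Ideal.span_singleton_prime hq0).1 h5).irreducible
    rw [Ring.ord_mul_of_isUnit_right hu, Ring.ord_pow (mem_nonZeroDivisors_of_ne_zero hq0),
      Ring.ord_of_irreducible hirr]
    simp
  rw [h4] at h3
  -- comparison with the localisation
  have hex : Function.Exact (φ.baseChange R) (g.baseChange R) := lTensor_exact R hφg hg
  have hsurj : Function.Surjective (g.baseChange R) := LinearMap.lTensor_surjective R hg
  have e0 := Submodule.quotEquivOfEq _ _ (LinearMap.exact_iff.1 hex).symm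
  have e1 := e0.trans ((g.baseChange R).quotKerEquivOfSurjective hsurj)
  have e2 : R ⊗[A] N ≃ₗ[R] LocalizedModule P.primeCompl N :=
    ((isLocalizedModule_iff_isBaseChange P.primeCompl R
      (LocalizedModule.mkLinearMap P.primeCompl N)).1 inferInstance).equiv
  rw [LENd_len, ← h3]
  exact ((e1.trans e2).length_eq).symm

end LENddet

theorem LENd {A Λ : Type} [CommRing A] [IsDomain A] [IsNoetherianRing A] [Ring Λ] [Algebra A Λ]
    [Module.Finite A Λ] [Module.Free A Λ] (q : A) (hq : Prime q) :
    ∃ l : TAdd A Λ ℤ,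
      (∀ (N : Type) [AddCommGroup N] [Module Λ N], 0 ≤ l.val N) ∧
      (∀ (N : Type) [AddCommGroup N] [Module Λ N] [Module.Finite Λ N] (s : A), ¬ q ∣ s →
        Kil s N (Λ := Λ) → l.val N = 0) ∧
      (∀ (N : Type) [AddCommGroup N] [Module Λ N] [Module.Finite Λ N], Kil q N (Λ := Λ) →
        l.val N = 0 → ∃ s : A, ¬ q ∣ s ∧ Kil s N (Λ := Λ)) ∧
      (∀ (N : Type) [AddCommGroup N] [Module Λ N] [Module.Finite Λ N], Kil q N (Λ := Λ) →
        ∀ (r : ℕ) (e : Fin r → N),
          (∀ c : Fin r → A, ∑ i, algebraMap A Λ (c i) • e i = 0 → ∀ i, q ∣ c i) →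
          (∃ s : A, ¬ q ∣ s ∧ ∀ x : N, ∃ c : Fin r → A,
            algebraMap A Λ s • x = ∑ i, algebraMap A Λ (c i) • e i) →
          l.val N = r) ∧
      ∀ (z : Λ) (k : ℕ), rn (A := A) z ≠ 0 → q ^ k ∣ rn (A := A) z → ¬ q ^ (k + 1) ∣ rn (A := A) z →
        l.val (Λ ⧸ Ideal.span {z}) = k := by
  classical
  obtain ⟨P, hP⟩ : ∃ P : Ideal A, P = Ideal.span {q} := ⟨_, rfl⟩
  have hPp : P.IsPrime := by
    rw [hP]
    exact (Ideal.span_singleton_prime hq.ne_zero).2 hq
  have hmem : ∀ s : A, s ∉ P ↔ ¬ q ∣ s := by
    intro s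
    rw [hP, Ideal.mem_span_singleton]
  have hfin : ∀ (N : Type) [AddCommGroup N] [Module Λ N] [Module.Finite Λ N],
      @Module.Finite A N _ _ (Module.compHom N (algebraMap A Λ)) := by
    intro N _ _ _
    let _ : Module A N := Module.compHom N (algebraMap A Λ)
    have _ : IsScalarTower A Λ N := ⟨fun a b x => by
      change (a • b) • x = algebraMap A Λ a • (b • x)
      rw [Algebra.smul_def, mul_smul]⟩
    exact Module.Finite.trans Λ N
  have hadd : ∀ (N' N N'' : Type) [AddCommGroup N'] [Module Λ N'] [AddCommGroup N] [Module Λ N]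
      [AddCommGroup N''] [Module Λ N''] [Module.Finite Λ N'] [Module.Finite Λ N]
      [Module.Finite Λ N''] (f : N' →ₗ[Λ] N) (g : N →ₗ[Λ] N''), Function.Injective f →
      Function.Surjective g → Function.Exact f g → (∃ s : A, s ≠ 0 ∧ Kil (Λ := Λ) s N) →
      (((@LENd_len A _ P hPp N _ (Module.compHom N (algebraMap A Λ))).toNat : ℕ) : ℤ) =
      (((@LENd_len A _ P hPp N' _ (Module.compHom N' (algebraMap A Λ))).toNat : ℕ) : ℤ) +
      (((@LENd_len A _ P hPp N'' _ (Module.compHom N'' (algebraMap A Λ))).toNat : ℕ) : ℤ) := by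
    intro N' N N'' _ _ _ _ _ _ _ _ _ f g hf hg hfg hs
    obtain ⟨s, hs0, hs⟩ := hs
    have hF := hfin N
    let _ : Module A N := Module.compHom N (algebraMap A Λ)
    let _ : Module A N' := Module.compHom N' (algebraMap A Λ)
    let _ : Module A N'' := Module.compHom N'' (algebraMap A Λ)
    let f' : N' →ₗ[A] N :=
      { toFun := f
        map_add' := map_add f
        map_smul' := fun a x => map_smul f (algebraMap A Λ a) x }
    let g' : N →ₗ[A] N'' :=
      { toFun := g
        map_add' := map_add g
        map_smul' := fun a x => map_smul g (algebraMap A Λ a) x }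
    have h1 := LENd_add P N' N N'' f' g' hf hg hfg
    have h2 := LENd_fin P hP N s hs0 hs
    have h3 : LENd_len P N' ≠ ⊤ ∧ LENd_len P N'' ≠ ⊤ := by
      rw [h1] at h2
      exact ⟨fun h => h2 (by rw [h, top_add]), fun h => h2 (by rw [h, add_top])⟩
    rw [h1, ENat.toNat_add h3.1 h3.2]
    push_cast
    rfl
  refine ⟨⟨fun N _ _ => (((@LENd_len A _ P hPp N _
    (Module.compHom N (algebraMap A Λ))).toNat : ℕ) : ℤ), hadd⟩, ?_, ?_, ?_, ?_, ?_⟩
  · intro N _ _
    exact Int.natCast_nonneg _
  · intro N _ _ _ s hs hk
    let _ : Module A N := Module.compHom N (algebraMap A Λ)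
    have h1 : LENd_len P N = 0 := (LENd_sub P N).2 fun x => ⟨s, (hmem s).2 hs, hk x⟩
    change (((LENd_len P N).toNat : ℕ) : ℤ) = 0
    rw [h1]
    rfl
  · intro N _ _ _ hk h0
    have hF := hfin N
    let _ : Module A N := Module.compHom N (algebraMap A Λ)
    have h1 : (LENd_len P N).toNat = 0 := by
      have h2 : (((LENd_len P N).toNat : ℕ) : ℤ) = 0 := h0
      exact_mod_cast h2
    have h2 : LENd_len P N = 0 := by
      rcases ENat.toNat_eq_zero.1 h1 with h | h
      · exact h
      · exact absurd h (LENd_fin P hP N q hq.ne_zero hk)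
    obtain ⟨s, hs, hs'⟩ := LENd_ex P N ((LENd_sub P N).1 h2)
    exact ⟨s, (hmem s).1 hs, hs'⟩
  · intro N _ _ _ hk r e hi hs
    let _ : Module A N := Module.compHom N (algebraMap A Λ)
    obtain ⟨s, hs, hs'⟩ := hs
    have h1 : LENd_len P N = r := LENd_bas P hP N hk r e hi ⟨s, (hmem s).2 hs, hs'⟩
    change (((LENd_len P N).toNat : ℕ) : ℤ) = r
    rw [h1]
    rfl
  · intro z k _ h1 h2
    let _ : Module A (Λ ⧸ Ideal.span {z}) := Module.compHom (Λ ⧸ Ideal.span {z}) (algebraMap A Λ)
    let g : Λ →ₗ[A] (Λ ⧸ Ideal.span {z}) :=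
      { toFun := (Ideal.span {z}).mkQ
        map_add' := fun x y => map_add _ x y
        map_smul' := fun a x => by
          change (Ideal.span {z}).mkQ (a • x) = algebraMap A Λ a • (Ideal.span {z}).mkQ x
          rw [Algebra.smul_def, ← smul_eq_mul, map_smul] }
    have hg : Function.Surjective g := by
      intro x
      obtain ⟨y, hy⟩ := Submodule.mkQ_surjective (Ideal.span {z}) x
      exact ⟨y, hy⟩
    have hex : Function.Exact (LinearMap.mulRight A z) g := by
      intro x
      change (Ideal.span {z}).mkQ x = 0 ↔ _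
      rw [Submodule.mkQ_apply, Submodule.Quotient.mk_eq_zero, Ideal.mem_span_singleton']
      rfl
    have h1' : q ^ k ∣ LinearMap.det (LinearMap.mulRight A z) := h1
    have h2' : ¬ q ^ (k + 1) ∣ LinearMap.det (LinearMap.mulRight A z) := h2
    have h3 : LENd_len P (Λ ⧸ Ideal.span {z}) = k := by
      refine LENd_det P hP hq Λ (Λ ⧸ Ideal.span {z}) (LinearMap.mulRight A z) g hg hex k ?_ ?_
      · exact h1'
      · exact h2'
    change (((LENd_len P (Λ ⧸ Ideal.span {z})).toNat : ℕ) : ℤ) = k
    rw [h3]
    rfl

end Pool.Agent.QTB
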