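import Pool.Agent.QTB.Dat4
import Pool.Agent.QCB.QORD
import Pool.Agent.Q4.BCQ

/-!
# QTB, module NF4: the normal form of a biquaternion algebra over `R[X]`

Proof. `QORD_nf` in QCB/QORD.lean (private; copy) gives for `(a, b)` a pair `(a₂, b₂)` which is squarefree and coprime over `L = Frac R` with
`ℍ[A,a,b] ≅ ℍ[A,a₂,b₂]` over all `R[X]`-algebras `A` in which some `s ≠ 0` is invertible (these isomorphisms are `A`-linear, so one gets isomorphisms of
the tensor products); the same for `(c, d)`. Over `L[X]`: `P₁ = gcd(a₂, c₂)`, `P₂ = gcd(a₂, d₂)` (coprime since `c₂`, `d₂` are), `P₃ = gcd(b₂, c₂)`,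
`P₄ = gcd(b₂, d₂)`, `A = a₂ / (P₁ P₂)`, `B = b₂ / (P₃ P₄)`, `C = c₂ / (P₁ P₃)`, `D = d₂ / (P₂ P₄)`: squarefree and pairwise coprime. Multiply `P₁, …, P₄` by constants of `R`
so that they are in `R[X]`; multiply `a₂` by the square of a constant of `R` so that the new `A` is in `R[X]` and `a₂ ρ² = A P₁ P₂`; the same for `b₂, c₂, d₂`.
Scaling by squares of units does not change the algebras (`QI1`, `QI2`, `BCQ_sc` in Pool/Agent/Q4/BCQ.lean).
-/

set_option autoImplicit false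

namespace Pool.Agent.QTB

open Quaternion QuaternionAlgebra Polynomial Pool.Agent.QCB

private theorem NF4_sqf {M : Type} [CommRing M] [IsDomain M] [UniqueFactorizationMonoid M] (x : M)
    (hx : x ≠ 0) : ∃ y z : M, x = y ^ 2 * z ∧ Squarefree z := by
  induction x using UniqueFactorizationMonoid.induction_on_prime with
  | h₁ => exact absurd rfl hx
  | h₂ x hu => exact ⟨1, x, by simp, hu.squarefree⟩
  | h₃ x p hx0 hp ih =>
    obtain ⟨y, z, hxy, hz⟩ := ih hx0
    by_cases h : p ∣ z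
    · obtain ⟨w, rfl⟩ := h
      exact ⟨p * y, w, by rw [hxy]; ring, hz.squarefree_of_dvd (Dvd.intro_left p rfl)⟩
    · refine ⟨y, p * z, by rw [hxy]; ring, ?_⟩
      rw [squarefree_mul_iff]
      exact ⟨(hp.irreducible.isRelPrime_iff_not_dvd).2 h, hp.irreducible.squarefree, hz⟩

private theorem NF4_clear {R : Type} [CommRing R] [IsDomain R] (p : (FractionRing R)[X]) :
    ∃ d : R, d ≠ 0 ∧ ∃ P : R[X], P.map (algebraMap R (FractionRing R)) =
      C (algebraMap R (FractionRing R) d) * p := by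
  obtain ⟨b, hb, h⟩ := IsLocalization.integerNormalization_spec (nonZeroDivisors R) p
  refine ⟨b, nonZeroDivisors.ne_zero hb,
    IsLocalization.integerNormalization (nonZeroDivisors R) p, ?_⟩
  rw [h, ← Polynomial.smul_eq_C_mul, algebraMap_smul]

private theorem NF4_inj {R : Type} [CommRing R] [IsDomain R] :
    Function.Injective (Polynomial.map (algebraMap R (FractionRing R))) :=
  Polynomial.map_injective _ (IsFractionRing.injective R (FractionRing R))

private theorem NF4_rep {R : Type} [CommRing R] [IsDomain R] (x P : R[X])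
    (l p : (FractionRing R)[X]) (e : R) (he : e ≠ 0)
    (hP : P.map (algebraMap R (FractionRing R)) = C (algebraMap R (FractionRing R) e) ^ 2 * p)
    (hx : x.map (algebraMap R (FractionRing R)) = l ^ 2 * p) (hx0 : x ≠ 0) :
    ∃ d k : R[X], d ≠ 0 ∧ k ≠ 0 ∧ d ^ 2 * x = k ^ 2 * P := by
  obtain ⟨f, hf, M, hM⟩ := NF4_clear l
  have hL : l ≠ 0 := by
    rintro rfl
    apply hx0
    apply NF4_inj
    rw [hx]; simp
  have hfC : (C (algebraMap R (FractionRing R) f) : (FractionRing R)[X]) ≠ 0 := by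
    rw [Ne, C_eq_zero, map_eq_zero_iff _ (IsFractionRing.injective R (FractionRing R))]
    exact hf
  refine ⟨C (e * f), M, ?_, ?_, ?_⟩
  · rw [Ne, C_eq_zero]; exact mul_ne_zero he hf
  · rintro rfl
    rw [Polynomial.map_zero] at hM
    exact mul_ne_zero hfC hL hM.symm
  · apply NF4_inj
    simp only [Polynomial.map_mul, Polynomial.map_pow, map_C, map_mul, hM, hP, hx]
    ring

private theorem NF4_unit {R : Type} [CommRing R] [IsDomain R] {d : R} (hd : d ≠ 0) :
    IsUnit (C (algebraMap R (FractionRing R) d) ^ 2 : (FractionRing R)[X]) := by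
  apply IsUnit.pow
  rw [isUnit_C]
  apply IsUnit.mk0
  rw [Ne, map_eq_zero_iff _ (IsFractionRing.injective R (FractionRing R))]
  exact hd

/-- `j' = (g + i) j / g`: see `QI3` -/
private theorem NF4_QI3 {A : Type} [CommRing A] (g a b : A) (hg : IsUnit g) (h : IsUnit (g - a)) :
    Nonempty (ℍ[A,g * a,g * b] ≃ₐ[A] ℍ[A,g * a,b * (g - a)]) := by
  obtain ⟨w, hw⟩ := h.exists_right_inv
  obtain ⟨v, hv⟩ := hg.exists_right_inv
  refine ⟨{ toFun := fun x => ⟨x.re, x.imI, w * (g * x.imJ - g * a * x.imK),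
              w * (g * x.imK - x.imJ)⟩,
            invFun := fun x => ⟨x.re, x.imI, x.imJ + a * x.imK, v * x.imJ + x.imK⟩,
            left_inv := fun x => ?_, right_inv := fun x => ?_,
            map_mul' := fun x y => ?_, map_add' := fun x y => ?_, commutes' := fun x => ?_ }⟩
  · ext
    · rfl
    · rfl
    · show w * (g * x.imJ - g * a * x.imK) + a * (w * (g * x.imK - x.imJ)) = x.imJ
      linear_combination x.imJ * hw
    · show v * (w * (g * x.imJ - g * a * x.imK)) + w * (g * x.imK - x.imJ) = x.imK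
      linear_combination x.imK * hw + (w * x.imJ - a * w * x.imK) * hv
  · ext
    · rfl
    · rfl
    · show w * (g * (x.imJ + a * x.imK) - g * a * (v * x.imJ + x.imK)) = x.imJ
      linear_combination x.imJ * hw - w * a * x.imJ * hv
    · show w * (g * (v * x.imJ + x.imK) - (x.imJ + a * x.imK)) = x.imK
      linear_combination x.imK * hw + w * x.imJ * hv
  · ext
    · simp
      linear_combination (-(g * b * (x.imJ * y.imJ - g * a * (x.imK * y.imK)) *
        ((g - a) * w + 1))) * hw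
    · simp
      linear_combination (g * b * (x.imJ * y.imK - x.imK * y.imJ) * ((g - a) * w + 1)) * hw
    · simp
      ring
    · simp
      ring
  · ext <;> simp [mul_add] <;> ring
  · ext <;> simp [Algebra.algebraMap_eq_smul_one]

/-- the quaternion algebras of the two pairs are isomorphic after a localization -/
private def NF4Rel {P : Type} [CommRing P] (a b a₂ b₂ : P) : Prop :=
  ∃ s : P, s ≠ 0 ∧ ∀ (A : Type) [CommRing A] [Algebra P A], IsUnit (algebraMap P A s) →
    Nonempty (ℍ[A,algebraMap P A a,algebraMap P A b] ≃ₐ[A]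
      ℍ[A,algebraMap P A a₂,algebraMap P A b₂])

private theorem NF4Rel.trans {P : Type} [CommRing P] [IsDomain P] {a b a₂ b₂ a₃ b₃ : P}
    (h : NF4Rel a b a₂ b₂) (h' : NF4Rel a₂ b₂ a₃ b₃) : NF4Rel a b a₃ b₃ := by
  obtain ⟨s, hs, h⟩ := h
  obtain ⟨s', hs', h'⟩ := h'
  refine ⟨s * s', mul_ne_zero hs hs', fun A _ _ hu => ?_⟩
  rw [map_mul] at hu
  obtain ⟨e⟩ := h A (isUnit_of_mul_isUnit_left hu)
  obtain ⟨e'⟩ := h' A (isUnit_of_mul_isUnit_right hu)
  exact ⟨e.trans e'⟩

private theorem NF4_sq {P A : Type} [CommRing P] [CommRing A] [Algebra P A]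
    {a a₁ d l : P} (h : d ^ 2 * a = l ^ 2 * a₁) (hu : IsUnit (algebraMap P A (d * l))) :
    ∃ u : A, IsUnit u ∧ algebraMap P A a = u ^ 2 * algebraMap P A a₁ := by
  rw [map_mul] at hu
  have hd : IsUnit (algebraMap P A d) := isUnit_of_mul_isUnit_left hu
  have hl : IsUnit (algebraMap P A l) := isUnit_of_mul_isUnit_right hu
  obtain ⟨v, hv⟩ := hd
  have h1 := congrArg (algebraMap P A) h
  rw [map_mul, map_mul, map_pow, map_pow, ← hv] at h1
  refine ⟨algebraMap P A l * ((v⁻¹ : Aˣ) : A), hl.mul (Units.isUnit _), ?_⟩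
  have h2 : (((v⁻¹ : Aˣ) : A)) * (v : A) = 1 := Units.inv_mul v
  calc algebraMap P A a = ((((v⁻¹ : Aˣ) : A)) * (v : A)) ^ 2 * algebraMap P A a := by
        rw [h2]; ring
    _ = (((v⁻¹ : Aˣ) : A)) ^ 2 * ((v : A) ^ 2 * algebraMap P A a) := by ring
    _ = _ := by rw [h1]; ring

private theorem NF4Rel.left {P : Type} [CommRing P] [IsDomain P] {a a₁ d l : P} (b : P)
    (hd : d ≠ 0) (hl : l ≠ 0) (h : d ^ 2 * a = l ^ 2 * a₁) : NF4Rel a b a₁ b := by
  refine ⟨d * l, mul_ne_zero hd hl, fun A _ _ hu => ?_⟩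
  obtain ⟨u, hu1, hu2⟩ := NF4_sq h hu
  rw [hu2]
  have h1 := Q4.BCQ_sc (algebraMap P A a₁) (algebraMap P A b) u 1 hu1 isUnit_one
  rwa [one_pow, one_mul] at h1

private theorem NF4Rel.right {P : Type} [CommRing P] [IsDomain P] {b b₁ d l : P} (a : P)
    (hd : d ≠ 0) (hl : l ≠ 0) (h : d ^ 2 * b = l ^ 2 * b₁) : NF4Rel a b a b₁ := by
  refine ⟨d * l, mul_ne_zero hd hl, fun A _ _ hu => ?_⟩
  obtain ⟨u, hu1, hu2⟩ := NF4_sq h hu
  rw [hu2]
  have h1 := Q4.BCQ_sc (algebraMap P A a) (algebraMap P A b₁) 1 u isUnit_one hu1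
  rwa [one_pow, one_mul] at h1

private theorem NF4Rel.swap {P : Type} [CommRing P] [IsDomain P] (g a b : P)
    (hg : g ≠ 0) (hga : g - a ≠ 0) : NF4Rel (g * a) (g * b) (g * a) (b * (g - a)) := by
  refine ⟨g * (g - a), mul_ne_zero hg hga, fun A _ _ hu => ?_⟩
  rw [map_mul] at hu
  rw [map_mul, map_mul, map_mul, map_sub]
  refine NF4_QI3 _ _ _ (isUnit_of_mul_isUnit_left hu) ?_
  rw [← map_sub]
  exact isUnit_of_mul_isUnit_right hu

private theorem NF4_nf {R : Type} [CommRing R] [IsDomain R] (a b : R[X]) (ha0 : a ≠ 0)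
    (hb0 : b ≠ 0) : ∃ a₂ b₂ : R[X], a₂ ≠ 0 ∧ b₂ ≠ 0 ∧
      Squarefree (a₂.map (algebraMap R (FractionRing R))) ∧
      Squarefree (b₂.map (algebraMap R (FractionRing R))) ∧
      IsCoprime (a₂.map (algebraMap R (FractionRing R)))
        (b₂.map (algebraMap R (FractionRing R))) ∧ NF4Rel a b a₂ b₂ := by
  classical
  have ha0' : a.map (algebraMap R (FractionRing R)) ≠ 0 := by
    intro h; exact ha0 (NF4_inj (by rw [h, Polynomial.map_zero]))
  have hb0' : b.map (algebraMap R (FractionRing R)) ≠ 0 := by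
    intro h; exact hb0 (NF4_inj (by rw [h, Polynomial.map_zero]))
  obtain ⟨l, a₁, h1, hsq1⟩ := NF4_sqf _ ha0'
  obtain ⟨m, b₁, h2, hsq2⟩ := NF4_sqf _ hb0'
  let _ : GCDMonoid (FractionRing R)[X] := UniqueFactorizationMonoid.toGCDMonoid _
  obtain ⟨a', b', ha', hb', hu⟩ := extract_gcd a₁ b₁
  rw [gcd_isUnit_iff] at hu
  set g := gcd a₁ b₁ with hgdef
  clear_value g
  have ha₁0 : a₁ ≠ 0 := by rintro rfl; exact ha0' (by rw [h1]; ring)
  have hb₁0 : b₁ ≠ 0 := by rintro rfl; exact hb0' (by rw [h2]; ring)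
  have hg0 : g ≠ 0 := by rintro rfl; exact ha₁0 (by rw [ha']; ring)
  have ha'0 : a' ≠ 0 := by rintro rfl; exact ha₁0 (by rw [ha']; ring)
  have hb'0 : b' ≠ 0 := by rintro rfl; exact hb₁0 (by rw [hb']; ring)
  by_cases hga : g = a'
  · -- `a` is a square
    obtain ⟨d, hd, P, hP⟩ := NF4_clear b₁
    have hP2 : (C d * P).map (algebraMap R (FractionRing R)) =
        C (algebraMap R (FractionRing R) d) ^ 2 * b₁ := by
      rw [Polynomial.map_mul, map_C, hP]; ring
    refine ⟨1, C d * P, one_ne_zero, ?_, ?_, ?_, ?_, ?_⟩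
    · intro h0
      rw [h0, Polynomial.map_zero] at hP2
      exact mul_ne_zero (NF4_unit hd).ne_zero hb₁0 hP2.symm
    · rw [Polynomial.map_one]; exact squarefree_one
    · rw [hP2]
      exact (hsq2.squarefree_of_dvd (((NF4_unit hd).mul_left_dvd).2 dvd_rfl))
    · rw [Polynomial.map_one]; exact isCoprime_one_left
    · have h1' : a.map (algebraMap R (FractionRing R)) = (l * g) ^ 2 * 1 := by
        rw [h1, ha', ← hga]; ring
      obtain ⟨d1, k1, hd1, hk1, e1⟩ := NF4_rep a 1 (l * g) 1 1 one_ne_zero (by simp) h1' ha0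
      obtain ⟨d2, k2, hd2, hk2, e2⟩ := NF4_rep b (C d * P) m b₁ d hd hP2 h2 hb0
      exact (NF4Rel.left b hd1 hk1 e1).trans (NF4Rel.right 1 hd2 hk2 e2)
  · have hga0 : g - a' ≠ 0 := sub_ne_zero.2 hga
    obtain ⟨n, b₂, h3, hsq3⟩ := NF4_sqf (b' * (g - a')) (mul_ne_zero hb'0 hga0)
    obtain ⟨dg, hdg, G, hG⟩ := NF4_clear g
    obtain ⟨da, hda, A', hA'⟩ := NF4_clear a'
    obtain ⟨db, hdb, B', hB'⟩ := NF4_clear b'
    obtain ⟨e, he, P, hP⟩ := NF4_clear b₂
    have hsqa : Squarefree (g * a') := by rw [← ha']; exact hsq1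
    have hsqb : Squarefree (g * b') := by rw [← hb']; exact hsq2
    have hco1 : IsCoprime g a' := (IsRelPrime.of_squarefree_mul hsqa).isCoprime
    have hco2 : IsCoprime g b' := (IsRelPrime.of_squarefree_mul hsqb).isCoprime
    have hco3 : IsCoprime g (g - a') := by
      obtain ⟨u, v, huv⟩ := hco1
      exact ⟨u + v, -v, by rw [← huv]; ring⟩
    have hco4 : IsCoprime a' (g - a') := by
      obtain ⟨u, v, huv⟩ := hco1
      exact ⟨u + v, u, by rw [← huv]; ring⟩
    have hco5 : IsCoprime (g * a') (b' * (g - a')) :=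
      (hco2.mul_right hco3).mul_left (hu.mul_right hco4)
    have hco6 : IsCoprime a₁ b₂ := by
      rw [ha']
      rw [h3] at hco5
      exact hco5.of_mul_right_right
    set d := dg * da * db with hd
    have hd0 : d ≠ 0 := mul_ne_zero (mul_ne_zero hdg hda) hdb
    set G1 : R[X] := C (da * db) * G with hG1
    set A1 : R[X] := C (dg * db) * A' with hA1
    set B1 : R[X] := C (dg * da) * B' with hB1
    have eG : G1.map (algebraMap R (FractionRing R)) =
        C (algebraMap R (FractionRing R) d) * g := by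
      simp only [hG1, hd, Polynomial.map_mul, map_C, map_mul, hG]; ring
    have eA : A1.map (algebraMap R (FractionRing R)) =
        C (algebraMap R (FractionRing R) d) * a' := by
      simp only [hA1, hd, Polynomial.map_mul, map_C, map_mul, hA']; ring
    have eB : B1.map (algebraMap R (FractionRing R)) =
        C (algebraMap R (FractionRing R) d) * b' := by
      simp only [hB1, hd, Polynomial.map_mul, map_C, map_mul, hB']; ring
    have eGA : (G1 * A1).map (algebraMap R (FractionRing R)) =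
        C (algebraMap R (FractionRing R) d) ^ 2 * a₁ := by
      rw [Polynomial.map_mul, eG, eA, ha']; ring
    have eGB : (G1 * B1).map (algebraMap R (FractionRing R)) =
        C (algebraMap R (FractionRing R) d) ^ 2 * b₁ := by
      rw [Polynomial.map_mul, eG, eB, hb']; ring
    have eBG : (B1 * (G1 - A1)).map (algebraMap R (FractionRing R)) =
        (C (algebraMap R (FractionRing R) d) * n) ^ 2 * b₂ := by
      rw [Polynomial.map_mul, Polynomial.map_sub, eG, eA, eB, ← mul_sub]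
      calc _ = C (algebraMap R (FractionRing R) d) ^ 2 * (b' * (g - a')) := by ring
        _ = _ := by rw [h3]; ring
    have eP : (C e * P).map (algebraMap R (FractionRing R)) =
        C (algebraMap R (FractionRing R) e) ^ 2 * b₂ := by
      rw [Polynomial.map_mul, map_C, hP]; ring
    have hb₂0 : b₂ ≠ 0 := by
      rintro rfl
      exact mul_ne_zero hb'0 hga0 (by rw [h3]; ring)
    have hdC : (C (algebraMap R (FractionRing R) d) : (FractionRing R)[X]) ≠ 0 := by
      intro h0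
      have := (NF4_unit hd0).ne_zero
      rw [h0] at this
      exact this (by ring)
    have hG1A1 : G1 - A1 ≠ 0 := by
      intro h0
      have : (G1 - A1).map (algebraMap R (FractionRing R)) = 0 := by
        rw [h0, Polynomial.map_zero]
      rw [Polynomial.map_sub, eG, eA, ← mul_sub] at this
      exact mul_ne_zero hdC hga0 this
    have hG10 : G1 ≠ 0 := by
      intro h0
      rw [h0, Polynomial.map_zero] at eG
      exact mul_ne_zero hdC hg0 eG.symm
    have hA10 : A1 ≠ 0 := by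
      intro h0
      rw [h0, Polynomial.map_zero] at eA
      exact mul_ne_zero hdC ha'0 eA.symm
    have hB10 : B1 ≠ 0 := by
      intro h0
      rw [h0, Polynomial.map_zero] at eB
      exact mul_ne_zero hdC hb'0 eB.symm
    refine ⟨G1 * A1, C e * P, mul_ne_zero hG10 hA10, ?_, ?_, ?_, ?_, ?_⟩
    · intro h0
      rw [h0, Polynomial.map_zero] at eP
      exact mul_ne_zero (NF4_unit he).ne_zero hb₂0 eP.symm
    · rw [eGA]
      exact (hsq1.squarefree_of_dvd (((NF4_unit hd0).mul_left_dvd).2 dvd_rfl))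
    · rw [eP]
      exact (hsq3.squarefree_of_dvd (((NF4_unit he).mul_left_dvd).2 dvd_rfl))
    · rw [eGA, eP, isCoprime_mul_unit_left_left (NF4_unit hd0),
        isCoprime_mul_unit_left_right (NF4_unit he)]
      exact hco6
    · obtain ⟨d1, k1, hd1, hk1, e1⟩ := NF4_rep a (G1 * A1) l a₁ d hd0 eGA h1 ha0
      obtain ⟨d2, k2, hd2, hk2, e2⟩ := NF4_rep b (G1 * B1) m b₁ d hd0 eGB h2 hb0
      obtain ⟨d3, k3, hd3, hk3, e3⟩ := NF4_rep (B1 * (G1 - A1)) (C e * P) _ b₂ e he eP eBG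
        (mul_ne_zero hB10 hG1A1)
      exact (((NF4Rel.left b hd1 hk1 e1).trans (NF4Rel.right (G1 * A1) hd2 hk2 e2)).trans
        (NF4Rel.swap G1 A1 B1 hG10 hG1A1)).trans (NF4Rel.right (G1 * A1) hd3 hk3 e3)

/-- the eight factors over a principal ideal domain -/
private theorem NF4_split {M : Type} [CommRing M] [IsDomain M] [IsPrincipalIdealRing M]
    (α β γ δ : M) (hα : Squarefree α) (hβ : Squarefree β) (hγ : Squarefree γ)
    (hδ : Squarefree δ) (hαβ : IsCoprime α β) (hγδ : IsCoprime γ δ) :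
    ∃ p : Fin 8 → M, α = ga p ∧ β = gb p ∧ γ = gc p ∧ δ = gd p ∧ (∀ i, Squarefree (p i)) ∧
      ∀ i j, i ≠ j → IsCoprime (p i) (p j) := by
  classical
  let _ : GCDMonoid M := UniqueFactorizationMonoid.toGCDMonoid _
  obtain ⟨α₁, γ₁, h1, h2, hu1⟩ := extract_gcd α γ
  set P1 := gcd α γ
  clear_value P1
  obtain ⟨A, δ₁, h3, h4, hu2⟩ := extract_gcd α₁ δ
  set P2 := gcd α₁ δ
  clear_value P2
  obtain ⟨β₁, C, h5, h6, hu3⟩ := extract_gcd β γ₁
  set P3 := gcd β γ₁
  clear_value P3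
  obtain ⟨B, D, h7, h8, hu4⟩ := extract_gcd β₁ δ₁
  set P4 := gcd β₁ δ₁
  clear_value P4
  rw [gcd_isUnit_iff] at hu1 hu2 hu3 hu4
  have eα : α = A * P1 * P2 := by rw [h1, h3]; ring
  have eβ : β = B * P3 * P4 := by rw [h5, h7]; ring
  have eγ : γ = C * P1 * P3 := by rw [h2, h6]; ring
  have eδ : δ = D * P2 * P4 := by rw [h4, h8]; ring
  have sub3 : ∀ x y z : M, Squarefree (x * y * z) →
      (Squarefree x ∧ Squarefree y ∧ Squarefree z) ∧
      (IsCoprime x y ∧ IsCoprime x z ∧ IsCoprime y z) := by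
    intro x y z h
    have hxy := h.of_mul_left
    have c1 : IsCoprime (x * y) z := (IsRelPrime.of_squarefree_mul h).isCoprime
    have c2 : IsCoprime x y := (IsRelPrime.of_squarefree_mul hxy).isCoprime
    exact ⟨⟨hxy.of_mul_left, hxy.of_mul_right, h.of_mul_right⟩, c2, c1.of_mul_left_left,
      c1.of_mul_left_right⟩
  have cop3 : ∀ x y z x' y' z' : M, IsCoprime (x * y * z) (x' * y' * z') →
      (IsCoprime x x' ∧ IsCoprime x y' ∧ IsCoprime x z') ∧
      (IsCoprime y x' ∧ IsCoprime y y' ∧ IsCoprime y z') ∧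
      (IsCoprime z x' ∧ IsCoprime z y' ∧ IsCoprime z z') := by
    intro x y z x' y' z' h
    have hz := h.of_mul_left_right
    have hxy := h.of_mul_left_left
    have hx := hxy.of_mul_left_left
    have hy := hxy.of_mul_left_right
    exact ⟨⟨hx.of_mul_right_left.of_mul_right_left, hx.of_mul_right_left.of_mul_right_right,
      hx.of_mul_right_right⟩, ⟨hy.of_mul_right_left.of_mul_right_left,
      hy.of_mul_right_left.of_mul_right_right, hy.of_mul_right_right⟩,
      ⟨hz.of_mul_right_left.of_mul_right_left, hz.of_mul_right_left.of_mul_right_right,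
      hz.of_mul_right_right⟩⟩
  obtain ⟨⟨sA, sP1, sP2⟩, k1, k2, k3⟩ := sub3 _ _ _ (eα ▸ hα)
  obtain ⟨⟨sB, sP3, sP4⟩, k4, k5, k6⟩ := sub3 _ _ _ (eβ ▸ hβ)
  obtain ⟨⟨sC, -, -⟩, k7, k8, k9⟩ := sub3 _ _ _ (eγ ▸ hγ)
  obtain ⟨⟨sD, -, -⟩, k10, k11, k12⟩ := sub3 _ _ _ (eδ ▸ hδ)
  obtain ⟨⟨l1, l2, l3⟩, ⟨l4, l5, l6⟩, ⟨l7, l8, l9⟩⟩ := cop3 _ _ _ _ _ _ (eα ▸ eβ ▸ hαβ)
  obtain ⟨⟨m1, m2, m3⟩, ⟨m4, m5, m6⟩, ⟨m7, m8, m9⟩⟩ := cop3 _ _ _ _ _ _ (eγ ▸ eδ ▸ hγδ)
  have n1 : IsCoprime A C := by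
    rw [h3, h6] at hu1
    exact hu1.of_mul_left_right.of_mul_right_right
  have n2 : IsCoprime A D := by
    rw [h8] at hu2
    exact hu2.of_mul_right_right
  have n3 : IsCoprime B C := by
    rw [h7] at hu3
    exact hu3.of_mul_left_right
  refine ⟨![A, B, C, D, P1, P2, P3, P4], eα, eβ, eγ, eδ, ?_, ?_⟩
  · intro i
    fin_cases i <;> assumption
  · intro i j hij
    fin_cases i <;> fin_cases j <;> first | exact absurd rfl hij | assumption | (apply IsCoprime.symm; assumption)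

/-- clearing the denominators: `a₂ ρ² = A P Q` -/
private theorem NF4_clr {R : Type} [CommRing R] [IsDomain R] (a₂ P Q : R[X])
    (A p q : (FractionRing R)[X]) (e f : R) (he : e ≠ 0) (hf : f ≠ 0)
    (hP : P.map (algebraMap R (FractionRing R)) = C (algebraMap R (FractionRing R) e) * p)
    (hQ : Q.map (algebraMap R (FractionRing R)) = C (algebraMap R (FractionRing R) f) * q)
    (h : a₂.map (algebraMap R (FractionRing R)) = A * p * q) :
    ∃ A' : R[X], ∃ c d : R, c ≠ 0 ∧ d ≠ 0 ∧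
      A'.map (algebraMap R (FractionRing R)) = C (algebraMap R (FractionRing R) c) * A ∧
      C d ^ 2 * a₂ = A' * P * Q := by
  obtain ⟨d0, hd0, A0, hA0⟩ := NF4_clear A
  refine ⟨C (e * f * d0) * A0, e * f * d0 * d0, e * f * d0,
    mul_ne_zero (mul_ne_zero (mul_ne_zero he hf) hd0) hd0,
    mul_ne_zero (mul_ne_zero he hf) hd0, ?_, ?_⟩
  · rw [Polynomial.map_mul, map_C, hA0]
    simp only [map_mul]
    ring
  · apply NF4_inj
    simp only [Polynomial.map_mul, Polynomial.map_pow, map_C, hA0, hP, hQ, h, map_mul]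
    ring

theorem NF4 {R : Type} [CommRing R] [IsDomain R] (a b c d : R[X]) (ha : a ≠ 0) (hb : b ≠ 0)
    (hc : c ≠ 0) (hd : d ≠ 0) :
    ∃ G : Fin 8 → R[X], (∀ i, G i ≠ 0) ∧
      (∀ i, Squarefree ((G i).map (algebraMap R (FractionRing R)))) ∧
      (∀ i j, i ≠ j → IsCoprime ((G i).map (algebraMap R (FractionRing R)))
        ((G j).map (algebraMap R (FractionRing R)))) ∧
      ∃ s : R[X], s ≠ 0 ∧ ∀ (A : Type) [CommRing A] [Algebra R[X] A], IsUnit (algebraMap R[X] A s) →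
        Nonempty (BQ A (algebraMap R[X] A a) (algebraMap R[X] A b) (algebraMap R[X] A c)
            (algebraMap R[X] A d) ≃ₐ[A]
          BQ A (algebraMap R[X] A (ga G)) (algebraMap R[X] A (gb G)) (algebraMap R[X] A (gc G))
            (algebraMap R[X] A (gd G))) := by
  obtain ⟨a₂, b₂, ha₂, hb₂, hsa, hsb, hab, hr1⟩ := NF4_nf a b ha hb
  obtain ⟨c₂, d₂, hc₂, hd₂, hsc, hsd, hcd, hr2⟩ := NF4_nf c d hc hd
  obtain ⟨p, ea, eb, ec, ed, hsq, hco⟩ := NF4_split _ _ _ _ hsa hsb hsc hsd hab hcd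
  obtain ⟨e4, he4, P4, hP4⟩ := NF4_clear (p 4)
  obtain ⟨e5, he5, P5, hP5⟩ := NF4_clear (p 5)
  obtain ⟨e6, he6, P6, hP6⟩ := NF4_clear (p 6)
  obtain ⟨e7, he7, P7, hP7⟩ := NF4_clear (p 7)
  obtain ⟨P0, e0, f0, he0, hf0, hP0, k0⟩ := NF4_clr a₂ P4 P5 (p 0) (p 4) (p 5) e4 e5 he4 he5
    hP4 hP5 ea
  obtain ⟨P1, e1, f1, he1, hf1, hP1, k1⟩ := NF4_clr b₂ P6 P7 (p 1) (p 6) (p 7) e6 e7 he6 he7
    hP6 hP7 eb
  obtain ⟨P2, e2, f2, he2, hf2, hP2, k2⟩ := NF4_clr c₂ P4 P6 (p 2) (p 4) (p 6) e4 e6 he4 he6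
    hP4 hP6 ec
  obtain ⟨P3, e3, f3, he3, hf3, hP3, k3⟩ := NF4_clr d₂ P5 P7 (p 3) (p 5) (p 7) e5 e7 he5 he7
    hP5 hP7 ed
  have hG : ∀ i, ∃ e : R, e ≠ 0 ∧ (![P0, P1, P2, P3, P4, P5, P6, P7] i).map
      (algebraMap R (FractionRing R)) = C (algebraMap R (FractionRing R) e) * p i := by
    intro i
    fin_cases i
    · exact ⟨e0, he0, hP0⟩
    · exact ⟨e1, he1, hP1⟩
    · exact ⟨e2, he2, hP2⟩
    · exact ⟨e3, he3, hP3⟩
    · exact ⟨e4, he4, hP4⟩
    · exact ⟨e5, he5, hP5⟩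
    · exact ⟨e6, he6, hP6⟩
    · exact ⟨e7, he7, hP7⟩
  have hCu : ∀ e : R, e ≠ 0 →
      IsUnit (C (algebraMap R (FractionRing R) e) : (FractionRing R)[X]) := by
    intro e he
    rw [isUnit_C]
    apply IsUnit.mk0
    rw [Ne, map_eq_zero_iff _ (IsFractionRing.injective R (FractionRing R))]
    exact he
  have hrel1 : NF4Rel a b (ga ![P0, P1, P2, P3, P4, P5, P6, P7])
      (gb ![P0, P1, P2, P3, P4, P5, P6, P7]) := by
    refine hr1.trans ((NF4Rel.left b₂ (d := C f0) (l := 1) ?_ one_ne_zero ?_).trans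
      (NF4Rel.right _ (d := C f1) (l := 1) ?_ one_ne_zero ?_))
    · rw [Ne, C_eq_zero]; exact hf0
    · rw [one_pow, one_mul]; exact k0
    · rw [Ne, C_eq_zero]; exact hf1
    · rw [one_pow, one_mul]; exact k1
  have hrel2 : NF4Rel c d (gc ![P0, P1, P2, P3, P4, P5, P6, P7])
      (gd ![P0, P1, P2, P3, P4, P5, P6, P7]) := by
    refine hr2.trans ((NF4Rel.left d₂ (d := C f2) (l := 1) ?_ one_ne_zero ?_).trans
      (NF4Rel.right _ (d := C f3) (l := 1) ?_ one_ne_zero ?_))
    · rw [Ne, C_eq_zero]; exact hf2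
    · rw [one_pow, one_mul]; exact k2
    · rw [Ne, C_eq_zero]; exact hf3
    · rw [one_pow, one_mul]; exact k3
  obtain ⟨s1, hs1, hr1'⟩ := hrel1
  obtain ⟨s2, hs2, hr2'⟩ := hrel2
  have hsqG : ∀ i, Squarefree ((![P0, P1, P2, P3, P4, P5, P6, P7] i).map
      (algebraMap R (FractionRing R))) := by
    intro i
    obtain ⟨e, he, h⟩ := hG i
    rw [h]
    exact (hsq i).squarefree_of_dvd (((hCu e he).mul_left_dvd).2 dvd_rfl)
  refine ⟨![P0, P1, P2, P3, P4, P5, P6, P7], ?_, hsqG, ?_, s1 * s2, mul_ne_zero hs1 hs2, ?_⟩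
  · intro i h0
    have := (hsqG i).ne_zero
    rw [h0, Polynomial.map_zero] at this
    exact this rfl
  · intro i j hij
    obtain ⟨e, he, h⟩ := hG i
    obtain ⟨e', he', h'⟩ := hG j
    rw [h, h', isCoprime_mul_unit_left_left (hCu e he), isCoprime_mul_unit_left_right (hCu e' he')]
    exact hco i j hij
  · intro A _ _ hu
    rw [map_mul] at hu
    obtain ⟨E1⟩ := hr1' A (isUnit_of_mul_isUnit_left hu)
    obtain ⟨E2⟩ := hr2' A (isUnit_of_mul_isUnit_right hu)
    exact ⟨Algebra.TensorProduct.congr E1 E2⟩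

end Pool.Agent.QTB
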