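import Pool.Agent.QTB.Defs

/-!
# QTB, module NTg: reduction to torsion modules, general orders

Proof (compare QCB/NT.lean and the docstring of QTB/FORM1.lean, with `q = 0`). The rank of a `Λ`-module over `A` (dimension of
`N ⊗ Frac A`). Choose `z ≠ 0` with `rank (Λ z) = r` least (`r > 0`: `Λ` is free), `T = Λ z`, `t₀ = ψ(T)`. Let `N` be finitely
generated; divide by the torsion submodule (value in `H`). If `N ≠ 0` is torsion free then `z n ≠ 0` for some `n`
(`Sim A Λ 0`: otherwise some `s ≠ 0` kills `N`); `T → N`, `y z ↦ y z n` is injective: if `y z n = 0`, `y z ≠ 0`, then `Λ y z ⊆ Λ z` has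
the same rank, so `s z ∈ Λ y z` for some `s ≠ 0` and `s z n = 0`, a contradiction. Induct on the rank of `N`.
-/

set_option autoImplicit false

namespace Pool.Agent.QTB

open Pool.Agent.QCB

/-- embeddings of a fixed left ideal -/
private theorem NTg_key {A Λ : Type} [CommRing A] [IsDomain A] [IsNoetherianRing A] [Ring Λ]
    [Algebra A Λ] [Module.Finite A Λ] [Nontrivial Λ] (hsim : Sim A Λ 0) :
    ∃ z : Λ, ∀ (M : Type) [AddCommGroup M] [Module Λ M],
      (∀ (s : A) (m : M), s ≠ 0 → algebraMap A Λ s • m = 0 → m = 0) →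
      (∃ m : M, m ≠ 0) → ∃ n : M, z • n ≠ 0 ∧ ∀ y : Λ, (y * z) • n = 0 → y * z = 0 := by
  classical
  set R : Λ → Submodule A Λ := fun z => LinearMap.range (LinearMap.mulRight A z) with hR
  have hex : ∃ r : ℕ, ∃ z : Λ, z ≠ 0 ∧ Module.finrank A (R z) = r := ⟨_, 1, one_ne_zero, rfl⟩
  obtain ⟨z, hz0, hzr⟩ := Nat.find_spec hex
  have hmin : ∀ w : Λ, w ≠ 0 → Module.finrank A (R z) ≤ Module.finrank A (R w) := by
    intro w hw
    rw [hzr]
    exact Nat.find_min' hex ⟨w, hw, rfl⟩
  refine ⟨z, fun M _ _ ht hM => ?_⟩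
  obtain ⟨m, hm⟩ := hM
  obtain ⟨n, hn⟩ : ∃ n : M, z • n ≠ 0 := by
    by_contra hcon
    push Not at hcon
    obtain ⟨s, hs, hk⟩ := hsim z (by
      rintro ⟨w, hw⟩
      rw [map_zero, zero_mul] at hw
      exact hz0 hw) M hcon
    rw [zero_dvd_iff] at hs
    exact hm (ht s m hs (hk m))
  refine ⟨n, hn, fun y hy => ?_⟩
  by_contra hy0
  -- the ranks of `Λ y z` and `Λ z` are equal
  have hle : R (y * z) ≤ R z := by
    rintro _ ⟨x, rfl⟩
    exact ⟨x * y, by simp [mul_assoc]⟩
  have hfin : IsNoetherian A Λ := inferInstance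
  have e1 : Module.finrank A ((R (y * z)).submoduleOf (R z)) = Module.finrank A (R (y * z)) :=
    (Submodule.submoduleOfEquivOfLe hle).finrank_eq
  have e2 := Submodule.finrank_quotient_add_finrank ((R (y * z)).submoduleOf (R z))
  have e3 : Module.finrank A (R z ⧸ (R (y * z)).submoduleOf (R z)) = 0 := by
    have := hmin _ hy0
    omega
  rw [Module.finrank_eq_zero_iff_isTorsion] at e3
  have hzm : z ∈ R z := ⟨1, by simp⟩
  obtain ⟨s, hs⟩ := @e3 (Submodule.Quotient.mk ⟨z, hzm⟩)
  have hs0 : (s : A) ≠ 0 := nonZeroDivisors.ne_zero s.2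
  have hs1 : (s : A) • z ∈ R (y * z) := by
    have h5 : Submodule.Quotient.mk (p := (R (y * z)).submoduleOf (R z))
        ((s : A) • (⟨z, hzm⟩ : R z)) = 0 := hs
    rw [Submodule.Quotient.mk_eq_zero] at h5
    exact h5
  obtain ⟨x, hx⟩ := hs1
  apply hn
  apply ht _ _ hs0
  have hx' : x * (y * z) = algebraMap A Λ s * z := by
    rw [← Algebra.smul_def]
    exact hx
  rw [← mul_smul, ← hx', mul_smul, hy, smul_zero]

theorem NTg {A Λ : Type} [CommRing A] [IsDomain A] [IsNoetherianRing A] [Ring Λ] [Algebra A Λ]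
    [Module.Finite A Λ] [Module.Free A Λ] [Nontrivial Λ] (hsim : Sim A Λ 0) {Γ : Type 1}
    [AddCommGroup Γ] (ψ : NAdd Λ Γ) :
    ∃ t₀ : Γ, ∀ H : AddSubgroup Γ, t₀ ∈ H →
      (∀ (N : Type) [AddCommGroup N] [Module Λ N] [Module.Finite Λ N],
        (∃ s : A, s ≠ 0 ∧ Kil s N (Λ := Λ)) → ψ.val N ∈ H) →
      ∀ (N : Type) [AddCommGroup N] [Module Λ N] [Module.Finite Λ N], ψ.val N ∈ H := by
  obtain ⟨z, hz⟩ := NTg_key hsim
  set T : Submodule Λ Λ :=
    LinearMap.range (LinearMap.toSpanSingleton Λ Λ z) with hT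
  refine ⟨ψ.val T, fun H hH htors N _ _ _ => ?_⟩
  have hnoeth : IsNoetherianRing Λ := by
    have h1 : IsNoetherian A Λ := inferInstance
    exact isNoetherian_of_tower A h1
  have hN : IsNoetherian Λ N := isNoetherian_of_isNoetherianRing_of_finite _ _
  -- extensions
  have hex : ∀ (K : Submodule Λ N) (L : Type) [AddCommGroup L] [Module Λ L]
      [Module.Finite Λ L] (f : L →ₗ[Λ] (N ⧸ K)), Function.Injective f →
      (∃ x, f x ≠ 0) → ψ.val L ∈ H →
      (∀ K' > K, ψ.val (N ⧸ K') ∈ H) → ψ.val (N ⧸ K) ∈ H := by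
    intro K L _ _ _ f hf hx hL hK
    set K' : Submodule Λ N := (LinearMap.range f).comap K.mkQ with hK'
    have hle : K ≤ K' := by
      intro k hk
      rw [hK', Submodule.mem_comap]
      have : K.mkQ k = 0 := (Submodule.Quotient.mk_eq_zero K).2 hk
      rw [this]
      exact zero_mem _
    have hlt : K < K' := by
      refine lt_of_le_of_ne hle fun h => ?_
      obtain ⟨x, hx⟩ := hx
      obtain ⟨k, hk⟩ := Submodule.mkQ_surjective K (f x)
      have h1 : k ∈ K' := by
        rw [hK', Submodule.mem_comap, hk]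
        exact ⟨x, rfl⟩
      rw [← h] at h1
      rw [← hk] at hx
      exact hx ((Submodule.Quotient.mk_eq_zero K).2 h1)
    have h3 := ψ.add L (N ⧸ K) (N ⧸ K') f (Submodule.factor hle) hf
      (Submodule.factor_surjective hle) (by
        intro y
        obtain ⟨k, rfl⟩ := Submodule.mkQ_surjective K y
        have h4 : Submodule.factor hle (K.mkQ k) = K'.mkQ k := rfl
        rw [h4, Submodule.mkQ_apply, Submodule.Quotient.mk_eq_zero, hK', Submodule.mem_comap]
        rfl)
    rw [h3]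
    exact add_mem hL (hK K' hlt)
  -- the induction
  have hall : ∀ K : Submodule Λ N, ψ.val (N ⧸ K) ∈ H := by
    intro K
    induction K using IsNoetherian.induction with
    | hgt K ih =>
      by_cases h0 : ∃ m : N ⧸ K, m ≠ 0
      · by_cases h1 : ∃ (s : A) (m : N ⧸ K), s ≠ 0 ∧ m ≠ 0 ∧ algebraMap A Λ s • m = 0
        · obtain ⟨s, m, hs, hm, hsm⟩ := h1
          refine hex K (LinearMap.range (LinearMap.toSpanSingleton Λ (N ⧸ K) m))
            (Submodule.subtype _) (Submodule.injective_subtype _) ⟨⟨m, ⟨1, one_smul _ _⟩⟩, hm⟩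
            (htors _ ⟨s, hs, ?_⟩) ih
          rintro ⟨_, ⟨x, rfl⟩⟩
          refine Subtype.ext ?_
          show algebraMap A Λ s • (x • m) = 0
          rw [← mul_smul, Algebra.commutes, mul_smul, hsm, smul_zero]
        · push Not at h1
          obtain ⟨n, hn, hy⟩ := hz (N ⧸ K) (fun s m hs hsm => by
            by_contra hm
            exact h1 s m hs hm hsm) h0
          refine hex K T ((LinearMap.toSpanSingleton Λ (N ⧸ K) n).comp T.subtype) ?_
            ⟨⟨z, ⟨1, one_smul _ _⟩⟩, hn⟩ hH ih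
          rw [injective_iff_map_eq_zero]
          rintro ⟨_, ⟨y, rfl⟩⟩ hx
          exact Subtype.ext (hy y hx)
      · push Not at h0
        refine htors _ ⟨1, one_ne_zero, fun m => ?_⟩
        rw [h0 m, smul_zero]
  have h3 := ψ.add PUnit (N ⧸ (⊥ : Submodule Λ N)) N 0
    (Submodule.quotEquivOfEqBot ⊥ rfl).toLinearMap (fun x y _ => Subsingleton.elim x y)
    (Submodule.quotEquivOfEqBot ⊥ rfl).surjective (by
      intro y
      constructor
      · intro h
        exact ⟨0, ((Submodule.quotEquivOfEqBot ⊥ rfl).map_eq_zero_iff.1 h).symm⟩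
      · rintro ⟨x, rfl⟩
        exact map_zero _)
  have h4 : ψ.val PUnit = 0 := by
    have h5 := ψ.add PUnit PUnit PUnit 0 0 (fun x y _ => Subsingleton.elim x y)
      (fun x => ⟨0, Subsingleton.elim _ _⟩)
      (fun x => ⟨fun _ => ⟨x, rfl⟩, fun _ => Subsingleton.elim _ _⟩)
    exact left_eq_add.1 h5
  rw [h4, zero_add] at h3
  rw [← h3]
  exact hall ⊥

end Pool.Agent.QTB
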