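import Pool.Agent.QTB.Defs

/-!
# QTB, module PAR: parity

The statement and the proof: see `PAR` below. `D` is a local noetherian domain of dimension one with finite residue field `κ`,
`q = |κ|`. All finite modules are finite sets, and the cardinality is `q ^ length` (`PAR_len`). A `D`-submodule `T` of `E ^ 4`,
finitely generated, containing the standard basis and stable under `I, J, K, L` exists (`PAR_lattice`); `[T : a T] = |D / a| ^ 4`,
`[T : a T] = [T : I T] ^ 2`, and `[T : I T]` is a power of `q ^ 4` (`PAR_pow`, by Nakayama and linear algebra over `κ`, `PAR_lin`).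
-/

set_option autoImplicit false

namespace Pool.Agent.QTB

open Function

/-! ### cardinalities -/

private theorem PAR_len {D : Type} [CommRing D] [IsLocalRing D] {M : Type} [AddCommGroup M]
    [Module D M] (h : IsFiniteLength D M) :
    ∃ n : ℕ, Module.length D M = n ∧
      Nat.card M = Nat.card (D ⧸ IsLocalRing.maximalIdeal D) ^ n := by
  induction h with
  | of_subsingleton =>
    refine ⟨0, ?_, ?_⟩
    · rw [Module.length_eq_zero]
      rfl
    · rw [pow_zero]
      exact Nat.card_unique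
  | @of_simple_quotient M _ _ N hs _ ih =>
    obtain ⟨n, h1, h2⟩ := ih
    refine ⟨n + 1, ?_, ?_⟩
    · rw [Module.length_eq_add_of_exact N.subtype N.mkQ N.subtype_injective N.mkQ_surjective
        (LinearMap.exact_subtype_mkQ N), h1, Module.length_eq_one]
      rfl
    · obtain ⟨P, hP, ⟨e⟩⟩ := isSimpleModule_iff_quot_maximal.1 hs
      have h3 : P = IsLocalRing.maximalIdeal D := IsLocalRing.eq_maximalIdeal hP
      subst h3
      rw [Submodule.card_eq_card_quotient_mul_card N, h2, pow_succ, Nat.card_congr e.toEquiv]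

/-! ### linear algebra over the residue field -/

private theorem PAR_lin {κ : Type} [Field κ] [Finite κ] (h2 : (2 : κ) ≠ 0) (b c d : κ)
    (hb : ∀ β : κ, b ≠ β ^ 2) (hc : c ≠ 0) (hd : d ≠ 0) (N : Type) [AddCommGroup N] [Module κ N]
    [Module.Finite κ N] (J K L : N →ₗ[κ] N) (hJ : ∀ x, J (J x) = b • x)
    (hK : ∀ x, K (K x) = c • x) (hL : ∀ x, L (L x) = d • x) (hKL : ∀ x, K (L x) = -L (K x))
    (hJK : ∀ x, J (K x) = K (J x)) (hJL : ∀ x, J (L x) = L (J x)) :
    ∃ k : ℕ, Module.finrank κ N = 4 * k := by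
  classical
  have hb0 : b ≠ 0 := by
    intro h
    exact hb 0 (by rw [h, zero_pow two_ne_zero])
  -- a solution of `c x ^ 2 + d y ^ 2 = 1`
  obtain ⟨x, y, hxy⟩ : ∃ x y : κ, c * x ^ 2 + d * y ^ 2 = 1 := by
    cases nonempty_fintype κ
    have hodd : Fintype.card κ % 2 = 1 := by
      refine FiniteField.odd_card_of_char_ne_two ?_
      intro h
      apply h2
      have h3 : ((ringChar κ : ℕ) : κ) = 0 := ringChar.Nat.cast_ringChar
      rw [h] at h3
      exact_mod_cast h3
    have hf : ∀ u v : κ, u ≠ 0 → (Polynomial.C u * Polynomial.X ^ 2 +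
        Polynomial.C v : Polynomial κ).degree = 2 := by
      intro u v hu
      have h3 : (Polynomial.C v : Polynomial κ).degree <
          (Polynomial.C u * Polynomial.X ^ 2 : Polynomial κ).degree := by
        rw [Polynomial.degree_C_mul_X_pow 2 hu]
        exact lt_of_le_of_lt Polynomial.degree_C_le (by norm_num)
      rw [Polynomial.degree_add_eq_left_of_degree_lt h3, Polynomial.degree_C_mul_X_pow 2 hu]
      rfl
    obtain ⟨x, y, hxy⟩ := FiniteField.exists_root_sum_quadratic (hf c (-1) hc) (hf d 0 hd) hodd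
    refine ⟨x, y, ?_⟩
    simp only [Polynomial.eval_add, Polynomial.eval_mul, Polynomial.eval_C, Polynomial.eval_pow,
      Polynomial.eval_X] at hxy
    linear_combination hxy
  -- the involution
  obtain ⟨U, hUdef⟩ : ∃ U : N →ₗ[κ] N, U = x • K + y • L := ⟨_, rfl⟩
  have hUa : ∀ v, U v = x • K v + y • L v := fun v => by rw [hUdef]; rfl
  have hU : ∀ v, U (U v) = v := by
    intro v
    rw [hUa (U v), hUa v]
    simp only [map_add, map_smul, hK, hL, hKL]
    have h3 : (c * x ^ 2 + d * y ^ 2) • v = v := by rw [hxy, one_smul]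
    rw [add_smul] at h3
    conv_rhs => rw [← h3]
    module
  have hJU : ∀ v, J (U v) = U (J v) := by
    intro v
    rw [hUa, hUa]
    simp only [map_add, map_smul, hJK, hJL]
  -- the operator which exchanges the eigenspaces
  obtain ⟨W, hWdef⟩ : ∃ W : N →ₗ[κ] N, W = (y * d) • K - (x * c) • L := ⟨_, rfl⟩
  have hWa : ∀ v, W v = (y * d) • K v - (x * c) • L v := fun v => by rw [hWdef]; rfl
  have hWU : ∀ v, W (U v) = K (L v) := by
    intro v
    rw [hWa (U v), hUa v]
    simp only [map_add, map_smul, hK, hL]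
    have h3 : L (K v) = -K (L v) := by rw [hKL, neg_neg]
    have h4 : (c * x ^ 2 + d * y ^ 2) • K (L v) = K (L v) := by rw [hxy, one_smul]
    rw [add_smul] at h4
    rw [h3]
    conv_rhs => rw [← h4]
    module
  have hUW : ∀ v, U (W v) = -K (L v) := by
    intro v
    rw [hUa (W v), hWa v]
    simp only [map_sub, map_smul, hK, hL]
    have h3 : L (K v) = -K (L v) := by rw [hKL, neg_neg]
    have h4 : (c * x ^ 2 + d * y ^ 2) • K (L v) = K (L v) := by rw [hxy, one_smul]
    rw [add_smul] at h4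
    rw [h3]
    conv_rhs => rw [← h4]
    module
  have hUWneg : ∀ v, U (W v) = -W (U v) := fun v => by rw [hUW, hWU]
  have hWinj : ∀ v, W v = 0 → v = 0 := by
    intro v hv
    have h3 : K (L v) = 0 := by
      have h4 := hUW v
      rw [hv, map_zero] at h4
      rw [← neg_eq_zero, ← h4]
    have h4 : L v = 0 := by
      have h5 := hK (L v)
      rw [h3, map_zero] at h5
      exact (smul_eq_zero.1 h5.symm).resolve_left hc
    have h5 := hL v
    rw [h4, map_zero] at h5
    exact (smul_eq_zero.1 h5.symm).resolve_left hd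
  -- the eigenspaces
  obtain ⟨P, hP⟩ : ∃ P : Submodule κ N, ∀ v, v ∈ P ↔ U v = v :=
    ⟨LinearMap.ker (U - LinearMap.id), fun v => by
      rw [LinearMap.mem_ker, LinearMap.sub_apply, LinearMap.id_apply, sub_eq_zero]⟩
  obtain ⟨Q, hQ⟩ : ∃ Q : Submodule κ N, ∀ v, v ∈ Q ↔ U v = -v :=
    ⟨LinearMap.ker (U + LinearMap.id), fun v => by
      rw [LinearMap.mem_ker, LinearMap.add_apply, LinearMap.id_apply, add_eq_zero_iff_eq_neg]⟩
  have hcompl : IsCompl P Q := by
    constructor
    · rw [Submodule.disjoint_def]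
      intro v h3 h4
      rw [hP] at h3
      rw [hQ, h3] at h4
      have h5 : (2 : κ) • v = 0 := by
        rw [two_smul]
        nth_rewrite 2 [h4]
        exact add_neg_cancel v
      exact (smul_eq_zero.1 h5).resolve_left h2
    · rw [codisjoint_iff, eq_top_iff]
      intro v _
      have h3 : v = (2 : κ)⁻¹ • (v + U v) + (2 : κ)⁻¹ • (v - U v) := by
        rw [← smul_add]
        have h4 : v + U v + (v - U v) = (2 : κ) • v := by
          rw [two_smul]
          abel
        rw [h4, inv_smul_smul₀ h2]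
      rw [h3]
      refine Submodule.add_mem_sup (P.smul_mem _ ?_) (Q.smul_mem _ ?_)
      · rw [hP, map_add, hU, add_comm]
      · rw [hQ, map_sub, hU, neg_sub]
  have hPQ : ∀ v : P, W v ∈ Q := fun v => by
    rw [hQ, hUWneg, (hP _).1 v.2]
  have hQP : ∀ v : Q, W v ∈ P := fun v => by
    rw [hP, hUWneg, (hQ _).1 v.2, map_neg, neg_neg]
  have h3 : Module.finrank κ P ≤ Module.finrank κ Q := by
    refine LinearMap.finrank_le_finrank_of_injective (f := (W.domRestrict P).codRestrict Q hPQ) ?_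
    rw [injective_iff_map_eq_zero]
    intro v hv
    exact Subtype.ext (hWinj _ (congrArg Subtype.val hv))
  have h4 : Module.finrank κ Q ≤ Module.finrank κ P := by
    refine LinearMap.finrank_le_finrank_of_injective (f := (W.domRestrict Q).codRestrict P hQP) ?_
    rw [injective_iff_map_eq_zero]
    intro v hv
    exact Subtype.ext (hWinj _ (congrArg Subtype.val hv))
  have h5 : Module.finrank κ P + Module.finrank κ Q = Module.finrank κ N :=
    Submodule.finrank_add_eq_of_isCompl hcompl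
  -- the dimension of `P` is even
  have hJP : ∀ v ∈ P, J v ∈ P := fun v hv => by
    rw [hP, ← hJU, (hP v).1 hv]
  have h6 : (J.restrict hJP) ∘ₗ (J.restrict hJP) = b • LinearMap.id := by
    refine LinearMap.ext fun v => Subtype.ext ?_
    exact hJ v
  have h7 : LinearMap.det (J.restrict hJP) * LinearMap.det (J.restrict hJP) =
      b ^ Module.finrank κ P := by
    rw [← LinearMap.det_comp, h6, LinearMap.det_smul, LinearMap.det_id, mul_one]
  have h8 : Even (Module.finrank κ P) := by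
    rw [← Nat.not_odd_iff_even]
    rintro ⟨t, ht⟩
    apply hb (LinearMap.det (J.restrict hJP) / b ^ t)
    rw [div_pow, pow_two, h7, ht, ← pow_mul, pow_succ, mul_comm t 2]
    field_simp
  obtain ⟨t, ht⟩ := h8
  refine ⟨t, ?_⟩
  omega

/-! ### subquotients -/

section pow

variable {D : Type} [CommRing D] [IsLocalRing D] {M : Type} [AddCommGroup M] [Module D M]

omit [IsLocalRing D] in
/-- the index of submodules is the cardinality of the quotient module -/
private theorem PAR_card (A B : Submodule D M) : A.toAddSubgroup.relIndex B.toAddSubgroup =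
    Nat.card (B ⧸ A.submoduleOf B) := by
  have h1 := AddSubgroup.index_ker ((A.submoduleOf B).mkQ.toAddMonoidHom)
  have h2 : ((A.submoduleOf B).mkQ.toAddMonoidHom).range = ⊤ := by
    rw [AddMonoidHom.range_eq_top]
    exact (A.submoduleOf B).mkQ_surjective
  have h3 : ((A.submoduleOf B).mkQ.toAddMonoidHom).ker = A.toAddSubgroup.addSubgroupOf
      B.toAddSubgroup := by
    ext x
    show (A.submoduleOf B).mkQ x = 0 ↔ (x : M) ∈ A
    rw [Submodule.mkQ_apply, Submodule.Quotient.mk_eq_zero]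
    rfl
  rw [h2, h3] at h1
  rw [AddSubgroup.relIndex, h1]
  exact Nat.card_congr (Equiv.Set.univ _)

/-- quotients killed by the maximal ideal -/
private theorem PAR_quot (h2 : IsUnit (2 : D)) (b c d : D) (hc : IsUnit c) (hd : IsUnit d)
    (hbn : ∀ β : D, b - β ^ 2 ∉ IsLocalRing.maximalIdeal D)
    (hfin : Finite (D ⧸ IsLocalRing.maximalIdeal D)) (N : Type) [AddCommGroup N] [Module D N]
    [Finite N] (hN : ∀ r ∈ IsLocalRing.maximalIdeal D, ∀ x : N, r • x = 0)
    (J K L : N →ₗ[D] N) (hJ : ∀ x, J (J x) = b • x)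
    (hK : ∀ x, K (K x) = c • x) (hL : ∀ x, L (L x) = d • x) (hKL : ∀ x, K (L x) = -L (K x))
    (hJK : ∀ x, J (K x) = K (J x)) (hJL : ∀ x, J (L x) = L (J x)) :
    ∃ k : ℕ, Nat.card N = Nat.card (D ⧸ IsLocalRing.maximalIdeal D) ^ (4 * k) := by
  have htor : Module.IsTorsionBySet D N (IsLocalRing.maximalIdeal D) := fun x r => hN r.1 r.2 x
  let _ : Field (D ⧸ IsLocalRing.maximalIdeal D) := Ideal.Quotient.field _
  let _ : Module (D ⧸ IsLocalRing.maximalIdeal D) N := htor.module
  have hsm : ∀ (r : D) (x : N), (Ideal.Quotient.mk (IsLocalRing.maximalIdeal D) r) • x = r • x :=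
    fun r x => rfl
  have hlin : ∀ f : N →ₗ[D] N, ∃ g : N →ₗ[D ⧸ IsLocalRing.maximalIdeal D] N, ∀ x, g x = f x :=
    by
    intro f
    have h3 : ∀ (r : D ⧸ IsLocalRing.maximalIdeal D) (x : N), f (r • x) = r • f x := by
      intro r x
      obtain ⟨r, rfl⟩ := Ideal.Quotient.mk_surjective r
      rw [hsm, hsm, map_smul]
    exact ⟨{ toFun := f, map_add' := map_add f, map_smul' := h3 }, fun _ => rfl⟩
  obtain ⟨J', hJ'⟩ := hlin J
  obtain ⟨K', hK'⟩ := hlin K
  obtain ⟨L', hL'⟩ := hlin L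
  have hun : ∀ r : D, IsUnit r → Ideal.Quotient.mk (IsLocalRing.maximalIdeal D) r ≠ 0 := by
    intro r hr h
    rw [Ideal.Quotient.eq_zero_iff_mem] at h
    exact (IsLocalRing.mem_maximalIdeal r).1 h hr
  obtain ⟨k, hk⟩ := PAR_lin (κ := D ⧸ IsLocalRing.maximalIdeal D) (by
      have h3 := hun 2 h2
      rwa [map_ofNat] at h3) (Ideal.Quotient.mk _ b) (Ideal.Quotient.mk _ c)
    (Ideal.Quotient.mk _ d) (by
      intro β h
      obtain ⟨β, rfl⟩ := Ideal.Quotient.mk_surjective β
      rw [← map_pow, ← sub_eq_zero, ← map_sub, Ideal.Quotient.eq_zero_iff_mem] at h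
      exact hbn β h) (hun c hc) (hun d hd) N J' K' L'
    (fun x => by rw [hJ', hJ', hJ]; rfl) (fun x => by rw [hK', hK', hK]; rfl)
    (fun x => by rw [hL', hL', hL]; rfl) (fun x => by rw [hK', hL', hL', hK', hKL])
    (fun x => by rw [hJ', hK', hK', hJ', hJK]) (fun x => by rw [hJ', hL', hL', hJ', hJL])
  refine ⟨k, ?_⟩
  rw [← hk]
  exact Module.natCard_eq_pow_finrank

private theorem PAR_pow [IsNoetherianRing D] (h2 : IsUnit (2 : D)) (b c d : D) (hc : IsUnit c)
    (hd : IsUnit d) (hbn : ∀ β : D, b - β ^ 2 ∉ IsLocalRing.maximalIdeal D)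
    (hfin : Finite (D ⧸ IsLocalRing.maximalIdeal D))
    (J K L : M →ₗ[D] M) (hJ : ∀ x, J (J x) = b • x)
    (hK : ∀ x, K (K x) = c • x) (hL : ∀ x, L (L x) = d • x) (hKL : ∀ x, K (L x) = -L (K x))
    (hJK : ∀ x, J (K x) = K (J x)) (hJL : ∀ x, J (L x) = L (J x)) (A : Submodule D M)
    (hAJ : ∀ x ∈ A, J x ∈ A) (hAK : ∀ x ∈ A, K x ∈ A) (hAL : ∀ x ∈ A, L x ∈ A) (n : ℕ) :
    ∀ B : Submodule D M, B.FG → A ≤ B → (∀ x ∈ B, J x ∈ B) → (∀ x ∈ B, K x ∈ B) →
      (∀ x ∈ B, L x ∈ B) → A.toAddSubgroup.relIndex B.toAddSubgroup = n → n ≠ 0 →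
      ∃ k : ℕ, n = Nat.card (D ⧸ IsLocalRing.maximalIdeal D) ^ (4 * k) := by
  induction n using Nat.strong_induction_on with
  | _ n ih =>
    intro B hB hAB hBJ hBK hBL hn hn0
    obtain ⟨B', hB'⟩ : ∃ B' : Submodule D M, B' = A ⊔ IsLocalRing.maximalIdeal D • B := ⟨_, rfl⟩
    have hB'B : B' ≤ B := by
      rw [hB']
      exact sup_le hAB Submodule.smul_le_right
    have hAB' : A ≤ B' := by
      rw [hB']
      exact le_sup_left
    have hst : ∀ F : M →ₗ[D] M, (∀ x ∈ A, F x ∈ A) → (∀ x ∈ B, F x ∈ B) →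
        ∀ x ∈ B', F x ∈ B' := by
      intro F h3 h4 x hx
      have h5 : B' ≤ B'.comap F := by
        conv_lhs => rw [hB']
        refine sup_le (fun x hx => hAB' (h3 x hx)) ?_
        rw [Submodule.smul_le]
        intro r hr y hy
        show F (r • y) ∈ B'
        rw [map_smul, hB']
        exact Submodule.mem_sup_right (Submodule.smul_mem_smul hr (h4 y hy))
      exact h5 hx
    by_cases hBB : B ≤ B'
    · -- Nakayama
      have h3 : B ≤ A := by
        refine Submodule.le_of_le_smul_of_le_jacobson_bot hB (IsLocalRing.maximalIdeal_le_jacobson _)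
          (by rw [← hB']; exact hBB)
      have h4 : A = B := le_antisymm hAB h3
      refine ⟨0, ?_⟩
      rw [mul_zero, pow_zero, ← hn, h4, AddSubgroup.relIndex_self]
    · have h3 : A.toAddSubgroup.relIndex B'.toAddSubgroup *
          B'.toAddSubgroup.relIndex B.toAddSubgroup = n := by
        rw [← hn]
        exact AddSubgroup.relIndex_mul_relIndex _ _ _ hAB' hB'B
      have h4 : A.toAddSubgroup.relIndex B'.toAddSubgroup ≠ 0 := by
        intro h5
        rw [h5, zero_mul] at h3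
        exact hn0 h3.symm
      have h5 : B'.toAddSubgroup.relIndex B.toAddSubgroup ≠ 0 := by
        intro h5
        rw [h5, mul_zero] at h3
        exact hn0 h3.symm
      have h6 : B'.toAddSubgroup.relIndex B.toAddSubgroup ≠ 1 := by
        intro h6
        exact hBB (AddSubgroup.relIndex_eq_one.1 h6)
      have h7 : A.toAddSubgroup.relIndex B'.toAddSubgroup < n := by
        rw [← h3]
        exact lt_mul_of_one_lt_right (Nat.pos_of_ne_zero h4) (by omega)
      obtain ⟨k, hk⟩ := ih _ h7 B'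
        (isNoetherian_submodule.1 (isNoetherian_of_fg_of_noetherian B hB) B' hB'B)
        hAB' (hst J hAJ hBJ) (hst K hAK hBK) (hst L hAL hBL) rfl h4
      -- the quotient
      have hcard := PAR_card B' B
      have hfinN : Finite (B ⧸ B'.submoduleOf B) :=
        Nat.finite_of_card_ne_zero (by rw [← hcard]; exact h5)
      have hop : ∀ F : M →ₗ[D] M, (∀ x ∈ A, F x ∈ A) → (∀ x ∈ B, F x ∈ B) →
          ∃ G : (B ⧸ B'.submoduleOf B) →ₗ[D] (B ⧸ B'.submoduleOf B),
            ∀ (x y : B), (y : M) = F x → G (Submodule.Quotient.mk x) = Submodule.Quotient.mk y := by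
        intro F h8 h9
        refine ⟨Submodule.mapQ (B'.submoduleOf B) (B'.submoduleOf B) (F.restrict h9) ?_, ?_⟩
        · intro x hx
          exact hst F h8 h9 x hx
        · intro x y hxy
          have h10 : F.restrict h9 x = y := Subtype.ext hxy.symm
          rw [← h10]
          rfl
      obtain ⟨J', hJ'⟩ := hop J hAJ hBJ
      obtain ⟨K', hK'⟩ := hop K hAK hBK
      obtain ⟨L', hL'⟩ := hop L hAL hBL
      obtain ⟨k', hk'⟩ := PAR_quot h2 b c d hc hd hbn hfin (B ⧸ B'.submoduleOf B)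
        (by
          intro r hr x
          obtain ⟨x, rfl⟩ := Submodule.Quotient.mk_surjective _ x
          rw [← Submodule.Quotient.mk_smul, Submodule.Quotient.mk_eq_zero]
          show r • (x : M) ∈ B'
          rw [hB']
          exact Submodule.mem_sup_right (Submodule.smul_mem_smul hr x.2)) J' K' L'
        (by
          intro x
          obtain ⟨x, rfl⟩ := Submodule.Quotient.mk_surjective _ x
          rw [hJ' x ⟨J x, hBJ _ x.2⟩ rfl, hJ' _ (b • x) (hJ x).symm]
          rfl)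
        (by
          intro x
          obtain ⟨x, rfl⟩ := Submodule.Quotient.mk_surjective _ x
          rw [hK' x ⟨K x, hBK _ x.2⟩ rfl, hK' _ (c • x) (hK x).symm]
          rfl)
        (by
          intro x
          obtain ⟨x, rfl⟩ := Submodule.Quotient.mk_surjective _ x
          rw [hL' x ⟨L x, hBL _ x.2⟩ rfl, hL' _ (d • x) (hL x).symm]
          rfl)
        (by
          intro x
          obtain ⟨x, rfl⟩ := Submodule.Quotient.mk_surjective _ x
          rw [hL' x ⟨L x, hBL _ x.2⟩ rfl, hK' x ⟨K x, hBK _ x.2⟩ rfl,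
            hL' _ ⟨L (K x), hBL _ (hBK _ x.2)⟩ rfl,
            hK' _ (-⟨L (K x), hBL _ (hBK _ x.2)⟩) (hKL x).symm]
          rfl)
        (by
          intro x
          obtain ⟨x, rfl⟩ := Submodule.Quotient.mk_surjective _ x
          rw [hJ' x ⟨J x, hBJ _ x.2⟩ rfl, hK' x ⟨K x, hBK _ x.2⟩ rfl,
            hJ' _ ⟨J (K x), hBJ _ (hBK _ x.2)⟩ rfl,
            hK' _ ⟨J (K x), hBJ _ (hBK _ x.2)⟩ (hJK x)])
        (by
          intro x
          obtain ⟨x, rfl⟩ := Submodule.Quotient.mk_surjective _ x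
          rw [hJ' x ⟨J x, hBJ _ x.2⟩ rfl, hL' x ⟨L x, hBL _ x.2⟩ rfl,
            hJ' _ ⟨J (L x), hBJ _ (hBL _ x.2)⟩ rfl,
            hL' _ ⟨J (L x), hBJ _ (hBL _ x.2)⟩ (hJL x)])
      refine ⟨k + k', ?_⟩
      rw [← h3, hk, hcard, hk', ← pow_add, mul_add]

end pow

/-! ### lattices -/

private theorem PAR_step {D : Type} [CommRing D] {V : Type} [AddCommGroup V] [Module D V]
    (T : Submodule D V) (hT : T.FG) (X : V →ₗ[D] V) (a : D) (hX : ∀ v, X (X v) = a • v) :
    ∃ T' : Submodule D V, T'.FG ∧ T ≤ T' ∧ (∀ v ∈ T', X v ∈ T') ∧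
      ∀ Y : V →ₗ[D] V, (∀ v ∈ T, Y v ∈ T) → (∀ v, Y (X v) = X (Y v) ∨ Y (X v) = -X (Y v)) →
        ∀ v ∈ T', Y v ∈ T' := by
  have hl : T ≤ T ⊔ T.map X := le_sup_left
  have hr : ∀ v ∈ T, X v ∈ T ⊔ T.map X := fun v hv =>
    Submodule.mem_sup_right (Submodule.mem_map_of_mem hv)
  refine ⟨T ⊔ T.map X, hT.sup (hT.map X), hl, ?_, ?_⟩
  · have h1 : T ⊔ T.map X ≤ (T ⊔ T.map X).comap X := by
      refine sup_le hr ?_
      rw [Submodule.map_le_iff_le_comap]
      intro v hv
      show X (X v) ∈ T ⊔ T.map X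
      rw [hX]
      exact hl (T.smul_mem a hv)
    exact fun v hv => h1 hv
  · intro Y hY hXY
    have h1 : T ⊔ T.map X ≤ (T ⊔ T.map X).comap Y := by
      refine sup_le (fun v hv => hl (hY v hv)) ?_
      rw [Submodule.map_le_iff_le_comap]
      intro v hv
      show Y (X v) ∈ T ⊔ T.map X
      rcases hXY v with h2 | h2
      · rw [h2]
        exact hr _ (hY v hv)
      · rw [h2]
        exact Submodule.neg_mem _ (hr _ (hY v hv))
    exact fun v hv => h1 hv

section lat

variable {D : Type} [CommRing D] [IsDomain D] (E : Type) [Field E] [Algebra D E]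
  [IsFractionRing D E]

/-- the embedding of `D ^ 4` in `E ^ 4` -/
private noncomputable def PAR_phi : (Fin 4 → D) →ₗ[D] (Fin 4 → E) :=
  (Algebra.linearMap D E).compLeft (Fin 4)

omit [IsDomain D] in
private theorem PAR_phi_inj : Injective (PAR_phi (D := D) E) := by
  intro f g h
  funext i
  exact IsFractionRing.injective D E (congrFun h i)

private theorem PAR_den (T : Submodule D (Fin 4 → E)) (hT : T.FG) :
    ∃ s : D, s ≠ 0 ∧ ∀ v ∈ T, s • v ∈ LinearMap.range (PAR_phi (D := D) E) := by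
  obtain ⟨S, rfl⟩ := hT
  obtain ⟨s, hs⟩ := IsLocalization.exist_integer_multiples_of_finite (nonZeroDivisors D)
    (fun p : S × Fin 4 => (p.1 : Fin 4 → E) p.2)
  refine ⟨s, nonZeroDivisors.ne_zero s.2, ?_⟩
  have h1 : Submodule.span D (S : Set (Fin 4 → E)) ≤
      (LinearMap.range (PAR_phi (D := D) E)).comap (LinearMap.lsmul D (Fin 4 → E) (s : D)) := by
    rw [Submodule.span_le]
    intro v hv
    choose f hf using fun i => hs (⟨v, hv⟩, i)
    refine ⟨f, ?_⟩
    funext i
    exact hf i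
  exact fun v hv => h1 hv

omit [IsDomain D] in
private theorem PAR_idx (s : D) : (((LinearMap.range (PAR_phi (D := D) E)).map
      (LinearMap.lsmul D (Fin 4 → E) s)).toAddSubgroup).relIndex
      (LinearMap.range (PAR_phi (D := D) E)).toAddSubgroup =
    Nat.card (D ⧸ Ideal.span {s}) ^ 4 := by
  obtain ⟨P, hP⟩ : ∃ P : AddSubgroup (Fin 4 → D),
    P = AddSubgroup.pi Set.univ (fun _ => (Ideal.span {s}).toAddSubgroup) := ⟨_, rfl⟩
  have h1 : ((LinearMap.range (PAR_phi (D := D) E)).map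
      (LinearMap.lsmul D (Fin 4 → E) s)).toAddSubgroup =
      P.map (PAR_phi (D := D) E).toAddMonoidHom := by
    ext v
    constructor
    · rintro ⟨w, ⟨f, rfl⟩, rfl⟩
      refine ⟨s • f, ?_, map_smul (PAR_phi (D := D) E) s f⟩
      rw [hP]
      intro i _
      show s * f i ∈ Ideal.span {s}
      exact Ideal.mul_mem_right _ _ (Ideal.mem_span_singleton_self s)
    · rintro ⟨f, hf, rfl⟩
      rw [hP] at hf
      have h2 : ∀ i, ∃ g, f i = s * g := fun i => Ideal.mem_span_singleton.1 (hf i (Set.mem_univ i))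
      choose g hg using h2
      refine ⟨PAR_phi (D := D) E g, ⟨g, rfl⟩, ?_⟩
      have h3 : f = s • g := funext hg
      rw [h3]
      exact (map_smul (PAR_phi (D := D) E) s g).symm
  have h2 : (LinearMap.range (PAR_phi (D := D) E)).toAddSubgroup =
      (⊤ : AddSubgroup (Fin 4 → D)).map (PAR_phi (D := D) E).toAddMonoidHom := by
    ext v
    constructor
    · rintro ⟨f, rfl⟩
      exact ⟨f, trivial, rfl⟩
    · rintro ⟨f, _, rfl⟩
      exact ⟨f, rfl⟩
  rw [h1, h2, AddSubgroup.relIndex_map_map_of_injective _ _ (PAR_phi_inj E),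
    AddSubgroup.relIndex_top_right, hP, AddSubgroup.index_pi, Finset.prod_const, Finset.card_univ,
    Fintype.card_fin]
  rfl

omit [IsDomain D] [IsFractionRing D E] in
private theorem PAR_lattice (I J K L : (Fin 4 → E) →ₗ[D] (Fin 4 → E)) (a b c d : D)
    (hI : ∀ v, I (I v) = a • v) (hJ : ∀ v, J (J v) = b • v) (hK : ∀ v, K (K v) = c • v)
    (hL : ∀ v, L (L v) = d • v) (hIJ : ∀ v, I (J v) = -J (I v)) (hKL : ∀ v, K (L v) = -L (K v))
    (hIK : ∀ v, I (K v) = K (I v)) (hIL : ∀ v, I (L v) = L (I v)) (hJK : ∀ v, J (K v) = K (J v))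
    (hJL : ∀ v, J (L v) = L (J v)) :
    ∃ T : Submodule D (Fin 4 → E), T.FG ∧ LinearMap.range (PAR_phi (D := D) E) ≤ T ∧
      (∀ v ∈ T, I v ∈ T) ∧ (∀ v ∈ T, J v ∈ T) ∧ (∀ v ∈ T, K v ∈ T) ∧ (∀ v ∈ T, L v ∈ T) := by
  have h0 : (LinearMap.range (PAR_phi (D := D) E)).FG := by
    rw [LinearMap.range_eq_map]
    exact (Module.finite_def.1 inferInstance).map _
  obtain ⟨T1, f1, l1, s1, t1⟩ := PAR_step _ h0 I a hI
  obtain ⟨T2, f2, l2, s2, t2⟩ := PAR_step T1 f1 J b hJ
  obtain ⟨T3, f3, l3, s3, t3⟩ := PAR_step T2 f2 K c hK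
  obtain ⟨T4, f4, l4, s4, t4⟩ := PAR_step T3 f3 L d hL
  have i2 := t2 I s1 (fun v => Or.inr (hIJ v))
  have i3 := t3 I i2 (fun v => Or.inl (hIK v))
  have i4 := t4 I i3 (fun v => Or.inl (hIL v))
  have j3 := t3 J s2 (fun v => Or.inl (hJK v))
  have j4 := t4 J j3 (fun v => Or.inl (hJL v))
  have k4 := t4 K s3 (fun v => Or.inr (hKL v))
  exact ⟨T4, f4, l1.trans (l2.trans (l3.trans l4)), i4, j4, k4, s4⟩

end lat

/-! ### the theorem -/

theorem PAR {D : Type} [CommRing D] [IsDomain D] [IsLocalRing D] [IsNoetherianRing D]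
    [Ring.DimensionLEOne D] (h2 : IsUnit (2 : D)) (a b c d : D) (ha : a ≠ 0) (hb : IsUnit b)
    (hc : IsUnit c) (hd : IsUnit d)
    (hbn : ∀ β : D, b - β ^ 2 ∉ IsLocalRing.maximalIdeal D)
    (hfin : Finite (D ⧸ IsLocalRing.maximalIdeal D)) (E : Type) [Field E] [Algebra D E]
    [IsFractionRing D E]
    (h : Spl4 (algebraMap D E a) (algebraMap D E b) (algebraMap D E c) (algebraMap D E d)) :
    ∃ k : ℕ, Module.length D (D ⧸ Ideal.span {a}) = ((2 * k : ℕ) : ℕ∞) := by
  classical
  have hdim : Ring.KrullDimLE 1 D := Ring.KrullDimLE.mk₁' fun P h1 h3 =>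
    Ring.DimensionLEOne.maximalOfPrime h1 h3
  have hlen : ∀ s : D, s ≠ 0 → ∃ n : ℕ, Module.length D (D ⧸ Ideal.span {s}) = n ∧
      Nat.card (D ⧸ Ideal.span {s}) = Nat.card (D ⧸ IsLocalRing.maximalIdeal D) ^ n :=
    fun s hs => PAR_len (isFiniteLength_quotient_span_singleton D (mem_nonZeroDivisors_of_ne_zero hs))
  have hq : 1 < Nat.card (D ⧸ IsLocalRing.maximalIdeal D) := Finite.one_lt_card
  -- the operators
  obtain ⟨I, J, K, L, hI, hJ, hIJ, hK, hL, hKL, hIK, hIL, hJK, hJL⟩ := h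
  have hop : ∀ X : Matrix (Fin 4) (Fin 4) E, ∃ F : (Fin 4 → E) →ₗ[D] (Fin 4 → E),
      ∀ v, F v = X.mulVec v := fun X => ⟨(Matrix.toLin' X).restrictScalars D, fun v => rfl⟩
  obtain ⟨FI, hFI⟩ := hop I
  obtain ⟨FJ, hFJ⟩ := hop J
  obtain ⟨FK, hFK⟩ := hop K
  obtain ⟨FL, hFL⟩ := hop L
  have hsq : ∀ (X : Matrix (Fin 4) (Fin 4) E) (F : (Fin 4 → E) →ₗ[D] (Fin 4 → E)) (r : D),
      (∀ v, F v = X.mulVec v) → X * X = algebraMap D E r • 1 → ∀ v, F (F v) = r • v := by
    intro X F r hF hX v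
    rw [hF, hF, Matrix.mulVec_mulVec, hX, Matrix.smul_mulVec, Matrix.one_mulVec, algebraMap_smul]
  have hcm : ∀ (X Y : Matrix (Fin 4) (Fin 4) E) (F G : (Fin 4 → E) →ₗ[D] (Fin 4 → E)),
      (∀ v, F v = X.mulVec v) → (∀ v, G v = Y.mulVec v) → X * Y = Y * X →
      ∀ v, F (G v) = G (F v) := by
    intro X Y F G hF hG hXY v
    rw [hF, hG, hG, hF, Matrix.mulVec_mulVec, Matrix.mulVec_mulVec, hXY]
  have hac : ∀ (X Y : Matrix (Fin 4) (Fin 4) E) (F G : (Fin 4 → E) →ₗ[D] (Fin 4 → E)),
      (∀ v, F v = X.mulVec v) → (∀ v, G v = Y.mulVec v) → X * Y = -(Y * X) →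
      ∀ v, F (G v) = -G (F v) := by
    intro X Y F G hF hG hXY v
    rw [hF, hG, hG, hF, Matrix.mulVec_mulVec, Matrix.mulVec_mulVec, hXY, Matrix.neg_mulVec]
  have gI := hsq I FI a hFI hI
  have gJ := hsq J FJ b hFJ hJ
  have gK := hsq K FK c hFK hK
  have gL := hsq L FL d hFL hL
  have gIJ := hac I J FI FJ hFI hFJ hIJ
  have gKL := hac K L FK FL hFK hFL hKL
  have gIK := hcm I K FI FK hFI hFK hIK
  have gIL := hcm I L FI FL hFI hFL hIL
  have gJK := hcm J K FJ FK hFJ hFK hJK
  have gJL := hcm J L FJ FL hFJ hFL hJL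
  obtain ⟨T, hT, hT0, tI, tJ, tK, tL⟩ := PAR_lattice E FI FJ FK FL a b c d gI gJ gK gL gIJ gKL gIK
    gIL gJK gJL
  -- multiplication by scalars
  have hinj : ∀ s : D, s ≠ 0 → Injective (LinearMap.lsmul D (Fin 4 → E) s) := by
    intro s hs
    rw [injective_iff_map_eq_zero]
    intro v hv
    have h1 : s • v = 0 := hv
    rw [← algebraMap_smul E s v] at h1
    exact (smul_eq_zero.1 h1).resolve_left
      (fun h3 => hs (IsFractionRing.injective D E (h3.trans (map_zero _).symm)))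
  have hmap : ∀ (F : (Fin 4 → E) →ₗ[D] (Fin 4 → E)) (P : Submodule D (Fin 4 → E)),
      (P.map F).toAddSubgroup = P.toAddSubgroup.map F.toAddMonoidHom := fun F P => rfl
  have hmm : ∀ (F : (Fin 4 → E) →ₗ[D] (Fin 4 → E)) (P Q : Submodule D (Fin 4 → E)), Injective F →
      (P.map F).toAddSubgroup.relIndex (Q.map F).toAddSubgroup =
      P.toAddSubgroup.relIndex Q.toAddSubgroup := by
    intro F P Q hF
    rw [hmap, hmap]
    exact AddSubgroup.relIndex_map_map_of_injective _ _ hF
  obtain ⟨T0, hT0def⟩ : ∃ T0, T0 = LinearMap.range (PAR_phi (D := D) E) := ⟨_, rfl⟩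
  rw [← hT0def] at hT0
  -- the index of `T0` in `T` is finite
  have hfinT : T0.toAddSubgroup.relIndex T.toAddSubgroup ≠ 0 := by
    obtain ⟨s, hs, h1⟩ := PAR_den E T hT
    rw [← hT0def] at h1
    have h3 : T.map (LinearMap.lsmul D (Fin 4 → E) s) ≤ T0 := by
      rw [Submodule.map_le_iff_le_comap]
      exact fun v hv => h1 v hv
    rw [← hmm (LinearMap.lsmul D (Fin 4 → E) s) T0 T (hinj s hs)]
    intro h4
    have h5 := AddSubgroup.relIndex_eq_zero_of_le_right (show _ ≤ T0.toAddSubgroup from h3) h4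
    rw [hT0def, PAR_idx] at h5
    obtain ⟨n, _, hn⟩ := hlen s hs
    rw [hn] at h5
    exact (pow_ne_zero _ (pow_ne_zero _ (by omega))) h5
  -- the index of `a T`
  obtain ⟨l, hl1, hl2⟩ := hlen a ha
  have hmono : ∀ (F : (Fin 4 → E) →ₗ[D] (Fin 4 → E)) (P : Submodule D (Fin 4 → E)),
      (∀ v ∈ P, F v ∈ P) → (P.map F).toAddSubgroup ≤ P.toAddSubgroup := by
    intro F P h1
    have h3 : P.map F ≤ P := by
      rw [Submodule.map_le_iff_le_comap]
      exact h1
    exact h3
  have haT : (T.map (LinearMap.lsmul D (Fin 4 → E) a)).toAddSubgroup.relIndex T.toAddSubgroup =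
      Nat.card (D ⧸ IsLocalRing.maximalIdeal D) ^ (4 * l) := by
    have h1 := AddSubgroup.relIndex_mul_relIndex
      (T0.map (LinearMap.lsmul D (Fin 4 → E) a)).toAddSubgroup
      (T.map (LinearMap.lsmul D (Fin 4 → E) a)).toAddSubgroup T.toAddSubgroup
      (Submodule.map_mono hT0) (hmono _ T (fun v hv => T.smul_mem a hv))
    have h3 := AddSubgroup.relIndex_mul_relIndex
      (T0.map (LinearMap.lsmul D (Fin 4 → E) a)).toAddSubgroup
      T0.toAddSubgroup T.toAddSubgroup (hmono _ T0 (fun v hv => T0.smul_mem a hv)) hT0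
    rw [hmm _ _ _ (hinj a ha)] at h1
    have h4 : (T0.map (LinearMap.lsmul D (Fin 4 → E) a)).toAddSubgroup.relIndex
        T0.toAddSubgroup = Nat.card (D ⧸ IsLocalRing.maximalIdeal D) ^ (4 * l) := by
      rw [hT0def, PAR_idx, hl2, ← pow_mul, mul_comm l 4]
    rw [h4, ← h1, mul_comm] at h3
    exact (Nat.eq_of_mul_eq_mul_left (Nat.pos_of_ne_zero hfinT) h3).symm
  -- the index of `I T`
  have hIinj : Injective FI := by
    intro v w hvw
    apply hinj a ha
    show a • v = a • w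
    rw [← gI, ← gI, hvw]
  have hII : (T.map FI).map FI = T.map (LinearMap.lsmul D (Fin 4 → E) a) := by
    rw [← Submodule.map_comp]
    have h1 : FI ∘ₗ FI = LinearMap.lsmul D (Fin 4 → E) a := LinearMap.ext gI
    rw [h1]
  have hsqr : (T.map FI).toAddSubgroup.relIndex T.toAddSubgroup *
      (T.map FI).toAddSubgroup.relIndex T.toAddSubgroup =
      Nat.card (D ⧸ IsLocalRing.maximalIdeal D) ^ (4 * l) := by
    rw [← haT, ← hII]
    have h1 := AddSubgroup.relIndex_mul_relIndex ((T.map FI).map FI).toAddSubgroup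
      (T.map FI).toAddSubgroup T.toAddSubgroup
      (Submodule.map_mono (hmono FI T tI)) (hmono FI T tI)
    rw [hmm _ _ _ hIinj] at h1
    exact h1
  have hne : (T.map FI).toAddSubgroup.relIndex T.toAddSubgroup ≠ 0 := by
    intro h1
    rw [h1, mul_zero] at hsqr
    exact (pow_ne_zero _ (by omega)) hsqr.symm
  obtain ⟨k, hk⟩ := PAR_pow h2 b c d hc hd hbn hfin FJ FK FL gJ gK gL gKL gJK gJL (T.map FI)
    (by
      rintro _ ⟨v, hv, rfl⟩
      refine ⟨-FJ v, T.neg_mem (tJ v hv), ?_⟩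
      rw [map_neg, gIJ, neg_neg])
    (by
      rintro _ ⟨v, hv, rfl⟩
      exact ⟨FK v, tK v hv, gIK v⟩)
    (by
      rintro _ ⟨v, hv, rfl⟩
      exact ⟨FL v, tL v hv, gIL v⟩) _ T hT (hmono FI T tI) tJ tK tL rfl hne
  rw [hk, ← pow_add] at hsqr
  have hfinal := Nat.pow_right_injective hq hsqr
  have hl : l = 2 * k := by
    have h1 : 4 * k + 4 * k = 4 * l := hfinal
    omega
  exact ⟨k, by rw [hl1, hl]⟩

end Pool.Agent.QTB
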