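import Pool.Agent.QTB.PTg
import Pool.Agent.QCB.PT2
import Pool.Agent.Q4.BCQ

/-!
# QTB, module PNg: modules over a biquaternion order supported in codimension two

Proof. Exactly as `Pool.Agent.QCB.PT2` (copy; its lemmas are private, the parts on commutative algebra can be taken verbatim), with
`PTg` instead of `PT1` and the surjective ring homomorphism `BQ A a b c d → BQ A' (F a) (F b) (F c) (F d)` for a surjective ring
homomorphism `F : A → A'` (`Algebra.TensorProduct.map` of the maps on coordinates, or `BCQ_m2` of `Pool/Agent/Q4/BCQ.lean`; its kernel is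
the set of elements with coordinates (with respect to `bas`) in `ker F`, so an element `π y` if `ker F = (π)`).
-/

set_option autoImplicit false

namespace Pool.Agent.QTB

open Quaternion QuaternionAlgebra Polynomial Pool.Agent.QCB

/-! ### additive functions -/

private theorem PNg_zero {Λ : Type} [Ring Λ] {Γ : Type 1} [AddCommGroup Γ] (ψ : NAdd Λ Γ)
    (N : Type) [AddCommGroup N] [Module Λ N] [Subsingleton N] : ψ.val N = 0 := by
  have h := ψ.add N N N LinearMap.id (0 : N →ₗ[Λ] N) Function.injective_id
    (fun x => ⟨0, Subsingleton.elim _ _⟩) (fun x => ⟨fun _ => ⟨x, rfl⟩, fun _ => rfl⟩)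
  exact left_eq_add.1 h

/-- finite generation and restriction of scalars along a surjection -/
private theorem PNg_fin {Λ Λ' : Type} [Ring Λ] [Ring Λ'] (f : Λ →+* Λ')
    (hf : Function.Surjective f) (N : Type) [AddCommGroup N] [Module Λ' N]
    [Module.Finite Λ' N] : @Module.Finite Λ N _ _ (Module.compHom N f) := by
  let _ : Module Λ N := Module.compHom N f
  obtain ⟨S, hS⟩ := Module.Finite.fg_top (R := Λ') (M := N)
  refine ⟨⟨S, ?_⟩⟩
  rw [eq_top_iff]
  rintro x -
  have hx : x ∈ Submodule.span Λ' (S : Set N) := by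
    rw [hS]
    trivial
  induction hx using Submodule.span_induction with
  | mem y hy => exact Submodule.subset_span hy
  | zero => exact Submodule.zero_mem _
  | add y z _ _ h1 h2 => exact Submodule.add_mem _ h1 h2
  | smul a y _ h1 =>
    obtain ⟨c, rfl⟩ := hf a
    exact Submodule.smul_mem _ c h1

/-- restriction of scalars along a surjection -/
private def PNg_res {Λ Λ' : Type} [Ring Λ] [Ring Λ'] (f : Λ →+* Λ')
    (hf : Function.Surjective f) {Γ : Type 1} [AddCommGroup Γ] (ψ : NAdd Λ Γ) : NAdd Λ' Γ where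
  val N _ _ := @NAdd.val Λ _ Γ _ ψ N _ (Module.compHom N f)
  add N' N N'' _ _ _ _ _ _ _ _ _ g h hg hh hgh := by
    have f1 := PNg_fin f hf N'
    have f2 := PNg_fin f hf N
    have f3 := PNg_fin f hf N''
    let _ : Module Λ N' := Module.compHom N' f
    let _ : Module Λ N := Module.compHom N f
    let _ : Module Λ N'' := Module.compHom N'' f
    let g' : N' →ₗ[Λ] N :=
      { toFun := g
        map_add' := map_add g
        map_smul' := fun c x => map_smul g (f c) x }
    let h' : N →ₗ[Λ] N'' :=
      { toFun := h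
        map_add' := map_add h
        map_smul' := fun c x => map_smul h (f c) x }
    exact ψ.add N' N N'' g' h' hg hh hgh

/-- the module structure over a quotient -/
private theorem PNg_quot {Λ Λ' : Type} [Ring Λ] [Ring Λ'] (f : Λ →+* Λ')
    (hf : Function.Surjective f) (N : Type) [AddCommGroup N] [Module Λ N]
    (hk : ∀ c : Λ, f c = 0 → ∀ x : N, c • x = 0) :
    ∃ i : Module Λ' N, ∀ (c : Λ) (x : N), i.toSMul.smul (f c) x = c • x := by
  let _ : SMul Λ' N := ⟨fun c x => Function.surjInv hf c • x⟩
  have h : ∀ (c : Λ) (x : N), f c • x = c • x := by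
    intro c x
    change Function.surjInv hf (f c) • x = c • x
    rw [← sub_eq_zero, ← sub_smul]
    refine hk _ ?_ x
    rw [map_sub, Function.surjInv_eq hf, sub_self]
  exact ⟨Function.Surjective.moduleLeft f hf h, h⟩

/-! ### commutative algebra -/

private theorem PNg_prime {R A : Type} [CommRing R] [IsDomain R] [CommRing A] [IsDomain A]
    [Algebra R A] (s : R) (hs : s ≠ 0) [IsLocalization.Away s A] (g : R) (hg : Prime g)
    (h : ¬ g ∣ s) : Prime (algebraMap R A g) := by
  have hinj : Function.Injective (algebraMap R A) :=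
    IsLocalization.injective A (powers_le_nonZeroDivisors_of_noZeroDivisors hs)
  have h0 : algebraMap R A g ≠ 0 := by
    intro h0
    exact hg.ne_zero (hinj (by rw [h0, map_zero]))
  rw [← Ideal.span_singleton_prime h0, ← Set.image_singleton, ← Ideal.map_span]
  refine IsLocalization.isPrime_of_isPrime_disjoint (Submonoid.powers s) A _
    ((Ideal.span_singleton_prime hg.ne_zero).2 hg) ?_
  rw [Set.disjoint_left]
  rintro x ⟨n, rfl⟩ hx
  exact h (hg.dvd_of_dvd_pow (Ideal.mem_span_singleton.1 hx))

private theorem PNg_bez {R : Type} [CommRing R] [IsDomain R] [IsPrincipalIdealRing R]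
    (g h : R[X]) (hg : Irreducible g) (hd : g.natDegree ≠ 0) (hgh : ¬ g ∣ h) :
    ∃ (r : R) (u v : R[X]), r ≠ 0 ∧ u * g + v * h = C r := by
  have hp : g.IsPrimitive := hg.isPrimitive hd
  have hi : Irreducible (g.map (algebraMap R (FractionRing R))) :=
    (hp.irreducible_iff_irreducible_map_fraction_map (K := FractionRing R)).1 hg
  have hn : ¬ g.map (algebraMap R (FractionRing R)) ∣ h.map (algebraMap R (FractionRing R)) :=
    fun h1 => hgh (hp.dvd_of_fraction_map_dvd_fraction_map h1)
  obtain ⟨u, v, huv⟩ := (hi.coprime_iff_not_dvd).2 hn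
  obtain ⟨c, hc, hu⟩ := IsLocalization.integerNormalization_spec (nonZeroDivisors R) u
  obtain ⟨d, hd', hv⟩ := IsLocalization.integerNormalization_spec (nonZeroDivisors R) v
  refine ⟨c * d, C d * IsLocalization.integerNormalization (nonZeroDivisors R) u,
    C c * IsLocalization.integerNormalization (nonZeroDivisors R) v,
    mul_ne_zero (nonZeroDivisors.ne_zero hc) (nonZeroDivisors.ne_zero hd'), ?_⟩
  apply map_injective (algebraMap R (FractionRing R))
    (FaithfulSMul.algebraMap_injective R (FractionRing R))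
  rw [Polynomial.map_add, Polynomial.map_mul, Polynomial.map_mul, Polynomial.map_mul,
    Polynomial.map_mul, hu, hv, map_C, map_C, map_C, map_mul, map_mul, Algebra.smul_def,
    Algebra.smul_def, Polynomial.algebraMap_apply, Polynomial.algebraMap_apply]
  linear_combination (C (algebraMap R (FractionRing R) c) *
    C (algebraMap R (FractionRing R) d)) * huv

/-- an ideal which is not contained in a principal prime ideal contains a constant -/
private theorem PNg_const {R : Type} [CommRing R] [IsDomain R] [IsPrincipalIdealRing R]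
    {A : Type} [CommRing A] [IsDomain A] [Algebra R[X] A] (s : R[X]) (hs : s ≠ 0)
    [IsLocalization.Away s A] (I : Ideal A) (h0 : ∃ x ∈ I, x ≠ 0)
    (hI : ∀ q : A, Prime q → ∃ x ∈ I, ¬ q ∣ x) :
    ∃ r : R, r ≠ 0 ∧ algebraMap R[X] A (C r) ∈ I := by
  have key : ∀ f : R[X], f ≠ 0 → ∃ (r : R) (y : A), r ≠ 0 ∧
      algebraMap R[X] A (C r) - y * algebraMap R[X] A f ∈ I := by
    intro f
    refine UniqueFactorizationMonoid.induction_on_prime f (fun h => absurd rfl h) ?_ ?_
    · intro u hu _
      obtain ⟨u, rfl⟩ := hu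
      refine ⟨1, algebraMap R[X] A (u⁻¹ : (R[X])ˣ), one_ne_zero, ?_⟩
      rw [← map_mul, Units.inv_mul, map_one, sub_self]
      exact I.zero_mem
    · intro f g hf hg ih _
      obtain ⟨r, y, hr, hry⟩ := ih hf
      -- the prime `g`
      obtain ⟨t, z, ht, htz⟩ : ∃ (t : R) (z : A), t ≠ 0 ∧
          algebraMap R[X] A (C t) - z * algebraMap R[X] A g ∈ I := by
        by_cases hd : g.natDegree = 0
        · rw [natDegree_eq_zero] at hd
          obtain ⟨t, ht⟩ := hd
          refine ⟨t, 1, ?_, ?_⟩
          · rintro rfl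
            rw [map_zero] at ht
            exact hg.ne_zero ht.symm
          · rw [ht, one_mul, sub_self]
            exact I.zero_mem
        · by_cases hgs : g ∣ s
          · obtain ⟨w, hw⟩ := hgs
            have hu : IsUnit (algebraMap R[X] A g) := by
              have h1 : IsUnit (algebraMap R[X] A s) := IsLocalization.Away.algebraMap_isUnit s
              rw [hw, map_mul] at h1
              exact isUnit_of_mul_isUnit_left h1
            obtain ⟨v, hv⟩ := hu
            refine ⟨1, (v⁻¹ : Aˣ), one_ne_zero, ?_⟩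
            rw [← hv, Units.inv_mul, map_one, map_one, sub_self]
            exact I.zero_mem
          · obtain ⟨x, hx, hgx⟩ := hI _ (PNg_prime (A := A) s hs g hg hgs)
            obtain ⟨n, h, hh⟩ := IsLocalization.Away.surj s x
            have hgh : ¬ g ∣ h := by
              intro h1
              apply hgx
              have hu : IsUnit (algebraMap R[X] A s ^ n) :=
                (IsLocalization.Away.algebraMap_isUnit s).pow n
              rw [← hu.dvd_mul_right (b := x), hh]
              exact map_dvd _ h1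
            obtain ⟨t, u, v, ht, huv⟩ := PNg_bez g h hg.irreducible hd hgh
            refine ⟨t, algebraMap R[X] A u, ht, ?_⟩
            rw [← huv, map_add, map_mul, map_mul, add_sub_cancel_left, ← hh]
            exact I.mul_mem_left _ (I.mul_mem_right _ hx)
      refine ⟨t * r, z * y, mul_ne_zero ht hr, ?_⟩
      have e1 : algebraMap R[X] A (C (t * r)) - z * y * algebraMap R[X] A (g * f) =
          (algebraMap R[X] A (C t) - z * algebraMap R[X] A g) * algebraMap R[X] A (C r) +
          z * algebraMap R[X] A g * (algebraMap R[X] A (C r) - y * algebraMap R[X] A f) := by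
        rw [map_mul C, map_mul, map_mul]
        ring
      rw [e1]
      exact I.add_mem (I.mul_mem_right _ htz) (I.mul_mem_left _ hry)
  obtain ⟨x, hx, hx0⟩ := h0
  obtain ⟨n, f, hf⟩ := IsLocalization.Away.surj s x
  have hf0 : f ≠ 0 := by
    rintro rfl
    rw [map_zero] at hf
    have hu : IsUnit (algebraMap R[X] A s ^ n) :=
      (IsLocalization.Away.algebraMap_isUnit s).pow n
    exact hx0 ((hu.mul_left_eq_zero).1 hf)
  obtain ⟨r, y, hr, hry⟩ := key f hf0
  refine ⟨r, hr, ?_⟩
  have e1 : algebraMap R[X] A (C r) = (algebraMap R[X] A (C r) - y * algebraMap R[X] A f) +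
      y * algebraMap R[X] A f := by ring
  rw [e1, ← hf]
  rw [← hf] at hry
  exact I.add_mem hry (I.mul_mem_left _ (I.mul_mem_right _ hx))

/-! ### the reduction modulo a constant -/

private theorem PNg_red {R : Type} [CommRing R] [IsDomain R] [IsPrincipalIdealRing R]
    (π : R) {κ : Type} [Field κ] (f0 : R →+* κ) (hf0 : Function.Surjective f0)
    (hk0 : ∀ r, f0 r = 0 ↔ π ∣ r) {A : Type} [CommRing A] [IsDomain A] [Algebra R[X] A]
    (s : R[X]) [IsLocalization.Away s A] {A' : Type} [CommRing A']
    [IsDomain A'] [Algebra κ[X] A'] (hs' : s.map f0 ≠ 0) [IsLocalization.Away (s.map f0) A'] :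
    ∃ F : A →+* A', Function.Surjective F ∧
      ∀ x : A, F x = 0 ↔ ∃ y, x = algebraMap R[X] A (C π) * y := by
  have hu : IsUnit (((algebraMap κ[X] A').comp (mapRingHom f0)) s) :=
    IsLocalization.Away.algebraMap_isUnit (s.map f0)
  let F : A →+* A' := IsLocalization.Away.lift s hu
  have hF : ∀ f : R[X], F (algebraMap R[X] A f) = algebraMap κ[X] A' (f.map f0) := fun f =>
    IsLocalization.Away.lift_eq s hu f
  have hinj : Function.Injective (algebraMap κ[X] A') :=
    IsLocalization.injective A' (powers_le_nonZeroDivisors_of_noZeroDivisors hs')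
  have hus : IsUnit (algebraMap R[X] A s) := IsLocalization.Away.algebraMap_isUnit s
  obtain ⟨v, hv⟩ := hus
  refine ⟨F, ?_, ?_⟩
  · intro y
    obtain ⟨n, f, hf⟩ := IsLocalization.Away.surj (s.map f0) y
    obtain ⟨f, rfl⟩ := Polynomial.map_surjective f0 hf0 f
    refine ⟨(v⁻¹ ^ n : Aˣ) * algebraMap R[X] A f, ?_⟩
    have hw : IsUnit (algebraMap κ[X] A' (s.map f0) ^ n) :=
      (IsLocalization.Away.algebraMap_isUnit (s.map f0)).pow n
    refine hw.mul_right_cancel ?_
    rw [hf, map_mul, hF, ← hF s, ← map_pow, mul_right_comm, ← map_mul, ← hv, ← Units.val_pow_eq_pow_val,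
      ← Units.val_mul, ← mul_pow, inv_mul_cancel, one_pow, Units.val_one, map_one, one_mul]
  · intro x
    constructor
    · intro hx
      obtain ⟨n, f, hf⟩ := IsLocalization.Away.surj s x
      have h1 : f.map f0 = 0 := by
        apply hinj
        rw [map_zero, ← hF, ← hf, map_mul, hx, zero_mul]
      have h2 : C π ∣ f := by
        rw [C_dvd_iff_dvd_coeff]
        intro i
        rw [← hk0, ← coeff_map, h1, coeff_zero]
      obtain ⟨g, hg⟩ := h2
      refine ⟨algebraMap R[X] A g * (v⁻¹ ^ n : Aˣ), ?_⟩
      have h3 : x = x * algebraMap R[X] A s ^ n * (v⁻¹ ^ n : Aˣ) := by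
        rw [← hv, mul_assoc, ← Units.val_pow_eq_pow_val, ← Units.val_mul, ← mul_pow,
          mul_inv_cancel, one_pow, Units.val_one, mul_one]
      rw [h3, hf, hg, map_mul, mul_assoc]
    · rintro ⟨y, rfl⟩
      rw [map_mul, hF, map_C, (hk0 π).2 dvd_rfl, map_zero, map_zero, zero_mul]

/-! ### biquaternion algebras -/

section red
variable {A B : Type} [CommRing A] [CommRing B] [Algebra A B] (a b c d : A)

private theorem PNg_m_basis (i : Fin 4) : Q4.BCQ_m (B := B) a b (basisOneIJK a 0 b i) =
    basisOneIJK (algebraMap A B a) 0 (algebraMap A B b) i := by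
  have h : ∀ (C : Type) [CommRing C] (a b : C) (i : Fin 4), basisOneIJK a 0 b i =
      (⟨Pi.single (M := fun _ => C) i 1 0, Pi.single (M := fun _ => C) i 1 1,
        Pi.single (M := fun _ => C) i 1 2, Pi.single (M := fun _ => C) i 1 3⟩ : ℍ[C,a,b]) := by
    intro C _ a b i
    apply (basisOneIJK a 0 b).repr.injective
    rw [Module.Basis.repr_self]
    ext j
    rw [coe_basisOneIJK_repr, Finsupp.single_eq_pi_single]
    fin_cases j <;> rfl
  rw [h, h]
  show (⟨algebraMap A B _, algebraMap A B _, algebraMap A B _, algebraMap A B _⟩ :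
    ℍ[B,algebraMap A B a,algebraMap A B b]) = _
  fin_cases i <;> simp [Pi.single_apply]

private theorem PNg_m2_basis (i : Fin 4 × Fin 4) : Q4.BCQ_m2 B a b c d (bas a b c d i) =
    bas (algebraMap A B a) (algebraMap A B b) (algebraMap A B c) (algebraMap A B d) i := by
  rw [bas, bas, Module.Basis.tensorProduct_apply', Module.Basis.tensorProduct_apply',
    Q4.BCQ_m2_tmul, PNg_m_basis, PNg_m_basis]

private theorem PNg_m2_surj (hF : Function.Surjective (algebraMap A B)) :
    Function.Surjective (Q4.BCQ_m2 B a b c d) := by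
  have h1 : ∀ a b : A, Function.Surjective (Q4.BCQ_m (B := B) a b) := by
    intro a b y
    obtain ⟨y0, h0⟩ := hF y.re
    obtain ⟨y1, h1⟩ := hF y.imI
    obtain ⟨y2, h2⟩ := hF y.imJ
    obtain ⟨y3, h3⟩ := hF y.imK
    exact ⟨⟨y0, y1, y2, y3⟩, QuaternionAlgebra.ext h0 h1 h2 h3⟩
  intro z
  induction z using TensorProduct.induction_on with
  | zero => exact ⟨0, map_zero _⟩
  | add x y hx hy =>
    obtain ⟨x', rfl⟩ := hx
    obtain ⟨y', rfl⟩ := hy
    exact ⟨x' + y', map_add _ _ _⟩
  | tmul x y =>
    obtain ⟨x', rfl⟩ := h1 a b x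
    obtain ⟨y', rfl⟩ := h1 c d y
    exact ⟨x' ⊗ₜ y', Q4.BCQ_m2_tmul B a b c d x' y'⟩

private theorem PNg_m2_ker (p : A) (hk : ∀ x : A, algebraMap A B x = 0 → ∃ y, x = p * y)
    (z : BQ A a b c d) (hz : Q4.BCQ_m2 B a b c d z = 0) :
    ∃ y : BQ A a b c d, z = algebraMap A _ p * y := by
  have h1 : z = ∑ i, (bas a b c d).repr z i • bas a b c d i :=
    ((bas a b c d).sum_repr z).symm
  have h2 : ∑ i, algebraMap A B ((bas a b c d).repr z i) • bas (algebraMap A B a)
      (algebraMap A B b) (algebraMap A B c) (algebraMap A B d) i = 0 := by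
    rw [← hz]
    conv_rhs => rw [h1, map_sum]
    refine Finset.sum_congr rfl fun i _ => ?_
    rw [map_smul, PNg_m2_basis, algebraMap_smul]
  have h3 := Fintype.linearIndependent_iff.1 (bas (algebraMap A B a)
      (algebraMap A B b) (algebraMap A B c) (algebraMap A B d)).linearIndependent _ h2
  choose y hy using fun i => hk _ (h3 i)
  refine ⟨∑ i, y i • bas a b c d i, ?_⟩
  rw [h1, Finset.mul_sum]
  refine Finset.sum_congr rfl fun i _ => ?_
  rw [← Algebra.smul_def, smul_smul, ← hy]

end red


/-- modules which are killed by a prime constant -/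
private theorem PNg_pi (hSL : Q4.St_SLOT) (hSM : Q4.St_SIMQ) {R : Type} [CommRing R] [IsDomain R]
    [IsPrincipalIdealRing R]
    (h2 : IsUnit (2 : R)) (π : R) (hπ : Prime π) (hfin : Finite (R ⧸ Ideal.span {π}))
    {A : Type} [CommRing A] [IsDomain A] [Algebra R[X] A] (s : R[X]) (hs : s ≠ 0)
    [IsLocalization.Away s A] {a b c d : A} (ha : IsUnit a) (hb : IsUnit b) (hc : IsUnit c)
    (hd : IsUnit d) {Γ : Type 1}
    [AddCommGroup Γ] (ψ : NAdd (BQ A a b c d) Γ) (N : Type) [AddCommGroup N]
    [Module (BQ A a b c d) N]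
    [Module.Finite (BQ A a b c d) N] (hN : PNul A (BQ A a b c d) N)
    (hk : Kil (Λ := BQ A a b c d) (algebraMap R[X] A (C π)) N) : ψ.val N = 0 := by
  classical
  have hmax : (Ideal.span {π}).IsMaximal := PrincipalIdealRing.isMaximal_of_irreducible hπ.irreducible
  let _ : Field (R ⧸ Ideal.span {π}) := Ideal.Quotient.field (Ideal.span {π})
  obtain ⟨f0, hf0⟩ : ∃ f0 : R →+* (R ⧸ Ideal.span {π}), f0 = Ideal.Quotient.mk (Ideal.span {π}) :=
    ⟨_, rfl⟩
  have hsurj : Function.Surjective f0 := by
    rw [hf0]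
    exact Ideal.Quotient.mk_surjective
  have hk0 : ∀ r, f0 r = 0 ↔ π ∣ r := by
    intro r
    rw [hf0, Ideal.Quotient.eq_zero_iff_mem, Ideal.mem_span_singleton]
  by_cases hs' : s.map f0 = 0
  · -- `π` is a unit in `A`
    have h1 : C π ∣ s := by
      rw [C_dvd_iff_dvd_coeff]
      intro i
      rw [← hk0, ← coeff_map, hs', coeff_zero]
    obtain ⟨g, hg⟩ := h1
    have h3 : IsUnit (algebraMap R[X] A (C π)) := by
      have h4 : IsUnit (algebraMap R[X] A s) := IsLocalization.Away.algebraMap_isUnit s
      rw [hg, map_mul] at h4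
      exact isUnit_of_mul_isUnit_left h4
    obtain ⟨v, hv⟩ := h3
    have h5 : Subsingleton N := by
      refine subsingleton_of_forall_eq 0 fun x => ?_
      have h6 := hk ((algebraMap A (BQ A a b c d) (v⁻¹ : Aˣ)) • x)
      rwa [← mul_smul, ← map_mul, ← hv, Units.mul_inv, map_one, one_smul] at h6
    exact PNg_zero ψ N
  · have hdom : IsDomain (Localization.Away (s.map f0)) :=
      IsLocalization.isDomain_localization (powers_le_nonZeroDivisors_of_noZeroDivisors hs')
    obtain ⟨F, hF, hFk⟩ := PNg_red π f0 hsurj hk0 (A := A) s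
      (A' := Localization.Away (s.map f0)) hs'
    let _ : Algebra A (Localization.Away (s.map f0)) := F.toAlgebra
    have hFa : ∀ x : A, algebraMap A (Localization.Away (s.map f0)) x = F x := fun x => rfl
    let Φ : BQ A a b c d →+* BQ (Localization.Away (s.map f0)) (F a) (F b) (F c) (F d) :=
      (Q4.BCQ_m2 (Localization.Away (s.map f0)) a b c d).toRingHom
    have hΦs : Function.Surjective Φ := PNg_m2_surj a b c d hF
    have hΦa : ∀ x : A, Φ (algebraMap A _ x) = algebraMap (Localization.Away (s.map f0)) _ (F x) := by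
      intro x
      have h1 : Φ (algebraMap A _ x) = algebraMap A _ x :=
        (Q4.BCQ_m2 (Localization.Away (s.map f0)) a b c d).commutes x
      rw [h1, IsScalarTower.algebraMap_apply A (Localization.Away (s.map f0)), hFa]
    have hker : ∀ z : BQ A a b c d, Φ z = 0 → ∀ x : N, z • x = 0 := by
      intro z hz x
      obtain ⟨y, rfl⟩ := PNg_m2_ker (B := Localization.Away (s.map f0)) a b c d
        (algebraMap R[X] A (C π)) (fun x hx => (hFk x).1 hx) z hz
      rw [mul_smul]
      exact hk _
    obtain ⟨i, hi⟩ := PNg_quot Φ hΦs N hker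
    have hi' : ∀ (z : BQ A a b c d) (x : N), Φ z • x = z • x := hi
    have hprime : Prime (algebraMap R[X] A (C π)) := by
      refine PNg_prime s hs (C π) (prime_C_iff.2 hπ) fun h1 => hs' ?_
      rw [C_dvd_iff_dvd_coeff] at h1
      ext j
      rw [coeff_map, coeff_zero, hk0]
      exact h1 j
    obtain ⟨x, hx, hxk⟩ := hN.2 _ hprime
    have hfinN : Module.Finite (BQ (Localization.Away (s.map f0)) (F a) (F b) (F c) (F d)) N := by
      obtain ⟨S, hS⟩ := Module.Finite.fg_top (R := BQ A a b c d) (M := N)
      refine ⟨⟨S, ?_⟩⟩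
      rw [eq_top_iff]
      rintro x -
      have hx : x ∈ Submodule.span (BQ A a b c d) (S : Set N) := by
        rw [hS]
        trivial
      induction hx using Submodule.span_induction with
      | mem y hy => exact Submodule.subset_span hy
      | zero => exact Submodule.zero_mem _
      | add y z _ _ h1 h2 => exact Submodule.add_mem _ h1 h2
      | smul z y _ h1 =>
        rw [← hi' z y]
        exact Submodule.smul_mem _ _ h1
    have h2' : (2 : R ⧸ Ideal.span {π}) ≠ 0 := by
      have h1 : IsUnit (f0 2) := h2.map f0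
      rw [map_ofNat] at h1
      exact h1.ne_zero
    have h := PTg hSL hSM (κ := R ⧸ Ideal.span {π}) h2' (s.map f0) hs'
      (A := Localization.Away (s.map f0)) (ha.map F) (hb.map F) (hc.map F) (hd.map F)
      (PNg_res Φ hΦs ψ) N ⟨F x, fun h1 => hx ?_, fun n => ?_⟩
    · change @NAdd.val _ _ Γ _ ψ N _ (Module.compHom N Φ) = 0 at h
      have e : Module.compHom N Φ = (inferInstance : Module (BQ A a b c d) N) :=
        Module.ext' _ _ fun z y => hi' z y
      rw [e] at h
      exact h
    · obtain ⟨y, hy⟩ := (hFk x).1 h1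
      exact ⟨y, hy⟩
    · rw [← hΦa, hi']
      exact hxk n

/-! ### the filtration -/

/-- multiplication by an element of the center -/
private def PNg_mul {A Λ : Type} [CommRing A] [Ring Λ] [Algebra A Λ] (p : A) (N : Type)
    [AddCommGroup N] [Module Λ N] : N →ₗ[Λ] N where
  toFun x := algebraMap A Λ p • x
  map_add' x y := smul_add _ x y
  map_smul' c x := by
    rw [smul_smul, RingHom.id_apply, smul_smul, Algebra.commutes]

private theorem PNg_null {A Λ : Type} [CommRing A] [Ring Λ] [Algebra A Λ] (N M : Type)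
    [AddCommGroup N] [Module Λ N] [AddCommGroup M] [Module Λ M]
    (h : ∀ s : A, Kil (Λ := Λ) s N → Kil (Λ := Λ) s M) (hN : PNul A Λ N) :
    PNul A Λ M := by
  obtain ⟨⟨s, hs, hk⟩, h2⟩ := hN
  refine ⟨⟨s, hs, h s hk⟩, fun q hq => ?_⟩
  obtain ⟨t, ht, hk⟩ := h2 q hq
  exact ⟨t, ht, h t hk⟩

theorem PNg (hSL : Q4.St_SLOT) (hSM : Q4.St_SIMQ) {R : Type} [CommRing R] [IsDomain R]
    [IsPrincipalIdealRing R] (hfin : ∀ π : R, Prime π → Finite (R ⧸ Ideal.span {π}))
    (h2 : IsUnit (2 : R)) {A : Type} [CommRing A] [IsDomain A] [Algebra R[X] A] (s : R[X])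
    (hs : s ≠ 0) [IsLocalization.Away s A] {a b c d : A} (ha : IsUnit a) (hb : IsUnit b)
    (hc : IsUnit c) (hd : IsUnit d) {Γ : Type 1} [AddCommGroup Γ] (ψ : NAdd (BQ A a b c d) Γ)
    (N : Type) [AddCommGroup N] [Module (BQ A a b c d) N] [Module.Finite (BQ A a b c d) N]
    (hN : PNul A (BQ A a b c d) N) : ψ.val N = 0 := by
  classical
  -- the claim for modules killed by a constant
  have key : ∀ r : R, r ≠ 0 → ∀ (N : Type) [AddCommGroup N] [Module (BQ A a b c d) N]
      [Module.Finite (BQ A a b c d) N], PNul A (BQ A a b c d) N →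
      Kil (Λ := BQ A a b c d) (algebraMap R[X] A (C r)) N → ψ.val N = 0 := by
    intro r
    refine UniqueFactorizationMonoid.induction_on_prime r (fun h => absurd rfl h) ?_ ?_
    · intro u hu _ N _ _ _ _ hk
      obtain ⟨u, rfl⟩ := hu
      have h5 : Subsingleton N := by
        refine subsingleton_of_forall_eq 0 fun x => ?_
        have h6 := hk ((algebraMap A (BQ A a b c d) (algebraMap R[X] A (C (u⁻¹ : Rˣ)))) • x)
        rwa [← mul_smul, ← map_mul, ← map_mul, ← map_mul, Units.mul_inv, map_one, map_one,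
          map_one, one_smul] at h6
      exact PNg_zero ψ N
    · intro r π hr hπ ih _ N _ _ _ hN hk
      let M := LinearMap.range (PNg_mul (Λ := BQ A a b c d) (algebraMap R[X] A (C π)) N)
      have hM : PNul A (BQ A a b c d) M := PNg_null N M (fun t ht x => Subtype.ext (ht x.1)) hN
      have hQ : PNul A (BQ A a b c d) (N ⧸ M) := PNg_null N (N ⧸ M) (fun t ht x => by
        obtain ⟨x, rfl⟩ := Submodule.Quotient.mk_surjective _ x
        rw [← Submodule.Quotient.mk_smul, ht x, Submodule.Quotient.mk_zero]) hN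
      have h1 : ψ.val M = 0 := by
        refine ih hr M hM ?_
        rintro ⟨x, y, rfl⟩
        refine Subtype.ext ?_
        change algebraMap A (BQ A a b c d) (algebraMap R[X] A (C r)) •
          (algebraMap A (BQ A a b c d) (algebraMap R[X] A (C π)) • y) = 0
        rw [smul_smul, ← map_mul, ← map_mul, ← map_mul, mul_comm]
        exact hk y
      have h3 : ψ.val (N ⧸ M) = 0 := by
        refine PNg_pi hSL hSM h2 π hπ (hfin π hπ) s hs ha hb hc hd ψ (N ⧸ M) hQ ?_
        intro x
        obtain ⟨x, rfl⟩ := Submodule.Quotient.mk_surjective _ x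
        rw [← Submodule.Quotient.mk_smul, Submodule.Quotient.mk_eq_zero]
        exact ⟨x, rfl⟩
      rw [ψ.add M N (N ⧸ M) M.subtype M.mkQ (Submodule.injective_subtype _)
        (Submodule.mkQ_surjective _) (LinearMap.exact_subtype_mkQ M), h1, h3, add_zero]
  -- the annihilator
  let I : Ideal A :=
    { carrier := {x | Kil (Λ := BQ A a b c d) x N}
      add_mem' := fun {x y} hx hy n => by
        rw [map_add, add_smul, hx n, hy n, add_zero]
      zero_mem' := fun n => by
        show algebraMap A (BQ A a b c d) 0 • n = 0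
        rw [map_zero]
        exact zero_smul (BQ A a b c d) n
      smul_mem' := fun c x hx n => by
        rw [smul_eq_mul, map_mul, mul_smul, hx n, smul_zero] }
  obtain ⟨⟨x, hx, hxk⟩, hN2⟩ := hN
  obtain ⟨r, hr, hrk⟩ := PNg_const s hs I ⟨x, hxk, hx⟩ fun q hq => by
    obtain ⟨t, ht, htk⟩ := hN2 q hq
    exact ⟨t, htk, ht⟩
  exact key r hr N ⟨⟨x, hx, hxk⟩, hN2⟩ hrk

end Pool.Agent.QTB
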