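import Pool.Agent.QTB.Defs

/-!
# QTB, module SWP: change of presentation of split biquaternion algebras

Proof. The matrices `(J, I, K, L)`, `(K, L, I, J)` and `(I, J L, g⁻¹ I K, L)` (`g = φ(g) ≠ 0` as `q ∤ g`): `(J L)² = b d`,
`I (J L) = -(J L) I`, `(g⁻¹ I K)² = g⁻² a c = a₁ c₁`, `(I K) L = -L (I K)`, `I` commutes with `I K`, `I` with `L`,
`(J L)(I K) = J I L K = (I J)(K L) = (I K)(J L)`, `(J L) L = L (J L)`.
-/

set_option autoImplicit false

namespace Pool.Agent.QTB

theorem SWP1 {A : Type} [CommRing A] {a b c d q : A} (h : SplAt a b c d q) : SplAt b a c d q := by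
  obtain ⟨E, iE, φ, hφ, I, J, K, L, hI, hJ, hIJ, hK, hL, hKL, hIK, hIL, hJK, hJL⟩ := h
  exact ⟨E, iE, φ, hφ, J, I, K, L, hJ, hI, by rw [hIJ, neg_neg], hK, hL, hKL, hJK, hJL, hIK, hIL⟩

theorem SWP2 {A : Type} [CommRing A] {a b c d q : A} (h : SplAt a b c d q) : SplAt c d a b q := by
  obtain ⟨E, iE, φ, hφ, I, J, K, L, hI, hJ, hIJ, hK, hL, hKL, hIK, hIL, hJK, hJL⟩ := h
  exact ⟨E, iE, φ, hφ, K, L, I, J, hK, hL, hKL, hI, hJ, hIJ, hIK.symm, hJK.symm, hIL.symm,
    hJL.symm⟩

/-- the identities in a ring -/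
private theorem SWP_ring {R : Type} [Ring R] {I J K L : R} (hIJ : I * J = -(J * I))
    (hKL : K * L = -(L * K)) (hIK : I * K = K * I) (hIL : I * L = L * I) (hJK : J * K = K * J)
    (hJL : J * L = L * J) :
    (J * L) * (J * L) = (J * J) * (L * L) ∧ I * (J * L) = -((J * L) * I) ∧
    (I * K) * (I * K) = (I * I) * (K * K) ∧ (I * K) * L = -(L * (I * K)) ∧
    I * (I * K) = (I * K) * I ∧ (J * L) * (I * K) = (I * K) * (J * L) ∧
    (J * L) * L = L * (J * L) := by
  refine ⟨?_, ?_, ?_, ?_, ?_, ?_, ?_⟩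
  · calc (J * L) * (J * L) = J * (L * J) * L := by simp only [mul_assoc]
      _ = J * (J * L) * L := by rw [← hJL]
      _ = (J * J) * (L * L) := by simp only [mul_assoc]
  · calc I * (J * L) = (I * J) * L := by rw [mul_assoc]
      _ = -(J * I) * L := by rw [hIJ]
      _ = -(J * (I * L)) := by rw [neg_mul, mul_assoc]
      _ = -(J * (L * I)) := by rw [hIL]
      _ = -((J * L) * I) := by rw [mul_assoc]
  · calc (I * K) * (I * K) = I * (K * I) * K := by simp only [mul_assoc]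
      _ = I * (I * K) * K := by rw [← hIK]
      _ = (I * I) * (K * K) := by simp only [mul_assoc]
  · calc (I * K) * L = I * (K * L) := by rw [mul_assoc]
      _ = I * -(L * K) := by rw [hKL]
      _ = -((I * L) * K) := by rw [mul_neg, mul_assoc]
      _ = -((L * I) * K) := by rw [hIL]
      _ = -(L * (I * K)) := by rw [mul_assoc]
  · calc I * (I * K) = I * (K * I) := by rw [hIK]
      _ = (I * K) * I := by rw [mul_assoc]
  · have e1 : (J * L) * (I * K) = (J * I) * (L * K) := by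
      calc (J * L) * (I * K) = J * (L * I) * K := by simp only [mul_assoc]
        _ = J * (I * L) * K := by rw [← hIL]
        _ = (J * I) * (L * K) := by simp only [mul_assoc]
    have e2 : (I * K) * (J * L) = (I * J) * (K * L) := by
      calc (I * K) * (J * L) = I * (K * J) * L := by simp only [mul_assoc]
        _ = I * (J * K) * L := by rw [← hJK]
        _ = (I * J) * (K * L) := by simp only [mul_assoc]
    rw [e1, e2, hIJ, hKL, neg_mul_neg]
  · calc (J * L) * L = (L * J) * L := by rw [hJL]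
      _ = L * (J * L) := by rw [mul_assoc]

theorem SWP3 {A : Type} [CommRing A] {a₁ b c₁ d q g : A} (hg : ¬ q ∣ g)
    (h : SplAt (g * a₁) b (g * c₁) d q) : SplAt (g * a₁) (b * d) (a₁ * c₁) d q := by
  obtain ⟨E, iE, φ, hφ, I, J, K, L, hI, hJ, hIJ, hK, hL, hKL, hIK, hIL, hJK, hJL⟩ := h
  have hg0 : φ g ≠ 0 := by
    intro h0
    have h1 : g ∈ RingHom.ker φ := h0
    rw [hφ.1, Ideal.mem_span_singleton] at h1
    exact hg h1
  obtain ⟨r1, r2, r3, r4, r5, r6, r7⟩ := SWP_ring hIJ hKL hIK hIL hJK hJL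
  refine ⟨E, iE, φ, hφ, I, J * L, (φ g)⁻¹ • (I * K), L, hI, ?_, r2, ?_, hL, ?_, ?_, hIL, ?_, r7⟩
  · rw [r1, hJ, hL, map_mul, smul_mul_smul_comm, one_mul]
  · rw [smul_mul_smul_comm, r3, hI, hK, smul_mul_smul_comm, one_mul, smul_smul]
    congr 1
    simp only [map_mul]
    field_simp
  · rw [smul_mul_assoc, r4, mul_smul_comm, smul_neg]
  · rw [mul_smul_comm, r5, smul_mul_assoc]
  · rw [mul_smul_comm, r6, smul_mul_assoc]

end Pool.Agent.QTB
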