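import Pool.Agent.QTB.Dat4
import Pool.Agent.QTB.CLA4
import Pool.Agent.QTB.SWP

/-!
# QTB, module PRES: parity for the eight kinds of bad primes

Proof. `e = ge G i`, `rest = grest G i`; both are units mod `Q`. If `e - β²` were divisible by `𝔮`, so would be `e rest² - (β rest)²`; so `e` is no
square mod `𝔮`. All `G j`, `j ≠ i`, are units mod `Q`. `CLA4` for the presentation
`i = 0`: `(ga, gb, gc, gd)`; `1`: `(gb, ga, gc, gd)`; `2`: `(gc, gd, ga, gb)`; `3`: `(gd, gc, ga, gb)`;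
`4`: `(ga, gb gd, (G 0 G 5)(G 2 G 6), gd)` (`SWP3` with `g = G 4`); `5`: `(ga, gb gc, (G 0 G 4)(G 3 G 7), gc)` (`c ↔ d` first, `g = G 5`);
`6`: `(gb, ga gd, (G 1 G 7)(G 2 G 4), gd)` (`a ↔ b` first, `g = G 6`); `7`: `(gb, ga gc, (G 1 G 6)(G 3 G 5), gc)` (`a ↔ b`, `c ↔ d`, `g = G 7`).
In each case the first entry is `Q a'` with `a'` a unit mod `Q`, the other three are units mod `Q`, the second is `e`.
-/

set_option autoImplicit false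

namespace Pool.Agent.QTB

open Polynomial Pool.Agent.QCB

theorem PRES {R : Type} [CommRing R] [IsDomain R] [IsPrincipalIdealRing R] (h2 : IsUnit (2 : R))
    (G : Fin 8 → R[X]) (p : R[X]) (hp : Prime p)
    (hs : SplAt (ga G) (gb G) (gc G) (gd G) p) (hpG : ∀ i, ¬ p ∣ G i) (i : Fin 8)
    (Q a' : R[X]) (𝔮 : AdjoinRoot Q) (hQ : Q.Monic) (hdom : IsDomain (AdjoinRoot Q))
    (hpid : IsPrincipalIdealRing (AdjoinRoot Q)) (hG : G i = Q * a')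
    (ha' : IsUnit (AdjoinRoot.mk Q a')) (hu : IsUnit (AdjoinRoot.mk Q (ge G i * grest G i ^ 2)))
    (h𝔮 : Prime 𝔮) (hfin : Finite (AdjoinRoot Q ⧸ Ideal.span {𝔮}))
    (hbn : ∀ β : AdjoinRoot Q, ¬ 𝔮 ∣ AdjoinRoot.mk Q (ge G i * grest G i ^ 2) - β ^ 2) :
    ∃ k : ℕ, 𝔮 ^ (2 * k) ∣ AdjoinRoot.mk Q p ∧ ¬ 𝔮 ^ (2 * k + 1) ∣ AdjoinRoot.mk Q p := by
  classical
  have hbn' : ∀ β : AdjoinRoot Q, ¬ 𝔮 ∣ AdjoinRoot.mk Q (ge G i) - β ^ 2 := by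
    intro β h
    apply hbn (β * AdjoinRoot.mk Q (grest G i))
    have h1 : AdjoinRoot.mk Q (ge G i * grest G i ^ 2) - (β * AdjoinRoot.mk Q (grest G i)) ^ 2 =
        (AdjoinRoot.mk Q (ge G i) - β ^ 2) * AdjoinRoot.mk Q (grest G i) ^ 2 := by
      rw [map_mul, map_pow]
      ring
    rw [h1]
    exact Dvd.dvd.mul_right h _
  rw [map_mul, map_pow] at hu
  have he : IsUnit (AdjoinRoot.mk Q (ge G i)) := isUnit_of_mul_isUnit_left hu
  have hr : IsUnit (AdjoinRoot.mk Q (grest G i)) :=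
    (isUnit_pow_iff (two_ne_zero)).mp (isUnit_of_mul_isUnit_right hu)
  have hj : ∀ j, j ≠ i → IsUnit (AdjoinRoot.mk Q (G j)) := by
    intro j hji
    refine isUnit_of_dvd_unit ?_ hr
    exact map_dvd _ (Finset.dvd_prod_of_mem G (Finset.mem_erase.mpr ⟨hji, Finset.mem_univ j⟩))
  have hm : ∀ x y : R[X], IsUnit (AdjoinRoot.mk Q x) → IsUnit (AdjoinRoot.mk Q y) →
      IsUnit (AdjoinRoot.mk Q (x * y)) := fun x y hx hy => by
    rw [map_mul]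
    exact hx.mul hy
  have hd : ∀ x y : R[X], ¬ p ∣ x → ¬ p ∣ y → ¬ p ∣ x * y := fun x y hx hy h =>
    (hp.dvd_or_dvd h).elim hx hy
  have hpa : ¬ p ∣ ga G := hd _ _ (hd _ _ (hpG 0) (hpG 4)) (hpG 5)
  have hpb : ¬ p ∣ gb G := hd _ _ (hd _ _ (hpG 1) (hpG 6)) (hpG 7)
  have hpc : ¬ p ∣ gc G := hd _ _ (hd _ _ (hpG 2) (hpG 4)) (hpG 6)
  have hpd : ¬ p ∣ gd G := hd _ _ (hd _ _ (hpG 3) (hpG 5)) (hpG 7)
  have hi : i = 0 ∨ i = 1 ∨ i = 2 ∨ i = 3 ∨ i = 4 ∨ i = 5 ∨ i = 6 ∨ i = 7 := by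
    clear hj hr he hbn' hbn hu hG
    revert i
    decide
  rcases hi with rfl | rfl | rfl | rfl | rfl | rfl | rfl | rfl
  · refine CLA4 h2 (ga G) (gb G) (gc G) (gd G) Q (a' * G 4 * G 5) p hQ ?_ ?_ he ?_ ?_ hp hpa hs 𝔮
      h𝔮 hfin hbn'
    · rw [ga, hG]
      ring
    · exact hm _ _ (hm _ _ ha' (hj 4 (by decide))) (hj 5 (by decide))
    · exact hm _ _ (hm _ _ (hj 2 (by decide)) (hj 4 (by decide))) (hj 6 (by decide))
    · exact hm _ _ (hm _ _ (hj 3 (by decide)) (hj 5 (by decide))) (hj 7 (by decide))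
  · refine CLA4 h2 (gb G) (ga G) (gc G) (gd G) Q (a' * G 6 * G 7) p hQ ?_ ?_ he ?_ ?_ hp hpb
      (SWP1 hs) 𝔮 h𝔮 hfin hbn'
    · rw [gb, hG]
      ring
    · exact hm _ _ (hm _ _ ha' (hj 6 (by decide))) (hj 7 (by decide))
    · exact hm _ _ (hm _ _ (hj 2 (by decide)) (hj 4 (by decide))) (hj 6 (by decide))
    · exact hm _ _ (hm _ _ (hj 3 (by decide)) (hj 5 (by decide))) (hj 7 (by decide))
  · refine CLA4 h2 (gc G) (gd G) (ga G) (gb G) Q (a' * G 4 * G 6) p hQ ?_ ?_ he ?_ ?_ hp hpc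
      (SWP2 hs) 𝔮 h𝔮 hfin hbn'
    · rw [gc, hG]
      ring
    · exact hm _ _ (hm _ _ ha' (hj 4 (by decide))) (hj 6 (by decide))
    · exact hm _ _ (hm _ _ (hj 0 (by decide)) (hj 4 (by decide))) (hj 5 (by decide))
    · exact hm _ _ (hm _ _ (hj 1 (by decide)) (hj 6 (by decide))) (hj 7 (by decide))
  · refine CLA4 h2 (gd G) (gc G) (ga G) (gb G) Q (a' * G 5 * G 7) p hQ ?_ ?_ he ?_ ?_ hp hpd
      (SWP1 (SWP2 hs)) 𝔮 h𝔮 hfin hbn'
    · rw [gd, hG]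
      ring
    · exact hm _ _ (hm _ _ ha' (hj 5 (by decide))) (hj 7 (by decide))
    · exact hm _ _ (hm _ _ (hj 0 (by decide)) (hj 4 (by decide))) (hj 5 (by decide))
    · exact hm _ _ (hm _ _ (hj 1 (by decide)) (hj 6 (by decide))) (hj 7 (by decide))
  · have h1 : SplAt (G 4 * (G 0 * G 5)) (gb G) (G 4 * (G 2 * G 6)) (gd G) p := by
      have e1 : G 4 * (G 0 * G 5) = ga G := by rw [ga]; ring
      have e2 : G 4 * (G 2 * G 6) = gc G := by rw [gc]; ring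
      rwa [e1, e2]
    refine CLA4 h2 (G 4 * (G 0 * G 5)) (gb G * gd G) (G 0 * G 5 * (G 2 * G 6)) (gd G) Q
      (a' * (G 0 * G 5)) p hQ ?_ ?_ he ?_ ?_ hp ?_ (SWP3 (hpG 4) h1) 𝔮 h𝔮 hfin hbn'
    · rw [hG]
      ring
    · exact hm _ _ ha' (hm _ _ (hj 0 (by decide)) (hj 5 (by decide)))
    · exact hm _ _ (hm _ _ (hj 0 (by decide)) (hj 5 (by decide)))
        (hm _ _ (hj 2 (by decide)) (hj 6 (by decide)))
    · exact hm _ _ (hm _ _ (hj 3 (by decide)) (hj 5 (by decide))) (hj 7 (by decide))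
    · exact hd _ _ (hpG 4) (hd _ _ (hpG 0) (hpG 5))
  · have h1 : SplAt (G 5 * (G 0 * G 4)) (gb G) (G 5 * (G 3 * G 7)) (gc G) p := by
      have e1 : G 5 * (G 0 * G 4) = ga G := by rw [ga]; ring
      have e2 : G 5 * (G 3 * G 7) = gd G := by rw [gd]; ring
      rw [e1, e2]
      exact SWP2 (SWP1 (SWP2 hs))
    refine CLA4 h2 (G 5 * (G 0 * G 4)) (gb G * gc G) (G 0 * G 4 * (G 3 * G 7)) (gc G) Q
      (a' * (G 0 * G 4)) p hQ ?_ ?_ he ?_ ?_ hp ?_ (SWP3 (hpG 5) h1) 𝔮 h𝔮 hfin hbn'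
    · rw [hG]
      ring
    · exact hm _ _ ha' (hm _ _ (hj 0 (by decide)) (hj 4 (by decide)))
    · exact hm _ _ (hm _ _ (hj 0 (by decide)) (hj 4 (by decide)))
        (hm _ _ (hj 3 (by decide)) (hj 7 (by decide)))
    · exact hm _ _ (hm _ _ (hj 2 (by decide)) (hj 4 (by decide))) (hj 6 (by decide))
    · exact hd _ _ (hpG 5) (hd _ _ (hpG 0) (hpG 4))
  · have h1 : SplAt (G 6 * (G 1 * G 7)) (ga G) (G 6 * (G 2 * G 4)) (gd G) p := by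
      have e1 : G 6 * (G 1 * G 7) = gb G := by rw [gb]; ring
      have e2 : G 6 * (G 2 * G 4) = gc G := by rw [gc]; ring
      rw [e1, e2]
      exact SWP1 hs
    refine CLA4 h2 (G 6 * (G 1 * G 7)) (ga G * gd G) (G 1 * G 7 * (G 2 * G 4)) (gd G) Q
      (a' * (G 1 * G 7)) p hQ ?_ ?_ he ?_ ?_ hp ?_ (SWP3 (hpG 6) h1) 𝔮 h𝔮 hfin hbn'
    · rw [hG]
      ring
    · exact hm _ _ ha' (hm _ _ (hj 1 (by decide)) (hj 7 (by decide)))
    · exact hm _ _ (hm _ _ (hj 1 (by decide)) (hj 7 (by decide)))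
        (hm _ _ (hj 2 (by decide)) (hj 4 (by decide)))
    · exact hm _ _ (hm _ _ (hj 3 (by decide)) (hj 5 (by decide))) (hj 7 (by decide))
    · exact hd _ _ (hpG 6) (hd _ _ (hpG 1) (hpG 7))
  · have h1 : SplAt (G 7 * (G 1 * G 6)) (ga G) (G 7 * (G 3 * G 5)) (gc G) p := by
      have e1 : G 7 * (G 1 * G 6) = gb G := by rw [gb]; ring
      have e2 : G 7 * (G 3 * G 5) = gd G := by rw [gd]; ring
      rw [e1, e2]
      exact SWP1 (SWP2 (SWP1 (SWP2 hs)))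
    refine CLA4 h2 (G 7 * (G 1 * G 6)) (ga G * gc G) (G 1 * G 6 * (G 3 * G 5)) (gc G) Q
      (a' * (G 1 * G 6)) p hQ ?_ ?_ he ?_ ?_ hp ?_ (SWP3 (hpG 7) h1) 𝔮 h𝔮 hfin hbn'
    · rw [hG]
      ring
    · exact hm _ _ ha' (hm _ _ (hj 1 (by decide)) (hj 6 (by decide)))
    · exact hm _ _ (hm _ _ (hj 1 (by decide)) (hj 6 (by decide)))
        (hm _ _ (hj 3 (by decide)) (hj 5 (by decide)))
    · exact hm _ _ (hm _ _ (hj 2 (by decide)) (hj 4 (by decide))) (hj 6 (by decide))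
    · exact hd _ _ (hpG 7) (hd _ _ (hpG 1) (hpG 6))

end Pool.Agent.QTB
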