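import Pool.Agent.QTB.Defs

/-!
# QTB, module TS0: systems of quadratic forms over finite fields

Proof. Chevalley-Warning for systems (`char_dvd_card_solutions_of_sum_lt` in Mathlib): the forms
`∑ M_k i j X_i X_j` have total degree at most two and no constant term; `2 r < n`, so the number of common
zeros is divisible by the characteristic, hence is not one. (`r = 0` or forms which are zero as
polynomials make no difference.)
-/

set_option autoImplicit false

namespace Pool.Agent.QTB

open Matrix

private noncomputable def TS0p {F : Type} [Field F] {n : ℕ} (M : Matrix (Fin n) (Fin n) F) :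
    MvPolynomial (Fin n) F :=
  ∑ i, ∑ j, MvPolynomial.C (M i j) * (MvPolynomial.X i * MvPolynomial.X j)

private theorem TS0_deg {F : Type} [Field F] {n : ℕ} (M : Matrix (Fin n) (Fin n) F) :
    (TS0p M).totalDegree ≤ 2 := by
  refine MvPolynomial.totalDegree_finsetSum_le fun i _ =>
    MvPolynomial.totalDegree_finsetSum_le fun j _ => ?_
  refine (MvPolynomial.totalDegree_mul _ _).trans ?_
  rw [MvPolynomial.totalDegree_C, zero_add]
  refine (MvPolynomial.totalDegree_mul _ _).trans ?_
  rw [MvPolynomial.totalDegree_X, MvPolynomial.totalDegree_X]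

private theorem TS0_ev {F : Type} [Field F] {n : ℕ} (M : Matrix (Fin n) (Fin n) F)
    (x : Fin n → F) : MvPolynomial.eval x (TS0p M) = x ⬝ᵥ (M *ᵥ x) := by
  simp only [TS0p, map_sum, map_mul, MvPolynomial.eval_C, MvPolynomial.eval_X, dotProduct, mulVec,
    Finset.mul_sum]
  refine Finset.sum_congr rfl fun i _ => Finset.sum_congr rfl fun j _ => ?_
  ring

theorem TS0 (F : Type) [Field F] [Finite F] : QSys 1 F := by
  classical
  intro r n M hr
  have := Fintype.ofFinite F
  obtain ⟨p, hp⟩ := CharP.exists F
  have hpp : p.Prime := by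
    rcases CharP.char_is_prime_or_zero F p with h | h
    · exact h
    · subst h
      have := CharP.charP_to_charZero F
      exact absurd (Finite.of_injective (Nat.cast : ℕ → F) Nat.cast_injective)
        (fun h => not_finite ℕ)
  have h1 : (∑ k ∈ (Finset.univ : Finset (Fin r)), (TS0p (M k)).totalDegree) <
      Fintype.card (Fin n) := by
    refine lt_of_le_of_lt (Finset.sum_le_sum fun k _ => TS0_deg (M k)) ?_
    simpa [mul_comm] using hr
  have h2 := char_dvd_card_solutions_of_sum_lt p h1
  by_contra hcon
  push Not at hcon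
  have h0 : ∀ k ∈ (Finset.univ : Finset (Fin r)),
      MvPolynomial.eval (0 : Fin n → F) (TS0p (M k)) = 0 := by
    intro k _
    rw [TS0_ev]
    simp
  have key : ∀ c : ℕ, p ∣ c → c = 1 → False := by
    intro c hc hc1
    subst hc1
    exact hpp.one_lt.ne' (Nat.dvd_one.mp hc)
  rw [Fintype.card_eq_nat_card] at h2
  refine key _ h2 (Nat.card_eq_one_iff_exists.mpr ⟨⟨0, h0⟩, ?_⟩)
  rintro ⟨x, hx⟩
  apply Subtype.ext
  by_contra hne
  obtain ⟨k, hk⟩ := hcon x hne
  apply hk
  have := hx k (Finset.mem_univ _)
  rwa [TS0_ev] at this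

end Pool.Agent.QTB
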