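import Pool.Agent.QTB.Defs

/-!
# QTB, module TS1: systems of quadratic forms over rational function fields

Proof. Multiply by a common denominator: the matrices have entries in `F[X]` of degree at most `e`.
Substitute `x_i = ∑_{j ≤ N} ξ_ij X^j`: each form becomes a polynomial in `X` of degree at most `2N + e` whose
coefficients are quadratic forms over `F` in the `n (N + 1)` variables `ξ_ij`. There are
`r (2N + e + 1)` of them and `2^m r (2N + e + 1) < n (N + 1)` for `N` large, since `n ≥ 2^(m+1) r + 1`.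
A nontrivial common zero `ξ` gives `x ≠ 0`.
-/

set_option autoImplicit false

namespace Pool.Agent.QTB

open Matrix Polynomial

private theorem TS1_fin {m : ℕ} {F : Type} [Field F] (h : QSys m F) {ι κ : Type} [Fintype ι]
    [Fintype κ] (M : κ → Matrix ι ι F) (hc : 2 ^ m * Fintype.card κ < Fintype.card ι) :
    ∃ x : ι → F, x ≠ 0 ∧ ∀ k, ∑ i, ∑ j, x i * M k i j * x j = 0 := by
  classical
  let e := Fintype.equivFin ι
  let f := Fintype.equivFin κ
  obtain ⟨x, hx, h1⟩ := h _ _ (fun k => (M (f.symm k)).submatrix e.symm e.symm) hc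
  refine ⟨fun i => x (e i), ?_, fun k => ?_⟩
  · intro h2
    apply hx
    funext i
    have h3 := congrFun h2 (e.symm i)
    simpa using h3
  · have h2 := h1 (f k)
    rw [f.symm_apply_apply] at h2
    have h3 : x ⬝ᵥ ((M k).submatrix e.symm e.symm *ᵥ x) =
        ∑ i, x i * ∑ j, M k (e.symm i) (e.symm j) * x j := rfl
    rw [h3, ← e.sum_comp] at h2
    rw [← h2]
    refine Finset.sum_congr rfl fun i _ => ?_
    rw [← e.sum_comp, Finset.mul_sum]
    refine Finset.sum_congr rfl fun j _ => ?_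
    rw [e.symm_apply_apply, e.symm_apply_apply, mul_assoc]

theorem TS1 {F K : Type} [Field F] [Field K] [Algebra F[X] K] [IsFractionRing F[X] K] (m : ℕ)
    (h : QSys m F) : QSys (m + 1) K := by
  classical
  intro r n M hn
  obtain ⟨b, hb⟩ := IsLocalization.exist_integer_multiples_of_finite (nonZeroDivisors F[X])
    (fun t : Fin r × Fin n × Fin n => M t.1 t.2.1 t.2.2)
  choose P hP using hb
  have hb0 : algebraMap F[X] K b ≠ 0 := by
    rw [Ne, FaithfulSMul.algebraMap_eq_zero_iff]
    exact nonZeroDivisors.ne_zero b.2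
  obtain ⟨e, he⟩ : ∃ e : ℕ, ∀ t, (P t).natDegree ≤ e :=
    ⟨Finset.univ.sup fun t => (P t).natDegree, fun t => Finset.le_sup (f := fun t => (P t).natDegree)
      (Finset.mem_univ t)⟩
  obtain ⟨N, hN⟩ : ∃ N : ℕ, N = 2 ^ m * r * (e + 1) := ⟨_, rfl⟩
  -- the forms over `F`
  let Q : Fin r × Fin (2 * N + e + 1) → Matrix (Fin n × Fin (N + 1)) (Fin n × Fin (N + 1)) F :=
    fun s => Matrix.of fun u v =>
      (X ^ (u.2 : ℕ) * P (s.1, u.1, v.1) * X ^ (v.2 : ℕ) : F[X]).coeff (s.2 : ℕ)
  have hcard : 2 ^ m * Fintype.card (Fin r × Fin (2 * N + e + 1)) <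
      Fintype.card (Fin n × Fin (N + 1)) := by
    rw [Fintype.card_prod, Fintype.card_prod, Fintype.card_fin, Fintype.card_fin, Fintype.card_fin,
      Fintype.card_fin]
    have h1 : (2 ^ (m + 1) * r + 1) * (N + 1) ≤ n * (N + 1) := Nat.mul_le_mul_right _ hn
    refine lt_of_lt_of_le ?_ h1
    have h2 : 2 ^ m * (r * (2 * N + e + 1)) = 2 ^ (m + 1) * r * N + N := by
      have h3 : 2 ^ m * (r * (2 * N + e + 1)) = 2 ^ (m + 1) * r * N + 2 ^ m * r * (e + 1) := by
        ring
      rw [h3, ← hN]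
    rw [h2]
    have h4 : (2 ^ (m + 1) * r + 1) * (N + 1) = 2 ^ (m + 1) * r * N + N + (2 ^ (m + 1) * r + 1) := by
      ring
    rw [h4]
    omega
  obtain ⟨ξ, hξ, h1⟩ := TS1_fin h Q hcard
  let y : Fin n → F[X] := fun i => ∑ a : Fin (N + 1), C (ξ (i, a)) * X ^ (a : ℕ)
  have hy : ∃ i, y i ≠ 0 := by
    by_contra hcon
    push Not at hcon
    apply hξ
    funext u
    have h2 := congrArg (fun p : F[X] => p.coeff (u.2 : ℕ)) (hcon u.1)
    simp only [y, finsetSum_coeff, coeff_C_mul, coeff_X_pow, coeff_zero] at h2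
    rw [Finset.sum_eq_single u.2] at h2
    · simpa using h2
    · intro a _ ha
      have : ¬ ((u.2 : ℕ) = (a : ℕ)) := fun h3 => ha (Fin.ext h3.symm)
      simp [this]
    · intro h3
      exact absurd (Finset.mem_univ _) h3
  have hzero : ∀ k, ∑ i, ∑ j, y i * P (k, i, j) * y j = 0 := by
    intro k
    have hexp : ∑ i, ∑ j, y i * P (k, i, j) * y j =
        ∑ u : Fin n × Fin (N + 1), ∑ v : Fin n × Fin (N + 1),
          C (ξ u * ξ v) * (X ^ (u.2 : ℕ) * P (k, u.1, v.1) * X ^ (v.2 : ℕ)) := by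
      rw [Fintype.sum_prod_type]
      refine Finset.sum_congr rfl fun i _ => ?_
      have h2 : ∀ a : Fin (N + 1), ∑ v : Fin n × Fin (N + 1),
          C (ξ (i, a) * ξ v) * (X ^ (a : ℕ) * P (k, i, v.1) * X ^ (v.2 : ℕ)) =
          ∑ j, ∑ c : Fin (N + 1), C (ξ (i, a) * ξ (j, c)) *
            (X ^ (a : ℕ) * P (k, i, j) * X ^ (c : ℕ)) := fun a => Fintype.sum_prod_type _
      simp only [h2]
      rw [Finset.sum_comm]
      refine Finset.sum_congr rfl fun j _ => ?_
      simp only [y]
      rw [Finset.sum_mul, Finset.sum_mul]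
      refine Finset.sum_congr rfl fun a _ => ?_
      rw [Finset.mul_sum]
      refine Finset.sum_congr rfl fun c _ => ?_
      rw [C_mul]
      ring
    rw [hexp]
    ext d
    simp only [finsetSum_coeff, coeff_C_mul, coeff_zero]
    by_cases hd : d < 2 * N + e + 1
    · rw [← h1 (k, ⟨d, hd⟩)]
      refine Finset.sum_congr rfl fun u _ => Finset.sum_congr rfl fun v _ => ?_
      simp only [Q, Matrix.of_apply]
      ring
    · refine Finset.sum_eq_zero fun u _ => Finset.sum_eq_zero fun v _ => ?_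
      have h2 : (X ^ (u.2 : ℕ) * P (k, u.1, v.1) * X ^ (v.2 : ℕ) : F[X]).coeff d = 0 := by
        apply coeff_eq_zero_of_natDegree_lt
        have h3 : (X ^ (u.2 : ℕ) * P (k, u.1, v.1) * X ^ (v.2 : ℕ) : F[X]).natDegree ≤
            (u.2 : ℕ) + e + (v.2 : ℕ) := by
          refine (natDegree_mul_le).trans (Nat.add_le_add ?_ (natDegree_X_pow_le _))
          exact (natDegree_mul_le).trans (Nat.add_le_add (natDegree_X_pow_le _) (he _))
        have h4 := u.2.2
        have h5 := v.2.2
        omega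
      rw [h2, mul_zero]
  clear_value y
  refine ⟨fun i => algebraMap F[X] K (y i), ?_, fun k => ?_⟩
  · intro h2
    obtain ⟨i, hi⟩ := hy
    have h3 := congrFun h2 i
    apply hi
    have h4 : algebraMap F[X] K (y i) = 0 := h3
    rwa [FaithfulSMul.algebraMap_eq_zero_iff] at h4
  · have h2 : algebraMap F[X] K b * ((fun i => algebraMap F[X] K (y i)) ⬝ᵥ
        (M k *ᵥ fun i => algebraMap F[X] K (y i))) =
        algebraMap F[X] K (∑ i, ∑ j, y i * P (k, i, j) * y j) := by
      have h3 : ((fun i => algebraMap F[X] K (y i)) ⬝ᵥ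
        (M k *ᵥ fun i => algebraMap F[X] K (y i))) = ∑ i : Fin n, algebraMap F[X] K (y i) *
          ∑ j : Fin n, M k i j * algebraMap F[X] K (y j) := rfl
      rw [h3, Finset.mul_sum, map_sum (algebraMap F[X] K)]
      refine Finset.sum_congr rfl fun i _ => ?_
      rw [map_sum (algebraMap F[X] K), Finset.mul_sum, Finset.mul_sum]
      refine Finset.sum_congr rfl fun j _ => ?_
      have h4 : algebraMap F[X] K (P (k, i, j)) = algebraMap F[X] K b * M k i j := by
        rw [hP (k, i, j), Algebra.smul_def]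
      rw [map_mul, map_mul, h4]
      ring
    rw [hzero k, map_zero] at h2
    exact (mul_eq_zero.1 h2).resolve_left hb0

end Pool.Agent.QTB
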