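import Pool.Agent.QTB.FORMg
import Pool.Agent.QTB.RGE4
import Pool.Agent.QTB.TS0
import Pool.Agent.QTB.TS1
import Pool.Agent.QCB.PT1
import Pool.Agent.Q4.StA2

/-!
# QTB, module PTg: torsion modules over a biquaternion order over a vertical line

Proof (compare QCB/PT1.lean). `A` is a principal ideal domain, `Λ = BQ A a b c d` is free of rank `16` (`bas`), `hSM` gives `Sim` for
all primes; `PNul N` implies `N = 0` (as in PT1), so `FORMg` applies: `t`, `r`. General facts: `rn` is multiplicative, `rn(h) = h ^ 16` for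
`h ∈ A`; so `rn z ≠ 0` if `z z' = h ≠ 0`. `z = q`: all members of the multiset are associated to `q`, so `16 = r_q k`, `k t_q = 0`;
`RGE4`: `r_q ≥ 4`, so `r_q ∈ {4, 8, 16}`.
Over `K = Frac κ[X]` the Albert form has six variables and `QSys 2 K` (`TS0`, `TS1`), so it is isotropic: `hSL` gives `m, b', d'`,
`x1, y1, x2, y2`; multiply `x1, y1, x2, y2` by one common denominator: they lie in `ℍ[A,a,b]`, `ℍ[A,c,d]` (coordinates numerators; `K` is
the fraction field of `A` too) and `m, b', d' ∈ A` are nonzero. In `Λ`: `X1 = x1 ⊗ 1`, `X2 = 1 ⊗ x2`, `Y1`, `Y2`; `I = X1`, `J = Y1 Y2`, `I² = m`,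
`J² = μ = b' d'`, `I J = -J I`: a ring homomorphism `ℍ[A,m,μ] → Λ`, `u ↦ z(u)`. `w = X1 X2` commutes with all `z(u)`, `w² = m²`, `Y2`
commutes with `z(u)` and anticommutes with `w`. For `z = z(u)` put `D = z (m + w) + (m - w)`, `D' = (m + w) + z (m - w)`. Then `Y2 D = D' Y2`,
`D D' = 4 m² z` (all factors commute; `(m+w)(m-w) = 0`). So `rn(D)² = rn(D) rn(D') = (4 m²) ^ 16 rn(z)`; `rn(z)² = nrm(u) ^ 16` (`z(u) z(star u) = nrm u`,
`conj_elem` gives `v` with `nrm v ≠ 0`, `v u = star u v`, so `rn z(u) = rn z(star u)`). So `rn(D) ^ 4 = (2 m) ^ 64 nrm(u) ^ 16` and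
`v_q(rn D) = 16 v_q(m) + 4 v_q(nrm u)`.
Let `g` be a prime of `A`; as in PT1 `QCB.CW` gives `u` with `nrm u = g n²`, `n ≠ 0` (`m`, `μ` times squares of units are polynomials).
`r_g` divides `v_g(rn D) = 16 v_g(m) + 4 + 8 v_g(n)`, so `r_g = 4`, for every prime `g`; `4 t_g = 0`. `u = g` (`nrm = g²`):
`2 t_g = 0`. Then `u` with `nrm u = g n²` gives `t_g = 0`. So `ψ(N) ∈ closure {0}`.
-/

set_option autoImplicit false

namespace Pool.Agent.QTB

open Quaternion QuaternionAlgebra Polynomial Pool.Agent.QCB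


section
variable {A Λ : Type} [CommRing A] [Ring Λ] [Algebra A Λ]

private theorem PTg_mul (x y : Λ) : rn (A := A) (x * y) = rn (A := A) x * rn (A := A) y := by
  unfold rn
  have h : LinearMap.mulRight A (x * y) =
      (LinearMap.mulRight A y).comp (LinearMap.mulRight A x) := by
    ext z
    simp [mul_assoc]
  rw [h, LinearMap.det_comp, mul_comm]

private theorem PTg_alg [Module.Free A Λ] [Module.Finite A Λ] (r : A) :
    rn (A := A) (algebraMap A Λ r) = r ^ Module.finrank A Λ := by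
  unfold rn
  have h : LinearMap.mulRight A (algebraMap A Λ r) = r • LinearMap.id := by
    ext z
    simp only [LinearMap.mulRight_apply, LinearMap.smul_apply, LinearMap.id_apply]
    rw [← Algebra.commutes, Algebra.smul_def]
  rw [h, LinearMap.det_smul, LinearMap.det_id, mul_one]

private theorem PTg_comm {c₁ c₃ : A} (B : QuaternionAlgebra.Basis Λ c₁ 0 c₃) {w : Λ}
    (hi : Commute w B.i) (hj : Commute w B.j) (u : ℍ[A,c₁,c₃]) : Commute w (B.liftHom u) := by
  have hk : Commute w B.k := by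
    rw [← B.i_mul_j]
    exact hi.mul_right hj
  have h1 : B.liftHom u = algebraMap A Λ u.re + u.imI • B.i + u.imJ • B.j + u.imK • B.k := rfl
  rw [h1]
  have h0 : Commute w (algebraMap A Λ u.re) := (Algebra.commutes u.re w).symm
  exact ((h0.add_right (hi.smul_right _)).add_right (hj.smul_right _)).add_right (hk.smul_right _)

/-- the elements `D` -/
private theorem PTg_D [IsDomain A] [Module.Free A Λ] [Module.Finite A Λ]
    (hr : Module.finrank A Λ = 16) (h2 : (2 : A) ≠ 0) {m b' d' : A} (hm : m ≠ 0) (hb : b' ≠ 0)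
    (hd : d' ≠ 0) {X1 Y1 X2 Y2 : Λ} (e1 : X1 * X1 = algebraMap A Λ m)
    (e2 : Y1 * Y1 = algebraMap A Λ b') (e3 : X1 * Y1 = -(Y1 * X1))
    (e4 : X2 * X2 = algebraMap A Λ m) (e5 : Y2 * Y2 = algebraMap A Λ d')
    (e6 : X2 * Y2 = -(Y2 * X2)) (c1 : X1 * X2 = X2 * X1) (c2 : X1 * Y2 = Y2 * X1)
    (c3 : Y1 * X2 = X2 * Y1) (c4 : Y1 * Y2 = Y2 * Y1) (u : ℍ[A,m,b' * d']) :
    ∃ D : Λ, rn (A := A) D ^ 4 = (2 * m) ^ 64 * nrm u ^ 16 := by
  let B : QuaternionAlgebra.Basis Λ m 0 (b' * d') :=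
    { i := X1
      j := Y1 * Y2
      k := X1 * (Y1 * Y2)
      i_mul_i := by rw [e1, zero_smul, add_zero, Algebra.algebraMap_eq_smul_one]
      j_mul_j := by
        calc Y1 * Y2 * (Y1 * Y2) = Y1 * (Y2 * Y1) * Y2 := by noncomm_ring
          _ = (Y1 * Y1) * (Y2 * Y2) := by rw [← c4]; noncomm_ring
          _ = (b' * d') • (1 : Λ) := by
            rw [e2, e5, ← map_mul, Algebra.algebraMap_eq_smul_one]
      i_mul_j := rfl
      j_mul_i := by
        rw [zero_smul, zero_sub]
        calc Y1 * Y2 * X1 = Y1 * (Y2 * X1) := by rw [mul_assoc]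
          _ = Y1 * X1 * Y2 := by rw [← c2, mul_assoc]
          _ = -(-(Y1 * X1)) * Y2 := by rw [neg_neg]
          _ = -(X1 * (Y1 * Y2)) := by rw [← e3]; noncomm_ring }
  have hcB : ∀ (w : Λ), Commute w X1 → Commute w (Y1 * Y2) → ∀ v : ℍ[A,m,b' * d'],
      Commute w (B.liftHom v) := fun w h1 h3 v => PTg_comm B h1 h3 v
  have hMc : ∀ (r : A) (x : Λ), algebraMap A Λ r * x = x * algebraMap A Λ r :=
    fun r x => Algebra.commutes r x
  set M : Λ := algebraMap A Λ m with hM
  -- the element `w`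
  have hw1 : X1 * X2 * X1 = X1 * (X1 * X2) := by rw [mul_assoc, ← c1]
  have hwY : X1 * X2 * (Y1 * Y2) = Y1 * Y2 * (X1 * X2) := by
    calc X1 * X2 * (Y1 * Y2) = X1 * (X2 * Y1) * Y2 := by noncomm_ring
      _ = (X1 * Y1) * (X2 * Y2) := by rw [← c3]; noncomm_ring
      _ = Y1 * (X1 * Y2) * X2 := by rw [e3, e6]; noncomm_ring
      _ = Y1 * Y2 * (X1 * X2) := by rw [c2]; noncomm_ring
  have hww : X1 * X2 * (X1 * X2) = M * M := by
    calc X1 * X2 * (X1 * X2) = X1 * X2 * X1 * X2 := by noncomm_ring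
      _ = X1 * X1 * (X2 * X2) := by rw [hw1]; noncomm_ring
      _ = M * M := by rw [e1, e4]
  have hY2w : Y2 * (X1 * X2) = -(X1 * X2 * Y2) := by
    calc Y2 * (X1 * X2) = (Y2 * X1) * X2 := by noncomm_ring
      _ = X1 * (-(-(Y2 * X2))) := by rw [← c2]; noncomm_ring
      _ = -(X1 * X2 * Y2) := by rw [← e6]; noncomm_ring
  have hcw : ∀ v : ℍ[A,m,b' * d'], Commute (X1 * X2) (B.liftHom v) := hcB _ hw1 hwY
  have hcY : ∀ v : ℍ[A,m,b' * d'], Commute Y2 (B.liftHom v) := hcB _ c2.symm (by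
    show Y2 * (Y1 * Y2) = Y1 * Y2 * Y2
    rw [← mul_assoc, ← c4])
  obtain ⟨z, hz⟩ : ∃ z : Λ, z = B.liftHom u := ⟨_, rfl⟩
  obtain ⟨w, hw⟩ : ∃ w : Λ, w = X1 * X2 := ⟨_, rfl⟩
  have hcw' := hcw u
  have hcY' := hcY u
  rw [← hz] at hcw' hcY'
  rw [← hw] at hcw' hww hY2w
  have hwz : w * z = z * w := hcw'
  have hYz : Y2 * z = z * Y2 := hcY'
  have hMz : M * z = z * M := hMc m z
  have hMw : M * w = w * M := hMc m w
  have hMY : M * Y2 = Y2 * M := hMc m Y2
  obtain ⟨P, hP⟩ : ∃ P : Λ, P = M + w := ⟨_, rfl⟩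
  obtain ⟨Q, hQ⟩ : ∃ Q : Λ, Q = M - w := ⟨_, rfl⟩
  have hPz : P * z = z * P := by rw [hP, add_mul, mul_add, hMz, hwz]
  have hQz : Q * z = z * Q := by rw [hQ, sub_mul, mul_sub, hMz, hwz]
  have hPQ : P * Q = 0 := by
    rw [hP, hQ]
    calc (M + w) * (M - w) = M * M - M * w + w * M - w * w := by noncomm_ring
      _ = 0 := by rw [hMw, hww]; noncomm_ring
  have hQP : Q * P = 0 := by
    rw [hP, hQ]
    calc (M - w) * (M + w) = M * M + M * w - w * M - w * w := by noncomm_ring
      _ = 0 := by rw [hMw, hww]; noncomm_ring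
  have hS : P * P + Q * Q = 4 • (M * M) := by
    rw [hP, hQ]
    calc (M + w) * (M + w) + (M - w) * (M - w) = 2 • (M * M) + 2 • (w * w) := by noncomm_ring
      _ = 4 • (M * M) := by rw [hww]; abel
  have hYP : Y2 * P = Q * Y2 := by
    rw [hP, hQ, mul_add, sub_mul, hY2w, hMY]
    noncomm_ring
  have hYQ : Y2 * Q = P * Y2 := by
    rw [hP, hQ, mul_sub, add_mul, hY2w, hMY]
    noncomm_ring
  obtain ⟨D, hD⟩ : ∃ D : Λ, D = z * P + Q := ⟨_, rfl⟩
  obtain ⟨D', hD'⟩ : ∃ D' : Λ, D' = P + z * Q := ⟨_, rfl⟩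
  have hDD : D * D' = algebraMap A Λ ((2 * m) ^ 2) * z := by
    rw [hD, hD']
    calc (z * P + Q) * (P + z * Q) = z * (P * P) + z * ((P * z) * Q) + Q * P + (Q * z) * Q := by
          noncomm_ring
      _ = z * (P * P + Q * Q) + z * z * (P * Q) + Q * P := by rw [hPz, hQz]; noncomm_ring
      _ = z * (4 • (M * M)) := by rw [hPQ, hQP, hS]; noncomm_ring
      _ = 4 • ((M * M) * z) := by
        rw [mul_smul_comm, ← mul_assoc, ← hMz, mul_assoc, ← hMz, ← mul_assoc]
      _ = algebraMap A Λ ((2 * m) ^ 2) * z := by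
        have h4 : algebraMap A Λ ((2 * m) ^ 2) = 4 • (M * M) := by
          rw [hM, ← map_mul, show (2 * m) ^ 2 = 4 * (m * m) by ring, map_mul, map_ofNat,
            nsmul_eq_mul]
          norm_num
        rw [h4, smul_mul_assoc]
  have hYD : Y2 * D = D' * Y2 := by
    rw [hD, hD']
    calc Y2 * (z * P + Q) = (Y2 * z) * P + Y2 * Q := by noncomm_ring
      _ = z * (Y2 * P) + Y2 * Q := by rw [hYz, mul_assoc]
      _ = (P + z * Q) * Y2 := by rw [hYP, hYQ]; noncomm_ring
  -- norms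
  have hralg : ∀ r : A, rn (A := A) (algebraMap A Λ r) = r ^ 16 := fun r => by
    rw [PTg_alg, hr]
  have hrY : rn (A := A) Y2 ≠ 0 := by
    intro h0
    have h3 := congrArg (rn (A := A)) e5
    rw [PTg_mul, h0, zero_mul, hralg] at h3
    exact pow_ne_zero 16 hd h3.symm
  have hrD : rn (A := A) D = rn (A := A) D' := by
    have h3 := congrArg (rn (A := A)) hYD
    rw [PTg_mul, PTg_mul, mul_comm (rn (A := A) D')] at h3
    exact mul_left_cancel₀ hrY h3
  have hrDD : rn (A := A) D ^ 2 = ((2 * m) ^ 2) ^ 16 * rn (A := A) z := by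
    have h3 := congrArg (rn (A := A)) hDD
    rw [PTg_mul, PTg_mul, hralg, ← hrD] at h3
    rw [sq, h3]
  have hμ : b' * d' ≠ 0 := mul_ne_zero hb hd
  -- the norm of `z u`
  have hzz : ∀ v : ℍ[A,m,b' * d'], rn (A := A) (B.liftHom v) * rn (A := A) (B.liftHom (star v)) =
      nrm v ^ 16 := by
    intro v
    rw [← PTg_mul, ← map_mul, QCB.mul_star_self', AlgHom.commutes, hralg]
  have hrz : rn (A := A) z ^ 2 = nrm u ^ 16 := by
    obtain ⟨v, hv, hvu⟩ := conj_elem hm hμ h2 u
    have h3 := congrArg (fun x => rn (A := A) (B.liftHom x)) hvu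
    simp only [map_mul, PTg_mul] at h3
    have h4 : rn (A := A) (B.liftHom v) ≠ 0 := by
      intro h0
      have h5 := hzz v
      rw [h0, zero_mul] at h5
      exact pow_ne_zero 16 hv h5.symm
    have h5 : rn (A := A) (B.liftHom u) = rn (A := A) (B.liftHom (star u)) := by
      rw [mul_comm (rn (A := A) (B.liftHom (star u)))] at h3
      exact mul_left_cancel₀ h4 h3
    rw [sq, hz]
    conv_lhs => rw [h5]
    have h6 := hzz u
    rw [h5] at h6
    exact h6
  refine ⟨D, ?_⟩
  calc rn (A := A) D ^ 4 = (rn (A := A) D ^ 2) ^ 2 := by ring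
    _ = (2 * m) ^ 64 * rn (A := A) z ^ 2 := by rw [hrDD]; ring
    _ = (2 * m) ^ 64 * nrm u ^ 16 := by rw [hrz]

end


section
variable {A K : Type} [CommRing A] [Field K] (ι : A →+* K) {a b : A}

/-- the map of quaternion algebras -/
private def PTg_q (x : ℍ[A,a,b]) : ℍ[K,ι a,ι b] := ⟨ι x.re, ι x.imI, ι x.imJ, ι x.imK⟩

private theorem PTg_q_mul (x y : ℍ[A,a,b]) : PTg_q ι (x * y) = PTg_q ι x * PTg_q ι y := by
  ext <;> simp [PTg_q]

private theorem PTg_q_neg (x : ℍ[A,a,b]) : PTg_q ι (-x) = -PTg_q ι x := by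
  ext <;> simp [PTg_q]

private theorem PTg_q_inj (hι : Function.Injective ι) {x y : ℍ[A,a,b]}
    (h : PTg_q ι x = PTg_q ι y) : x = y := by
  have h1 := congrArg QuaternionAlgebra.re h
  have h2 := congrArg QuaternionAlgebra.imI h
  have h3 := congrArg QuaternionAlgebra.imJ h
  have h4 := congrArg QuaternionAlgebra.imK h
  exact QuaternionAlgebra.ext (hι h1) (hι h2) (hι h3) (hι h4)

private theorem PTg_q_sq (hι : Function.Injective ι) {x' : ℍ[A,a,b]} {x : ℍ[K,ι a,ι b]} {δ m : K}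
    (h : PTg_q ι x' = δ • x) (hx : x * x = algebraMap K _ m) :
    x' * x' = algebraMap A _ (x' * x').re ∧ ι (x' * x').re = δ ^ 2 * m := by
  have h1 : PTg_q ι (x' * x') = algebraMap K _ (δ ^ 2 * m) := by
    rw [PTg_q_mul, h, smul_mul_assoc, mul_smul_comm, smul_smul, hx, map_mul, ← sq,
      Algebra.smul_def, map_pow]
  have h2 : ι (x' * x').re = δ ^ 2 * m := by
    have := congrArg QuaternionAlgebra.re h1
    rw [QuaternionAlgebra.algebraMap_eq] at this
    exact this
  refine ⟨PTg_q_inj ι hι ?_, h2⟩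
  rw [h1, ← h2, QuaternionAlgebra.algebraMap_eq, QuaternionAlgebra.algebraMap_eq]
  ext <;> simp [PTg_q]

end

private theorem PTg_slot (hSL : Q4.St_SLOT) {κ : Type} [Field κ] [Finite κ]
    (h2 : (2 : κ) ≠ 0) {A : Type} [CommRing A] [IsDomain A] [Algebra κ[X] A] (s : κ[X])
    (hs : s ≠ 0) [IsLocalization.Away s A] {a b c d : A} (ha : a ≠ 0) (hb : b ≠ 0)
    (hc : c ≠ 0) (hd : d ≠ 0) :
    ∃ (m b' d' : A) (x1 y1 : ℍ[A,a,b]) (x2 y2 : ℍ[A,c,d]), m ≠ 0 ∧ b' ≠ 0 ∧ d' ≠ 0 ∧
      x1 * x1 = algebraMap A _ m ∧ y1 * y1 = algebraMap A _ b' ∧ x1 * y1 = -(y1 * x1) ∧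
      x2 * x2 = algebraMap A _ m ∧ y2 * y2 = algebraMap A _ d' ∧ x2 * y2 = -(y2 * x2) := by
  classical
  obtain ⟨ι, hι⟩ : ∃ ι : A →+* FractionRing κ[X],
      ι.comp (algebraMap κ[X] A) = algebraMap κ[X] (FractionRing κ[X]) := by
    refine ⟨IsLocalization.lift (M := Submonoid.powers s)
      (g := algebraMap κ[X] (FractionRing κ[X])) ?_, IsLocalization.lift_comp _⟩
    rintro ⟨_, n, rfl⟩
    have h1 : algebraMap κ[X] (FractionRing κ[X]) (s ^ n) ≠ 0 := by
      rw [Ne, FaithfulSMul.algebraMap_eq_zero_iff]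
      exact pow_ne_zero n hs
    exact isUnit_iff_ne_zero.2 h1
  have hιa : ∀ x : κ[X], ι (algebraMap κ[X] A x) = algebraMap κ[X] (FractionRing κ[X]) x :=
    fun x => RingHom.congr_fun hι x
  have hsu : IsUnit (algebraMap κ[X] A s) := IsLocalization.Away.algebraMap_isUnit s
  have hinj : Function.Injective ι := by
    rw [injective_iff_map_eq_zero]
    intro x hx
    obtain ⟨n, x0, hx0⟩ := IsLocalization.Away.surj s x
    have h1 := congrArg ι hx0
    rw [map_mul, hx, zero_mul, hιa] at h1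
    have h3 : x0 = 0 := by
      rw [← FaithfulSMul.algebraMap_eq_zero_iff κ[X] (FractionRing κ[X])]
      exact h1.symm
    rw [h3, map_zero] at hx0
    exact (mul_eq_zero.1 hx0).resolve_right (hsu.pow n).ne_zero
  have hne : ∀ {x : A}, x ≠ 0 → ι x ≠ 0 := fun hx h => hx (hinj (by rw [h, map_zero]))
  have h2K : (2 : FractionRing κ[X]) ≠ 0 := by
    have h3 : algebraMap κ[X] (FractionRing κ[X]) (C (2 : κ)) = 2 := by
      rw [show (C (2 : κ) : κ[X]) = 2 from map_ofNat C 2, map_ofNat]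
    rw [← h3, Ne, FaithfulSMul.algebraMap_eq_zero_iff]
    exact C_ne_zero.2 h2
  -- an isotropic vector
  obtain ⟨x, hx0, hx⟩ := TS1 (F := κ) (K := FractionRing κ[X]) 1 (TS0 κ) 1 6
    (fun _ => Matrix.diagonal (alc (ι a) (ι b) (ι c) (ι d))) (by norm_num)
  have hx1 : dg (alc (ι a) (ι b) (ι c) (ι d)) x x = 0 := by
    rw [← hx 0]
    unfold dg dotProduct
    refine Finset.sum_congr rfl fun i _ => ?_
    rw [Matrix.mulVec_diagonal]
    ring
  obtain ⟨m, b', d', x1, y1, x2, y2, hm, hb', hd', e1, e2, e3, e4, e5, e6⟩ :=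
    hSL (FractionRing κ[X]) (ι a) (ι b) (ι c) (ι d) h2K (hne ha) (hne hb) (hne hc) (hne hd) x hx0
      hx1
  -- the common denominator
  obtain ⟨δ, hδ⟩ := IsLocalization.exist_integer_multiples_of_finite (nonZeroDivisors κ[X])
    (fun t : Fin 4 × Fin 4 => (![![x1.re, x1.imI, x1.imJ, x1.imK],
      ![y1.re, y1.imI, y1.imJ, y1.imK], ![x2.re, x2.imI, x2.imJ, x2.imK],
      ![y2.re, y2.imI, y2.imJ, y2.imK]] : Fin 4 → Fin 4 → FractionRing κ[X]) t.1 t.2)
  choose P hP using hδ
  set D : FractionRing κ[X] := algebraMap κ[X] (FractionRing κ[X]) δ with hD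
  have hD0 : D ≠ 0 := by
    rw [hD, Ne, FaithfulSMul.algebraMap_eq_zero_iff]
    exact nonZeroDivisors.ne_zero δ.2
  have hP' : ∀ i j, ι (algebraMap κ[X] A (P (i, j))) = D *
      (![![x1.re, x1.imI, x1.imJ, x1.imK],
      ![y1.re, y1.imI, y1.imJ, y1.imK], ![x2.re, x2.imI, x2.imJ, x2.imK],
      ![y2.re, y2.imI, y2.imJ, y2.imK]] : Fin 4 → Fin 4 → FractionRing κ[X]) i j := by
    intro i j
    rw [hιa, hP (i, j), Algebra.smul_def]
  let X1 : ℍ[A,a,b] := ⟨algebraMap κ[X] A (P (0, 0)), algebraMap κ[X] A (P (0, 1)),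
    algebraMap κ[X] A (P (0, 2)), algebraMap κ[X] A (P (0, 3))⟩
  let Y1 : ℍ[A,a,b] := ⟨algebraMap κ[X] A (P (1, 0)), algebraMap κ[X] A (P (1, 1)),
    algebraMap κ[X] A (P (1, 2)), algebraMap κ[X] A (P (1, 3))⟩
  let X2 : ℍ[A,c,d] := ⟨algebraMap κ[X] A (P (2, 0)), algebraMap κ[X] A (P (2, 1)),
    algebraMap κ[X] A (P (2, 2)), algebraMap κ[X] A (P (2, 3))⟩
  let Y2 : ℍ[A,c,d] := ⟨algebraMap κ[X] A (P (3, 0)), algebraMap κ[X] A (P (3, 1)),
    algebraMap κ[X] A (P (3, 2)), algebraMap κ[X] A (P (3, 3))⟩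
  have q1 : PTg_q ι X1 = D • x1 :=
    QuaternionAlgebra.ext (hP' 0 0) (hP' 0 1) (hP' 0 2) (hP' 0 3)
  have q2 : PTg_q ι Y1 = D • y1 :=
    QuaternionAlgebra.ext (hP' 1 0) (hP' 1 1) (hP' 1 2) (hP' 1 3)
  have q3 : PTg_q ι X2 = D • x2 :=
    QuaternionAlgebra.ext (hP' 2 0) (hP' 2 1) (hP' 2 2) (hP' 2 3)
  have q4 : PTg_q ι Y2 = D • y2 :=
    QuaternionAlgebra.ext (hP' 3 0) (hP' 3 1) (hP' 3 2) (hP' 3 3)
  obtain ⟨s1, t1⟩ := PTg_q_sq ι hinj q1 e1
  obtain ⟨s2, t2⟩ := PTg_q_sq ι hinj q2 e2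
  obtain ⟨s3, t3⟩ := PTg_q_sq ι hinj q3 e4
  obtain ⟨s4, t4⟩ := PTg_q_sq ι hinj q4 e5
  have hnz : ∀ {z : A} {w : FractionRing κ[X]}, w ≠ 0 → ι z = D ^ 2 * w → z ≠ 0 := by
    rintro z w hw h rfl
    rw [map_zero] at h
    exact mul_ne_zero (pow_ne_zero 2 hD0) hw h.symm
  have hmm : (X2 * X2).re = (X1 * X1).re := hinj (by rw [t1, t3])
  refine ⟨(X1 * X1).re, (Y1 * Y1).re, (Y2 * Y2).re, X1, Y1, X2, Y2, hnz hm t1, hnz hb' t2,
    hnz hd' t4, s1, s2, ?_, ?_, s4, ?_⟩
  · refine PTg_q_inj ι hinj ?_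
    rw [PTg_q_neg, PTg_q_mul, PTg_q_mul, q1, q2, smul_mul_smul_comm, smul_mul_smul_comm, e3,
      smul_neg]
  · rw [← hmm]
    exact s3
  · refine PTg_q_inj ι hinj ?_
    rw [PTg_q_neg, PTg_q_mul, PTg_q_mul, q3, q4, smul_mul_smul_comm, smul_mul_smul_comm, e6,
      smul_neg]

theorem PTg (hSL : Q4.St_SLOT) (hSM : Q4.St_SIMQ) {κ : Type} [Field κ] [Finite κ]
    (h2 : (2 : κ) ≠ 0) {A : Type} [CommRing A] [IsDomain A] [Algebra κ[X] A] (s : κ[X])
    (hs : s ≠ 0) [IsLocalization.Away s A] {a b c d : A} (ha : IsUnit a) (hb : IsUnit b)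
    (hc : IsUnit c) (hd : IsUnit d) {Γ : Type 1} [AddCommGroup Γ] (ψ : NAdd (BQ A a b c d) Γ)
    (N : Type) [AddCommGroup N] [Module (BQ A a b c d) N] [Module.Finite (BQ A a b c d) N]
    (hN : ∃ x : A, x ≠ 0 ∧ Kil (Λ := BQ A a b c d) x N) : ψ.val N = 0 := by
  classical
  -- `A` is a principal ideal domain
  have hpid : IsPrincipalIdealRing A := by
    refine ⟨fun I => ?_⟩
    obtain ⟨g, hg⟩ := (IsPrincipalIdealRing.principal (I.comap (algebraMap κ[X] A))).principal
    refine ⟨algebraMap κ[X] A g, ?_⟩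
    have h1 : (I.comap (algebraMap κ[X] A)).map (algebraMap κ[X] A) = I :=
      IsLocalization.map_under (Submonoid.powers s) A I
    have h3 : I.comap (algebraMap κ[X] A) = Ideal.span {g} := hg
    rw [h3, Ideal.map_span, Set.image_singleton] at h1
    exact h1.symm
  have hinj : Function.Injective (algebraMap κ[X] A) :=
    IsLocalization.injective A (powers_le_nonZeroDivisors_of_noZeroDivisors hs)
  have hsu : IsUnit (algebraMap κ[X] A s) := IsLocalization.Away.algebraMap_isUnit s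
  have h2A : IsUnit (2 : A) := by
    have h3 : IsUnit (algebraMap κ[X] A (C (2 : κ))) :=
      ((isUnit_iff_ne_zero.2 h2).map C).map (algebraMap κ[X] A)
    have h4 : algebraMap κ[X] A (C (2 : κ)) = 2 := by
      rw [show (C (2 : κ) : κ[X]) = 2 from map_ofNat C 2, map_ofNat]
    rwa [h4] at h3
  have hfree : Module.Free A (BQ A a b c d) := Module.Free.of_basis (bas a b c d)
  have hfin : Module.Finite A (BQ A a b c d) := Module.Finite.of_basis (bas a b c d)
  have hrk : Module.finrank A (BQ A a b c d) = 16 := by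
    rw [Module.finrank_eq_card_basis (bas a b c d)]
    rfl
  have hnt : Nontrivial (BQ A a b c d) :=
    Module.nontrivial_of_finrank_pos (R := A) (by rw [hrk]; norm_num)
  have hsim : ∀ q : A, Prime q → Sim A (BQ A a b c d) q := fun q hq =>
    hSM A a b c d q h2A ha hb hc hd (Or.inl hq)
  obtain ⟨t, r, htr, hrep, hrel, htN⟩ := FORMg (A := A) hsim ψ (fun N _ _ _ hP => by
    -- a module with zero support is trivial
    obtain ⟨⟨s', hs', hk'⟩, hq⟩ := hP
    let I : Ideal A :=
      { carrier := {x | Kil (Λ := BQ A a b c d) x N}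
        add_mem' := fun {x y} hx hy n => by rw [map_add, add_smul, hx n, hy n, add_zero]
        zero_mem' := fun n => by
          rw [map_zero]
          exact zero_smul (BQ A a b c d) n
        smul_mem' := fun c x hx n => by
          rw [smul_eq_mul, map_mul, mul_smul, hx n, smul_zero] }
    obtain ⟨g, hg⟩ := (IsPrincipalIdealRing.principal I).principal
    have hmem : ∀ x : A, Kil (Λ := BQ A a b c d) x N ↔ g ∣ x := by
      intro x
      have h3 : x ∈ I ↔ x ∈ Ideal.span {g} := by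
        rw [hg]
      exact h3.trans Ideal.mem_span_singleton
    have hg0 : g ≠ 0 := by
      intro h0
      have h3 := (hmem s').1 hk'
      rw [h0, zero_dvd_iff] at h3
      exact hs' h3
    have hgu : IsUnit g := by
      by_contra hgu
      obtain ⟨q, hq1, hq2⟩ := WfDvdMonoid.exists_irreducible_factor hgu hg0
      obtain ⟨x, hx1, hx2⟩ := hq q hq1.prime
      exact hx1 (hq2.trans ((hmem x).1 hx2))
    have h1 : Kil (Λ := BQ A a b c d) (1 : A) N := (hmem 1).2 hgu.dvd
    have hsub : Subsingleton N := by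
      refine ⟨fun x y => ?_⟩
      have hx := h1 x
      have hy := h1 y
      rw [map_one, one_smul] at hx hy
      rw [hx, hy]
    have h3 := ψ.add N N N (LinearMap.id) (LinearMap.id) (fun x y _ => Subsingleton.elim x y)
      (fun x => ⟨x, rfl⟩) (fun x => ⟨fun _ => ⟨x, rfl⟩, fun _ => Subsingleton.elim _ _⟩)
    exact left_eq_add.1 h3)
  have hr4 : ∀ q : A, Prime q → 4 ≤ r q := fun q hq =>
    RGE4 q (hsim q hq) (r q) (hrep q hq).1 (hrep q hq).2
  -- the slot
  obtain ⟨m, b', d', x1, y1, x2, y2, hm, hb', hd', e1, e2, e3, e4, e5, e6⟩ :=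
    PTg_slot hSL h2 s hs ha.ne_zero hb.ne_zero hc.ne_zero hd.ne_zero
  have hD : ∀ u : ℍ[A,m,b' * d'], ∃ D : BQ A a b c d,
      rn (A := A) D ^ 4 = (2 * m) ^ 64 * nrm u ^ 16 := by
    intro u
    have hl : ∀ x y : ℍ[A,a,b], ((x * y) ⊗ₜ[A] (1 : ℍ[A,c,d]) : BQ A a b c d) =
        (x ⊗ₜ[A] 1) * (y ⊗ₜ[A] 1) := fun x y => by
      rw [Algebra.TensorProduct.tmul_mul_tmul, mul_one]
    have hr : ∀ x y : ℍ[A,c,d], ((1 : ℍ[A,a,b]) ⊗ₜ[A] (x * y) : BQ A a b c d) =
        (1 ⊗ₜ[A] x) * (1 ⊗ₜ[A] y) := fun x y => by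
      rw [Algebra.TensorProduct.tmul_mul_tmul, mul_one]
    have hlr : ∀ (x : ℍ[A,a,b]) (y : ℍ[A,c,d]), (x ⊗ₜ[A] (1 : ℍ[A,c,d]) : BQ A a b c d) *
        (1 ⊗ₜ[A] y) = (1 ⊗ₜ[A] y) * (x ⊗ₜ[A] 1) := fun x y => by
      rw [Algebra.TensorProduct.tmul_mul_tmul, Algebra.TensorProduct.tmul_mul_tmul, mul_one,
        one_mul, mul_one, one_mul]
    have hal : ∀ z : A, (algebraMap A ℍ[A,a,b] z ⊗ₜ[A] (1 : ℍ[A,c,d]) : BQ A a b c d) =
        algebraMap A _ z := fun z => rfl
    have har : ∀ z : A, ((1 : ℍ[A,a,b]) ⊗ₜ[A] algebraMap A ℍ[A,c,d] z : BQ A a b c d) =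
        algebraMap A _ z := fun z => by
      rw [← hal, Algebra.algebraMap_eq_smul_one, Algebra.algebraMap_eq_smul_one,
        TensorProduct.tmul_smul, TensorProduct.smul_tmul']
    refine PTg_D (A := A) (Λ := BQ A a b c d) hrk h2A.ne_zero hm hb' hd'
      (X1 := x1 ⊗ₜ[A] 1) (Y1 := y1 ⊗ₜ[A] 1) (X2 := 1 ⊗ₜ[A] x2) (Y2 := 1 ⊗ₜ[A] y2)
      ?_ ?_ ?_ ?_ ?_ ?_ (hlr _ _) (hlr _ _) (hlr _ _) (hlr _ _) u
    · rw [← hl, e1, hal]
    · rw [← hl, e2, hal]
    · rw [← hl, ← hl, e3, TensorProduct.neg_tmul]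
    · rw [← hr, e4, har]
    · rw [← hr, e5, har]
    · rw [← hr, ← hr, e6, TensorProduct.tmul_neg]
  -- multiplicities
  have hval : ∀ g : A, Prime g → ∀ M : Multiset A, (∀ q ∈ M, Prime q) →
      ∃ k : ℕ, emultiplicity g (M.map fun q => q ^ r q).prod = ((r g * k : ℕ) : ℕ∞) := by
    intro g hg M
    induction M using Multiset.induction_on with
    | empty =>
      intro _
      refine ⟨0, ?_⟩
      rw [Multiset.map_zero, Multiset.prod_zero, mul_zero]
      exact emultiplicity_of_one_right hg.not_isUnit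
    | cons q M ih =>
      intro hM
      obtain ⟨k, hk⟩ := ih fun q' hq' => hM q' (Multiset.mem_cons_of_mem hq')
      have hq := hM q (Multiset.mem_cons_self q M)
      rw [Multiset.map_cons, Multiset.prod_cons, emultiplicity_mul hg, hk,
        emultiplicity_pow hg]
      by_cases hgq : g ∣ q
      · have h3 : Associated g q := hg.associated_of_dvd hq hgq
        have h4 : emultiplicity g q = 1 := by
          rw [← emultiplicity_eq_of_associated_right h3]
          have := emultiplicity_pow_self_of_prime hg 1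
          rwa [pow_one] at this
        refine ⟨k + 1, ?_⟩
        rw [h4, ← (htr g q h3).2, mul_one, mul_add, mul_one, Nat.cast_add, add_comm]
      · refine ⟨k, ?_⟩
        rw [emultiplicity_eq_zero.2 hgq, mul_zero, zero_add]
  have hfm : ∀ g x : A, Prime g → x ≠ 0 → ∃ k : ℕ, emultiplicity g x = k := fun g x hg hx =>
    ⟨_, (FiniteMultiplicity.of_prime_left hg hx).emultiplicity_eq_multiplicity⟩
  -- the relation of a scalar
  have hscal : ∀ g : A, Prime g → ∃ k : ℕ, r g * k = 16 ∧ k • t g = 0 := by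
    intro g hg
    have h3 : rn (A := A) (algebraMap A (BQ A a b c d) g) = g ^ 16 := by
      rw [PTg_alg, hrk]
    obtain ⟨M, hM, hMa, hMt⟩ := hrel (algebraMap A _ g) (by
      rw [h3]
      exact pow_ne_zero 16 hg.ne_zero)
    rw [h3] at hMa
    have hall : ∀ q ∈ M, Associated q g := by
      intro q hq
      have h4 : q ∣ (M.map fun q => q ^ r q).prod :=
        (dvd_pow_self q (hrep q (hM q hq)).1.ne').trans
          (Multiset.dvd_prod (Multiset.mem_map_of_mem _ hq))
      exact (hM q hq).associated_of_dvd hg ((hM q hq).dvd_of_dvd_pow (h4.trans hMa.symm.dvd))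
    have h5 : ∀ M' : Multiset A, (∀ q ∈ M', Associated q g) →
        Associated (M'.map fun q => q ^ r q).prod (g ^ (r g * Multiset.card M')) ∧
          (M'.map t).sum = Multiset.card M' • t g := by
      intro M'
      induction M' using Multiset.induction_on with
      | empty =>
        intro _
        simp
      | cons q M' ih =>
        intro h
        obtain ⟨i1, i2⟩ := ih fun q' hq' => h q' (Multiset.mem_cons_of_mem hq')
        have hq := h q (Multiset.mem_cons_self q M')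
        constructor
        · rw [Multiset.map_cons, Multiset.prod_cons, Multiset.card_cons, mul_add, mul_one,
            pow_add, mul_comm (g ^ _), (htr q g hq).2]
          exact hq.pow_pow.mul_mul i1
        · rw [Multiset.map_cons, Multiset.sum_cons, Multiset.card_cons, i2, (htr q g hq).1,
            add_smul, one_smul, add_comm]
    obtain ⟨h6, h7⟩ := h5 M hall
    refine ⟨Multiset.card M, ?_, by rw [← h7, hMt]⟩
    have h8 := emultiplicity_eq_of_associated_right (a := g) (hMa.trans h6)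
    rw [emultiplicity_pow_self_of_prime hg, emultiplicity_pow_self_of_prime hg] at h8
    exact_mod_cast h8.symm
  have h4t : ∀ g : A, Prime g → 4 • t g = 0 := by
    intro g hg
    obtain ⟨k, hk1, hk2⟩ := hscal g hg
    have h3 := hr4 g hg
    have hk0 : 0 < k := by
      rcases Nat.eq_zero_or_pos k with h | h
      · rw [h] at hk1
        omega
      · exact h
    have hk4 : k ≤ 4 := by nlinarith
    have hk3 : k ∣ 4 := by
      interval_cases k
      · exact one_dvd 4
      · norm_num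
      · exfalso
        omega
      · exact dvd_refl 4
    obtain ⟨l, hl⟩ := hk3
    rw [hl, mul_comm, mul_smul, hk2, smul_zero]
  -- elements with norm `g ε n²`
  have hCW : ∀ g : A, Prime g → ∃ (u : ℍ[A,m,b' * d']) (ε n : A), IsUnit ε ∧ n ≠ 0 ∧
      nrm u = g * (ε * n ^ 2) := by
    intro q hq
    obtain ⟨n, g0, hg0⟩ := IsLocalization.Away.surj s q
    obtain ⟨n1, a0, ha0⟩ := IsLocalization.Away.surj s m
    obtain ⟨n2, b0, hb0⟩ := IsLocalization.Away.surj s (b' * d')
    set φ := algebraMap κ[X] A with hφ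
    have hsn : ∀ n : ℕ, φ s ^ n ≠ 0 := fun n => pow_ne_zero _ hsu.ne_zero
    have hne : ∀ {x : κ[X]} {y : A} {n : ℕ}, y * φ s ^ n = φ x → y ≠ 0 → x ≠ 0 := by
      intro x y n h hy hx
      rw [hx, map_zero] at h
      exact mul_ne_zero hy (hsn n) h
    obtain ⟨d0, m0, hm0, hd0⟩ := CW h2 (a0 * s ^ n1) (b0 * s ^ n2) g0
      (mul_ne_zero (hne ha0 hm) (pow_ne_zero _ hs))
      (mul_ne_zero (hne hb0 (mul_ne_zero hb' hd')) (pow_ne_zero _ hs)) (hne hg0 hq.ne_zero)
    refine ⟨⟨φ d0.re, φ s ^ n1 * φ d0.imI, φ s ^ n2 * φ d0.imJ,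
      φ s ^ n1 * φ s ^ n2 * φ d0.imK⟩, φ s ^ n, φ m0, hsu.pow n, ?_, ?_⟩
    · rw [Ne, map_eq_zero_iff φ hinj]
      exact hm0
    · have h3 := congrArg φ hd0
      simp only [nrm, map_add, map_sub, map_mul, map_pow] at h3
      rw [← hg0, ← ha0, ← hb0] at h3
      unfold nrm
      linear_combination h3
  -- all `r g` are equal to four
  have h2m : (2 * m) ≠ 0 := mul_ne_zero h2A.ne_zero hm
  have hreq : ∀ g : A, Prime g → r g = 4 := by
    intro g hg
    obtain ⟨u, ε, n, hε, hn, hu⟩ := hCW g hg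
    obtain ⟨D, hDn⟩ := hD u
    have hu0 : nrm u ≠ 0 := by
      rw [hu]
      exact mul_ne_zero hg.ne_zero (mul_ne_zero hε.ne_zero (pow_ne_zero 2 hn))
    have hD0 : rn (A := A) D ≠ 0 := by
      intro h0
      rw [h0, zero_pow (by norm_num)] at hDn
      exact mul_ne_zero (pow_ne_zero 64 h2m) (pow_ne_zero 16 hu0) hDn.symm
    obtain ⟨M, hM, hMa, -⟩ := hrel D hD0
    obtain ⟨k, hk⟩ := hval g hg M hM
    obtain ⟨v1, hv1⟩ := hfm g _ hg h2m
    obtain ⟨v2, hv2⟩ := hfm g _ hg hn
    have hε0 : emultiplicity g ε = 0 := emultiplicity_eq_zero.2 fun h => hg.not_isUnit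
      (isUnit_of_dvd_unit h hε)
    have hgg : emultiplicity g g = 1 := by
      have := emultiplicity_pow_self_of_prime hg 1
      rwa [pow_one] at this
    have h3 := congrArg (emultiplicity g) hDn
    rw [emultiplicity_pow hg, emultiplicity_eq_of_associated_right hMa, hk, emultiplicity_mul hg,
      emultiplicity_pow hg, emultiplicity_pow hg, hv1, hu, emultiplicity_mul hg, hgg,
      emultiplicity_mul hg, hε0, emultiplicity_pow hg, hv2] at h3
    have h4 : 4 * (r g * k) = 64 * v1 + 16 * (1 + (0 + 2 * v2)) := by exact_mod_cast h3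
    obtain ⟨k', hk1, -⟩ := hscal g hg
    have h5 := hr4 g hg
    have hk0 : 0 < k' := by
      rcases Nat.eq_zero_or_pos k' with h | h
      · rw [h] at hk1
        omega
      · exact h
    have hk4 : k' ≤ 4 := by nlinarith
    interval_cases k'
    · have h6 : r g = 16 := by omega
      rw [h6] at h4
      omega
    · have h6 : r g = 8 := by omega
      rw [h6] at h4
      omega
    · omega
    · omega
  -- the relations
  have hU : ∀ M M' : Multiset A, (∀ q ∈ M, Prime q) → (∀ q ∈ M', Prime q) →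
      Associated M.prod M'.prod → (M.map t).sum = (M'.map t).sum := by
    intro M M' hM hM' h
    have h3 := UniqueFactorizationMonoid.factors_unique (fun x hx => (hM x hx).irreducible)
      (fun x hx => (hM' x hx).irreducible) h
    have h4 : Multiset.Rel (fun x y => t x = t y) M M' := h3.mono fun x _ y _ hxy => (htr x y hxy).1
    have h5 : Multiset.Rel Eq (M.map t) (M'.map t) := Multiset.rel_map.2 h4
    rw [Multiset.rel_eq.1 h5]
  have hR : ∀ (u : ℍ[A,m,b' * d']) (M' : Multiset A), (∀ q ∈ M', Prime q) →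
      Associated M'.prod (nrm u) → (M'.map t).sum = 0 := by
    intro u M' hM' hMu
    have hu0 : nrm u ≠ 0 := by
      intro h0
      rw [h0] at hMu
      have h3 := hMu.eq_zero_iff.2 rfl
      rw [Multiset.prod_eq_zero_iff] at h3
      exact (hM' 0 h3).ne_zero rfl
    obtain ⟨D, hDn⟩ := hD u
    have hD0 : rn (A := A) D ≠ 0 := by
      intro h0
      rw [h0, zero_pow (by norm_num)] at hDn
      exact mul_ne_zero (pow_ne_zero 64 h2m) (pow_ne_zero 16 hu0) hDn.symm
    obtain ⟨M, hM, hMa, hMt⟩ := hrel D hD0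
    have h3 : (M.map fun q => q ^ r q).prod = M.prod ^ 4 := by
      have h4 : (M.map fun q => q ^ r q) = M.map fun q => q ^ 4 :=
        Multiset.map_congr rfl fun q hq => by rw [hreq q (hM q hq)]
      rw [h4, Multiset.prod_map_pow, Multiset.map_id']
    rw [h3] at hMa
    have h4 : Associated (M.prod ^ 16) (((2 * m) ^ 4 * nrm u) ^ 16) := by
      have h5 := (hMa.pow_pow (n := 4)).symm
      rw [hDn] at h5
      have h6 : (M.prod ^ 4) ^ 4 = M.prod ^ 16 := by rw [← pow_mul]
      have h7 : (2 * m) ^ 64 * nrm u ^ 16 = ((2 * m) ^ 4 * nrm u) ^ 16 := by ring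
      rw [h6, h7] at h5
      exact h5
    have h5 : Associated M.prod ((2 * m) ^ 4 * nrm u) :=
      associated_of_dvd_dvd
        ((IsIntegrallyClosed.pow_dvd_pow_iff (by norm_num : (16 : ℕ) ≠ 0)).1 h4.dvd)
        ((IsIntegrallyClosed.pow_dvd_pow_iff (by norm_num : (16 : ℕ) ≠ 0)).1 h4.symm.dvd)
    obtain ⟨Q, hQ, hQp⟩ := UniqueFactorizationMonoid.exists_prime_factors (2 * m) h2m
    have hQ4 : ∀ q ∈ Q + Q + (Q + Q) + M', Prime q := by
      intro q hq
      simp only [Multiset.mem_add, or_self] at hq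
      rcases hq with hq | hq
      · exact hQ q hq
      · exact hM' q hq
    have h6 := hU M (Q + Q + (Q + Q) + M') hM hQ4 (by
      refine h5.trans ?_
      rw [Multiset.prod_add, Multiset.prod_add, Multiset.prod_add]
      have h7 : (2 * m) ^ 4 = 2 * m * (2 * m) * (2 * m * (2 * m)) := by ring
      rw [h7]
      exact (((hQp.mul_mul hQp).mul_mul (hQp.mul_mul hQp)).mul_mul hMu).symm)
    rw [hMt, Multiset.map_add, Multiset.sum_add, Multiset.map_add, Multiset.sum_add,
      Multiset.map_add, Multiset.sum_add] at h6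
    have h7 : ∀ P : Multiset A, (∀ q ∈ P, Prime q) →
        (P.map t).sum + (P.map t).sum + ((P.map t).sum + (P.map t).sum) = 0 := by
      intro P
      induction P using Multiset.induction_on with
      | empty => simp
      | cons p P ih =>
        intro hP
        have h8 := ih fun q hq => hP q (Multiset.mem_cons_of_mem hq)
        have h9 := h4t p (hP p (Multiset.mem_cons_self p P))
        rw [Multiset.map_cons, Multiset.sum_cons]
        calc t p + (P.map t).sum + (t p + (P.map t).sum) +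
            (t p + (P.map t).sum + (t p + (P.map t).sum)) = 4 • t p +
            ((P.map t).sum + (P.map t).sum + ((P.map t).sum + (P.map t).sum)) := by abel
          _ = 0 := by rw [h8, h9, add_zero]
    rw [h7 Q hQ, zero_add] at h6
    exact h6.symm
  have h2t : ∀ g : A, Prime g → t g + t g = 0 := by
    intro g hg
    have h3 := hR (algebraMap A _ g) {g, g} (by
      intro q hq
      simp only [Multiset.insert_eq_cons, Multiset.mem_cons, Multiset.mem_singleton,
        or_self] at hq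
      rw [hq]
      exact hg) (by
      rw [nrm_algebraMap]
      have h4 : ({g, g} : Multiset A).prod = g ^ 2 := by
        rw [Multiset.insert_eq_cons, Multiset.prod_cons, Multiset.prod_singleton, sq]
      rw [h4])
    rw [Multiset.insert_eq_cons, Multiset.map_cons, Multiset.sum_cons, Multiset.map_singleton,
      Multiset.sum_singleton] at h3
    exact h3
  have htq : ∀ g : A, Prime g → t g = 0 := by
    intro g hg
    obtain ⟨u, ε, n, hε, hn, hu⟩ := hCW g hg
    obtain ⟨Q, hQ, hQp⟩ := UniqueFactorizationMonoid.exists_prime_factors n hn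
    have h3 := hR u (g ::ₘ (Q + Q)) (by
      intro q hq
      simp only [Multiset.mem_cons, Multiset.mem_add, or_self] at hq
      rcases hq with rfl | hq
      · exact hg
      · exact hQ q hq) (by
      rw [hu, Multiset.prod_cons, Multiset.prod_add]
      refine Associated.mul_left g ?_
      have h4 : Associated (ε * n ^ 2) (n ^ 2) := associated_unit_mul_left _ _ hε
      rw [sq] at h4
      rw [sq]
      exact (hQp.mul_mul hQp).trans h4.symm)
    rw [Multiset.map_cons, Multiset.sum_cons, Multiset.map_add, Multiset.sum_add] at h3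
    have h4 : ∀ P : Multiset A, (∀ q ∈ P, Prime q) → (P.map t).sum + (P.map t).sum = 0 := by
      intro P
      induction P using Multiset.induction_on with
      | empty => simp
      | cons p P ih =>
        intro hP
        have h8 := ih fun q hq => hP q (Multiset.mem_cons_of_mem hq)
        have h9 := h2t p (hP p (Multiset.mem_cons_self p P))
        rw [Multiset.map_cons, Multiset.sum_cons]
        calc t p + (P.map t).sum + (t p + (P.map t).sum) =
            (t p + t p) + ((P.map t).sum + (P.map t).sum) := by abel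
          _ = 0 := by rw [h8, h9, add_zero]
    rw [h4 Q hQ, add_zero] at h3
    exact h3
  have h5 := htN N hN
  have h6 : AddSubgroup.closure (t '' {q | Prime q}) ≤ ⊥ := by
    rw [AddSubgroup.closure_le]
    rintro _ ⟨q, hq, rfl⟩
    exact htq q hq
  exact h6 h5

end Pool.Agent.QTB
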