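import Pool.Agent.QTB.Defs

/-!
# QTB, module TS2: systems of quadratic forms over algebraic extensions

Proof. The entries of the matrices lie in a finite extension `F'` of `F` inside `E`, of degree `D`. With a basis
of `F'` over `F` the `r` forms in `n` variables over `F'` become `r D` quadratic forms in `n D` variables over
`F`, and `2^m r D < n D`.
-/

set_option autoImplicit false

namespace Pool.Agent.QTB

open Matrix

private theorem TS2_fin {m : ℕ} {F : Type} [Field F] (h : QSys m F) {ι κ : Type} [Fintype ι]
    [Fintype κ] (M : κ → Matrix ι ι F) (hc : 2 ^ m * Fintype.card κ < Fintype.card ι) :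
    ∃ x : ι → F, x ≠ 0 ∧ ∀ k, ∑ i, ∑ j, x i * M k i j * x j = 0 := by
  classical
  let e := Fintype.equivFin ι
  let f := Fintype.equivFin κ
  obtain ⟨x, hx, h1⟩ := h _ _ (fun k => (M (f.symm k)).submatrix e.symm e.symm) hc
  refine ⟨fun i => x (e i), ?_, fun k => ?_⟩
  · intro h2
    apply hx
    funext i
    have h3 := congrFun h2 (e.symm i)
    simpa using h3
  · have h2 := h1 (f k)
    rw [f.symm_apply_apply] at h2
    have h3 : x ⬝ᵥ ((M k).submatrix e.symm e.symm *ᵥ x) =
        ∑ i, x i * ∑ j, M k (e.symm i) (e.symm j) * x j := rfl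
    rw [h3, ← e.sum_comp] at h2
    rw [← h2]
    refine Finset.sum_congr rfl fun i _ => ?_
    rw [← e.sum_comp, Finset.mul_sum]
    refine Finset.sum_congr rfl fun j _ => ?_
    rw [e.symm_apply_apply, e.symm_apply_apply, mul_assoc]

/-- The case of a finite extension. -/
private theorem TS2_finite {F K : Type} [Field F] [Field K] [Algebra F K] [FiniteDimensional F K]
    (m : ℕ) (h : QSys m F) {r n : ℕ} (M : Fin r → Matrix (Fin n) (Fin n) K) (hn : 2 ^ m * r < n) :
    ∃ x : Fin n → K, x ≠ 0 ∧ ∀ k, ∑ i, ∑ j, x i * M k i j * x j = 0 := by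
  classical
  let B := Module.finBasis F K
  let Q : Fin r × Fin (Module.finrank F K) →
      Matrix (Fin n × Fin (Module.finrank F K)) (Fin n × Fin (Module.finrank F K)) F :=
    fun s => Matrix.of fun u v => B.repr (B u.2 * M s.1 u.1 v.1 * B v.2) s.2
  have hD : 0 < Module.finrank F K := Module.finrank_pos
  have hcard : 2 ^ m * Fintype.card (Fin r × Fin (Module.finrank F K)) <
      Fintype.card (Fin n × Fin (Module.finrank F K)) := by
    rw [Fintype.card_prod, Fintype.card_prod, Fintype.card_fin, Fintype.card_fin, Fintype.card_fin,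
      ← mul_assoc]
    exact Nat.mul_lt_mul_of_pos_right hn hD
  obtain ⟨ξ, hξ, h1⟩ := TS2_fin h Q hcard
  refine ⟨fun i => ∑ a, ξ (i, a) • B a, ?_, fun k => ?_⟩
  · intro h2
    apply hξ
    funext u
    have h3 := congrFun h2 u.1
    have h4 := Fintype.linearIndependent_iff.1 B.linearIndependent (fun a => ξ (u.1, a)) h3 u.2
    simpa using h4
  · have hexp : ∑ i, ∑ j, (∑ a, ξ (i, a) • B a) * M k i j * (∑ a, ξ (j, a) • B a) =
        ∑ u : Fin n × Fin (Module.finrank F K), ∑ v : Fin n × Fin (Module.finrank F K),
          (ξ u * ξ v) • (B u.2 * M k u.1 v.1 * B v.2) := by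
      rw [Fintype.sum_prod_type]
      refine Finset.sum_congr rfl fun i _ => ?_
      have h2 : ∀ a : Fin (Module.finrank F K), ∑ v : Fin n × Fin (Module.finrank F K),
          (ξ (i, a) * ξ v) • (B a * M k i v.1 * B v.2) =
          ∑ j, ∑ c : Fin (Module.finrank F K), (ξ (i, a) * ξ (j, c)) •
            (B a * M k i j * B c) := fun a => Fintype.sum_prod_type _
      simp only [h2]
      rw [Finset.sum_comm]
      refine Finset.sum_congr rfl fun j _ => ?_
      rw [Finset.sum_mul, Finset.sum_mul]
      refine Finset.sum_congr rfl fun a _ => ?_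
      rw [Finset.mul_sum]
      refine Finset.sum_congr rfl fun c _ => ?_
      simp only [Algebra.smul_def, map_mul]
      ring
    rw [hexp]
    apply B.repr.injective
    rw [map_zero]
    ext d
    have h2 := h1 (k, d)
    simp only [map_sum, map_smul, Finsupp.finsetSum_apply, Finsupp.smul_apply, smul_eq_mul,
      Finsupp.zero_apply]
    rw [← h2]
    refine Finset.sum_congr rfl fun u _ => Finset.sum_congr rfl fun v _ => ?_
    simp only [Q, Matrix.of_apply]
    ring

theorem TS2 {F E : Type} [Field F] [Field E] [Algebra F E] [Algebra.IsAlgebraic F E] (m : ℕ)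
    (h : QSys m F) : QSys m E := by
  classical
  intro r n M hn
  let S : Set E := Set.range fun t : Fin r × Fin n × Fin n => M t.1 t.2.1 t.2.2
  have hS : S.Finite := Set.finite_range _
  let K : IntermediateField F E := IntermediateField.adjoin F S
  have : Finite S := hS
  have hfd : FiniteDimensional F K :=
    IntermediateField.finiteDimensional_adjoin fun x _ => Algebra.IsIntegral.isIntegral x
  have hmem : ∀ k i j, M k i j ∈ K := fun k i j =>
    IntermediateField.subset_adjoin F S ⟨(k, i, j), rfl⟩
  obtain ⟨x, hx, h1⟩ := TS2_finite m h (K := K) (fun k => Matrix.of fun i j => ⟨M k i j, hmem k i j⟩) hn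
  refine ⟨fun i => (x i : E), ?_, fun k => ?_⟩
  · intro h2
    apply hx
    funext i
    have h3 := congrFun h2 i
    exact Subtype.ext h3
  · have h2 := congrArg (fun y : K => (y : E)) (h1 k)
    have h3 : (fun i => (x i : E)) ⬝ᵥ (M k *ᵥ fun i => (x i : E)) =
        ∑ i, (x i : E) * ∑ j, M k i j * (x j : E) := rfl
    rw [h3]
    simp only [Matrix.of_apply] at h2
    push_cast at h2
    rw [← h2]
    refine Finset.sum_congr rfl fun i _ => ?_
    rw [Finset.mul_sum]
    refine Finset.sum_congr rfl fun j _ => ?_
    rw [mul_assoc]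

end Pool.Agent.QTB
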