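import Pool.Agent.QTB.TS0
import Pool.Agent.QTB.TS1
import Pool.Agent.QTB.TS2
import Pool.Agent.Helper67.Bass.Defs

/-!
# QTB, module TS3: fields of Kronecker dimension at most one and positive characteristic

Proof. If `L` is algebraic over `ZMod p`: `TS0`, `TS2` give `QSys 1 L`, and `QSys m L → QSys (m + 1) L` is trivial.
Otherwise some `x ∈ L` is transcendental over `ZMod p` and every `y ∈ L` is algebraic over the field of
rational functions `(ZMod p)(x)` (second alternative of `KroneckerLeOne`; compare QCB/KLA.lean; the first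
alternative contradicts the characteristic only if it means characteristic zero, otherwise `L` is algebraic):
`TS0`, `TS1`, `TS2`.
-/

set_option autoImplicit false
set_option linter.style.haveILetI false

namespace Pool.Agent.QTB

open Matrix Pool.Agent.Helper67.Bass

open scoped Polynomial

/-- the first alternative -/
private theorem TS3_alg (L : Type) [Field L] (p : ℕ) [hp : Fact p.Prime] [Algebra (ZMod p) L]
    (h : ∀ x : L, ∃ f : ℤ[X], f.IsPrimitive ∧ Polynomial.aeval x f = 0) :
    Algebra.IsAlgebraic (ZMod p) L := ⟨fun x => by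
  obtain ⟨f, hf, hfx⟩ := h x
  refine ⟨f.map (Int.castRingHom (ZMod p)), ?_, ?_⟩
  · intro h1
    have h2 : (p : ℤ) ∣ f.content := by
      rw [Polynomial.dvd_content_iff_C_dvd, Polynomial.C_dvd_iff_dvd_coeff]
      intro i
      have h3 := congrArg (fun g => Polynomial.coeff g i) h1
      simp only [Polynomial.coeff_map, Polynomial.coeff_zero, eq_intCast] at h3
      exact (ZMod.intCast_zmod_eq_zero_iff_dvd _ p).1 h3
    rw [hf.content_eq_one] at h2
    have h3 := Int.isUnit_iff.1 (isUnit_of_dvd_one h2)
    have h4 := hp.out.two_le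
    omega
  · rw [Polynomial.aeval_def, Polynomial.eval₂_map, ← hfx, Polynomial.aeval_def]
    congr 1
    exact RingHom.ext_int _ _⟩

/-- polynomials in two variables as polynomials with coefficients polynomials -/
private theorem TS3_poly (k : Type) [Field k] (F : MvPolynomial (Fin 2) k) (hF : F ≠ 0) :
    (MvPolynomial.aeval ![Polynomial.C Polynomial.X, (Polynomial.X : k[X][X])] F : k[X][X]) ≠ 0 := by
  intro h
  apply hF
  let ψ : k[X][X] →+* MvPolynomial (Fin 2) k :=
    Polynomial.eval₂RingHom (Polynomial.aeval (MvPolynomial.X 0 : MvPolynomial (Fin 2) k) :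
      k[X] →ₐ[k] MvPolynomial (Fin 2) k).toRingHom (MvPolynomial.X 1)
  have h1 : ψ.comp (MvPolynomial.aeval
      ![Polynomial.C Polynomial.X, (Polynomial.X : k[X][X])] : MvPolynomial (Fin 2) k →ₐ[k] k[X][X])
      = RingHom.id _ := by
    refine MvPolynomial.ringHom_ext (fun c => ?_) fun i => ?_
    · simp [ψ]
    · fin_cases i <;> simp [ψ]
  have h2 := RingHom.congr_fun h1 F
  rw [RingHom.comp_apply] at h2
  have h3 : ψ 0 = F := by
    rw [← h]
    exact h2
  rw [← h3, map_zero]

theorem TS3 (L : Type) [Field L] (p : ℕ) [Fact p.Prime] [CharP L p] (h : KroneckerLeOne L) :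
    QSys 2 L := by
  letI := ZMod.algebra L p
  by_cases hA : Algebra.IsAlgebraic (ZMod p) L
  · have h1 : QSys 1 L := TS2 (F := ZMod p) 1 (TS0 (ZMod p))
    intro r n M hn
    exact h1 r n M (by omega)
  · rcases h with h | ⟨p', hp', hp0, h⟩
    · exact absurd (TS3_alg L p h) hA
    · obtain rfl : p' = p := by
        have h1 := (CharP.cast_eq_zero_iff L p p').1 hp0
        exact ((Nat.prime_dvd_prime_iff_eq (Fact.out : p.Prime) hp').1 h1).symm
      obtain ⟨x, hx⟩ : ∃ x : L, ¬ IsAlgebraic (ZMod p') x := by
        by_contra h1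
        push Not at h1
        exact hA ⟨h1⟩
      have hinj : Function.Injective (Polynomial.aeval x : (ZMod p')[X] →ₐ[ZMod p'] L) :=
        transcendental_iff_injective.1 hx
      letI : Algebra (ZMod p')[X] L :=
        (Polynomial.aeval x : (ZMod p')[X] →ₐ[ZMod p'] L).toRingHom.toAlgebra
      have hmap : ∀ q : (ZMod p')[X], algebraMap (ZMod p')[X] L q = Polynomial.aeval x q :=
        fun _ => rfl
      have hinj' : Function.Injective (algebraMap (ZMod p')[X] L) := hinj
      have hR : Algebra.IsAlgebraic (ZMod p')[X] L := ⟨fun y => by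
        obtain ⟨F, hF, hF0⟩ := h x y
        set G : MvPolynomial (Fin 2) (ZMod p') := MvPolynomial.map (Int.castRingHom (ZMod p')) F
          with hG
        have hG0 : G ≠ 0 := by
          intro h1
          apply hF
          rw [MvPolynomial.C_dvd_iff_map_hom_eq_zero (Int.castRingHom (ZMod p')) (p' : ℤ)]
          · exact h1
          · intro a
            rw [eq_intCast]
            exact ZMod.intCast_zmod_eq_zero_iff_dvd a p'
        have hGx : MvPolynomial.aeval ![x, y] G = 0 := by
          rw [hG, MvPolynomial.aeval_def, MvPolynomial.eval₂_map, ← hF0, MvPolynomial.aeval_def]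
          congr 1
          exact RingHom.ext_int _ _
        refine ⟨_, TS3_poly (ZMod p') G hG0, ?_⟩
        rw [← hGx]
        have h2 : (Polynomial.aeval y : (ZMod p')[X][X] →ₐ[(ZMod p')[X]] L).toRingHom.comp
            (MvPolynomial.aeval ![Polynomial.C Polynomial.X,
              (Polynomial.X : (ZMod p')[X][X])] :
              MvPolynomial (Fin 2) (ZMod p') →ₐ[ZMod p'] (ZMod p')[X][X]).toRingHom =
            (MvPolynomial.aeval ![x, y] :
              MvPolynomial (Fin 2) (ZMod p') →ₐ[ZMod p'] L).toRingHom := by
          refine MvPolynomial.ringHom_ext (fun c => ?_) fun i => ?_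
          · simp [hmap]
          · fin_cases i <;> simp [hmap]
        exact RingHom.congr_fun h2 G⟩
      let K := FractionRing (ZMod p')[X]
      letI : Algebra K L := (IsFractionRing.lift (K := K) hinj').toAlgebra
      haveI : IsScalarTower (ZMod p')[X] K L := IsScalarTower.of_algebraMap_eq fun q =>
        (IsFractionRing.lift_algebraMap hinj' q).symm
      haveI : Algebra.IsAlgebraic K L :=
        (IsFractionRing.comap_isAlgebraic_iff (A := (ZMod p')[X]) (K := K) (C := L)).1 hR
      have h1 : QSys 2 K := TS1 1 (TS0 (ZMod p'))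
      exact TS2 2 h1

end Pool.Agent.QTB
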