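import Pool.Agent.QTB.ZFIN4
import Pool.Agent.QTB.NF4
import Pool.Agent.QTB.DX4
import Pool.Agent.QTB.GLOCg
import Pool.Agent.QTB.TS3
import Pool.Agent.Q4.BCQ
import Pool.Agent.Q4.CONC
import Pool.Agent.Q4.StA
import Pool.Agent.Q4.StQ4

/-!
# QTB, module QORD4: `G₀` of small localisations of biquaternion orders over `R[X]`
-/

set_option autoImplicit false

namespace Pool.Agent.QTB

open Quaternion QuaternionAlgebra Polynomial TensorProduct Pool.Agent.QCB Pool.Agent.Helper67.Bass

/-- localizations of localizations -/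
private theorem QORD4_away {P B A : Type} [CommRing P] [CommRing B] [CommRing A] [Algebra P A]
    [Algebra B A] (f : P →+* B) (hf : (algebraMap B A).comp f = algebraMap P A) (s x : P)
    [IsLocalization.Away s A] (hx : IsUnit (f x))
    (hB : ∀ z : B, ∃ (n : ℕ) (y : P), z * f x ^ n = f y) : IsLocalization.Away (f s) A := by
  have hfa : ∀ y : P, algebraMap B A (f y) = algebraMap P A y := fun y => by rw [← hf]; rfl
  refine ⟨?_, ?_, ?_⟩
  · rintro ⟨_, n, rfl⟩
    simp only [map_pow]
    rw [hfa]
    exact (IsLocalization.Away.algebraMap_isUnit s).pow n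
  · intro z
    obtain ⟨n, y, hy⟩ := IsLocalization.Away.surj s z
    refine ⟨⟨f y, ⟨f s ^ n, n, rfl⟩⟩, ?_⟩
    simp only [map_pow, hfa]
    exact hy
  · intro u v huv
    obtain ⟨n, y, hy⟩ := hB (u - v)
    have h1 : algebraMap P A y = algebraMap P A 0 := by
      rw [← hfa, ← hy, map_mul, map_sub, huv, sub_self, zero_mul, map_zero]
    obtain ⟨k, hk⟩ := IsLocalization.Away.exists_of_eq s h1
    refine ⟨⟨f s ^ k, k, rfl⟩, ?_⟩
    have h2 : f s ^ k * (u - v) * f x ^ n = 0 := by
      rw [mul_assoc, hy, ← map_pow, ← map_mul, hk, mul_zero, map_zero]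
    have h3 : f s ^ k * (u - v) = 0 := by
      have := (hx.pow n)
      exact (this.mul_left_eq_zero).1 h2
    rw [mul_sub, sub_eq_zero] at h3
    exact h3

private theorem QORD4_glue {R Rr A B : Type} [CommRing R] [CommRing Rr] [CommRing A] [CommRing B]
    [Algebra R Rr] [Algebra R[X] A] [Algebra Rr[X] B] (r : R) [IsLocalization.Away r Rr]
    (q₀ : R[X]) [IsLocalization.Away (q₀.map (algebraMap R Rr)) B] (s' : R[X])
    [IsLocalization.Away s' A] (d5 : C r ∣ s') (d6 : q₀ ∣ s') :
    ∃ h : B →+* A, (∀ x : R[X], h (algebraMap Rr[X] B (x.map (algebraMap R Rr))) =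
      algebraMap R[X] A x) ∧ (let _ : Algebra B A := h.toAlgebra;
        IsLocalization.Away (algebraMap Rr[X] B (s'.map (algebraMap R Rr))) A) := by
  have hunit : ∀ t : R[X], t ∣ s' → IsUnit (algebraMap R[X] A t) := by
    intro t ht
    exact isUnit_of_dvd_unit (map_dvd _ ht) (IsLocalization.Away.algebraMap_isUnit s')
  have hg : IsUnit (((algebraMap R[X] A).comp C) r) := hunit (C r) d5
  obtain ⟨g₁, hg₁⟩ : ∃ g₁ : Rr →+* A, ∀ x, g₁ (algebraMap R Rr x) = algebraMap R[X] A (C x) :=
    ⟨IsLocalization.Away.lift (S := Rr) r hg, fun x => IsLocalization.Away.lift_eq r hg x⟩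
  obtain ⟨g₂, hg₂⟩ : ∃ g₂ : Rr[X] →+* A, ∀ x : R[X], g₂ (x.map (algebraMap R Rr)) =
      algebraMap R[X] A x := by
    refine ⟨eval₂RingHom g₁ (algebraMap R[X] A X), fun x => ?_⟩
    have : (eval₂RingHom g₁ (algebraMap R[X] A X)).comp (mapRingHom (algebraMap R Rr)) =
        algebraMap R[X] A := by
      apply Polynomial.ringHom_ext
      · intro x
        simp only [RingHom.comp_apply, coe_mapRingHom, map_C, coe_eval₂RingHom, eval₂_C]
        exact hg₁ x
      · simp
    exact DFunLike.congr_fun this x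
  have hg₃ : IsUnit (g₂ (q₀.map (algebraMap R Rr))) := by
    rw [hg₂]
    exact hunit _ d6
  obtain ⟨h, hh⟩ : ∃ h : B →+* A, ∀ x, h (algebraMap Rr[X] B x) = g₂ x :=
    ⟨IsLocalization.Away.lift (S := B) (q₀.map (algebraMap R Rr)) hg₃,
      fun x => IsLocalization.Away.lift_eq _ hg₃ x⟩
  refine ⟨h, fun x => by rw [hh, hg₂], ?_⟩
  intro _
  have hfr : IsUnit (algebraMap Rr[X] B ((C r : R[X]).map (algebraMap R Rr))) := by
    have h1 : IsUnit (algebraMap R Rr r) := IsLocalization.Away.algebraMap_isUnit r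
    rw [map_C]
    exact (h1.map C).map _
  have hfq : IsUnit (algebraMap Rr[X] B (q₀.map (algebraMap R Rr))) :=
    IsLocalization.Away.algebraMap_isUnit _
  refine QORD4_away ((algebraMap Rr[X] B).comp (mapRingHom (algebraMap R Rr))) ?_ s'
    (C r * q₀) ?_ ?_
  · refine RingHom.ext fun x => ?_
    exact (hh _).trans (hg₂ x)
  · rw [map_mul]; exact hfr.mul hfq
  · intro z
    obtain ⟨n, P, hP⟩ := IsLocalization.Away.surj (q₀.map (algebraMap R Rr)) z
    obtain ⟨_, ⟨k, rfl⟩, hb⟩ := IsLocalization.integerNormalization_spec (Submonoid.powers r) P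
    set P₀ := IsLocalization.integerNormalization (Submonoid.powers r) P with hP₀
    refine ⟨n + k, P₀ * (C r ^ n * q₀ ^ k), ?_⟩
    simp only [RingHom.comp_apply, coe_mapRingHom, map_mul, map_pow]
    have e1 : algebraMap Rr[X] B (P₀.map (algebraMap R Rr)) =
        algebraMap Rr[X] B ((C r : R[X]).map (algebraMap R Rr)) ^ k * algebraMap Rr[X] B P := by
      have : P₀.map (algebraMap R Rr) = (C r : R[X]).map (algebraMap R Rr) ^ k * P := by
        rw [hb, map_C, ← C_pow, ← map_pow, ← Polynomial.smul_eq_C_mul, algebraMap_smul]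
      rw [this, map_mul, map_pow]
    rw [e1, ← hP]
    ring

/-- `GFG` and localization for orders given by base change -/
private theorem QORD4_loc {A B Λ Λ' : Type} [CommRing A] [CommRing B] [Algebra A B]
    [IsNoetherianRing A] (s : A) [IsLocalization.Away s B] [Ring Λ] [Algebra A Λ]
    [Module.Finite A Λ] [Ring Λ'] [Algebra B Λ'] (e : B ⊗[A] Λ ≃ₐ[B] Λ') (h : GFG Λ) :
    GFG Λ' := by
  have hl : IsLocalizedModule (Submonoid.powers s) (TensorProduct.mk A B Λ 1) :=
    (isLocalizedModule_iff_isBaseChange (Submonoid.powers s) B _).2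
      (TensorProduct.isBaseChange A Λ B)
  let f : Λ →+* Λ' := (e : B ⊗[A] Λ →+* Λ').comp
    ((Algebra.TensorProduct.includeRight : Λ →ₐ[A] B ⊗[A] Λ) : Λ →+* B ⊗[A] Λ)
  have hfx : ∀ x : Λ, f x = e (1 ⊗ₜ[A] x) := fun x => rfl
  refine GLOCg (A := A) (B := B) s f ?_ ?_ ?_ h
  · intro x
    rw [hfx, Algebra.algebraMap_eq_smul_one, TensorProduct.tmul_smul,
      ← algebraMap_smul B x ((1 : B) ⊗ₜ[A] (1 : Λ)), map_smul, ← Algebra.TensorProduct.one_def,
      map_one, ← Algebra.algebraMap_eq_smul_one]
  · intro y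
    obtain ⟨⟨x, ⟨_, n, rfl⟩⟩, hx⟩ := IsLocalizedModule.surj (Submonoid.powers s)
      (TensorProduct.mk A B Λ 1) (e.symm y)
    refine ⟨n, x, ?_⟩
    rw [hfx]
    have h1 : (s ^ n) • e.symm y = (1 : B) ⊗ₜ[A] x := hx
    rw [← h1, ← algebraMap_smul B (s ^ n) (e.symm y), map_smul, AlgEquiv.apply_symm_apply,
      Algebra.smul_def, map_pow, map_pow]
  · intro x hx
    rw [hfx, EmbeddingLike.map_eq_zero_iff] at hx
    have h1 : TensorProduct.mk A B Λ 1 x = TensorProduct.mk A B Λ 1 0 := by
      rw [map_zero]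
      exact hx
    obtain ⟨⟨_, n, rfl⟩, hn⟩ := IsLocalizedModule.exists_of_eq (S := Submonoid.powers s) h1
    refine ⟨n, ?_⟩
    have h2 : (s ^ n) • x = 0 := by
      rw [smul_zero] at hn
      exact hn
    rw [← map_pow, ← Algebra.smul_def]
    exact h2


private theorem QORD4_rep {K : Type} [CommRing K] {a b c d : K} (u : ℍ[K,a,b]) (v : ℍ[K,c,d]) (i j : Fin 4) :
  (bas a b c d).repr (u ⊗ₜ[K] v) (i, j) = ![v.re, v.imI, v.imJ, v.imK] j * ![u.re, u.imI, u.imJ, u.imK] i := by
  unfold bas
  rw [Module.Basis.tensorProduct_repr_tmul_apply, coe_basisOneIJK_repr, coe_basisOneIJK_repr, smul_eq_mul]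
private theorem QORD4_inj {K : Type} [Field K] {a b c d : K} (x : Fin 6 → K)
    (h : vv a b c d x = 0 ∨ pv a b c d x = 0) : x = 0 := by
  have key : ∀ ε : K, ε ≠ 0 → (⟨0, x 0, x 1, x 2⟩ : ℍ[K,a,b]) ⊗ₜ[K] (1 : ℍ[K,c,d]) +
      ε • ((1 : ℍ[K,a,b]) ⊗ₜ[K] (⟨0, x 3, x 4, x 5⟩ : ℍ[K,c,d])) = 0 → x = 0 := by
    intro ε hε h
    have hc : ∀ i j : Fin 4, (bas a b c d).repr
        ((⟨0, x 0, x 1, x 2⟩ : ℍ[K,a,b]) ⊗ₜ[K] (1 : ℍ[K,c,d]) +
        ε • ((1 : ℍ[K,a,b]) ⊗ₜ[K] (⟨0, x 3, x 4, x 5⟩ : ℍ[K,c,d]))) (i, j) = 0 := by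
      intro i j
      rw [h, map_zero]
      rfl
    simp only [map_add, map_smul, Finsupp.add_apply, Finsupp.smul_apply, QORD4_rep, smul_eq_mul] at hc
    have h0 := hc 1 0
    have h1 := hc 2 0
    have h2 := hc 3 0
    have h3 := hc 0 1
    have h4 := hc 0 2
    have h5 := hc 0 3
    simp [hε] at h0 h1 h2 h3 h4 h5
    funext i
    fin_cases i
    · exact h0
    · exact h1
    · exact h2
    · exact h3
    · exact h4
    · exact h5
  rcases h with h | h
  · refine key (-1) (by simp) ?_
    rw [neg_one_smul, ← sub_eq_add_neg]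
    exact h
  · refine key 1 one_ne_zero ?_
    rw [one_smul]
    exact h

private theorem QORD4_alb {K : Type} [CommRing K] (a b c d : K) (v : Fin 6 → K) :
    Q4.alb a b c d v = dg (alc a b c d) v v := by
  unfold Q4.alb dg
  refine Finset.sum_congr rfl fun i _ => ?_
  rw [sq]
  rfl

/-- the Albert form of an algebra without zero divisors is anisotropic -/
private theorem QORD4_anis {K : Type} [Field K] {a b c d : K} (h2 : (2 : K) ≠ 0)
    (h : ∀ x y : BQ K a b c d, x * y = 0 → x = 0 ∨ y = 0) (ha : a ≠ 0) (hb : b ≠ 0) (hc : c ≠ 0)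
    (hd : d ≠ 0) (x : Fin 6 → K) (hx : dg (alc a b c d) x x = 0) : x = 0 := by
  have h1 := (Q4.thm_CON K a b c d h2 ha hb hc hd).1 x
  rw [QORD4_alb, hx, map_zero] at h1
  exact QORD4_inj x (h _ _ h1)

/-- the coefficients of an anisotropic form are not zero -/
private theorem QORD4_ne {K : Type} [Field K] {a b c d : K} (h : Q4.Anis a b c d) :
    a ≠ 0 ∧ b ≠ 0 ∧ c ≠ 0 ∧ d ≠ 0 := by
  have key : ∀ i : Fin 6, alc a b c d i ≠ 0 := by
    intro i h0
    have h1 := h (Pi.single i 1) (by
      rw [QORD4_alb]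
      unfold dg
      refine Finset.sum_eq_zero fun j _ => ?_
      by_cases hj : j = i
      · subst hj
        rw [h0, zero_mul]
      · rw [Pi.single_eq_of_ne hj, zero_mul, mul_zero])
    have h3 := congrFun h1 i
    rw [Pi.single_eq_same, Pi.zero_apply] at h3
    exact one_ne_zero h3
  refine ⟨key 0, key 1, ?_, ?_⟩
  · intro h0
    exact key 3 (by rw [h0]; simp [alc])
  · intro h0
    exact key 4 (by rw [h0]; simp [alc])

private theorem QORD4_dg {A B : Type} [CommRing A] [CommRing B] (f : A →+* B) (a b c d : A)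
    (x y : Fin 6 → A) : f (dg (alc a b c d) x y) =
      dg (alc (f a) (f b) (f c) (f d)) (fun i => f (x i)) (fun i => f (y i)) := by
  unfold dg
  rw [map_sum]
  refine Finset.sum_congr rfl fun i _ => ?_
  rw [map_mul, map_mul]
  refine congrArg (· * _) ?_
  unfold alc
  fin_cases i <;> simp

/-- the polynomial ring over the localisation embeds into the fraction field -/
private theorem QORD4_emb {R K : Type} [CommRing R] [IsDomain R] [Field K] [Algebra R[X] K]
    [IsFractionRing R[X] K] (r : R) (hr : r ≠ 0) :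
    ∃ g : (Localization.Away r)[X] →+* K, Function.Injective g ∧
      ∀ f : R[X], g (f.map (algebraMap R (Localization.Away r))) = algebraMap R[X] K f := by
  have hinj : Function.Injective (algebraMap R[X] K) := IsFractionRing.injective R[X] K
  have hCr : (C r : R[X]) ≠ 0 := by rw [Ne, C_eq_zero]; exact hr
  have hrK : algebraMap R[X] K (C r) ≠ 0 := fun h => hCr (hinj (by rw [h, map_zero]))
  have hg : IsUnit (((algebraMap R[X] K).comp C) r) := isUnit_iff_ne_zero.2 hrK
  obtain ⟨g₁, hg₁⟩ : ∃ g₁ : Localization.Away r →+* K, ∀ x,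
      g₁ (algebraMap R _ x) = algebraMap R[X] K (C x) :=
    ⟨IsLocalization.Away.lift r hg, fun x => IsLocalization.Away.lift_eq r hg x⟩
  obtain ⟨g₂, hg₂⟩ : ∃ g₂ : (Localization.Away r)[X] →+* K, ∀ x : R[X],
      g₂ (x.map (algebraMap R (Localization.Away r))) = algebraMap R[X] K x := by
    refine ⟨eval₂RingHom g₁ (algebraMap R[X] K X), fun x => ?_⟩
    have : (eval₂RingHom g₁ (algebraMap R[X] K X)).comp
        (mapRingHom (algebraMap R (Localization.Away r))) = algebraMap R[X] K := by
      apply Polynomial.ringHom_ext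
      · intro x
        simp only [RingHom.comp_apply, coe_mapRingHom, map_C, coe_eval₂RingHom, eval₂_C]
        exact hg₁ x
      · simp
    exact DFunLike.congr_fun this x
  refine ⟨g₂, ?_, hg₂⟩
  rw [injective_iff_map_eq_zero]
  intro P hP
  obtain ⟨_, ⟨k, rfl⟩, hb⟩ := IsLocalization.integerNormalization_spec (Submonoid.powers r) P
  set P₀ := IsLocalization.integerNormalization (Submonoid.powers r) P with hP₀
  have e1 : P₀.map (algebraMap R (Localization.Away r)) =
      (C r : R[X]).map (algebraMap R (Localization.Away r)) ^ k * P := by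
    rw [hb, map_C, ← C_pow, ← map_pow, ← Polynomial.smul_eq_C_mul, algebraMap_smul]
  have h1 : algebraMap R[X] K P₀ = 0 := by
    rw [← hg₂, e1, map_mul, hP, mul_zero]
  have h3 : P₀ = 0 := hinj (by rw [h1, map_zero])
  rw [h3, Polynomial.map_zero] at e1
  have hu : IsUnit ((C r : R[X]).map (algebraMap R (Localization.Away r)) ^ k) := by
    rw [map_C]
    exact ((IsLocalization.Away.algebraMap_isUnit r).map C).pow k
  exact (hu.mul_right_eq_zero).1 e1.symm

/-- **QORD4** -/
theorem thm_QORD4 (hKEY : Q4.St_KEY) (hSL : Q4.St_SLOT) (hSM : Q4.St_SIMQ) (hBC : Q4.St_BCQ)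
    (hNZ : Q4.St_NZD) : Q4.St_QORD4 := by
  intro p _ R _ _ _ _ _ h2 hK K _ _ _ a b c d han
  have hinj : Function.Injective (algebraMap R[X] K) := IsFractionRing.injective R[X] K
  have h2K : (2 : K) ≠ 0 := by
    intro h
    apply h2
    have h3 : algebraMap R[X] K (C (2 : R)) = 0 := by
      rw [show (C (2 : R) : R[X]) = 2 from map_ofNat C 2, map_ofNat]
      exact h
    exact C_eq_zero.1 (hinj (by rw [h3, map_zero]))
  obtain ⟨ha, hb, hc, hd⟩ := QORD4_ne han
  have hne : ∀ f : R[X], algebraMap R[X] K f ≠ 0 → f ≠ 0 := by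
    rintro f hf rfl
    exact hf (map_zero _)
  obtain ⟨G, hG, hsq, hco, s₀, hs₀, hiso⟩ := NF4 a b c d (hne a ha) (hne b hb) (hne c hc) (hne d hd)
  obtain ⟨r, hr, hdom, hD⟩ := DX4 hK h2 G hG hsq hco
  -- anisotropy
  have hanK : ∀ x : Fin 6 → K, dg (alc (algebraMap R[X] K (ga G)) (algebraMap R[X] K (gb G))
      (algebraMap R[X] K (gc G)) (algebraMap R[X] K (gd G))) x x = 0 → x = 0 := by
    obtain ⟨e⟩ := hiso K (isUnit_iff_ne_zero.2 fun h => hs₀ (hinj (by rw [h, map_zero])))
    have hGK : ∀ i, algebraMap R[X] K (G i) ≠ 0 :=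
      fun i h => hG i (hinj (by rw [h, map_zero]))
    refine QORD4_anis h2K ?_ ?_ ?_ ?_ ?_
    · intro x y hxy
      have h1 := hNZ K _ _ _ _ h2K han (e.symm x) (e.symm y) (by
        rw [← map_mul, hxy, map_zero])
      rcases h1 with h1 | h1
      · left
        exact (map_eq_zero_iff e.symm e.symm.injective).1 h1
      · right
        exact (map_eq_zero_iff e.symm e.symm.injective).1 h1
    · unfold ga
      rw [map_mul, map_mul]
      exact mul_ne_zero (mul_ne_zero (hGK _) (hGK _)) (hGK _)
    · unfold gb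
      rw [map_mul, map_mul]
      exact mul_ne_zero (mul_ne_zero (hGK _) (hGK _)) (hGK _)
    · unfold gc
      rw [map_mul, map_mul]
      exact mul_ne_zero (mul_ne_zero (hGK _) (hGK _)) (hGK _)
    · unfold gd
      rw [map_mul, map_mul]
      exact mul_ne_zero (mul_ne_zero (hGK _) (hGK _)) (hGK _)
  obtain ⟨g, hg, hgm⟩ := QORD4_emb (K := K) r hr
  obtain ⟨m, hm⟩ : ∃ m : R[X] → (Localization.Away r)[X],
      m = fun f => f.map (algebraMap R (Localization.Away r)) := ⟨_, rfl⟩
  have ea : ga (fun i => (G i).map (algebraMap R (Localization.Away r))) =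
      (ga G).map (algebraMap R (Localization.Away r)) := by
    simp only [ga, Polynomial.map_mul]
  have eb : gb (fun i => (G i).map (algebraMap R (Localization.Away r))) =
      (gb G).map (algebraMap R (Localization.Away r)) := by
    simp only [gb, Polynomial.map_mul]
  have ec : gc (fun i => (G i).map (algebraMap R (Localization.Away r))) =
      (gc G).map (algebraMap R (Localization.Away r)) := by
    simp only [gc, Polynomial.map_mul]
  have ed : gd (fun i => (G i).map (algebraMap R (Localization.Away r))) =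
      (gd G).map (algebraMap R (Localization.Away r)) := by
    simp only [gd, Polynomial.map_mul]
  have han' : ∀ x : Fin 6 → (Localization.Away r)[X],
      dg (alc (ga (fun i => (G i).map (algebraMap R (Localization.Away r))))
        (gb (fun i => (G i).map (algebraMap R (Localization.Away r))))
        (gc (fun i => (G i).map (algebraMap R (Localization.Away r))))
        (gd (fun i => (G i).map (algebraMap R (Localization.Away r))))) x x = 0 → x = 0 := by
    intro x hx
    have h1 := congrArg g hx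
    rw [QORD4_dg, map_zero, ea, eb, ec, ed, hgm, hgm, hgm, hgm] at h1
    have h3 := hanK _ h1
    funext i
    have h4 := congrFun h3 i
    exact hg (by rw [h4, Pi.zero_apply, Pi.zero_apply, map_zero])
  -- systems of quadratic forms
  obtain ⟨φ, ψ, χ, hφi, hφ, hψ, hχ⟩ := DXS_frac r hr (Localization.Away r)
  have hQ : QSys 2 (FractionRing (Localization.Away r)) := by
    have hle : Submonoid.powers r ≤ nonZeroDivisors R :=
      powers_le_nonZeroDivisors_of_noZeroDivisors hr
    have hi : Function.Injective (algebraMap (Localization.Away r)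
        (FractionRing (Localization.Away r))) := IsFractionRing.injective _ _
    have hi2 : Function.Injective (algebraMap R (Localization.Away r)) :=
      IsLocalization.injective _ hle
    haveI : CharP (Localization.Away r) p := charP_of_injective_ringHom hi2 p
    haveI : CharP (FractionRing (Localization.Away r)) p := charP_of_injective_ringHom hi p
    exact TS3 _ p (KroneckerLeOne.of_hom ψ hK)
  have hZ := ZFIN4 hKEY hSL hSM (fun i => (G i).map (algebraMap R (Localization.Away r))) hD hQ han'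
  -- the localisations
  have hCr : (C r : R[X]) ≠ 0 := by rw [Ne, C_eq_zero]; exact hr
  refine ⟨s₀ * (C r * ∏ i, G i), mul_ne_zero hs₀ (mul_ne_zero hCr
    (Finset.prod_ne_zero_iff.2 fun i _ => hG i)), fun x hx hdvd => ?_⟩
  have hunit : ∀ t : R[X], t ∣ x → IsUnit (algebraMap R[X] (Localization.Away x) t) := by
    intro t ht
    exact isUnit_of_dvd_unit (map_dvd _ ht) (IsLocalization.Away.algebraMap_isUnit x)
  have d3 : s₀ ∣ x := (Dvd.intro _ rfl).trans hdvd
  have d4 : C r * ∏ i, G i ∣ x := (Dvd.intro_left _ rfl).trans hdvd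
  have d5 : C r ∣ x := (Dvd.intro _ rfl).trans d4
  have d6 : ∏ i, G i ∣ x := (Dvd.intro_left _ rfl).trans d4
  obtain ⟨e⟩ := hiso (Localization.Away x) (hunit s₀ d3)
  refine GFG.of_equiv e.symm.toRingEquiv ?_
  have hRn : IsNoetherianRing R := Algebra.FiniteType.isNoetherianRing ℤ R
  have hRr : IsNoetherianRing (Localization.Away r) :=
    IsLocalization.isNoetherianRing (Submonoid.powers r) _ inferInstance
  obtain ⟨B, iB, iAB, hloc, hnoe, hfin⟩ : ∃ (B : Type) (_ : CommRing B)
      (_ : Algebra (Localization.Away r)[X] B)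
      (_ : IsLocalization.Away ((∏ i, G i).map (algebraMap R (Localization.Away r))) B)
      (_ : IsNoetherianRing B), GFG (BQ B (algebraMap (Localization.Away r)[X] B
        ((ga G).map (algebraMap R (Localization.Away r))))
        (algebraMap (Localization.Away r)[X] B ((gb G).map (algebraMap R (Localization.Away r))))
        (algebraMap (Localization.Away r)[X] B ((gc G).map (algebraMap R (Localization.Away r))))
        (algebraMap (Localization.Away r)[X] B
          ((gd G).map (algebraMap R (Localization.Away r))))) := by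
    refine ⟨Localization.Away (∏ i, (G i).map (algebraMap R (Localization.Away r))),
      inferInstance, inferInstance, ?_, ?_, ?_⟩
    · rw [Polynomial.map_prod]
      infer_instance
    · exact IsLocalization.isNoetherianRing (Submonoid.powers
        (∏ i, (G i).map (algebraMap R (Localization.Away r)))) _ inferInstance
    · rw [← ea, ← eb, ← ec, ← ed]
      exact hZ
  obtain ⟨h, hh, hA⟩ := QORD4_glue (Rr := Localization.Away r) (A := Localization.Away x)
    (B := B) r (∏ i, G i) x d5 d6
  let _ : Algebra B (Localization.Away x) := h.toAlgebra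
  obtain ⟨e'⟩ := hBC.2.1 B (Localization.Away x) (algebraMap (Localization.Away r)[X] B
        ((ga G).map (algebraMap R (Localization.Away r))))
        (algebraMap (Localization.Away r)[X] B ((gb G).map (algebraMap R (Localization.Away r))))
        (algebraMap (Localization.Away r)[X] B ((gc G).map (algebraMap R (Localization.Away r))))
        (algebraMap (Localization.Away r)[X] B ((gd G).map (algebraMap R (Localization.Away r))))
  have := QORD4_loc (A := B) (B := Localization.Away x)
    (algebraMap (Localization.Away r)[X] B (x.map (algebraMap R (Localization.Away r)))) e' hfin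
  have e1 := hh (ga G)
  have e2 := hh (gb G)
  have e3 := hh (gc G)
  have e4 := hh (gd G)
  rw [← e1, ← e2, ← e3, ← e4]
  exact this

end Pool.Agent.QTB
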