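import Pool.Agent.QTB.Defs

/-!
# QTB, module REPN: representations over the residue field of a prime element

Proof. `E = FractionRing (A ⧸ (q))` (`(q)` is a prime ideal). `N` is a module over the domain `A ⧸ (q)`; choose a
maximal linearly independent family `e` of it. The operators of `Λ` are matrices in this family:
for `x ∈ Λ` there are `s ∈ A`, `q ∤ s`, and `c i j ∈ A` with `s x e_j = ∑ c i j e_i`,
`ρ(x) i j = φ(c i j) / φ(s)`.
-/

set_option autoImplicit false

namespace Pool.Agent.QTB

open Pool.Agent.QCB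

/-- a maximal linearly independent family -/
theorem REPN_ind {D N : Type} [CommRing D] [IsDomain D] [AddCommGroup N] [Module D N]
    [Module.Finite D N] : ∃ (r : ℕ) (e : Fin r → N), LinearIndependent D e ∧
      ∀ x : N, ∃ (d : D) (g : Fin r → D), d ≠ 0 ∧ d • x = ∑ i, g i • e i := by
  obtain ⟨s, hs, hi⟩ := exists_finset_linearIndependent_of_le_finrank
    (R := D) (M := N) (le_refl (Module.finrank D N))
  let σ : Fin s.card ≃ s := s.equivFin.symm
  refine ⟨s.card, fun i => ((σ i : s) : N), hi.comp σ σ.injective, fun x => ?_⟩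
  have h1 : ¬ LinearIndependent D (Fin.cons x (fun i => ((σ i : s) : N)) : Fin (s.card + 1) → N) := by
    intro h
    have h2 := h.fintype_card_le_finrank
    rw [Fintype.card_fin, hs] at h2
    omega
  rw [Fintype.not_linearIndependent_iff] at h1
  obtain ⟨g, hg, i, hgi⟩ := h1
  rw [Fin.sum_univ_succ] at hg
  simp only [Fin.cons_zero, Fin.cons_succ] at hg
  have h0 : g 0 ≠ 0 := by
    intro h0
    rw [h0, zero_smul, zero_add] at hg
    have h3 := Fintype.linearIndependent_iff.1 (hi.comp σ σ.injective) (fun i => g i.succ) hg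
    revert hgi
    refine Fin.cases (fun h => h h0) (fun j h => h (h3 j)) i
  refine ⟨g 0, fun i => - g i.succ, h0, ?_⟩
  rw [eq_neg_of_add_eq_zero_left hg, ← Finset.sum_neg_distrib]
  refine Finset.sum_congr rfl fun i _ => ?_
  rw [neg_smul]

theorem REPN_A {A N : Type} [CommRing A] [IsDomain A] [AddCommGroup N] [Module A N]
    [Module.Finite A N] (q : A) (hq : Prime q) (hN : ∀ x : N, q • x = 0) :
    ∃ (r : ℕ) (e : Fin r → N), (∀ c : Fin r → A, ∑ i, c i • e i = 0 → ∀ i, q ∣ c i) ∧
      ∃ s : A, ¬ q ∣ s ∧ ∀ x : N, ∃ c : Fin r → A, s • x = ∑ i, c i • e i := by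
  classical
  have hprime : (Ideal.span {q}).IsPrime := (Ideal.span_singleton_prime hq.ne_zero).2 hq
  have hT : Module.IsTorsionBySet A N (Ideal.span {q} : Ideal A) := by
    rw [Module.isTorsionBySet_span_singleton_iff]
    exact fun x => hN x
  let _ : Module (A ⧸ Ideal.span {q}) N := hT.module
  have : IsScalarTower A (A ⧸ Ideal.span {q}) N := hT.isScalarTower
  have : Module.Finite (A ⧸ Ideal.span {q}) N :=
    Module.Finite.of_restrictScalars_finite A (A ⧸ Ideal.span {q}) N
  have : IsDomain (A ⧸ Ideal.span {q}) := Ideal.Quotient.isDomain _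
  obtain ⟨r, e, hi, hx⟩ := REPN_ind (D := A ⧸ Ideal.span {q}) (N := N)
  have hmk : ∀ (a : A) (x : N), (Ideal.Quotient.mk (Ideal.span {q}) a) • x = a • x := fun a x => rfl
  refine ⟨r, e, ?_, ?_⟩
  · intro c hc i
    have h1 := Fintype.linearIndependent_iff.1 hi
      (fun i => Ideal.Quotient.mk (Ideal.span {q}) (c i)) (by
        simp only [hmk]
        exact hc) i
    exact Ideal.mem_span_singleton.1 (Ideal.Quotient.eq_zero_iff_mem.1 h1)
  · -- each element
    have h1 : ∀ x : N, ∃ d : A, ¬ q ∣ d ∧ d • x ∈ Submodule.span A (Set.range e) := by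
      intro x
      obtain ⟨d, g, hd, hg⟩ := hx x
      obtain ⟨d', rfl⟩ := Ideal.Quotient.mk_surjective d
      choose g' hg' using fun i => Ideal.Quotient.mk_surjective (g i)
      refine ⟨d', ?_, ?_⟩
      · intro h2
        exact hd (Ideal.Quotient.eq_zero_iff_mem.2 (Ideal.mem_span_singleton.2 h2))
      · rw [← hmk, hg]
        refine Submodule.sum_mem _ fun i _ => ?_
        rw [← hg' i, hmk]
        exact Submodule.smul_mem _ _ (Submodule.subset_span ⟨i, rfl⟩)
    choose d hd hd' using h1
    obtain ⟨t, ht⟩ := (Module.Finite.fg_top : (⊤ : Submodule A N).FG)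
    refine ⟨∏ x ∈ t, d x, ?_, fun x => ?_⟩
    · rw [Prime.dvd_finsetProd_iff hq]
      rintro ⟨x, _, h2⟩
      exact hd x h2
    · have h2 : x ∈ Submodule.span A (t : Set N) := by
        rw [ht]
        exact Submodule.mem_top
      have h3 : (∏ x ∈ t, d x) • x ∈ Submodule.span A (Set.range e) := by
        induction h2 using Submodule.span_induction with
        | mem y hy =>
          have hy' : y ∈ t := hy
          rw [← Finset.prod_erase_mul t d hy', mul_smul]
          exact Submodule.smul_mem _ _ (hd' y)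
        | zero => rw [smul_zero]; exact Submodule.zero_mem _
        | add y z _ _ h4 h5 => rw [smul_add]; exact Submodule.add_mem _ h4 h5
        | smul a y _ h4 => rw [smul_comm]; exact Submodule.smul_mem _ _ h4
      obtain ⟨c, hc⟩ := (Submodule.mem_span_range_iff_exists_fun A).1 h3
      exact ⟨c, hc.symm⟩

theorem REPN {A Λ : Type} [CommRing A] [IsDomain A] [IsNoetherianRing A] [Ring Λ] [Algebra A Λ]
    [Module.Finite A Λ] (q : A) (hq : Prime q) (N : Type) [AddCommGroup N] [Module Λ N]
    [Module.Finite Λ N] (hN : Kil q N (Λ := Λ)) :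
    ∃ (r : ℕ) (e : Fin r → N), RepAt A Λ q r ∧
      (∀ c : Fin r → A, ∑ i, algebraMap A Λ (c i) • e i = 0 → ∀ i, q ∣ c i) ∧
      ∃ s : A, ¬ q ∣ s ∧ ∀ x : N, ∃ c : Fin r → A,
        algebraMap A Λ s • x = ∑ i, algebraMap A Λ (c i) • e i := by
  classical
  let _ : Module A N := Module.compHom N (algebraMap A Λ)
  have hsm : ∀ (a : A) (x : N), a • x = algebraMap A Λ a • x := fun a x => rfl
  have : IsScalarTower A Λ N := ⟨fun a l x => by
    rw [hsm, Algebra.smul_def, mul_smul]⟩
  have : Module.Finite A N := Module.Finite.trans Λ N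
  obtain ⟨r, e, he, s, hs, hsx⟩ := REPN_A (N := N) q hq (fun x => hN x)
  refine ⟨r, e, ?_, he, s, hs, hsx⟩
  have hprime : (Ideal.span {q}).IsPrime := (Ideal.span_singleton_prime hq.ne_zero).2 hq
  have : IsDomain (A ⧸ Ideal.span {q}) := Ideal.Quotient.isDomain _
  let E := FractionRing (A ⧸ Ideal.span {q})
  let φ : A →+* E := (algebraMap (A ⧸ Ideal.span {q}) E).comp (Ideal.Quotient.mk (Ideal.span {q}))
  have hφ0 : ∀ a : A, φ a = 0 ↔ q ∣ a := by
    intro a
    show algebraMap (A ⧸ Ideal.span {q}) E (Ideal.Quotient.mk (Ideal.span {q}) a) = 0 ↔ _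
    rw [map_eq_zero_iff _ (IsFractionRing.injective (A ⧸ Ideal.span {q}) E),
      Ideal.Quotient.eq_zero_iff_mem, Ideal.mem_span_singleton]
  have hφs : φ s ≠ 0 := fun h => hs ((hφ0 s).1 h)
  have hres : IsRes q φ := by
    constructor
    · ext a
      rw [RingHom.mem_ker, hφ0, Ideal.mem_span_singleton]
    · intro z
      obtain ⟨x, y, hy, hxy⟩ := IsFractionRing.div_surjective (A := A ⧸ Ideal.span {q}) z
      obtain ⟨x', rfl⟩ := Ideal.Quotient.mk_surjective x
      obtain ⟨y', rfl⟩ := Ideal.Quotient.mk_surjective y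
      have hy0 : φ y' ≠ 0 := by
        show algebraMap (A ⧸ Ideal.span {q}) E (Ideal.Quotient.mk (Ideal.span {q}) y') ≠ 0
        rw [Ne, map_eq_zero_iff _ (IsFractionRing.injective (A ⧸ Ideal.span {q}) E)]
        exact nonZeroDivisors.ne_zero hy
      refine ⟨x', y', hy0, ?_⟩
      rw [← hxy]
      exact div_mul_cancel₀ _ hy0
  -- uniqueness
  have huniq : ∀ a b : Fin r → A, ∑ i, a i • e i = ∑ i, b i • e i → ∀ i, φ (a i) = φ (b i) := by
    intro a b hab i
    have h1 := he (fun i => a i - b i) (by
      have h2 : ∑ i, (a i - b i) • e i = 0 := by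
        simp only [sub_smul, Finset.sum_sub_distrib]
        rw [hab, sub_self]
      exact h2) i
    rw [← hφ0, map_sub, sub_eq_zero] at h1
    exact h1
  choose c hc using fun (x : Λ) (j : Fin r) => hsx (x • e j)
  -- `hc x j : s • (x • e j) = ∑ i, c x j i • e i`
  have hc' : ∀ (x : Λ) (j : Fin r), s • (x • e j) = ∑ i, c x j i • e i := hc
  let M : Λ → Matrix (Fin r) (Fin r) E := fun x i j => (φ s)⁻¹ * φ (c x j i)
  have hM : ∀ (x : Λ) (i j : Fin r), M x i j = (φ s)⁻¹ * φ (c x j i) := fun _ _ _ => rfl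
  have hcomm : ∀ (a : A) (x : Λ) (n : N), x • (a • n) = a • (x • n) := by
    intro a x n
    rw [hsm, hsm, ← mul_smul, ← mul_smul, Algebra.commutes]
  have halg : ∀ a : A, M (algebraMap A Λ a) = φ a • 1 := by
    intro a
    ext i j
    have h1 : ∑ i, c (algebraMap A Λ a) j i • e i =
        ∑ i, (if i = j then s * a else 0) • e i := by
      rw [← hc', Finset.sum_eq_single j]
      · rw [if_pos rfl, mul_smul, hsm a]
      · intro b _ hb
        rw [if_neg hb, zero_smul]
      · intro h
        exact absurd (Finset.mem_univ j) h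
    have h2 := huniq _ _ h1 i
    rw [hM, h2, Matrix.smul_apply, Matrix.one_apply, smul_eq_mul]
    by_cases hij : i = j
    · rw [if_pos hij, if_pos hij, map_mul, inv_mul_cancel_left₀ hφs, mul_one]
    · rw [if_neg hij, if_neg hij, map_zero, mul_zero, mul_zero]
  have hadd : ∀ x y : Λ, M (x + y) = M x + M y := by
    intro x y
    ext i j
    have h1 : ∑ i, c (x + y) j i • e i = ∑ i, (c x j i + c y j i) • e i := by
      rw [← hc', add_smul, smul_add, hc', hc', ← Finset.sum_add_distrib]
      refine Finset.sum_congr rfl fun i _ => ?_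
      rw [add_smul]
    have h2 := huniq _ _ h1 i
    rw [hM, h2, Matrix.add_apply, hM, hM, map_add, mul_add]
  have hmul : ∀ x y : Λ, M (x * y) = M x * M y := by
    intro x y
    ext i j
    have h1 : ∑ i, (s * c (x * y) j i) • e i = ∑ i, (∑ k, c y j k * c x k i) • e i := by
      have h3 : ∑ i, (s * c (x * y) j i) • e i = s • (s • ((x * y) • e j)) := by
        rw [hc', Finset.smul_sum]
        refine Finset.sum_congr rfl fun i _ => ?_
        rw [mul_smul]
      have h4 : s • (s • ((x * y) • e j)) = s • (x • (s • (y • e j))) := by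
        rw [hcomm s x, mul_smul]
      rw [h3, h4, hc', Finset.smul_sum, Finset.smul_sum]
      have h5 : ∀ k, s • (x • (c y j k • e k)) = ∑ i, (c y j k * c x k i) • e i := by
        intro k
        rw [hcomm, smul_comm s, hc', Finset.smul_sum]
        refine Finset.sum_congr rfl fun i _ => ?_
        rw [mul_smul]
      simp only [h5, Finset.sum_smul]
      exact Finset.sum_comm
    have h2 := huniq _ _ h1 i
    rw [map_mul, map_sum] at h2
    rw [hM, Matrix.mul_apply]
    simp only [hM]
    have h6 : (φ s)⁻¹ * φ (c (x * y) j i) = (φ s)⁻¹ * (φ s)⁻¹ * (φ s * φ (c (x * y) j i)) := by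
      rw [mul_assoc, inv_mul_cancel_left₀ hφs]
    rw [h6, h2, Finset.mul_sum]
    refine Finset.sum_congr rfl fun k _ => ?_
    rw [map_mul]
    ring
  refine ⟨E, inferInstance, φ, ?_, hres, ?_⟩
  · exact
      { toFun := M
        map_one' := by rw [← map_one (algebraMap A Λ), halg, map_one, one_smul]
        map_mul' := hmul
        map_zero' := by rw [← map_zero (algebraMap A Λ), halg, map_zero, zero_smul]
        map_add' := hadd }
  · exact halg

end Pool.Agent.QTB
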