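import Pool.Agent.QTB.TYPQ
import Pool.Agent.QTB.PRES
import Pool.Agent.QTB.LAGP
import Pool.Agent.QTB.ISOD
import Pool.Agent.QTB.COND
import Pool.Agent.QTB.L6

/-!
# QTB, module TYPE4: split primes have finitely many types

Proof. `V p` = `p` prime, `SplAt … p`, `¬ p ∣ G i` for all `i`. `TYPQ` for `G i`, `ge G i * grest G i ^ 2` and `V`, with the parity `PRES`, gives `τ_i`; `τ` is
the product of the eight (compare `TYPE_and` in QCB/TYPE.lean). Let `τ p = τ p'`, `p`, `p'` not associated, `f = p p'`. `COND` gives the hypotheses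
`hδ`, `h1` of `L6` for `δ = gδ G` over `L = Frac R`, `f.map` is squarefree and coprime to the `δ k` (`TYPE_sqfree`, `TYPE_cop` in QCB/TYPE.lean: constant
primes become units), `LAGP` gives `h3` (an irreducible factor of `f.map` divides the image of `p` or `p'`). `L6` and `ISOD`.
-/

set_option autoImplicit false

namespace Pool.Agent.QTB

open Polynomial Pool.Agent.QCB

theorem TYPE4_gδ {R : Type} [CommRing R] [IsDomain R] (G : Fin 8 → R[X]) (p : R[X])
    (hp : Prime p) (hpG : ∀ i, ¬ p ∣ G i) (k : Fin 6) : ¬ p ∣ gδ G k := by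
  have h3 : ∀ i j l, ¬ p ∣ G i * G j * G l := by
    intro i j l h
    rcases hp.dvd_or_dvd h with h | h
    · rcases hp.dvd_or_dvd h with h | h
      · exact hpG i h
      · exact hpG j h
    · exact hpG l h
  have h2 : ∀ i j, ¬ p ∣ G i * G j := by
    intro i j h
    rcases hp.dvd_or_dvd h with h | h
    · exact hpG i h
    · exact hpG j h
  fin_cases k
  · exact h3 0 6 7
  · exact h3 1 4 5
  · show ¬ p ∣ -(G 0 * G 1)
    rw [dvd_neg]
    exact h2 0 1
  · show ¬ p ∣ -(G 2 * G 5 * G 7)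
    rw [dvd_neg]
    exact h3 2 5 7
  · show ¬ p ∣ -(G 3 * G 4 * G 6)
    rw [dvd_neg]
    exact h3 3 4 6
  · exact h2 2 3

theorem TYPE4 {R : Type} [CommRing R] [IsDomain R] (G : Fin 8 → R[X]) (hD : Dat4 G)
    (hQ : QSys 2 (FractionRing R)) :
    ∃ (n : ℕ) (τ : R[X] → Fin n), ∀ p p' : R[X], Prime p → Prime p' →
      SplAt (ga G) (gb G) (gc G) (gd G) p → SplAt (ga G) (gb G) (gc G) (gd G) p' →
      (∀ i, ¬ p ∣ G i) → (∀ i, ¬ p' ∣ G i) → ¬ Associated p p' → τ p = τ p' →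
      Iso3 (alc (ga G) (gb G) (gc G) (gd G)) (p * p') := by
  have := hD.pid
  have hall := TYPQ_all (P := R[X])
    (V := fun p => Prime p ∧ SplAt (ga G) (gb G) (gc G) (gd G) p ∧ ∀ i, ¬ p ∣ G i)
    (E := fun i p p' => ∀ Q : (FractionRing R)[X], Irreducible Q →
      Q ∣ (G i).map (algebraMap R (FractionRing R)) → ∃ u v : (FractionRing R)[X],
        Q ∣ u ^ 2 - (ge G i * grest G i ^ 2).map (algebraMap R (FractionRing R)) * v ^ 2 -
          (p * p').map (algebraMap R (FractionRing R))) Finset.univ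
    (fun i _ => TYPQ_side hD.two (G i) (ge G i * grest G i ^ 2) (hD.side i) _
      (fun p hp => ⟨hp.1, hp.2.2 i⟩)
      (fun p hp Q a' 𝔮 h1 h2 h3 h4 h5 h6 h7 h8 h9 =>
        PRES hD.two G p hp.1 hp.2.1 hp.2.2 i Q a' 𝔮 h1 h2 h3 h4 h5 h6 h7 h8 h9))
  obtain ⟨n, τ, hτ⟩ := hall
  refine ⟨n, τ, fun p p' hp hp' hs hs' hG hG' has heq => ?_⟩
  have ht := hτ p p' ⟨hp, hs, hG⟩ ⟨hp', hs', hG'⟩ heq
  have hndvd : ¬ p ∣ p' := fun h => has (hp.irreducible.associated_of_dvd hp'.irreducible h)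
  have h2 : (2 : FractionRing R) ≠ 0 := by
    have h3 := hD.two.map (algebraMap R (FractionRing R))
    rw [map_ofNat] at h3
    exact h3.ne_zero
  have hcon := COND G hD
  apply ISOD G hD.ne
  refine L6 h2 (U5.of_sys hQ) _ _ hcon.1 ?_ (fun k => ?_)
    (hcon.2 (p * p') fun i Q hQi hQd => ht i (Finset.mem_univ i) Q hQi hQd) ?_
  · rw [Polynomial.map_mul, squarefree_mul_iff]
    exact ⟨(TYPQ_cop hp hndvd).isRelPrime, TYPQ_sqfree hp, TYPQ_sqfree hp'⟩
  · rw [Polynomial.map_mul]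
    exact IsCoprime.mul_left (TYPQ_cop hp (TYPE4_gδ G p hp hG k))
      (TYPQ_cop hp' (TYPE4_gδ G p' hp' hG' k))
  · intro P hP hPd
    rw [Polynomial.map_mul] at hPd
    rcases hP.prime.dvd_or_dvd hPd with h | h
    · exact LAGP hD.two G p hp hs hG P hP h
    · exact LAGP hD.two G p' hp' hs' hG' P hP h

end Pool.Agent.QTB
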