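import Pool.Agent.QTB.TYPE4
import Pool.Agent.QTB.PNg
import Pool.Agent.QTB.NTg
import Pool.Agent.Q4.StK

/-!
# QTB, module ZFIN4: `G₀` of a biquaternion order over a good surface

Proof (read QCB/ZFIN.lean first, it is the model; its lemmas on localisations are private, copy them). `A = R[X][1/∏ G i]` is a noetherian UFD, `2`, `ga G`,
`gb G`, `gc G`, `gd G` are units. `hSM`: `Sim` for all primes and for `0`. `PNg` is the hypothesis of `FORMg`, whose conclusion is the last hypothesis of
`hKEY`. Anisotropy over `A` follows from `han` (denominators `(∏ G i)^n`). `hiso`: `TS1` gives `QSys 3 K` for `K = FractionRing ((FractionRing R)[X])`, and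
`12 > 8`: the diagonal form `(alc, -q alc)` has a nontrivial zero over `K` (map `A → K`), clear denominators (first to `(FractionRing R)[X]`, then to
`R[X]`). `hKEY` gives `t`. `NTg` gives `t₀`. `H` = closure of `t₀` and all `t q`. The set `{t q}` is finite: `t q = 0` if not `SplAt`; every prime of `A` is
associated to the image of a prime `p` of `R[X]` dividing no `G i`, and `SplAt` over `A` at `q` gives `SplAt` over `R[X]` at `p` (compose `φ : A → E` with
`R[X] → A`). For `p`, `p'` of the same type (`TYPE4`), not associated: `Iso3` over `R[X]`, so over `A` (a linear relation over `A` becomes one over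
`R[X]` after multiplication by a power of `∏ G i`), so `t p = t p'`.
-/

set_option autoImplicit false

namespace Pool.Agent.QTB

open Quaternion QuaternionAlgebra Polynomial Pool.Agent.QCB

section loc

variable {P : Type} [CommRing P] [IsDomain P] {s : P} {A : Type} [CommRing A] [Algebra P A]
  [IsLocalization.Away s A]

private theorem ZFIN4_inj (hs : s ≠ 0) : Function.Injective (algebraMap P A) :=
  IsLocalization.injective A (M := Submonoid.powers s)
    (powers_le_nonZeroDivisors_of_noZeroDivisors hs)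

omit [IsDomain P] in
private theorem ZFIN4_unit : IsUnit (algebraMap P A s) :=
  IsLocalization.map_units (M := Submonoid.powers s) A ⟨s, Submonoid.mem_powers s⟩

omit [IsDomain P] in
private theorem ZFIN4_surj (z : A) : ∃ (n : ℕ) (x : P),
    algebraMap P A x = algebraMap P A s ^ n * z := by
  obtain ⟨⟨x, m⟩, hx⟩ := IsLocalization.surj (Submonoid.powers s) z
  obtain ⟨n, hn⟩ := m.2
  refine ⟨n, x, ?_⟩
  rw [← hx, mul_comm, ← map_pow]
  congr 2
  exact hn.symm

omit [IsDomain P] in
private theorem ZFIN4_surjs {ι : Type} [Fintype ι] (z : ι → A) : ∃ (n : ℕ) (x : ι → P),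
    ∀ i, algebraMap P A (x i) = algebraMap P A s ^ n * z i := by
  classical
  choose n x hx using fun i => ZFIN4_surj (s := s) (z i)
  refine ⟨∑ i, n i, fun i => s ^ (∑ j ∈ Finset.univ.erase i, n j) * x i, fun i => ?_⟩
  rw [map_mul, map_pow, hx i, ← mul_assoc, ← pow_add,
    Finset.sum_erase_add Finset.univ n (Finset.mem_univ i)]

private theorem ZFIN4_dvd (hs : s ≠ 0) {p f : P} (hp : Prime p) (hps : ¬ p ∣ s)
    (h : algebraMap P A p ∣ algebraMap P A f) : p ∣ f := by
  obtain ⟨z, hz⟩ := h
  obtain ⟨n, x, hx⟩ := ZFIN4_surj (s := s) z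
  have h1 : p ∣ s ^ n * f := by
    refine ⟨x, ZFIN4_inj (A := A) hs ?_⟩
    rw [map_mul, map_mul, map_pow, hz, hx]
    ring
  rcases hp.dvd_or_dvd h1 with h2 | h2
  · exact absurd (hp.dvd_of_dvd_pow h2) hps
  · exact h2

private theorem ZFIN4_prime (hs : s ≠ 0) {p : P} (hp : Prime p) (hps : ¬ p ∣ s) :
    Prime (algebraMap P A p) := by
  refine ⟨?_, ?_, ?_⟩
  · intro h
    exact hp.ne_zero (ZFIN4_inj (A := A) hs (h.trans (map_zero _).symm))
  · intro h
    have h1 : algebraMap P A p ∣ algebraMap P A 1 := by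
      rw [map_one]
      exact h.dvd
    exact hp.not_isUnit (isUnit_of_dvd_one (ZFIN4_dvd hs hp hps h1))
  · intro x y hxy
    obtain ⟨n, x', hx⟩ := ZFIN4_surj (s := s) x
    obtain ⟨m, y', hy⟩ := ZFIN4_surj (s := s) y
    have hu : ∀ k : ℕ, IsUnit (algebraMap P A s ^ k) := fun k => (ZFIN4_unit (s := s)).pow k
    have h1 : algebraMap P A p ∣ algebraMap P A (x' * y') := by
      rw [map_mul, hx, hy]
      have e1 : algebraMap P A s ^ n * x * (algebraMap P A s ^ m * y) =
          x * y * (algebraMap P A s ^ n * algebraMap P A s ^ m) := by ring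
      rw [e1]
      exact hxy.mul_right _
    rcases hp.dvd_or_dvd (ZFIN4_dvd hs hp hps h1) with h2 | h2
    · left
      have h3 := map_dvd (algebraMap P A) h2
      rw [hx] at h3
      exact (hu n).dvd_mul_left.1 h3
    · right
      have h3 := map_dvd (algebraMap P A) h2
      rw [hy] at h3
      exact (hu m).dvd_mul_left.1 h3

/-- every prime element of the localisation comes from a prime element -/
private theorem ZFIN4_rep [UniqueFactorizationMonoid P] (hs : s ≠ 0) {q : A} (hq : Prime q) :
    ∃ p : P, Prime p ∧ ¬ p ∣ s ∧ Associated (algebraMap P A p) q := by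
  obtain ⟨n, x, hx⟩ := ZFIN4_surj (s := s) q
  have hu : IsUnit (algebraMap P A s ^ n) := (ZFIN4_unit (s := s)).pow n
  have hxq : Associated (algebraMap P A x) q := by
    rw [hx]
    exact (associated_unit_mul_left q _ hu)
  have hx0 : x ≠ 0 := by
    rintro rfl
    rw [map_zero] at hxq
    exact hq.ne_zero (hxq.symm.eq_zero_iff.2 rfl)
  obtain ⟨f, hf, hfx⟩ := UniqueFactorizationMonoid.exists_prime_factors x hx0
  have h1 : q ∣ (f.map (algebraMap P A)).prod := by
    rw [← map_multiset_prod]
    exact hxq.symm.dvd.trans (map_dvd (algebraMap P A) hfx.symm.dvd)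
  obtain ⟨p', hp', hqp'⟩ := hq.exists_mem_multiset_dvd h1
  obtain ⟨p, hp, rfl⟩ := Multiset.mem_map.1 hp'
  have hps : ¬ p ∣ s := by
    intro h
    refine hq.not_isUnit (isUnit_of_dvd_unit hqp' (isUnit_of_dvd_unit (map_dvd (algebraMap P A) h)
      (ZFIN4_unit (s := s))))
  have : IsDomain A := IsLocalization.isDomain_of_le_nonZeroDivisors A
    (powers_le_nonZeroDivisors_of_noZeroDivisors hs)
  refine ⟨p, hf p hp, hps, ?_⟩
  exact (hq.associated_of_dvd (ZFIN4_prime hs (hf p hp) hps) hqp').symm

omit [IsDomain P] in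
private theorem ZFIN4_alc (a b c d : P) : alc (algebraMap P A a) (algebraMap P A b)
    (algebraMap P A c) (algebraMap P A d) = fun i => algebraMap P A (alc a b c d i) := by
  funext i
  fin_cases i <;> simp [alc]

omit [IsDomain P] in
private theorem ZFIN4_dg {n : ℕ} (δ x y : Fin n → P) :
    dg (fun i => algebraMap P A (δ i)) (fun i => algebraMap P A (x i))
      (fun i => algebraMap P A (y i)) = algebraMap P A (dg δ x y) := by
  unfold dg
  rw [map_sum]
  refine Finset.sum_congr rfl fun i _ => ?_
  rw [map_mul, map_mul]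

private theorem ZFIN4_dgs {P : Type} [CommRing P] {n : ℕ} (δ x y : Fin n → P) (u : P) :
    dg δ (fun i => u * x i) (fun i => u * y i) = u ^ 2 * dg δ x y := by
  unfold dg
  rw [Finset.mul_sum]
  refine Finset.sum_congr rfl fun i _ => ?_
  ring

/-- anisotropy -/
private theorem ZFIN4_an (hs : s ≠ 0) {n : ℕ} (δ : Fin n → P) (h : ∀ x : Fin n → P, dg δ x x = 0 → x = 0)
    (x : Fin n → A) (hx : dg (fun i => algebraMap P A (δ i)) x x = 0) : x = 0 := by
  obtain ⟨n, y, hy⟩ := ZFIN4_surjs (s := s) x
  have h1 : dg δ y y = 0 := by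
    apply ZFIN4_inj (A := A) hs
    rw [← ZFIN4_dg, funext hy, ZFIN4_dgs, hx, mul_zero, map_zero]
  have h2 := h y h1
  funext i
  have h3 := hy i
  rw [h2] at h3
  have h4 : algebraMap P A s ^ n * x i = 0 := by
    rw [← h3]
    exact map_zero _
  exact (((ZFIN4_unit (s := s)).pow n).mul_right_eq_zero).1 h4

/-- isotropic subspaces -/
private theorem ZFIN4_iso3 (hs : s ≠ 0) {n : ℕ} (δ : Fin n → P) (f : P) (h : Iso3 δ f) :
    Iso3 (fun i => algebraMap P A (δ i)) (algebraMap P A f) := by
  obtain ⟨x, y, h1, h2⟩ := h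
  refine ⟨fun i k => algebraMap P A (x i k), fun i k => algebraMap P A (y i k), fun i j => ?_, ?_⟩
  · rw [ZFIN4_dg, ZFIN4_dg, h1, map_mul]
  · intro r hr1 hr2
    obtain ⟨N, r', hr'⟩ := ZFIN4_surjs (s := s) r
    have key : ∀ z : Fin 3 → Fin n → P, ∑ i, r i • (fun k => algebraMap P A (z i k)) = 0 →
        ∑ i, r' i • z i = 0 := by
      intro z hz
      funext k
      apply ZFIN4_inj (A := A) hs
      have h3 := congrFun hz k
      rw [Finset.sum_apply] at h3 ⊢
      rw [map_sum]
      have h4 : ∑ i, algebraMap P A ((r' i • z i) k) =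
          algebraMap P A s ^ N * ∑ i, (r i • (fun k => algebraMap P A (z i k))) k := by
        rw [Finset.mul_sum]
        refine Finset.sum_congr rfl fun i _ => ?_
        show algebraMap P A (r' i * z i k) = algebraMap P A s ^ N * (r i * algebraMap P A (z i k))
        rw [map_mul, hr']
        ring
      rw [h4, h3]
      simp
    have h5 := h2 r' (key x hr1) (key y hr2)
    funext i
    have h6 := hr' i
    rw [h5] at h6
    have h7 : algebraMap P A s ^ N * r i = 0 := by
      rw [← h6]
      exact map_zero _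
    exact (((ZFIN4_unit (s := s)).pow N).mul_right_eq_zero).1 h7

/-- split primes -/
private theorem ZFIN4_spl (hs : s ≠ 0) {a b c d p : P} {q : A} (hp : Prime p) (hps : ¬ p ∣ s)
    (hpq : Associated (algebraMap P A p) q)
    (h : SplAt (algebraMap P A a) (algebraMap P A b) (algebraMap P A c) (algebraMap P A d) q) :
    SplAt a b c d p := by
  obtain ⟨E, hE, φ, ⟨h1, h2⟩, h3⟩ := h
  refine ⟨E, hE, φ.comp (algebraMap P A), ⟨?_, ?_⟩, h3⟩
  · ext f
    rw [RingHom.mem_ker, RingHom.comp_apply, ← RingHom.mem_ker, h1, Ideal.mem_span_singleton,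
      Ideal.mem_span_singleton]
    constructor
    · intro h4
      exact ZFIN4_dvd (A := A) hs hp hps (hpq.dvd.trans h4)
    · intro h4
      exact hpq.symm.dvd.trans (map_dvd (algebraMap P A) h4)
  · intro z
    obtain ⟨x, y, hy, hz⟩ := h2 z
    obtain ⟨n, w, hw⟩ := ZFIN4_surjs (s := s) ![x, y]
    have hw0 : algebraMap P A (w 0) = algebraMap P A s ^ n * x := hw 0
    have hw1 : algebraMap P A (w 1) = algebraMap P A s ^ n * y := hw 1
    have hu : IsUnit (φ (algebraMap P A s ^ n)) := ((ZFIN4_unit (s := s)).pow n).map φ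
    refine ⟨w 0, w 1, ?_, ?_⟩
    · rw [RingHom.comp_apply, hw1, map_mul]
      exact mul_ne_zero hu.ne_zero hy
    · rw [RingHom.comp_apply, RingHom.comp_apply, hw0, hw1, map_mul, map_mul, ← hz]
      ring

end loc

/-! ### a nontrivial zero -/

private theorem ZFIN4_fin {m : ℕ} {F : Type} [Field F] (h : QSys m F) {ι : Type} [Fintype ι]
    (δ : ι → F) (hc : 2 ^ m < Fintype.card ι) :
    ∃ x : ι → F, x ≠ 0 ∧ ∑ i, δ i * (x i * x i) = 0 := by
  classical
  let e := Fintype.equivFin ι
  obtain ⟨x, hx, h1⟩ := h 1 _ (fun _ => Matrix.diagonal fun i => δ (e.symm i)) (by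
    rw [mul_one]
    exact hc)
  refine ⟨fun i => x (e i), ?_, ?_⟩
  · intro h2
    apply hx
    funext i
    have h3 := congrFun h2 (e.symm i)
    simpa using h3
  · have h2 := h1 0
    simp only [dotProduct, Matrix.mulVec_diagonal] at h2
    rw [← h2, ← e.symm.sum_comp]
    refine Finset.sum_congr rfl fun i _ => ?_
    show δ (e.symm i) * (x (e (e.symm i)) * x (e (e.symm i))) = x i * (δ (e.symm i) * x i)
    rw [e.apply_symm_apply]
    ring

private theorem ZFIN4_frac {R : Type} [CommRing R] [IsDomain R] {F K : Type} [Field F] [Field K]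
    [Algebra R F] [IsFractionRing R F] [Algebra F[X] K] [IsFractionRing F[X] K] {ι : Type}
    [Fintype ι] (z : ι → K) : ∃ (m : R[X]) (v : ι → R[X]), m ≠ 0 ∧
      ∀ i, algebraMap F[X] K ((v i).map (algebraMap R F)) =
        algebraMap F[X] K (m.map (algebraMap R F)) * z i := by
  classical
  have hinj : Function.Injective (Polynomial.map (algebraMap R F)) :=
    Polynomial.map_injective _ (IsFractionRing.injective R F)
  have key : ∀ w : K, ∃ (m v : R[X]), m ≠ 0 ∧ algebraMap F[X] K (v.map (algebraMap R F)) =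
      algebraMap F[X] K (m.map (algebraMap R F)) * w := by
    intro w
    obtain ⟨u1, u2, hu2, rfl⟩ := IsFractionRing.div_surjective (A := F[X]) w
    obtain ⟨c1, hc1, h1⟩ := IsLocalization.integerNormalization_spec (nonZeroDivisors R) u1
    obtain ⟨c2, hc2, h2⟩ := IsLocalization.integerNormalization_spec (nonZeroDivisors R) u2
    have hu20 : u2 ≠ 0 := nonZeroDivisors.ne_zero hu2
    have hu2K : algebraMap F[X] K u2 ≠ 0 := by
      rw [Ne, FaithfulSMul.algebraMap_eq_zero_iff]
      exact hu20
    have hsm : ∀ (c : R) (u : F[X]), c • u = C (algebraMap R F c) * u := by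
      intro c u
      rw [← Polynomial.smul_eq_C_mul, algebraMap_smul]
    refine ⟨C c1 * IsLocalization.integerNormalization (nonZeroDivisors R) u2,
      C c2 * IsLocalization.integerNormalization (nonZeroDivisors R) u1, ?_, ?_⟩
    · intro h3
      rw [mul_eq_zero] at h3
      rcases h3 with h3 | h3
      · rw [Polynomial.C_eq_zero] at h3
        exact nonZeroDivisors.ne_zero hc1 h3
      · rw [h3, Polynomial.map_zero, hsm, eq_comm, mul_eq_zero, Polynomial.C_eq_zero] at h2
        rcases h2 with h2 | h2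
        · rw [FaithfulSMul.algebraMap_eq_zero_iff] at h2
          exact nonZeroDivisors.ne_zero hc2 h2
        · exact hu20 h2
    · rw [Polynomial.map_mul, Polynomial.map_mul, h1, h2, hsm, hsm, Polynomial.map_C,
        Polynomial.map_C]
      simp only [map_mul]
      field_simp
  choose m v hm hv using fun i => key (z i)
  refine ⟨∏ i, m i, fun i => (∏ j ∈ Finset.univ.erase i, m j) * v i,
    Finset.prod_ne_zero_iff.2 fun i _ => hm i, fun i => ?_⟩
  rw [Polynomial.map_mul, map_mul, hv i, ← mul_assoc, ← map_mul, ← Polynomial.map_mul,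
    Finset.prod_erase_mul Finset.univ m (Finset.mem_univ i)]

private theorem ZFIN4_iso {R : Type} [CommRing R] [IsDomain R] (hQ : QSys 2 (FractionRing R))
    (δ : Fin 6 → R[X]) (q : R[X]) :
    ∃ x y : Fin 6 → R[X], (x ≠ 0 ∨ y ≠ 0) ∧ dg δ x x = q * dg δ y y := by
  let F := FractionRing R
  let K := FractionRing F[X]
  have h3 : QSys 3 K := TS1 (F := F) 2 hQ
  let f : R[X] →+* K := (algebraMap F[X] K).comp (Polynomial.mapRingHom (algebraMap R F))
  have hf : Function.Injective f :=
    (IsFractionRing.injective F[X] K).comp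
      (Polynomial.map_injective _ (IsFractionRing.injective R F))
  obtain ⟨z, hz, hz1⟩ := ZFIN4_fin h3 (ι := Fin 6 ⊕ Fin 6)
    (Sum.elim (fun i => f (δ i)) fun i => -(f q * f (δ i))) (by
      rw [Fintype.card_sum, Fintype.card_fin]
      norm_num)
  obtain ⟨m, v, hm, hv⟩ := ZFIN4_frac (R := R) (F := F) z
  have hv' : ∀ i, f (v i) = f m * z i := hv
  have hfm : f m ≠ 0 := fun h => hm (hf (h.trans (map_zero f).symm))
  refine ⟨fun i => v (Sum.inl i), fun i => v (Sum.inr i), ?_, ?_⟩
  · by_contra hcon
    push Not at hcon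
    apply hz
    funext i
    have h4 : f (v i) = 0 := by
      rcases i with i | i
      · have := congrFun hcon.1 i
        simp only [Pi.zero_apply] at this
        rw [this, map_zero]
      · have := congrFun hcon.2 i
        simp only [Pi.zero_apply] at this
        rw [this, map_zero]
    rw [hv'] at h4
    exact (mul_eq_zero.1 h4).resolve_left hfm
  · apply hf
    rw [Fintype.sum_sum_type] at hz1
    simp only [Sum.elim_inl, Sum.elim_inr] at hz1
    have e1 : f (dg δ (fun i => v (Sum.inl i)) fun i => v (Sum.inl i)) =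
        f m ^ 2 * ∑ i, f (δ i) * (z (Sum.inl i) * z (Sum.inl i)) := by
      unfold dg
      rw [map_sum, Finset.mul_sum]
      refine Finset.sum_congr rfl fun i _ => ?_
      rw [map_mul, map_mul, hv']
      ring
    have e2 : f (q * dg δ (fun i => v (Sum.inr i)) fun i => v (Sum.inr i)) =
        f m ^ 2 * -∑ i, -(f q * f (δ i)) * (z (Sum.inr i) * z (Sum.inr i)) := by
      unfold dg
      rw [map_mul, map_sum, Finset.mul_sum, ← Finset.sum_neg_distrib, Finset.mul_sum]
      refine Finset.sum_congr rfl fun i _ => ?_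
      rw [map_mul, map_mul, hv']
      ring
    rw [e1, e2, eq_neg_of_add_eq_zero_left hz1]

theorem ZFIN4 (hKEY : Q4.St_KEY) (hSL : Q4.St_SLOT) (hSM : Q4.St_SIMQ) {R : Type} [CommRing R]
    [IsDomain R] (G : Fin 8 → R[X]) (hD : Dat4 G) (hQ : QSys 2 (FractionRing R))
    (han : ∀ x : Fin 6 → R[X], dg (alc (ga G) (gb G) (gc G) (gd G)) x x = 0 → x = 0) :
    GFG (BQ (Localization.Away (∏ i, G i)) (algebraMap R[X] (Localization.Away (∏ i, G i)) (ga G))
      (algebraMap R[X] (Localization.Away (∏ i, G i)) (gb G))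
      (algebraMap R[X] (Localization.Away (∏ i, G i)) (gc G))
      (algebraMap R[X] (Localization.Away (∏ i, G i)) (gd G))) := by
  classical
  have := hD.pid
  obtain ⟨s, hsd⟩ : ∃ s : R[X], s = ∏ i, G i := ⟨_, rfl⟩
  rw [← hsd]
  have hs : s ≠ 0 := by
    rw [hsd]
    exact Finset.prod_ne_zero_iff.2 fun i _ => hD.ne i
  have hGs : ∀ i, G i ∣ s := fun i => by
    rw [hsd]
    exact Finset.dvd_prod_of_mem G (Finset.mem_univ i)
  have : IsDomain (Localization.Away s) :=
    IsLocalization.isDomain_of_le_nonZeroDivisors _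
      (powers_le_nonZeroDivisors_of_noZeroDivisors hs)
  have : IsNoetherianRing (Localization.Away s) :=
    IsLocalization.isNoetherianRing (Submonoid.powers s) _ inferInstance
  have : UniqueFactorizationMonoid (Localization.Away s) := inferInstance
  have hu : IsUnit (algebraMap R[X] (Localization.Away s) s) := ZFIN4_unit (s := s)
  have hGu : ∀ i, IsUnit (algebraMap R[X] (Localization.Away s) (G i)) := fun i =>
    isUnit_of_dvd_unit (map_dvd _ (hGs i)) hu
  have hua : IsUnit (algebraMap R[X] (Localization.Away s) (ga G)) := by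
    unfold ga
    rw [map_mul, map_mul]
    exact ((hGu 0).mul (hGu 4)).mul (hGu 5)
  have hub : IsUnit (algebraMap R[X] (Localization.Away s) (gb G)) := by
    unfold gb
    rw [map_mul, map_mul]
    exact ((hGu 1).mul (hGu 6)).mul (hGu 7)
  have huc : IsUnit (algebraMap R[X] (Localization.Away s) (gc G)) := by
    unfold gc
    rw [map_mul, map_mul]
    exact ((hGu 2).mul (hGu 4)).mul (hGu 6)
  have hud : IsUnit (algebraMap R[X] (Localization.Away s) (gd G)) := by
    unfold gd
    rw [map_mul, map_mul]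
    exact ((hGu 3).mul (hGu 5)).mul (hGu 7)
  have h2 : IsUnit (2 : Localization.Away s) := by
    have h3 := (hD.two.map (C : R →+* R[X])).map (algebraMap R[X] (Localization.Away s))
    rwa [map_ofNat, map_ofNat] at h3
  obtain ⟨a, had⟩ : ∃ a, a = algebraMap R[X] (Localization.Away s) (ga G) := ⟨_, rfl⟩
  obtain ⟨b, hbd⟩ : ∃ b, b = algebraMap R[X] (Localization.Away s) (gb G) := ⟨_, rfl⟩
  obtain ⟨c, hcd⟩ : ∃ c, c = algebraMap R[X] (Localization.Away s) (gc G) := ⟨_, rfl⟩
  obtain ⟨d, hdd⟩ : ∃ d, d = algebraMap R[X] (Localization.Away s) (gd G) := ⟨_, rfl⟩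
  have halc : alc a b c d = fun i => algebraMap R[X] (Localization.Away s)
      (alc (ga G) (gb G) (gc G) (gd G) i) := by
    rw [had, hbd, hcd, hdd]
    exact ZFIN4_alc _ _ _ _
  have hspl : ∀ (p : R[X]) (q : Localization.Away s), Prime p → ¬ p ∣ s →
      Associated (algebraMap R[X] (Localization.Away s) p) q → SplAt a b c d q →
      SplAt (ga G) (gb G) (gc G) (gd G) p := by
    intro p q hp hps hpq h
    rw [had, hbd, hcd, hdd] at h
    exact ZFIN4_spl hs hp hps hpq h
  rw [← had] at hua ⊢
  rw [← hbd] at hub ⊢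
  rw [← hcd] at huc ⊢
  rw [← hdd] at hud ⊢
  have : Nontrivial (BQ (Localization.Away s) a b c d) :=
    ⟨⟨bas a b c d (0, 0), 0, (bas a b c d).ne_zero (0, 0)⟩⟩
  intro Γ _ ψ
  have hform := FORMg (A := Localization.Away s) (Λ := BQ (Localization.Away s) a b c d)
    (fun q hq => hSM _ a b c d q h2 hua hub huc hud (Or.inl hq)) ψ
    (fun N _ _ _ hN => PNg hSL hSM hD.fin hD.two s hs hua hub huc hud ψ N hN)
  obtain ⟨t, hta, ht2, htn, hti, htc⟩ := hKEY (Localization.Away s) a b c d h2 hua hub huc hud
    (by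
      intro x hx
      rw [halc] at hx
      exact ZFIN4_an hs _ han x hx)
    (by
      intro q hq
      obtain ⟨n, q', hq'⟩ := ZFIN4_surj (s := s) q
      obtain ⟨x, y, hxy, h4⟩ := ZFIN4_iso hQ (alc (ga G) (gb G) (gc G) (gd G)) (s ^ n * q')
      refine ⟨fun i => algebraMap R[X] _ (x i),
        fun i => algebraMap R[X] _ s ^ n * algebraMap R[X] _ (y i), ?_, ?_⟩
      · have key : ∀ w : Fin 6 → R[X], w ≠ 0 →
            (fun i => algebraMap R[X] (Localization.Away s) (w i)) ≠ 0 := by
          intro w hw h5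
          apply hw
          funext i
          exact ZFIN4_inj (A := Localization.Away s) hs
            ((congrFun h5 i).trans (map_zero _).symm)
        rcases hxy with h5 | h5
        · exact Or.inl (key x h5)
        · refine Or.inr fun h6 => key y h5 ?_
          funext i
          have h7 := congrFun h6 i
          exact ((((ZFIN4_unit (s := s)).pow n).mul_right_eq_zero).1 h7)
      · rw [halc, ZFIN4_dg, h4, ZFIN4_dgs, ZFIN4_dg, map_mul, map_mul, map_pow, hq']
        ring) Γ ψ hform
  obtain ⟨t0, ht0⟩ := NTg (A := Localization.Away s) (Λ := BQ (Localization.Away s) a b c d)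
    (hSM _ a b c d 0 h2 hua hub huc hud (Or.inr rfl)) ψ
  obtain ⟨n, τ, hτ⟩ := TYPE4 G hD hQ
  -- the good primes
  set V : R[X] → Prop := fun p => Prime p ∧ SplAt (ga G) (gb G) (gc G) (gd G) p ∧ ¬ p ∣ s with hV
  have hVG : ∀ p, V p → ∀ i, ¬ p ∣ G i := fun p hp i h => hp.2.2 (h.trans (hGs i))
  have hVt : ∀ p p' : R[X], V p → V p' → τ p = τ p' →
      t (algebraMap R[X] (Localization.Away s) p) =
        t (algebraMap R[X] (Localization.Away s) p') := by
    intro p p' hp hp' hpp
    by_cases has : Associated p p'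
    · exact hta _ _ (has.map (algebraMap R[X] (Localization.Away s)))
    · have h4 := hτ p p' hp.1 hp'.1 hp.2.1 hp'.2.1 (hVG p hp) (hVG p' hp') has hpp
      have h5 := ZFIN4_iso3 (A := Localization.Away s) hs _ _ h4
      rw [← halc, map_mul] at h5
      exact hti _ _ (ZFIN4_prime hs hp.1 hp.2.2) (ZFIN4_prime hs hp'.1 hp'.2.2) h5
  -- the finite set
  have hrep : ∀ i : Fin n, ∃ p : R[X], ∀ p', V p' → τ p' = i →
      t (algebraMap R[X] (Localization.Away s) p') =
        t (algebraMap R[X] (Localization.Away s) p) := by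
    intro i
    by_cases h : ∃ p, V p ∧ τ p = i
    · obtain ⟨p, hp, hpi⟩ := h
      exact ⟨p, fun p' hp' hi => hVt p' p hp' hp (hi.trans hpi.symm)⟩
    · exact ⟨0, fun p' hp' hi => absurd ⟨p', hp', hi⟩ h⟩
  choose r hr using hrep
  have hfin : (t '' {q | Prime q}).Finite := by
    have hfs : (insert (0 : Γ)
        (Set.range fun i => t (algebraMap R[X] (Localization.Away s) (r i)))).Finite :=
      (Set.finite_range _).insert _
    refine hfs.subset ?_
    rintro _ ⟨q, hq, rfl⟩
    by_cases hS : SplAt a b c d q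
    · obtain ⟨p, hp, hps, hpq⟩ := ZFIN4_rep hs hq
      rw [← hta _ _ hpq]
      refine Or.inr ⟨τ p, ?_⟩
      exact (hr (τ p) p ⟨hp, hspl p q hp hps hpq hS, hps⟩ rfl).symm
    · exact Or.inl (htn q hq hS)
  refine ⟨AddSubgroup.closure (insert t0 (t '' {q | Prime q})), ?_, ?_⟩
  · exact (AddSubgroup.fg_iff _).2 ⟨_, rfl, hfin.insert _⟩
  · refine ht0 _ (AddSubgroup.subset_closure (Set.mem_insert _ _)) ?_
    intro N _ _ _ hN
    exact AddSubgroup.closure_mono (Set.subset_insert _ _) (htc N hN)

end Pool.Agent.QTB
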